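import Pool.Agent.N890.KO.Stm

/-!
Project KO (helper890), APM: approximation over the finite extensions of `k`.
Lean proof: helper768.
-/

set_option autoImplicit false

namespace Pool.Agent.N890.KO.APM

open Pool.Agent.N890.KO Polynomial IntermediateField

section

variable {k B Ω : Type} [Field k] [Field B] [Field Ω] [Algebra k B] [IsAlgClosure k B]

theorem isAlgClosure (M : IntermediateField k B) : IsAlgClosure M B := by
  have h1 : Algebra.IsAlgebraic k B := IsAlgClosure.isAlgebraic
  have h2 : Algebra.IsAlgebraic M B := Algebra.IsAlgebraic.tower_top (K := k) M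
  exact ⟨IsAlgClosure.isAlgClosed k, h2⟩

/-- the action of the Galois group of `M` -/
theorem act {e : B →+* Ω} {s : (B ≃ₐ[k] B) →* (Ω ≃+* Ω)} (h : Act e s)
    (M : IntermediateField k B) : Act (k := M) e (s.comp (resM M)) := by
  constructor
  · intro τ y
    exact h.eq (resM M τ) y
  · intro y
    obtain ⟨M', hM', hy⟩ := h.cont y
    obtain ⟨S, hS⟩ : (Subalgebra.toSubmodule M'.toSubalgebra).FG :=
      (Submodule.fg_iff_finiteDimensional _).2 hM'
    have h1 : Algebra.IsAlgebraic k B := IsAlgClosure.isAlgebraic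
    have h2 : Algebra.IsAlgebraic M B := Algebra.IsAlgebraic.tower_top (K := k) M
    refine ⟨IntermediateField.adjoin M (S : Set B), ?_, ?_⟩
    · exact IntermediateField.finiteDimensional_adjoin fun x _ =>
        (Algebra.IsAlgebraic.isAlgebraic x).isIntegral
    · intro τ hτ
      refine hy (resM M τ) fun x hx => ?_
      have hx' : x ∈ Submodule.span k (S : Set B) := by
        rw [hS]
        exact hx
      have h3 : ∀ z ∈ Submodule.span k (S : Set B), τ z = z := by
        intro z hz
        refine Submodule.span_induction (p := fun z _ => τ z = z) ?_ ?_ ?_ ?_ hz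
        · intro z hz
          exact hτ z (IntermediateField.subset_adjoin _ _ hz)
        · exact map_zero τ
        · intro a b _ _ ha hb
          rw [map_add, ha, hb]
        · intro c a _ ha
          have h4 : resM M τ (c • a) = c • resM M τ a := map_smul _ _ _
          exact h4.trans (congrArg (c • ·) ha)
      exact h3 x hx'

/-- elements of equal absolute value have equal valuations -/
theorem val_eq {e : B →+* Ω} {v : AbsoluteValue B ℝ} {O : ValuationSubring Ω}
    (hO : ∀ b : B, e b ∈ O ↔ v b ≤ 1) {a b : B} (hb : b ≠ 0) (h : v a = v b) :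
    O.valuation (e a) = O.valuation (e b) := by
  have hvb : v b ≠ 0 := (v.ne_zero_iff).2 hb
  have ha : a ≠ 0 := by
    rintro rfl
    rw [map_zero] at h
    exact hvb h.symm
  have h1 : O.valuation (e (a / b)) ≤ 1 := by
    rw [O.valuation_le_one_iff, hO, map_div₀, h, div_self hvb]
  have h2 : O.valuation (e (b / a)) ≤ 1 := by
    rw [O.valuation_le_one_iff, hO, map_div₀, h, div_self hvb]
  have h3 : O.valuation (e a) ≤ O.valuation (e b) := by
    have h4 : e a = e (a / b) * e b := by rw [← map_mul, div_mul_cancel₀ _ hb]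
    rw [h4, map_mul]
    exact mul_le_of_le_one_left' h1
  have h5 : O.valuation (e b) ≤ O.valuation (e a) := by
    have h4 : e b = e (b / a) * e a := by rw [← map_mul, div_mul_cancel₀ _ ha]
    rw [h4, map_mul]
    exact mul_le_of_le_one_left' h2
  exact le_antisymm h3 h5

end

theorem t_APM : S_APP → S_BASE → S_APM := by
  intro hAPP hBASE k B Ω _ _ _ _ _ _ _ e s hact v p π hgood O hOinv hO M hM n y hy hyO
  obtain ⟨ϖ, hϖ⟩ := hBASE k B v p π hgood M hM
  have hac : IsAlgClosure M B := isAlgClosure M
  have hcz : CharZero M := charZero_of_injective_algebraMap (algebraMap k M).injective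
  -- the exponent
  have hπ0 : (algebraMap k B π) ≠ 0 := by
    rw [Ne, map_eq_zero]
    exact hgood.pi0
  have hϖ0 : (algebraMap M B ϖ) ≠ 0 := by
    rw [Ne, map_eq_zero]
    exact hϖ.pi0
  have hvϖ : 0 < v (algebraMap M B ϖ) := v.pos hϖ0
  obtain ⟨E, hE⟩ := hϖ.disc (algebraMap k M π) (by
    rw [Ne, map_eq_zero]
    exact hgood.pi0)
  have hE' : v (algebraMap k B π) = v (algebraMap M B ϖ) ^ E := hE
  have hEpos : 0 < E := by
    by_contra hcon
    push Not at hcon
    have h1 : 1 ≤ v (algebraMap M B ϖ) ^ E :=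
      one_le_zpow_of_nonpos₀ hvϖ hϖ.pi1.le hcon
    have h2 := hgood.pi1
    rw [hE'] at h2
    exact absurd h1 (not_le.2 h2)
  obtain ⟨E', rfl⟩ := Int.eq_ofNat_of_zero_le hEpos.le
  rw [zpow_natCast, ← map_pow] at hE'
  have hval : O.valuation (e (algebraMap k B π)) = O.valuation (e (algebraMap M B ϖ)) ^ E' := by
    rw [val_eq hO (pow_ne_zero _ hϖ0) hE', map_pow, map_pow]
  obtain ⟨a, ha1, ha2⟩ := hAPP M B Ω e (s.comp (resM M)) (act hact M) v p ϖ hϖ O
    (fun τ y hy => hOinv (resM M τ) y hy) hO (E' * n) y hy hyO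
  refine ⟨algebraMap M B a, a.2, ha1, ?_⟩
  rw [hval, ← pow_mul]
  exact ha2

end Pool.Agent.N890.KO.APM
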