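import Pool.Agent.N890.KO.Stm

/-!
Project KO (helper890), leaf APP (helper482): approximation of the elements of `L` by elements
of `k`.
-/

set_option autoImplicit false

namespace Pool.Agent.N890.KO.APP

open Polynomial IntermediateField
open Pool.Agent.N890.KO

/-! ### valuations of valuation subrings -/

section val

variable {K : Type} [Field K] (A : ValuationSubring K)

theorem le_iff {x y : K} (hy : y ≠ 0) : A.valuation x ≤ A.valuation y ↔ x / y ∈ A := by
  have h0 : 0 < A.valuation y := by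
    rw [zero_lt_iff]
    exact (Valuation.ne_zero_iff _).2 hy
  rw [← A.valuation_le_one_iff, map_div₀, div_le_one₀ h0]

theorem non_iff {x : K} (hx : x ≠ 0) : x ∈ A.nonunits ↔ x⁻¹ ∉ A := by
  rw [ValuationSubring.mem_nonunits_iff, ← not_le, ← map_one A.valuation, le_iff A hx, one_div]

theorem val_one {x : K} (hx : x ≠ 0) (h1 : x ∈ A) (h2 : x⁻¹ ∈ A) : A.valuation x = 1 := by
  refine le_antisymm ((A.valuation_le_one_iff x).2 h1) ?_
  rw [← map_one A.valuation, le_iff A hx, one_div]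
  exact h2

end val

section main

variable {k B Ω : Type} [Field k] [Field B] [Field Ω] [Algebra k B] [CharZero k]

theorem fix {e : B →+* Ω} {s : (B ≃ₐ[k] B) →* (Ω ≃+* Ω)} (h : Act e s) (c : k) :
    e (algebraMap k B c) ∈ FxF s := by
  intro τ
  rw [h.eq, AlgEquiv.commutes]

/-- the embedding of `k` in the fixed field -/
def emb {e : B →+* Ω} {s : (B ≃ₐ[k] B) →* (Ω ≃+* Ω)} (h : Act e s) : k →+* FxF s :=
  (e.comp (algebraMap k B)).codRestrict (FxF s) (fix h)

theorem emb_coe {e : B →+* Ω} {s : (B ≃ₐ[k] B) →* (Ω ≃+* Ω)} (h : Act e s) (c : k) :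
    ((emb h c : FxF s) : Ω) = e (algebraMap k B c) := rfl

theorem v_pos {v : AbsoluteValue B ℝ} {c : k} (hc : c ≠ 0) : 0 < v (algebraMap k B c) :=
  v.pos (by
    rw [Ne, map_eq_zero]
    exact hc)

theorem p_div {v : AbsoluteValue B ℝ} {p : ℕ} {π : k} (hg : Good v p π) :
    v (algebraMap k B ((p : k) / π)) ≤ 1 := by
  have hp0 : (p : k) ≠ 0 := by exact_mod_cast hg.prime.ne_zero
  obtain ⟨j, hj⟩ := hg.disc p hp0
  have hπ0 : 0 < v (algebraMap k B π) := v_pos hg.pi0
  have hp1 : v (algebraMap k B (p : k)) < 1 := by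
    rw [map_natCast]
    exact hg.p1
  have hj1 : 1 ≤ j := by
    by_contra hcon
    push Not at hcon
    have h1 : (1 : ℝ) ≤ v (algebraMap k B π) ^ j := by
      have h2 : j = -((-j).toNat : ℤ) := by omega
      rw [h2, zpow_neg, zpow_natCast]
      exact (one_le_inv₀ (pow_pos hπ0 _)).2 (pow_le_one₀ hπ0.le hg.pi1.le)
    rw [← hj] at h1
    linarith
  rw [map_div₀, map_div₀, hj, div_le_one hπ0]
  obtain ⟨m, hm⟩ : ∃ m : ℕ, j = m + 1 := ⟨(j - 1).toNat, by omega⟩
  rw [hm, zpow_add₀ hπ0.ne', zpow_natCast, zpow_one]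
  exact mul_le_of_le_one_left hπ0.le (pow_le_one₀ hπ0.le hg.pi1.le)

/-- the first step of the approximation -/
theorem step [IsAlgClosure k B] [IsAlgClosed Ω] (h1 : S_CASE1) (h2 : S_CASE2) (h3 : S_BEX)
    (h4 : S_KUM) (h5 : S_FINP) {e : B →+* Ω} {s : (B ≃ₐ[k] B) →* (Ω ≃+* Ω)} (h : Act e s)
    {v : AbsoluteValue B ℝ} {p : ℕ} {π : k} (hg : Good v p π) {O : ValuationSubring Ω}
    (hO : ∀ τ y, y ∈ O → s τ y ∈ O) (hB : ∀ b : B, e b ∈ O ↔ v b ≤ 1) {x : Ω}
    (hx : x ∈ FxF s) (hxO : x ∈ O) :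
    ∃ a : k, v (algebraMap k B a) ≤ 1 ∧ (x - e (algebraMap k B a)) / e (algebraMap k B π) ∈ O := by
  obtain ⟨A, hA⟩ : ∃ A : ValuationSubring (FxF s), A = O.comap (FxF s).subtype := ⟨_, rfl⟩
  have hAm : ∀ y : FxF s, y ∈ A ↔ (y : Ω) ∈ O := by
    intro y
    rw [hA]
    exact ValuationSubring.mem_comap
  have hAk : ∀ c : k, emb h c ∈ A ↔ v (algebraMap k B c) ≤ 1 := by
    intro c
    rw [hAm, emb_coe, hB]
  have hAn : ∀ y : FxF s, y ∈ A.nonunits → (y : Ω) ∈ O.nonunits := by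
    intro y hy
    by_cases hy0 : y = 0
    · rw [hy0, ValuationSubring.mem_nonunits_iff]
      simp
    · rw [non_iff A hy0, hAm] at hy
      have hy1 : (y : Ω) ≠ 0 := fun h => hy0 (Subtype.ext h)
      rw [non_iff O hy1]
      exact hy
  have hchar : CharZero (FxF s) := charZero_of_injective_ringHom (emb h).injective
  have hπ0 : emb h π ≠ 0 := by
    rw [Ne, map_eq_zero]
    exact hg.pi0
  have hπv : 0 < v (algebraMap k B π) := v_pos hg.pi0
  have hπn : emb h π ∈ A.nonunits := by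
    rw [non_iff A hπ0, ← map_inv₀, hAk, map_inv₀, map_inv₀, not_le]
    exact (one_lt_inv₀ hπv).2 hg.pi1
  have hpπ : ((p : FxF s)) / emb h π ∈ A := by
    have h6 : ((p : FxF s)) / emb h π = emb h ((p : k) / π) := by
      rw [map_div₀, map_natCast]
    rw [h6, hAk]
    exact p_div hg
  have hK : ∀ n : ℕ, 1 ≤ n → ∀ y : FxF s, y ≠ 0 → ∃ c : k, ∃ z : FxF s, c ≠ 0 ∧ z ≠ 0 ∧
      y = emb h c * z ^ n := by
    intro n hn y hy
    obtain ⟨c, z, hc, hz, hzF, hyz⟩ := (h4 k B Ω e s h n hn).1 y y.2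
      (fun h' => hy (Subtype.ext h'))
    exact ⟨c, ⟨z, hzF⟩, hc, fun h' => hz (congrArg Subtype.val h'), Subtype.ext hyz⟩
  have hfin : ∃ R : Finset (FxF s), ∀ y : FxF s, y ≠ 0 → ∃ r ∈ R, ∃ z, y = r * z ^ p := by
    classical
    obtain ⟨R, hR⟩ := h5 k B v p π hg
    refine ⟨R.image (emb h), fun y hy => ?_⟩
    obtain ⟨c, z, hc, hz, hyz⟩ := hK p hg.prime.one_lt.le y hy
    obtain ⟨r, hr, z', hz'⟩ := hR c hc
    refine ⟨emb h r, Finset.mem_image_of_mem _ hr, emb h z' * z, ?_⟩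
    rw [hyz, hz', map_mul, map_pow, mul_pow, mul_assoc]
  by_cases hdisc : ∃ (t : FxF s) (m : ℕ), t ≠ 0 ∧ t ∈ A.nonunits ∧
      (∀ x ∈ A.nonunits, A.valuation x ≤ A.valuation t) ∧
        A.valuation (emb h π) = A.valuation t ^ m
  · obtain ⟨a, ⟨a', ha'⟩, haA, hle⟩ := h1 (FxF s) A (emb h).fieldRange p (emb h π) hg.prime
      ⟨π, rfl⟩ hπ0 hπn hpπ (by
        rintro c ⟨c', rfl⟩ hc
        have hc' : c' ≠ 0 := by
          rintro rfl
          exact hc (map_zero _)
        obtain ⟨j, hj⟩ := hg.disc c' hc'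
        refine ⟨j, ?_⟩
        have hπj : v (algebraMap k B (π ^ j)) = v (algebraMap k B π) ^ j := by
          rw [map_zpow₀, map_zpow₀]
        have hπj0 : π ^ j ≠ 0 := zpow_ne_zero _ hg.pi0
        have hq0 : c' / π ^ j ≠ 0 := div_ne_zero hc' hπj0
        have hq1 : v (algebraMap k B (c' / π ^ j)) = 1 := by
          rw [map_div₀, map_div₀, hπj, hj, div_self (zpow_ne_zero _ hπv.ne')]
        have h7 : A.valuation (emb h (c' / π ^ j)) = 1 := by
          refine val_one A ?_ ?_ ?_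
          · rw [Ne, map_eq_zero]
            exact hq0
          · rw [hAk, hq1]
          · rw [← map_inv₀, hAk, map_inv₀, map_inv₀, hq1, inv_one]
        have h8 : c' = (c' / π ^ j) * π ^ j := (div_mul_cancel₀ _ hπj0).symm
        rw [h8, map_mul, map_mul, h7, one_mul, map_zpow₀, map_zpow₀]) hfin (by
        intro n hn y hy
        obtain ⟨c, z, hc, hz, hyz⟩ := hK n hn y hy
        refine ⟨emb h c, ⟨c, rfl⟩, z, ?_, hz, hyz⟩
        rw [Ne, map_eq_zero]
        exact hc) hdisc ⟨x, hx⟩ ((hAm _).2 hxO)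
    subst ha'
    refine ⟨a', (hAk a').1 haA, ?_⟩
    rw [le_iff A hπ0, hAm] at hle
    exact hle
  · exfalso
    obtain ⟨z, y, hy, hzy⟩ := h2 (FxF s) A p (emb h π) hg.prime hπ0 hπn hpπ hfin hdisc
    refine h3 k B Ω e s h v p π hg O hO hB ⟨z, y, z.2, y.2, hAn y hy, ?_⟩
    exact congrArg Subtype.val hzy

theorem t_APP : S_CASE1 → S_CASE2 → S_BEX → S_KUM → S_FINP → S_APP := by
  intro h1 h2 h3 h4 h5 k B Ω _ _ _ _ _ _ _ e s h v p π hg O hO hB n
  induction n with
  | zero =>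
    intro y hy hyO
    refine ⟨0, ?_, ?_⟩
    · rw [map_zero, map_zero]
      exact zero_le_one
    · rw [map_zero, map_zero, sub_zero, pow_zero]
      exact (O.valuation_le_one_iff y).2 hyO
  | succ n ih =>
    intro y hy hyO
    obtain ⟨a0, ha0, hq⟩ := step h1 h2 h3 h4 h5 h hg hO hB hy hyO
    have hπ0 : e (algebraMap k B π) ≠ 0 := by
      rw [Ne, map_eq_zero, map_eq_zero]
      exact hg.pi0
    obtain ⟨a1, ha1, hle⟩ := ih ((y - e (algebraMap k B a0)) / e (algebraMap k B π))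
      ((FxF s).div_mem ((FxF s).sub_mem hy (fix h a0)) (fix h π)) hq
    refine ⟨a0 + π * a1, ?_, ?_⟩
    · rw [map_add, map_mul]
      refine (hg.na _ _).trans (max_le ha0 ?_)
      rw [map_mul]
      exact mul_le_one₀ hg.pi1.le (v.nonneg _) ha1
    · have h6 : y - e (algebraMap k B (a0 + π * a1)) = e (algebraMap k B π) *
          ((y - e (algebraMap k B a0)) / e (algebraMap k B π) - e (algebraMap k B a1)) := by
        rw [map_add, map_mul, map_add, map_mul, mul_sub, mul_div_cancel₀ _ hπ0]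
        ring
      rw [h6, map_mul, pow_succ']
      exact mul_le_mul_right hle _

end main

end Pool.Agent.N890.KO.APP
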