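import Pool.Agent.N890.KO.Stm

/-!
Project KO (helper890), part BASE: finite extensions are good (helper861).
-/

set_option autoImplicit false

namespace Pool.Agent.N890.KO.BASE

open Pool.Agent.N890.KO Module

section

variable {k B : Type} [Field k] [Field B] [Algebra k B] {v : AbsoluteValue B ℝ} {p : ℕ} {π : k}

/-- finite sums of small elements are small -/
theorem sum_lt (na : ∀ x y, v (x + y) ≤ max (v x) (v y)) {ι : Type} (s : Finset ι) (f : ι → B)
    (h : ∀ i ∈ s, v (f i) < 1) : v (∑ i ∈ s, f i) < 1 := by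
  classical
  induction s using Finset.induction_on with
  | empty => simp
  | insert a s ha ih =>
    rw [Finset.sum_insert ha]
    exact (na _ _).trans_lt (max_lt (h a (Finset.mem_insert_self a s))
      (ih fun i hi => h i (Finset.mem_insert_of_mem hi)))

/-- the value of the norm -/
theorem norm_val [IsAlgClosure k B] [CharZero k] (hG : Good v p π) (M : IntermediateField k B)
    [FiniteDimensional k M] (x : M) :
    v (x : B) ^ finrank k M = v (algebraMap k B (Algebra.norm k x)) := by
  have : IsAlgClosed B := IsAlgClosure.isAlgClosed k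
  rw [Algebra.norm_eq_prod_embeddings k B x, map_prod]
  have h1 : ∀ σ : M →ₐ[k] B, v (σ x) = v (x : B) := by
    intro σ
    have h2 := AlgHom.liftNormal_commutes (K₂ := B) σ B x
    have h3 := hG.inv (AlgEquiv.ofBijective (σ.liftNormal B)
      (AlgHom.normal_bijective k B B (σ.liftNormal B))) (algebraMap M B x)
    rw [AlgEquiv.coe_ofBijective, h2] at h3
    exact h3
  rw [Finset.prod_congr rfl fun σ _ => h1 σ, Finset.prod_const, Finset.card_univ, AlgHom.card]

/-- linear independence over the residue field -/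
def Ind (v : AbsoluteValue B ℝ) (M : IntermediateField k B) {r : ℕ} (x : Fin r → M) : Prop :=
  (∀ i, v (x i : B) ≤ 1) ∧ ∀ c : Fin r → k, (∀ i, v (algebraMap k B (c i)) ≤ 1) →
    v (∑ i, algebraMap k B (c i) * (x i : B)) < 1 → ∀ i, v (algebraMap k B (c i)) < 1

theorem Ind.li {M : IntermediateField k B} {r : ℕ} {x : Fin r → M} (h : Ind v M x) :
    LinearIndependent k x := by
  rw [Fintype.linearIndependent_iff]
  intro g hg i
  by_contra hi
  obtain ⟨j, -, hj⟩ := Finset.exists_max_image Finset.univ (fun i => v (algebraMap k B (g i)))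
    ⟨i, Finset.mem_univ i⟩
  have hinj : Function.Injective (algebraMap k B) := (algebraMap k B).injective
  have hi0 : 0 < v (algebraMap k B (g i)) := v.pos fun h0 => hi (hinj (by rw [h0, map_zero]))
  have hj0 : 0 < v (algebraMap k B (g j)) := hi0.trans_le (hj i (Finset.mem_univ i))
  have hgj : g j ≠ 0 := by
    intro h0
    rw [h0, map_zero, map_zero] at hj0
    exact lt_irrefl _ hj0
  have hg' : ∑ i, algebraMap k B (g i) * (x i : B) = 0 := by
    have h1 := congrArg (algebraMap M B) hg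
    rw [map_sum, map_zero] at h1
    rw [← h1]
    refine Finset.sum_congr rfl fun i _ => ?_
    rw [Algebra.smul_def, map_mul, ← IsScalarTower.algebraMap_apply]
    rfl
  have h2 := h.2 (fun i => g i / g j) (fun i => by
      rw [map_div₀, map_div₀, div_le_one hj0]
      exact hj i (Finset.mem_univ i)) (by
      have h3 : ∑ i, algebraMap k B (g i / g j) * (x i : B) =
          (algebraMap k B (g j))⁻¹ * ∑ i, algebraMap k B (g i) * (x i : B) := by
        rw [Finset.mul_sum]
        refine Finset.sum_congr rfl fun i _ => ?_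
        rw [map_div₀]
        ring
      rw [h3, hg', mul_zero, map_zero]
      exact one_pos) j
  rw [div_self hgj, map_one, map_one] at h2
  exact lt_irrefl _ h2

theorem residue (hG : Good v p π) (M : IntermediateField k B) [FiniteDimensional k M] :
    ∃ R : Finset M, ∀ z : M, v (z : B) ≤ 1 → ∃ r ∈ R, v ((z : B) - (r : B)) < 1 := by
  classical
  obtain ⟨Rk, hRk⟩ := hG.res
  -- a maximal independent family
  obtain ⟨r, x, hx, hmax⟩ : ∃ (r : ℕ) (x : Fin r → M), Ind v M x ∧
      ∀ y : Fin (r + 1) → M, ¬ Ind v M y := by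
    by_contra hcon
    push Not at hcon
    have : ∀ r : ℕ, ∃ x : Fin r → M, Ind v M x := by
      intro r
      induction r with
      | zero => exact ⟨Fin.elim0, fun i => i.elim0, fun _ _ _ i => i.elim0⟩
      | succ r ih =>
        obtain ⟨x, hx⟩ := ih
        exact hcon r x hx
    obtain ⟨x, hx⟩ := this (finrank k M + 1)
    have h1 := hx.li.fintype_card_le_finrank
    rw [Fintype.card_fin] at h1
    omega
  refine ⟨(Fintype.piFinset fun _ : Fin r => Rk).image fun c => ∑ i, algebraMap k M (c i) * x i,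
    fun z hz => ?_⟩
  have h1 := hmax (Fin.cons z x)
  unfold Ind at h1
  push Not at h1
  obtain ⟨c, hc1, hc2, j, hj⟩ := h1 (fun i => by
    refine Fin.cases ?_ (fun i => ?_) i
    · simpa using hz
    · simpa using hx.1 i)
  rw [Fin.sum_univ_succ] at hc2
  simp only [Fin.cons_zero, Fin.cons_succ] at hc2
  have hna := hG.na
  -- the first coefficient is a unit
  have hc0 : v (algebraMap k B (c 0)) = 1 := by
    refine le_antisymm (hc1 0) ?_
    by_contra hlt
    push Not at hlt
    have h2 : v (∑ i : Fin r, algebraMap k B (c i.succ) * (x i : B)) < 1 := by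
      have e : ∑ i : Fin r, algebraMap k B (c i.succ) * (x i : B) =
          (algebraMap k B (c 0) * (z : B) + ∑ i : Fin r, algebraMap k B (c i.succ) * (x i : B)) +
            -(algebraMap k B (c 0) * (z : B)) := by ring
      rw [e]
      refine (hna _ _).trans_lt (max_lt hc2 ?_)
      rw [v.map_neg, map_mul]
      calc v (algebraMap k B (c 0)) * v (z : B) ≤ v (algebraMap k B (c 0)) * 1 :=
            mul_le_mul_of_nonneg_left hz (v.nonneg _)
        _ < 1 := by rw [mul_one]; exact hlt
    have h3 := hx.2 (fun i => c i.succ) (fun i => hc1 _) h2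
    refine absurd hj (not_le.2 ?_)
    refine Fin.cases hlt (fun i => h3 i) j
  have hc00 : c 0 ≠ 0 := by
    intro h0
    rw [h0, map_zero, map_zero] at hc0
    exact zero_ne_one hc0
  have hcB : algebraMap k B (c 0) ≠ 0 := fun h => hc00
    ((algebraMap k B).injective (by rw [h, map_zero]))
  -- representatives of the other coefficients
  have h4 : ∀ i : Fin r, ∃ b ∈ Rk, v (algebraMap k B (-(c i.succ / c 0) - b)) < 1 := by
    intro i
    apply hRk
    rw [map_neg, v.map_neg, map_div₀, map_div₀, hc0, div_one]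
    exact hc1 _
  choose b hb hb2 using h4
  refine ⟨∑ i, algebraMap k M (b i) * x i, Finset.mem_image.2 ⟨b,
    Fintype.mem_piFinset.2 hb, rfl⟩, ?_⟩
  have hco : ((∑ i, algebraMap k M (b i) * x i : M) : B) =
      ∑ i, algebraMap k B (b i) * (x i : B) := by
    have h5 : algebraMap M B (∑ i, algebraMap k M (b i) * x i) =
        ∑ i, algebraMap k B (b i) * (x i : B) := by
      rw [map_sum]
      refine Finset.sum_congr rfl fun i _ => ?_
      rw [map_mul, ← IsScalarTower.algebraMap_apply]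
      rfl
    exact h5
  rw [hco]
  have e : (z : B) - ∑ i, algebraMap k B (b i) * (x i : B) =
      (algebraMap k B (c 0))⁻¹ *
        (algebraMap k B (c 0) * (z : B) + ∑ i : Fin r, algebraMap k B (c i.succ) * (x i : B)) +
      ∑ i, algebraMap k B (-(c i.succ / c 0) - b i) * (x i : B) := by
    have e1 : ∑ i, algebraMap k B (-(c i.succ / c 0) - b i) * (x i : B) =
        -((algebraMap k B (c 0))⁻¹ * ∑ i : Fin r, algebraMap k B (c i.succ) * (x i : B)) -
          ∑ i, algebraMap k B (b i) * (x i : B) := by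
      rw [Finset.mul_sum, ← Finset.sum_neg_distrib, ← Finset.sum_sub_distrib]
      refine Finset.sum_congr rfl fun i _ => ?_
      rw [map_sub, map_neg, map_div₀]
      ring
    rw [e1]
    field_simp
    ring
  rw [e]
  refine (hna _ _).trans_lt (max_lt ?_ (sum_lt hna _ _ fun i _ => ?_))
  · rw [map_mul, map_inv₀, hc0, inv_one, one_mul]
    exact hc2
  · rw [map_mul]
    calc v (algebraMap k B (-(c i.succ / c 0) - b i)) * v (x i : B) ≤
          v (algebraMap k B (-(c i.succ / c 0) - b i)) * 1 :=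
          mul_le_mul_of_nonneg_left (hx.1 i) (v.nonneg _)
      _ < 1 := by rw [mul_one]; exact hb2 i

theorem uniformizer [IsAlgClosure k B] [CharZero k] (hG : Good v p π) (M : IntermediateField k B)
    [FiniteDimensional k M] : ∃ ϖ : M, ϖ ≠ 0 ∧ v (ϖ : B) < 1 ∧
      ∀ x : M, x ≠ 0 → ∃ n : ℤ, v (x : B) = v (ϖ : B) ^ n := by
  have hinj : Function.Injective (algebraMap k B) := (algebraMap k B).injective
  have hq0 : 0 < v (algebraMap k B π) := v.pos fun h0 => hG.pi0 (hinj (by rw [h0, map_zero]))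
  have hq1 := hG.pi1
  obtain ⟨q, hq⟩ : ∃ q, q = v (algebraMap k B π) := ⟨_, rfl⟩
  rw [← hq] at hq0 hq1
  obtain ⟨N, hN⟩ : ∃ N, N = finrank k M := ⟨_, rfl⟩
  have hN0 : 0 < N := by rw [hN]; exact finrank_pos
  have hval : ∀ x : M, x ≠ 0 → ∃ j : ℤ, v (x : B) ^ N = q ^ j := by
    intro x hx
    rw [hN, norm_val hG M x, hq]
    exact hG.disc _ (Algebra.norm_ne_zero_iff.2 hx)
  have hpos : ∀ x : M, x ≠ 0 → 0 < v (x : B) := fun x hx => v.pos (by
    intro h0
    exact hx (Subtype.ext h0))
  -- the smallest exponent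
  have hex : ∃ j : ℕ, ∃ x : M, x ≠ 0 ∧ v (x : B) < 1 ∧ v (x : B) ^ N = q ^ j := by
    refine ⟨N, algebraMap k M π, ?_, ?_, ?_⟩
    · intro h0
      exact hG.pi0 ((algebraMap k M).injective (by rw [h0, map_zero]))
    · show v (algebraMap M B (algebraMap k M π)) < 1
      rw [← IsScalarTower.algebraMap_apply, ← hq]
      exact hq1
    · show v (algebraMap M B (algebraMap k M π)) ^ N = q ^ N
      rw [← IsScalarTower.algebraMap_apply, ← hq]
  classical
  obtain ⟨ϖ, h0, h1, h2⟩ := Nat.find_spec hex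
  have hmin : ∀ y : M, y ≠ 0 → v (y : B) < 1 → v (y : B) ≤ v (ϖ : B) := by
    intro y hy hy1
    obtain ⟨j, hj⟩ := hval y hy
    have hj0 : 0 ≤ j := by
      by_contra hneg
      push Not at hneg
      have h3 : 1 < q ^ j := by
        rw [show j = -(-j) by ring, zpow_neg]
        apply (one_lt_inv₀ (zpow_pos hq0 _)).2
        exact zpow_lt_one₀ hq0 hq1 (by omega)
      rw [← hj] at h3
      exact absurd (pow_le_one₀ (v.nonneg _) hy1.le) (not_le.2 h3)
    obtain ⟨j', rfl⟩ := Int.eq_ofNat_of_zero_le hj0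
    have hj' : v (y : B) ^ N = q ^ j' := by rw [hj, zpow_natCast]
    have h4 : Nat.find hex ≤ j' := Nat.find_min' hex ⟨y, hy, hy1, hj'⟩
    have h5 : v (y : B) ^ N ≤ v (ϖ : B) ^ N := by
      rw [hj', h2]
      exact pow_le_pow_of_le_one hq0.le hq1.le h4
    exact le_of_pow_le_pow_left₀ hN0.ne' (v.nonneg _) h5
  refine ⟨ϖ, h0, h1, fun y hy => ?_⟩
  have hϖ := hpos ϖ h0
  obtain ⟨n, hn1, hn2⟩ := exists_mem_Ioc_zpow (hpos y hy) ((one_lt_inv₀ hϖ).2 h1)
  rw [inv_zpow, ← zpow_neg] at hn1 hn2
  refine ⟨-(n + 1), ?_⟩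
  -- `y ϖ ^ (n + 1)` is a unit
  have h3 : v ((y * ϖ ^ (n + 1) : M) : B) = v (y : B) * v (ϖ : B) ^ (n + 1) := by
    show v (algebraMap M B (y * ϖ ^ (n + 1))) = _
    rw [map_mul, map_zpow₀, map_mul, map_zpow₀]
    rfl
  have hp := zpow_pos hϖ (n + 1)
  have h4 : v (y : B) * v (ϖ : B) ^ (n + 1) ≤ 1 := by
    calc v (y : B) * v (ϖ : B) ^ (n + 1) ≤ v (ϖ : B) ^ (-(n + 1)) * v (ϖ : B) ^ (n + 1) :=
          mul_le_mul_of_nonneg_right hn2 hp.le
      _ = 1 := by rw [← zpow_add₀ hϖ.ne', neg_add_cancel, zpow_zero]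
  have h5 : v (ϖ : B) < v (y : B) * v (ϖ : B) ^ (n + 1) := by
    calc v (ϖ : B) = v (ϖ : B) ^ (-n) * v (ϖ : B) ^ (n + 1) := by
          rw [← zpow_add₀ hϖ.ne', show -n + (n + 1) = 1 by ring, zpow_one]
      _ < _ := mul_lt_mul_of_pos_right hn1 hp
  have h6 : v (y : B) * v (ϖ : B) ^ (n + 1) = 1 := by
    refine le_antisymm h4 ?_
    by_contra hlt
    push Not at hlt
    have h7 := hmin (y * ϖ ^ (n + 1)) (mul_ne_zero hy (zpow_ne_zero _ h0)) (by rw [h3]; exact hlt)
    rw [h3] at h7
    exact absurd h5 (not_lt.2 h7)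
  rw [zpow_neg]
  exact eq_inv_of_mul_eq_one_left h6

end

theorem t_BASE : S_BASE := by
  intro k B _ _ _ _ _ v p π hG M hM
  obtain ⟨ϖ, h0, h1, h2⟩ := uniformizer hG M
  refine ⟨ϖ, ⟨hG.na, fun τ x => hG.inv (τ.restrictScalars k) x, h0, h1, fun x hx => h2 x hx, ?_,
    hG.prime, hG.p1⟩⟩
  obtain ⟨R, hR⟩ := residue hG M
  refine ⟨R, fun x hx => ?_⟩
  obtain ⟨r, hr, hr2⟩ := hR x hx
  refine ⟨r, hr, ?_⟩
  rw [map_sub]
  exact hr2

end Pool.Agent.N890.KO.BASE
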