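import Pool.Agent.N890.KO.Stm

/-!
Project KO (helper890), leaf BEX (helper252): the second case is impossible.
-/

set_option autoImplicit false

namespace Pool.Agent.N890.KO.BEX

open Pool.Agent.N890.KO
open Polynomial IntermediateField

/-- a product over a period does not change under a shift -/
theorem prod_shift {A : Type} [CommMonoid A] (F : ℕ → A) (p : ℕ) (hp : 0 < p)
    (hF : ∀ i, F (i + p) = F i) (j : ℕ) :
    ∏ i ∈ Finset.range p, F (i + j) = ∏ i ∈ Finset.range p, F i := by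
  obtain ⟨q, rfl⟩ : ∃ q, p = q + 1 := ⟨p - 1, by omega⟩
  induction j with
  | zero => rfl
  | succ j ih =>
    rw [← ih, Finset.prod_range_succ, Finset.prod_range_succ']
    have h1 : F (q + (j + 1)) = F (0 + j) := by
      have := hF j
      rw [zero_add, ← this]
      congr 1
      ring
    rw [h1]
    congr 1
    refine Finset.prod_congr rfl fun i _ => ?_
    congr 1
    ring

theorem coeffs {R : Type} [CommRing R] (a : ℕ → R) (n : ℕ) :
    (∏ i ∈ Finset.range n, (1 + C (a i) * X : R[X])).coeff 0 = 1 ∧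
    (∏ i ∈ Finset.range n, (1 + C (a i) * X : R[X])).coeff 1 = ∑ i ∈ Finset.range n, a i := by
  induction n with
  | zero => simp [coeff_one]
  | succ n ih =>
    obtain ⟨h1, h2⟩ := ih
    have e0 : (1 + C (a n) * X : R[X]).coeff 0 = 1 := by simp
    have e1 : (1 + C (a n) * X : R[X]).coeff 1 = a n := by simp [coeff_one]
    rw [Finset.prod_range_succ, Finset.sum_range_succ]
    constructor
    · rw [mul_coeff_zero, h1, e0, one_mul]
    · rw [mul_coeff_one, h1, h2, e0, e1]
      ring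

theorem t_BEX : S_HEN → S_SPLIT → S_UNR → S_BEX := by
  intro hHEN hSPLIT hUNR k B Ω _ _ _ _ _ _ _ e s hA v p π hv O hO1 hO2
  rintro ⟨z, y, hz, hy, hyn, hzy⟩
  obtain ⟨M, σ, hM, ⟨θ, hθM, hθ1, hθs⟩, hM2⟩ := hUNR k B v p π hv
  have hp := hv.prime
  have hp0 : 0 < p := hp.pos
  -- the conjugates
  have hσM : ∀ i, ∀ x ∈ M, (σ ^ i) x ∈ M := fun i x hx => hM.norm _ x hx
  have hper : ∀ i, ∀ x ∈ M, (σ ^ (i + p)) x = (σ ^ i) x := by
    intro i x hx
    rw [pow_add, AlgEquiv.mul_apply, hM.per x hx]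
  have hyO : y ∈ O := Set.mem_of_subset_of_mem ValuationSubring.nonunits_subset hyn
  have hθO : ∀ i, e ((σ ^ i) θ) ∈ O := by
    intro i
    rw [hO2, hv.inv]
    exact hθ1
  -- the polynomial
  obtain ⟨f, hf⟩ : ∃ f : Polynomial Ω, f = ∏ i ∈ Finset.range p, (1 + C (e ((σ ^ i) θ)) * X) -
    C (1 + y) := ⟨_, rfl⟩
  have h1y : 1 + y ∈ O := O.add_mem _ _ O.one_mem hyO
  have hfO : ∀ n, f.coeff n ∈ O := by
    intro n
    have e1 : f = (∏ i ∈ Finset.range p, (1 + C (⟨e ((σ ^ i) θ), hθO i⟩ : O) * X) -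
        C (⟨1 + y, h1y⟩ : O)).map O.subtype := by
      rw [hf, Polynomial.map_sub, Polynomial.map_prod, Polynomial.map_C]
      congr 1
      refine Finset.prod_congr rfl fun i _ => ?_
      rw [Polynomial.map_add, Polynomial.map_mul, Polynomial.map_one, Polynomial.map_C,
        Polynomial.map_X]
      rfl
    rw [e1, coeff_map]
    exact Subtype.mem _
  have hffix : ∀ g : B ≃ₐ[k] B, f.map ((s g : Ω ≃+* Ω) : Ω →+* Ω) = f := by
    intro g
    obtain ⟨j, -, hj⟩ := hM.gen g
    rw [hf, Polynomial.map_sub, Polynomial.map_prod, Polynomial.map_C]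
    congr 1
    · rw [← prod_shift (fun i => (1 + C (e ((σ ^ i) θ)) * X : Polynomial Ω)) p hp0
        (fun i => by rw [hper i θ hθM]) j]
      refine Finset.prod_congr rfl fun i _ => ?_
      rw [Polynomial.map_add, Polynomial.map_mul, Polynomial.map_one, Polynomial.map_C,
        Polynomial.map_X]
      have e2 : ((s g : Ω ≃+* Ω) : Ω →+* Ω) (e ((σ ^ i) θ)) = e ((σ ^ (i + j)) θ) := by
        have e3 : s g (e ((σ ^ i) θ)) = e (g ((σ ^ i) θ)) := hA.eq g _
        have e4 : g ((σ ^ i) θ) = (σ ^ (i + j)) θ := by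
          rw [hj _ (hσM i θ hθM), add_comm, pow_add, AlgEquiv.mul_apply]
        rw [← e4, ← e3]
        rfl
      rw [e2]
    · congr 1
      have e5 : s g (1 + y) = 1 + y := by rw [map_add, map_one, hy g]
      exact e5
  have hffix' : ∀ n, ∀ g : B ≃ₐ[k] B, s g (f.coeff n) = f.coeff n := by
    intro n g
    have e6 := congrArg (fun q : Polynomial Ω => q.coeff n) (hffix g)
    simp only [coeff_map] at e6
    exact e6
  obtain ⟨c0, c1⟩ := coeffs (fun i => e ((σ ^ i) θ)) p
  have hf0 : f.coeff 0 = -y := by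
    rw [hf, coeff_sub, c0, coeff_C_zero]
    ring
  have hf1 : f.coeff 1 = 1 := by
    rw [hf, coeff_sub, c1, coeff_C_succ, sub_zero, ← map_sum, hθs, map_one]
  have hyn' : f.coeff 0 ∈ O.nonunits := by
    rw [hf0, ValuationSubring.mem_nonunits_iff, Valuation.map_neg]
    exact hyn
  have hone : f.coeff 1 ∉ O.nonunits := by
    rw [hf1, ValuationSubring.mem_nonunits_iff, map_one]
    exact lt_irrefl _
  obtain ⟨x, hxn, hxfix, hfx⟩ := hHEN Ω (B ≃ₐ[k] B) s O (fun g y hy => hO1 g y hy) f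
    (fun n => ⟨hfO n, hffix' n⟩) hyn' hone
  have hprod : ∏ i ∈ Finset.range p, (1 + e ((σ ^ i) θ) * x) = 1 + y := by
    rw [hf, eval_sub, eval_C, eval_prod, sub_eq_zero] at hfx
    rw [← hfx]
    refine Finset.prod_congr rfl fun i _ => ?_
    simp
  -- the element `β`
  have hβM : z * (1 + e θ * x) ∈ FxM s M := by
    intro τ
    have e7 : (s.comp (resM M)) τ (z * (1 + e θ * x)) =
        s (resM M τ) z * (1 + s (resM M τ) (e θ) * s (resM M τ) x) := by
      rw [MonoidHom.comp_apply, map_mul, map_add, map_one, map_mul]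
    have e8 : (resM M τ) θ = θ := by
      have := τ.commutes (⟨θ, hθM⟩ : M)
      exact this
    rw [e7, hz, hxfix, hA.eq, e8]
  have hβp : ∏ i ∈ Finset.range p, s (σ ^ i) (z * (1 + e θ * x)) = e (algebraMap k B π) := by
    have e9 : ∀ i, s (σ ^ i) (z * (1 + e θ * x)) = z * (1 + e ((σ ^ i) θ) * x) := by
      intro i
      rw [map_mul, map_add, map_one, map_mul, hz, hxfix, hA.eq]
    simp only [e9]
    rw [Finset.prod_mul_distrib, Finset.prod_const, Finset.card_range, hprod, hzy]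
  obtain ⟨β₀, hβ₀, hβ₀p⟩ := hSPLIT k B Ω e s hA M σ p hM π _ hv.pi0 hβM hβp
  have hπ0 : algebraMap k B π ≠ 0 := by
    intro h
    exact hv.pi0 ((map_eq_zero _).1 h)
  have hvπ : 0 < v (algebraMap k B π) := v.pos hπ0
  have hβ0 : β₀ ≠ 0 := by
    intro h
    rw [h] at hβ₀p
    apply hπ0
    rw [← hβ₀p]
    exact Finset.prod_eq_zero (Finset.mem_range.2 hp0) (map_zero _)
  have hvp : v β₀ ^ p = v (algebraMap k B π) := by
    rw [← hβ₀p, map_prod]
    simp only [hv.inv]
    rw [Finset.prod_const, Finset.card_range]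
  obtain ⟨j, hj⟩ := hM2 β₀ hβ₀ hβ0
  rw [hj] at hvp
  have e10 : v (algebraMap k B π) ^ (j * p) = v (algebraMap k B π) ^ (1 : ℤ) := by
    rw [zpow_mul, zpow_natCast, hvp, zpow_one]
  have e11 : j * p = 1 := zpow_right_injective₀ hvπ hv.pi1.ne e10
  have e12 : (p : ℤ) ∣ 1 := ⟨j, by rw [← e11]; ring⟩
  have e13 := Int.le_of_dvd one_pos e12
  have := hp.two_le
  omega

end Pool.Agent.N890.KO.BEX
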