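import Pool.Agent.N890.KO.Stm

/-!
Project KO (helper890), part CAN: the canonical valuation ring of the fixed field.
Author: helper301.
-/

set_option autoImplicit false

namespace Pool.Agent.N890.KO.CAN

open Pool.Agent.N890.KO

section core

variable {k L : Type} [Field k] [Field L]

lemma pw_mul {ℓ : ℕ} {x y : L} (hx : x ∈ Pw ℓ) (hy : y ∈ Pw ℓ) : x * y ∈ Pw (L := L) ℓ := by
  obtain ⟨z, hz, rfl⟩ := hx
  obtain ⟨w, hw, rfl⟩ := hy
  exact ⟨z * w, mul_ne_zero hz hw, by rw [mul_pow]⟩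

lemma pw_inv {ℓ : ℕ} {x : L} (hx : x ∈ Pw ℓ) : x⁻¹ ∈ Pw (L := L) ℓ := by
  obtain ⟨z, hz, rfl⟩ := hx
  exact ⟨z⁻¹, inv_ne_zero hz, by rw [inv_pow]⟩

theorem core (ι : k →+* L) (A : AbsoluteValue k ℝ) (ℓ : ℕ) (hℓ : ℓ = 2 ∨ ℓ = 3) (π : k)
    (hπ0 : π ≠ 0) (hπ1 : A π < 1) (hdisc : ∀ x, x ≠ 0 → ∃ n : ℤ, A x = A π ^ n)
    (hpow : ∀ x, A (x - 1) < 1 → ∃ y, y ^ ℓ = x)
    (K1 : ∀ y : L, y ≠ 0 → ∃ (c : k) (z : L), c ≠ 0 ∧ z ≠ 0 ∧ y = ι c * z ^ ℓ)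
    (K2 : ∀ (c : k) (z : L), z ^ ℓ = ι c → ∃ d : k, d ^ ℓ = c)
    (hU : IsU {x : k | A x = 1}) (hC : Cst ℓ {x : k | A x = 1})
    (hQ : ∀ (a : k) (n : ℤ) (t : L), A a = A π ^ n → ¬ (ℓ : ℤ) ∣ n → t ≠ 0 →
      1 + ι a * t ^ ℓ ≠ 0 → ∃ (i : ℕ) (z : L), z ≠ 0 ∧
        1 + ι a * t ^ ℓ = (ι a * t ^ ℓ) ^ i * z ^ ℓ)
    (h1 : S_RIG1) (h2 : S_RIG2) (U : Set L) (hUd : U = {x | ∃ u : k, A u = 1 ∧ x = ι u}) :
    ∃ O : ValuationSubring L, (O : Set L) = canon ℓ U ∧ ∀ a : k, ι a ∈ O ↔ A a ≤ 1 := by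
  have hℓ2 : 2 ≤ ℓ := by rcases hℓ with h | h <;> omega
  have hℓp : ℓ.Prime := by
    rcases hℓ with h | h
    · rw [h]; exact Nat.prime_two
    · rw [h]; exact Nat.prime_three
  have hℓ0 : ℓ ≠ 0 := by omega
  have hinj : Function.Injective ι := ι.injective
  have hAπ : 0 < A π := A.pos hπ0
  have hzinj : ∀ m n : ℤ, A π ^ m = A π ^ n → m = n := fun m n h =>
    zpow_right_injective₀ hAπ hπ1.ne h
  have hUm : ∀ x, x ∈ U ↔ ∃ u : k, A u = 1 ∧ x = ι u := fun x => by rw [hUd]; rfl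
  have hA1 : ∀ u : k, A u = 1 → u ≠ 0 := by
    rintro u hu rfl
    rw [map_zero] at hu
    exact zero_ne_one hu
  have hpw : ∀ c : k, c ≠ 0 → (ι c ∈ Pw (L := L) ℓ ↔ c ∈ Pw (L := k) ℓ) := by
    intro c hc
    constructor
    · rintro ⟨z, hz, h⟩
      obtain ⟨d, hd⟩ := K2 c z h.symm
      refine ⟨d, ?_, hd.symm⟩
      rintro rfl
      rw [zero_pow hℓ0] at hd
      exact hc hd.symm
    · rintro ⟨z, hz, h⟩
      exact ⟨ι z, (map_ne_zero ι).2 hz, by rw [h, map_pow]⟩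
  have hpw0 : ∀ c : k, c ∈ Pw (L := k) ℓ → ι c ∈ Pw (L := L) ℓ := by
    rintro c ⟨z, hz, h⟩
    exact ⟨ι z, (map_ne_zero ι).2 hz, by rw [h, map_pow]⟩
  -- (i)
  have hUU : IsU U := by
    refine ⟨?_, ?_, ?_, ?_, ?_⟩
    · intro h
      obtain ⟨u, hu, h⟩ := (hUm 0).1 h
      exact hA1 u hu (hinj (by rw [← h, map_zero]))
    · exact (hUm _).2 ⟨1, hU.one, by rw [map_one]⟩
    · exact (hUm _).2 ⟨-1, hU.neg, by rw [map_neg, map_one]⟩
    · intro x hx y hy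
      obtain ⟨u, hu, rfl⟩ := (hUm x).1 hx
      obtain ⟨w, hw, rfl⟩ := (hUm y).1 hy
      exact (hUm _).2 ⟨u * w, hU.mul u hu w hw, by rw [map_mul]⟩
    · intro x hx
      obtain ⟨u, hu, rfl⟩ := (hUm x).1 hx
      exact (hUm _).2 ⟨u⁻¹, hU.inv u hu, by rw [map_inv₀]⟩
  have hmem : ∀ u : k, A u = 1 → ι u ∈ U := fun u hu => (hUm _).2 ⟨u, hu, rfl⟩
  have hCC : Cst ℓ U := by
    refine ⟨?_, ?_, ?_, ?_⟩
    · obtain ⟨d, hd⟩ := hC.neg
      exact ⟨ι d, by rw [← map_pow, hd, map_neg, map_one]⟩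
    · obtain ⟨c, hc, hc1, hc2, hc3⟩ := hC.a
      have e1 : ι c - 1 = ι (c - 1) := by rw [map_sub, map_one]
      refine ⟨ι c, hmem c hc, by rw [e1]; exact hmem _ hc1, ?_, ?_⟩
      · rw [hpw c (hA1 c hc)]
        exact hc2
      · intro h
        rw [e1, hpw _ (hA1 _ hc1)]
        exact hc3 h
    · intro c hc
      obtain ⟨u, hu, rfl⟩ := (hUm c).1 hc
      have h3 : Submonoid.closure {d : k | d ∈ {x : k | A x = 1} ∧ d - 1 ∈ {x : k | A x = 1} ∧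
          (d - 1) / d ∉ Pw ℓ} ≤ (Submonoid.closure {d : L | d ∈ U ∧ d - 1 ∈ U ∧
          (d - 1) / d ∉ Pw ℓ}).comap (ι : k →* L) := by
        rw [Submonoid.closure_le]
        rintro d ⟨hd, hd1, hd2⟩
        have e1 : ι d - 1 = ι (d - 1) := by rw [map_sub, map_one]
        refine Submonoid.subset_closure ⟨hmem d hd, ?_, ?_⟩
        · change ι d - 1 ∈ U
          rw [e1]
          exact hmem _ hd1
        · change (ι d - 1) / ι d ∉ Pw ℓ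
          rw [e1, ← map_div₀, hpw _ (div_ne_zero (hA1 _ hd1) (hA1 _ hd))]
          exact hd2
      exact h3 (hC.b u hu)
    · intro h
      obtain ⟨c, hc, hc1, hc2, hc3⟩ := hC.c h
      have e1 : ι c - 1 = ι (c - 1) := by rw [map_sub, map_one]
      refine ⟨ι c, hmem c hc, by rw [e1]; exact hmem _ hc1, ?_, ?_⟩
      · rw [hpw c (hA1 c hc)]
        exact hc2
      · rw [e1, ← map_mul]
        exact hpw0 _ hc3
  -- (ii)
  have hHH : ∀ (a : k) (z : L) (n : ℤ), a ≠ 0 → z ≠ 0 → A a = A π ^ n →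
      (ι a * z ^ ℓ ∈ HH ℓ U ↔ (ℓ : ℤ) ∣ n) := by
    intro a z n ha hz hn
    constructor
    · rintro ⟨y, hy, w, hw, h⟩
      obtain ⟨u, hu, rfl⟩ := (hUm y).1 hy
      have hu0 := hA1 u hu
      have h3 : (w / z) ^ ℓ = ι (a / u) := by
        rw [div_pow, map_div₀, div_eq_div_iff (pow_ne_zero _ hz) ((map_ne_zero ι).2 hu0)]
        linear_combination -h
      obtain ⟨d, hd⟩ := K2 _ _ h3
      have hd0 : d ≠ 0 := by
        rintro rfl
        rw [zero_pow hℓ0] at hd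
        exact div_ne_zero ha hu0 hd.symm
      obtain ⟨j, hj⟩ := hdisc d hd0
      have h4 : A π ^ n = A π ^ (j * ℓ) := by
        rw [zpow_mul, ← hj, zpow_natCast, ← map_pow, hd, map_div₀, hu, div_one, hn]
      rw [hzinj _ _ h4]
      exact dvd_mul_left _ _
    · rintro ⟨m, rfl⟩
      refine ⟨ι (a / π ^ ((ℓ : ℤ) * m)), hmem _ ?_, ι (π ^ m) * z,
        mul_ne_zero ((map_ne_zero ι).2 (zpow_ne_zero _ hπ0)) hz, ?_⟩
      · rw [map_div₀, map_zpow₀, hn, div_self]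
        exact zpow_ne_zero _ hAπ.ne'
      · rw [mul_pow, ← mul_assoc, ← map_pow, ← map_mul]
        congr 2
        have h5 : (π ^ m) ^ ℓ = π ^ ((ℓ : ℤ) * m) := by
          rw [mul_comm, zpow_mul, zpow_natCast]
        rw [h5, div_mul_cancel₀]
        exact zpow_ne_zero _ hπ0
  have hHH1 : ∀ (a : k) (n : ℤ), a ≠ 0 → A a = A π ^ n → (ι a ∈ HH ℓ U ↔ (ℓ : ℤ) ∣ n) := by
    intro a n ha hn
    have := hHH a 1 n ha one_ne_zero hn
    rwa [one_pow, mul_one] at this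
  have hPH : ∀ x : L, x ∈ Pw ℓ → x ∈ HH ℓ U := by
    rintro x ⟨z, hz, rfl⟩
    exact ⟨1, hUU.one, z, hz, by rw [one_mul]⟩
  have hUH : ∀ x ∈ U, x ∈ HH ℓ U := fun x hx => ⟨x, hx, 1, one_ne_zero, by rw [one_pow, mul_one]⟩
  -- (iii)
  have hQR : ∀ x : L, x ≠ 0 → x ∉ HH ℓ U → ∃ (i : ℕ) (z : L), z ≠ 0 ∧ 1 + x = x ^ i * z ^ ℓ := by
    intro x hx hxH
    obtain ⟨a, z, ha, hz, rfl⟩ := K1 x hx
    obtain ⟨n, hn⟩ := hdisc a ha
    have hnℓ : ¬ (ℓ : ℤ) ∣ n := fun h => hxH ((hHH a z n ha hz hn).2 h)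
    refine hQ a n z hn hnℓ hz fun h => hxH ?_
    have : ι a * z ^ ℓ = -1 := by linear_combination h
    rw [this]
    exact hUH _ hUU.neg
  obtain ⟨r1, r2, r3⟩ := h1 L ℓ U hℓ hUU hCC hQR
  obtain ⟨O, hO⟩ := h2 L ℓ U hℓp hUU hCC r1 r2 r3
  have hmO : ∀ x : L, x ∈ O ↔ x ∈ canon ℓ U := fun x => by rw [← hO]; rfl
  refine ⟨O, hO, ?_⟩
  have hOm : ∀ (a : k) (n : ℤ), A a = A π ^ n → 1 ≤ n → ¬ (ℓ : ℤ) ∣ n → ι a ∈ Om ℓ U := by
    intro a n hn hn1 hnℓ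
    have ha : a ≠ 0 := by
      rintro rfl
      rw [map_zero] at hn
      exact (zpow_pos hAπ n).ne hn
    have hlt : A a < 1 := by
      rw [hn]
      exact zpow_lt_one₀ hAπ hπ1 (by omega)
    obtain ⟨y, hy⟩ := hpow (1 + a) (by rwa [add_sub_cancel_left])
    have hy0 : y ≠ 0 := by
      rintro rfl
      rw [zero_pow hℓ0] at hy
      have h3 : a = -1 := by linear_combination -hy
      rw [h3] at hlt
      have h4 : A (-1) = 1 := hU.neg
      linarith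
    refine ⟨(map_ne_zero ι).2 ha, fun h => hnℓ ((hHH1 a n ha hn).1 h), ι y,
      (map_ne_zero ι).2 hy0, ?_⟩
    rw [← map_pow, hy, map_add, map_one]
  have hOmO : ∀ x ∈ Om ℓ U, x ∈ O := fun x hx => (hmO x).2 (Or.inr (Or.inl hx))
  have hneg : ∀ (a : k) (n : ℤ), A a = A π ^ n → n < 0 → ¬ (ℓ : ℤ) ∣ n → ι a ∉ Om ℓ U := by
    intro a n hn hn1 hnℓ h
    have h3 : ι a⁻¹ ∈ Om ℓ U := hOm a⁻¹ (-n) (by rw [map_inv₀, hn, zpow_neg]) (by omega)
      (by rwa [dvd_neg])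
    have h4 := h.1
    have h5 : ι a = (1 + ι a) * (1 + ι a⁻¹)⁻¹ := by
      obtain ⟨z, hz, hz'⟩ := h3.2.2
      have h6 : 1 + ι a⁻¹ ≠ 0 := by
        rw [hz']
        exact pow_ne_zero _ hz
      rw [eq_mul_inv_iff_mul_eq₀ h6, map_inv₀, mul_add, mul_one, mul_inv_cancel₀ h4, add_comm]
    apply h.2.1
    apply hPH
    rw [h5]
    exact pw_mul h.2.2 (pw_inv h3.2.2)
  have hnd1 : ∀ n : ℤ, (ℓ : ℤ) ∣ n → ¬ (ℓ : ℤ) ∣ n - 1 := by
    intro n h h'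
    have h3 : (ℓ : ℤ) ∣ 1 := by
      have := dvd_sub h h'
      rwa [sub_sub_cancel] at this
    have h4 := Int.le_of_dvd one_pos h3
    omega
  have hnd2 : ∀ n : ℤ, (ℓ : ℤ) ∣ n → ¬ (ℓ : ℤ) ∣ n + 1 := by
    intro n h h'
    have h3 : (ℓ : ℤ) ∣ 1 := by
      have := dvd_sub h' h
      rwa [add_sub_cancel_left] at this
    have h4 := Int.le_of_dvd one_pos h3
    omega
  have hnd0 : ¬ (ℓ : ℤ) ∣ 1 := by
    have := hnd2 0 (dvd_zero _)
    rwa [zero_add] at this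
  have hπOm : ι π ∈ Om ℓ U := hOm π 1 (by rw [zpow_one]) le_rfl hnd0
  intro a
  by_cases ha : a = 0
  · rw [ha, map_zero, map_zero]
    exact ⟨fun _ => zero_le_one, fun _ => O.zero_mem⟩
  obtain ⟨n, hn⟩ := hdisc a ha
  constructor
  · intro hO
    by_contra hcon
    have hn0 : n < 0 := by
      by_contra h
      apply hcon
      rw [hn]
      exact zpow_le_one₀ hAπ hπ1.le (not_lt.1 h)
    rcases (hmO _).1 hO with h | h | h
    · exact (map_ne_zero ι).2 ha h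
    · by_cases hd : (ℓ : ℤ) ∣ n
      · exact h.2.1 ((hHH1 a n ha hn).2 hd)
      · exact hneg a n hn hn0 hd h
    · have hd := (hHH1 a n ha hn).1 h.1
      have h3 := h.2 _ hπOm
      rw [← map_mul] at h3
      obtain ⟨m, hm⟩ := hd
      have hm0 : m < 0 := by
        by_contra hh
        have : 0 ≤ (ℓ : ℤ) * m := mul_nonneg (by omega) (not_lt.1 hh)
        omega
      have hn2 : n ≤ -2 := by
        rw [hm]
        nlinarith
      refine hneg (a * π) (n + 1) ?_ (by omega) (hnd2 n ⟨m, hm⟩) h3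
      rw [map_mul, hn, zpow_add₀ hAπ.ne', zpow_one]
  · intro hle
    have hn0 : 0 ≤ n := by
      by_contra h
      have : 1 < A a := by
        rw [hn]
        exact one_lt_zpow_of_neg₀ hAπ hπ1 (not_le.1 h)
      linarith
    rcases hn0.eq_or_lt with h0 | h0
    · have hA : A a = 1 := by rw [hn, ← h0, zpow_zero]
      exact (hmO _).2 (Or.inr (Or.inr ⟨hUH _ (hmem a hA), fun y hy => r2 _ (hmem a hA) y hy⟩))
    · by_cases hd : (ℓ : ℤ) ∣ n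
      · have hn2 : (ℓ : ℤ) ≤ n := Int.le_of_dvd h0 hd
        have e : a = π * (a / π) := by field_simp
        rw [e, map_mul]
        refine O.mul_mem _ _ (hOmO _ hπOm) (hOmO _ (hOm (a / π) (n - 1) ?_ (by omega)
          (hnd1 n hd)))
        rw [map_div₀, hn, zpow_sub₀ hAπ.ne', zpow_one]
      · exact hOmO _ (hOm a n hn (by omega) hd)

end core

theorem t_CAN : S_QR → S_CONST → S_RIG1 → S_RIG2 → S_KUM → S_POW → S_CAN := by
  intro hQR hCONST h1 h2 hKUM hPOW k B Ω _ _ _ _ _ _ _ e s hs v p π hG ℓ hℓp hLc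
  have hℓ : ℓ = 2 ∨ ℓ = 3 := hLc.imp (fun h => h.1) (fun h => h.1)
  have hℓP : ℓ.Prime := by
    rcases hℓ with h | h
    · rw [h]; exact Nat.prime_two
    · rw [h]; exact Nat.prime_three
  have hfix : ∀ a : k, e (algebraMap k B a) ∈ FxF s := by
    intro a τ
    rw [hs.eq, AlgEquiv.commutes]
  let ι : k →+* FxF s := (e.comp (algebraMap k B)).codRestrict (FxF s) hfix
  have hι : ∀ a, ((ι a : FxF s) : Ω) = e (algebraMap k B a) := fun a => rfl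
  obtain ⟨hK1, hK2⟩ := hKUM k B Ω e s hs ℓ hℓP.one_le
  obtain ⟨hU, hC⟩ := hCONST k B v p π hG ℓ hℓp hLc
  have hpℓ : ¬ p ∣ ℓ := fun h => hℓp ((Nat.prime_dvd_prime_iff_eq hG.prime hℓP).1 h).symm
  have hUd : {x : FxF s | ∃ u : k, v (algebraMap k B u) = 1 ∧ (x : Ω) = e (algebraMap k B u)} =
      {x | ∃ u : k, (v.comp (algebraMap k B).injective) u = 1 ∧ x = ι u} := by
    ext x
    constructor
    · rintro ⟨u, hu, hx⟩
      exact ⟨u, hu, Subtype.ext hx⟩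
    · rintro ⟨u, hu, hx⟩
      exact ⟨u, hu, congrArg Subtype.val hx⟩
  obtain ⟨O, hO, hO2⟩ := core ι (v.comp (algebraMap k B).injective) ℓ hℓ π hG.pi0 hG.pi1 hG.disc
    (fun x hx => by
      obtain ⟨y, hy, -⟩ := hPOW k B v p π hG ℓ hpℓ x hx
      exact ⟨y, hy⟩)
    (fun y hy => by
      obtain ⟨c, z, hc, hz, hzm, h⟩ := hK1 y y.2 (fun h => hy (Subtype.ext h))
      exact ⟨c, ⟨z, hzm⟩, hc, fun h' => hz (congrArg Subtype.val h'), Subtype.ext h⟩)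
    (fun c z h => hK2 c z z.2 (congrArg Subtype.val h))
    hU hC
    (fun a n t ha hn ht h => by
      obtain ⟨i, z, hz, hzm, h'⟩ := hQR k B Ω e s hs v p π hG ℓ hℓp hLc a n t ha hn t.2
        (fun h' => ht (Subtype.ext h')) (fun h' => h (Subtype.ext h'))
      exact ⟨i, ⟨z, hzm⟩, fun h3 => hz (congrArg Subtype.val h3), Subtype.ext h'⟩)
    h1 h2 _ hUd
  refine ⟨O, hO, fun a x hx => ?_⟩
  have e1 : x = ι a := Subtype.ext hx
  rw [e1]
  exact hO2 a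

end Pool.Agent.N890.KO.CAN
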