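import Pool.Agent.N890.KO.Stm

/-! KO/CASE1: discrete valuations. By helper73. -/

set_option autoImplicit false

namespace Pool.Agent.N890.KO.CASE1

open Pool.Agent.N890.KO

section

variable {Γ : Type} [LinearOrderedCommGroupWithZero Γ]

theorem lt_one_of_pow {a : Γ} {n : ℕ} (h : a ^ n < 1) : a < 1 := by
  by_contra hn
  exact absurd (one_le_pow₀ (not_lt.1 hn)) (not_le.2 h)

theorem eq_one_of_pow {a : Γ} {n : ℕ} (hn : n ≠ 0) (h : a ^ n = 1) : a = 1 := by
  rcases lt_trichotomy a 1 with h1 | h1 | h1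
  · exact absurd h (pow_lt_one₀ zero_le h1 hn).ne
  · exact h1
  · exact absurd h (one_lt_pow₀ h1 hn).ne'

end

/-- from a power of `z` to `z` -/
theorem claimA {L : Type} [Field L] (O : ValuationSubring L) {p : ℕ} {π : L} (hp : p.Prime)
    (hπ0 : π ≠ 0) (hπ : O.valuation π < 1) (hpπ : (p : L) / π ∈ O)
    (hmin : ∀ x, O.valuation x < 1 → O.valuation x ≤ O.valuation π) {s z : L}
    (hs : O.valuation s ≤ 1) (hz : 1 + π * s = z ^ p) : O.valuation s < 1 := by
  have hwπ0 : O.valuation π ≠ 0 := (Valuation.ne_zero_iff _).2 hπ0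
  have hpos : 0 < O.valuation π := zero_lt_iff.2 hwπ0
  have hπs : O.valuation (π * s) < 1 := by
    rw [map_mul]
    calc O.valuation π * O.valuation s ≤ O.valuation π * 1 := mul_le_mul_right hs _
      _ < 1 := by rw [mul_one]; exact hπ
  have h1 : O.valuation (1 + π * s) = 1 := O.valuation.map_one_add_of_lt hπs
  have hz1 : O.valuation z = 1 := eq_one_of_pow hp.ne_zero (by rw [← map_pow, ← hz, h1])
  have hzO : z ∈ O := (O.valuation_le_one_iff z).1 hz1.le
  obtain ⟨r, hr⟩ := exists_add_pow_prime_eq hp (1 : O) (⟨z, hzO⟩ - 1)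
  have hr' : z ^ p = 1 + (z - 1) ^ p + p * (z - 1) * (r : L) := by
    have h2 := congrArg (fun x : O => (x : L)) hr
    simp only [add_sub_cancel, one_pow, mul_one] at h2
    push_cast at h2
    exact h2
  have hp1 : O.valuation (p : L) ≤ O.valuation π := by
    have h2 := (O.valuation_le_one_iff _).2 hpπ
    rw [map_div₀, div_le_one₀ hpos] at h2
    exact h2
  have hr1 : O.valuation (r : L) ≤ 1 := (O.valuation_le_one_iff _).2 r.2
  have hy1 : O.valuation (z - 1) ≤ 1 :=
    (O.valuation_le_one_iff _).2 (O.toSubring.sub_mem hzO O.toSubring.one_mem)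
  have hw : ∀ a b : O.ValueGroup, O.valuation (z - 1) ≤ b →
      O.valuation ((p : L) * (z - 1) * (r : L)) ≤ O.valuation π * b := by
    intro a b hb
    rw [map_mul, map_mul]
    calc O.valuation (p : L) * O.valuation (z - 1) * O.valuation (r : L)
        ≤ O.valuation (p : L) * O.valuation (z - 1) * 1 := mul_le_mul_right hr1 _
      _ = O.valuation (p : L) * O.valuation (z - 1) := mul_one _
      _ ≤ O.valuation π * b := mul_le_mul' hp1 hb
  have e1 : (z - 1) ^ p = π * s - (p : L) * (z - 1) * (r : L) := by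
    linear_combination -hr' - hz
  have hy : O.valuation (z - 1) < 1 := by
    apply lt_one_of_pow (n := p)
    rw [← map_pow, e1]
    refine Valuation.map_sub_lt _ hπs ?_
    refine (hw 1 1 hy1).trans_lt ?_
    rw [mul_one]
    exact hπ
  have hy' := hmin _ hy
  have e2 : π * s = (z - 1) ^ p + (p : L) * (z - 1) * (r : L) := by rw [e1]; ring
  have h5 : O.valuation (π * s) ≤ O.valuation π * O.valuation π := by
    rw [e2]
    refine Valuation.map_add_le _ ?_ (hw 1 _ hy')
    rw [map_pow, ← sq]
    exact (pow_le_pow_left₀ zero_le hy' p).trans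
      (pow_le_pow_of_le_one zero_le hπ.le hp.two_le)
  rw [map_mul] at h5
  exact (le_of_mul_le_mul_left h5 hpos).trans_lt hπ

theorem t_CASE1 : S_CASE1 := by
  intro L _ _ O K₀ p π hp hπK hπ0 hπn hpπ hK hR hn ht
  obtain ⟨t, m, ht0, htn, htmax, hπt⟩ := ht
  have hw1 : O.valuation π < 1 := hπn
  have hwt : O.valuation t < 1 := htn
  have hwt0 : O.valuation t ≠ 0 := (Valuation.ne_zero_iff _).2 ht0
  have hwπ0 : O.valuation π ≠ 0 := (Valuation.ne_zero_iff _).2 hπ0
  have hpos : 0 < O.valuation π := zero_lt_iff.2 hwπ0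
  -- step 1
  have hm0 : m ≠ 0 := by
    rintro rfl
    rw [pow_zero] at hπt
    exact hw1.ne hπt
  have hm1 : O.valuation π = O.valuation t := by
    obtain ⟨c, hcK, z, hc0, hz0, htc⟩ := hn m (by omega) t ht0
    obtain ⟨j, hj⟩ := hK c hcK hc0
    have h1 : O.valuation t = O.valuation (t ^ j * z) ^ m := by
      calc O.valuation t = O.valuation c * O.valuation z ^ m := by
            conv_lhs => rw [htc, map_mul, map_pow]
        _ = (O.valuation t ^ m) ^ j * O.valuation z ^ m := by rw [hj, hπt]
        _ = (O.valuation t ^ j) ^ m * O.valuation z ^ m := by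
            congr 1
            rw [← zpow_natCast, ← zpow_natCast, ← zpow_mul, ← zpow_mul, mul_comm]
        _ = O.valuation (t ^ j * z) ^ m := by rw [map_mul, map_zpow₀, mul_pow]
    have h2 : O.valuation (t ^ j * z) < 1 := lt_one_of_pow (n := m) (by rw [← h1]; exact hwt)
    have h3 : O.valuation (t ^ j * z) ≤ O.valuation t := htmax _ h2
    by_contra hne
    have hm2 : 1 < m := by
      rcases Nat.lt_or_ge 1 m with h | h
      · exact h
      · exfalso
        apply hne
        have : m = 1 := by omega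
        rw [hπt, this, pow_one]
    have h0 : 0 < O.valuation (t ^ j * z) := by
      rw [zero_lt_iff, Valuation.ne_zero_iff]
      exact mul_ne_zero (zpow_ne_zero _ ht0) hz0
    have h4 : O.valuation (t ^ j * z) ^ m < O.valuation (t ^ j * z) :=
      pow_lt_self_of_lt_one₀ h0 h2 hm2
    exact absurd (h3.trans_eq h1) (not_le.2 h4)
  have hmin : ∀ x, O.valuation x < 1 → O.valuation x ≤ O.valuation π := fun x hx => by
    rw [hm1]; exact htmax x hx
  -- step 2
  have hunit : ∀ s : L, O.valuation s ≤ 1 → O.valuation (1 + π * s) = 1 := by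
    intro s hs
    apply Valuation.map_one_add_of_lt
    rw [map_mul]
    calc O.valuation π * O.valuation s ≤ O.valuation π * 1 := mul_le_mul_right hs _
      _ < 1 := by rw [mul_one]; exact hw1
  have claimB : ∀ s s' z : L, O.valuation s ≤ 1 → O.valuation s' ≤ 1 →
      1 + π * s = (1 + π * s') * z ^ p → O.valuation (s - s') < 1 := by
    intro s s' z hs hs' hz
    have hu := hunit s' hs'
    have hu0 : 1 + π * s' ≠ 0 := (Valuation.ne_zero_iff O.valuation).1 (by rw [hu]; exact one_ne_zero)
    have h1 : 1 + π * ((s - s') / (1 + π * s')) = z ^ p := by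
      field_simp
      linear_combination hz
    have h2 : O.valuation ((s - s') / (1 + π * s')) = O.valuation (s - s') := by
      rw [map_div₀, hu, div_one]
    have h3 := claimA O hp hπ0 hw1 hpπ hmin (s := (s - s') / (1 + π * s')) (z := z)
      (by
        rw [h2]
        exact Valuation.map_sub_le _ hs hs') h1
    rwa [h2] at h3
  have hfin : Finite (IsLocalRing.ResidueField O) := by
    obtain ⟨R, hR⟩ := hR
    have hne : ∀ s : O, (1 + π * (s : L)) ≠ 0 := fun s =>
      (Valuation.ne_zero_iff O.valuation).1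
        (by rw [hunit s ((O.valuation_le_one_iff _).2 s.2)]; exact one_ne_zero)
    choose r hr z hz using fun s : O => hR (1 + π * s) (hne s)
    have hsurj : Function.Surjective (IsLocalRing.residue O) := IsLocalRing.residue_surjective
    refine Finite.of_injective (β := R)
      (fun a => ⟨r (Function.surjInv hsurj a), hr (Function.surjInv hsurj a)⟩) ?_
    intro a b hab
    have hab' : r (Function.surjInv hsurj a) = r (Function.surjInv hsurj b) :=
      congrArg (fun x : R => (x : L)) hab
    obtain ⟨s, hs⟩ : ∃ s, s = Function.surjInv hsurj a := ⟨_, rfl⟩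
    obtain ⟨s', hs'⟩ : ∃ s', s' = Function.surjInv hsurj b := ⟨_, rfl⟩
    rw [← hs, ← hs'] at hab'
    have h1 : O.valuation ((s : L) - s') < 1 := by
      have hz' : z s' ≠ 0 := by
        intro h
        have h2 := hz s'
        rw [h, zero_pow hp.ne_zero, mul_zero] at h2
        exact hne s' h2
      refine claimB s s' (z s / z s') ((O.valuation_le_one_iff _).2 s.2)
        ((O.valuation_le_one_iff _).2 s'.2) ?_
      rw [hz s, hz s', hab', div_pow]
      field_simp
    have h2 : s - s' ∈ IsLocalRing.maximalIdeal O :=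
      (O.valuation_lt_one_iff (s - s')).2 h1
    have h3 : IsLocalRing.residue O s = IsLocalRing.residue O s' := by
      rw [← sub_eq_zero, ← map_sub]
      exact (IsLocalRing.residue_eq_zero_iff _).2 h2
    rw [hs, hs', Function.surjInv_eq hsurj, Function.surjInv_eq hsurj] at h3
    exact h3
  -- step 3
  have := Fintype.ofFinite (IsLocalRing.ResidueField O)
  obtain ⟨N, hN⟩ : ∃ N, N = Fintype.card (IsLocalRing.ResidueField O) - 1 := ⟨_, rfl⟩
  have hN1 : 1 ≤ N := by
    have := Fintype.one_lt_card (α := IsLocalRing.ResidueField O)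
    omega
  intro x hx
  have hx1 := (O.valuation_le_one_iff x).2 hx
  by_cases hxl : O.valuation x < 1
  · refine ⟨0, K₀.zero_mem, O.toSubring.zero_mem, ?_⟩
    rw [sub_zero]
    exact hmin x hxl
  have hx1' : O.valuation x = 1 := le_antisymm hx1 (not_lt.1 hxl)
  have hx0 : x ≠ 0 := (Valuation.ne_zero_iff O.valuation).1 (by rw [hx1']; exact one_ne_zero)
  obtain ⟨c, hcK, z, hc0, hz0, hxc⟩ := hn N hN1 x hx0
  obtain ⟨j, hj⟩ := hK c hcK hc0
  have hNZ : (0 : ℤ) < N := by exact_mod_cast hN1
  obtain ⟨i, hi⟩ : ∃ i : ℤ, i = (-j) / N := ⟨_, rfl⟩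
  obtain ⟨r, hr⟩ : ∃ r : ℕ, (r : ℤ) = (-j) % N :=
    ⟨((-j) % N).toNat, Int.toNat_of_nonneg (Int.emod_nonneg _ hNZ.ne')⟩
  have hrN : r < N := by
    have := Int.emod_lt_of_pos (-j) hNZ
    omega
  have hji : -j = N * i + r := by
    rw [hi, hr]
    exact (Int.mul_ediv_add_emod (-j) N).symm
  obtain ⟨v, hv⟩ : ∃ v, v = z / π ^ i := ⟨_, rfl⟩
  have hπi : π ^ i ≠ 0 := zpow_ne_zero _ hπ0
  have h1 : O.valuation π ^ j * O.valuation z ^ N = 1 := by
    rw [← hx1', hxc, map_mul, map_pow, hj]
  have hwv : O.valuation v ^ N = O.valuation π ^ r := by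
    have h2 : O.valuation z ^ N = O.valuation π ^ (-j) := by
      rw [zpow_neg]
      exact eq_inv_of_mul_eq_one_right h1
    rw [hv, map_div₀, div_pow, h2, hji, zpow_add₀ hwπ0, map_zpow₀, zpow_natCast, mul_comm (N : ℤ) i,
      zpow_mul, zpow_natCast, mul_div_assoc, mul_comm, div_mul_cancel₀]
    exact pow_ne_zero _ (zpow_ne_zero _ hwπ0)
  have hv1 : O.valuation v = 1 := by
    rcases Nat.eq_zero_or_pos r with h2 | h2
    · rw [h2, pow_zero] at hwv
      exact eq_one_of_pow (by omega) hwv
    · exfalso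
      have h3 : O.valuation v < 1 := lt_one_of_pow (n := N) (by
        rw [hwv]
        exact pow_lt_one₀ zero_le hw1 (by omega))
      have h4 := pow_le_pow_left₀ zero_le (hmin v h3) N
      rw [hwv] at h4
      have h5 : O.valuation π ^ N < O.valuation π ^ r :=
        pow_lt_pow_right_of_lt_one₀ hpos hw1 hrN
      exact absurd h4 (not_le.2 h5)
  obtain ⟨c', hc'⟩ : ∃ c', c' = c * (π ^ i) ^ N := ⟨_, rfl⟩
  have hc'K : c' ∈ K₀ := by
    rw [hc']
    exact K₀.mul_mem hcK (pow_mem (zpow_mem hπK i) N)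
  have hxc' : x = c' * v ^ N := by
    rw [hc', hv, div_pow, hxc]
    field_simp
  have hwc' : O.valuation c' = 1 := by
    have h2 : O.valuation x = O.valuation c' * O.valuation v ^ N := by rw [hxc', map_mul, map_pow]
    rw [hx1', hv1, one_pow, mul_one] at h2
    exact h2.symm
  refine ⟨c', hc'K, (O.valuation_le_one_iff _).1 hwc'.le, ?_⟩
  have e1 : x - c' = c' * (v ^ N - 1) := by rw [hxc']; ring
  rw [e1, map_mul, hwc', one_mul]
  apply hmin
  have hvO : v ∈ O := (O.valuation_le_one_iff v).1 hv1.le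
  have hres : IsLocalRing.residue O ⟨v, hvO⟩ ≠ 0 := by
    rw [Ne, IsLocalRing.residue_eq_zero_iff, O.valuation_lt_one_iff]
    exact fun h => h.ne hv1
  have h2 : IsLocalRing.residue O (⟨v, hvO⟩ ^ N - 1) = 0 := by
    rw [map_sub, map_pow, map_one, hN, FiniteField.pow_card_sub_one_eq_one _ hres, sub_self]
  have h3 := (O.valuation_lt_one_iff _).1 ((IsLocalRing.residue_eq_zero_iff _).1 h2)
  exact h3

end Pool.Agent.N890.KO.CASE1
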