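import Pool.Agent.N890.KO.Stm

/-!
# KO-CASE2: non-discrete valuations
-/

set_option autoImplicit false

namespace Pool.Agent.N890.KO.CASE2

open Pool.Agent.N890.KO

variable {L : Type} [Field L] {Γ : Type} [LinearOrderedCommGroupWithZero Γ] (v : Valuation L Γ)

theorem v_nat_le (n : ℕ) : v (n : L) ≤ 1 := by
  induction n with
  | zero => rw [Nat.cast_zero, map_zero]; exact zero_le_one
  | succ n ih =>
    rw [Nat.cast_succ]
    exact v.map_add_le ih (by rw [map_one])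

/-- the expansion of `(1 + y)^p` -/
theorem expand {p : ℕ} (hp : p.Prime) (y : L) (hy : v y ≤ 1) :
    ∃ u, v u ≤ 1 ∧ (1 + y) ^ p = 1 + y ^ p + p * y * u := by
  refine ⟨∑ k ∈ Finset.Ioo 0 p, (1 : L) ^ (k - 1) * y ^ (p - k - 1) * ↑(p.choose k / p), ?_,
    (add_pow_prime_eq hp 1 y).trans ?_⟩
  · refine v.map_sum_le fun k _ => ?_
    rw [one_pow, one_mul, map_mul, map_pow]
    exact mul_le_one' (pow_le_one' hy _) (v_nat_le v _)
  · rw [one_pow]
    ring

theorem lt_of_pow {a b : Γ} {n : ℕ} (h : a ^ n < b ^ n) : a < b := by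
  by_contra h1
  exact absurd h (not_lt.2 (pow_le_pow_left' (not_lt.1 h1) n))

theorem lt_one_of_pow {a : Γ} {n : ℕ} (h : a ^ n < 1) : a < 1 :=
  lt_of_pow (n := n) (by rwa [one_pow])

theorem eq_of_pow {a b : Γ} {n : ℕ} (hn : n ≠ 0) (h : a ^ n = b ^ n) : a = b := by
  rcases lt_trichotomy a b with h1 | h1 | h1
  · exact absurd h (pow_lt_pow_left₀ h1 zero_le hn).ne
  · exact h1
  · exact absurd h.symm (pow_lt_pow_left₀ h1 zero_le hn).ne

theorem root {p : ℕ} (hp : p.Prime) (hv : v (p : L) < 1) (x z : L) (hx : v x < 1)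
    (h : 1 + x = z ^ p) : ∃ y u, v y < 1 ∧ v u ≤ 1 ∧ x = y ^ p + p * y * u := by
  have h1 : v z ≤ 1 := by
    by_contra h2
    have h3 : v (z ^ p) ≤ 1 := by
      rw [← h]
      exact v.map_add_le (by rw [map_one]) hx.le
    rw [map_pow] at h3
    exact h2 ((pow_le_one_iff hp.ne_zero).1 h3)
  have h4 : v (z - 1) ≤ 1 := v.map_sub_le h1 (by rw [map_one])
  obtain ⟨u, hu, hy⟩ := expand v hp (z - 1) h4
  have h5 : x = (z - 1) ^ p + p * (z - 1) * u := by
    rw [show 1 + (z - 1) = z by ring, ← h] at hy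
    linear_combination hy
  refine ⟨z - 1, u, ?_, hu, h5⟩
  have h6 : v ((z - 1) ^ p) < 1 := by
    rw [show (z - 1) ^ p = x - p * (z - 1) * u by linear_combination -h5]
    refine v.map_sub_lt hx ?_
    rw [map_mul, map_mul]
    calc v (p : L) * v (z - 1) * v u ≤ v (p : L) * 1 * 1 := by gcongr
      _ < 1 := by rwa [mul_one, mul_one]
  rw [map_pow] at h6
  exact lt_one_of_pow h6

theorem v_one_add {x : L} (hx : v x < 1) : v (1 + x) = 1 := v.map_one_add_of_lt hx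

theorem ne_of_lt_one {x : L} (hx : v x < 1) : 1 + x ≠ 0 := by
  intro h
  have := v_one_add v hx
  rw [h, map_zero] at this
  exact zero_ne_one this

/-- pigeonhole -/
theorem pigeon {p : ℕ} (hR : ∃ R : Finset L, ∀ y : L, y ≠ 0 → ∃ r ∈ R, ∃ z, y = r * z ^ p)
    (S : Set Γ) (hS : S.Infinite) (f : Γ → L) (hf : ∀ γ ∈ S, f γ ≠ 0) :
    ∃ γ ∈ S, ∃ δ ∈ S, δ < γ ∧ ∃ z, f γ / f δ = z ^ p := by
  classical
  obtain ⟨R, hR⟩ := hR
  choose! g hg using fun (y : L) (hy : y ≠ 0) => hR y hy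
  have hm : Set.MapsTo (fun γ => g (f γ)) S (R : Set L) := fun γ hγ => (hg _ (hf γ hγ)).1
  obtain ⟨a, ha, b, hb, hab, he⟩ := hS.exists_ne_map_eq_of_mapsTo hm R.finite_toSet
  have key : ∀ a ∈ S, ∀ b ∈ S, g (f a) = g (f b) → ∃ z, f a / f b = z ^ p := by
    intro a ha b hb he
    obtain ⟨_, z, hz⟩ := hg _ (hf a ha)
    obtain ⟨_, z', hz'⟩ := hg _ (hf b hb)
    have h0 : g (f b) ≠ 0 := by
      intro h
      rw [h, zero_mul] at hz'
      exact hf b hb hz'
    refine ⟨z / z', ?_⟩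
    rw [hz, hz', he, div_pow, mul_div_mul_left _ _ h0]
  rcases lt_or_gt_of_ne hab with h | h
  · exact ⟨b, hb, a, ha, h, key b hb a ha he.symm⟩
  · exact ⟨a, ha, b, hb, h, key a ha b hb he⟩

/-- the set `G` is finite -/
theorem G_fin (hs : Function.Surjective v) {p : ℕ} (hp : p.Prime) (hv : v (p : L) < 1)
    (hR : ∃ R : Finset L, ∀ y : L, y ≠ 0 → ∃ r ∈ R, ∃ z, y = r * z ^ p) :
    {γ : Γ | v (p : L) ≤ γ ∧ γ < 1 ∧ ∀ δ : Γ, γ ≠ δ ^ p}.Finite := by
  by_contra hinf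
  set X : Γ → L := Function.surjInv hs with hX
  have hXv : ∀ γ, v (X γ) = γ := Function.surjInv_eq hs
  obtain ⟨γ, hγ, δ, hδ, hlt, z, hz⟩ := pigeon hR _ hinf (fun γ => 1 + X γ) (by
    intro γ hγ
    exact ne_of_lt_one v (by rw [hXv]; exact hγ.2.1))
  have hd1 : v (1 + X δ) = 1 := v_one_add v (by rw [hXv]; exact hδ.2.1)
  have hd0 : 1 + X δ ≠ 0 := ne_of_lt_one v (by rw [hXv]; exact hδ.2.1)
  have hq : 1 + (X γ - X δ) / (1 + X δ) = z ^ p := by
    rw [← hz]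
    field_simp
    ring
  have hvq : v ((X γ - X δ) / (1 + X δ)) = γ := by
    rw [map_div₀, hd1, div_one, v.map_sub_eq_of_lt_left, hXv]
    rw [hXv, hXv]
    exact hlt
  obtain ⟨y, u, hy, hu, he⟩ := root v hp hv _ z (by rw [hvq]; exact hγ.2.1) hq
  have h1 : v ((p : L) * y * u) < γ := by
    rw [map_mul, map_mul]
    rcases eq_or_ne (v (p : L)) 0 with h0 | h0
    · rw [h0, zero_mul, zero_mul]
      exact lt_of_le_of_lt zero_le hlt
    · calc v (p : L) * v y * v u ≤ v (p : L) * v y * 1 := by gcongr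
        _ < v (p : L) * 1 := by
          rw [mul_one]
          exact mul_lt_mul_of_pos_left hy (zero_lt_iff.2 h0)
        _ = v (p : L) := mul_one _
        _ ≤ γ := hγ.1
  have h2 : v (y ^ p) = γ := by
    rw [show y ^ p = (X γ - X δ) / (1 + X δ) - p * y * u by linear_combination -he,
      v.map_sub_eq_of_lt_left]
    · exact hvq
    · rw [hvq]; exact h1
  exact hγ.2.2 (v y) (by rw [← map_pow, h2])

/-- the set `W` is finite if there is a unit which is not a `p`-th power in the residue field -/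
theorem W_fin (hs : Function.Surjective v) {p : ℕ} (hp : p.Prime) (hv : v (p : L) < 1)
    (hR : ∃ R : Finset L, ∀ y : L, y ≠ 0 → ∃ r ∈ R, ∃ z, y = r * z ^ p)
    (η : L) (hη : v η = 1) (hη' : ∀ ζ, ¬ v (η - ζ ^ p) < 1) :
    {γ : Γ | v (p : L) < γ ^ p ∧ γ < 1}.Finite := by
  by_contra hinf
  set X : Γ → L := Function.surjInv hs with hX
  have hXv : ∀ γ, v (X γ) = γ := Function.surjInv_eq hs
  have hXη : ∀ γ, γ < 1 → v (X γ ^ p * η) < 1 := by
    intro γ hγ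
    rw [map_mul, map_pow, hXv, hη, mul_one]
    exact pow_lt_one₀ zero_le hγ hp.ne_zero
  obtain ⟨γ, hγ, δ, hδ, hlt, z, hz⟩ := pigeon hR _ hinf (fun γ => 1 + X γ ^ p * η) (by
    intro γ hγ
    exact ne_of_lt_one v (hXη γ hγ.2))
  have hd1 : v (1 + X δ ^ p * η) = 1 := v_one_add v (hXη δ hδ.2)
  have hd0 : 1 + X δ ^ p * η ≠ 0 := ne_of_lt_one v (hXη δ hδ.2)
  have hγ0 : γ ≠ 0 := by
    rintro rfl
    exact absurd hlt (not_lt.2 zero_le)
  have hXγ0 : X γ ≠ 0 := by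
    intro h
    apply hγ0
    rw [← hXv γ, h, map_zero]
  set η' : L := (1 - (X δ / X γ) ^ p) * η / (1 + X δ ^ p * η) with hη''
  have hq : 1 + X γ ^ p * η' = z ^ p := by
    rw [← hz, hη'', div_pow]
    field_simp
    ring
  have hr : v ((X δ / X γ) ^ p) < 1 := by
    rw [map_pow, map_div₀, hXv, hXv]
    refine pow_lt_one₀ zero_le ?_ hp.ne_zero
    exact (div_lt_one₀ (zero_lt_iff.2 hγ0)).2 hlt
  have hη1 : v η' = 1 := by
    rw [hη'', map_div₀, map_mul, hη, hd1, div_one, mul_one, v.map_one_sub_of_lt hr]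
  have hvq : v (X γ ^ p * η') = γ ^ p := by
    rw [map_mul, map_pow, hXv, hη1, mul_one]
  obtain ⟨y, u, hy, hu, he⟩ := root v hp hv _ z
    (by rw [hvq]; exact pow_lt_one₀ zero_le hγ.2 hp.ne_zero) hq
  have h1 : v ((p : L) * y * u) < γ ^ p := by
    rw [map_mul, map_mul]
    calc v (p : L) * v y * v u ≤ v (p : L) * 1 * 1 := by gcongr
      _ = v (p : L) := by rw [mul_one, mul_one]
      _ < γ ^ p := hγ.1
  have h2 : v (y ^ p) = γ ^ p := by
    rw [show y ^ p = X γ ^ p * η' - p * y * u by linear_combination -he,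
      v.map_sub_eq_of_lt_left]
    · exact hvq
    · rw [hvq]; exact h1
  have hyγ : v y = γ := eq_of_pow hp.ne_zero (by rw [← map_pow, h2])
  apply hη' (y / X γ)
  have h3 : η' - (y / X γ) ^ p = p * y * u / X γ ^ p := by
    rw [div_pow]
    field_simp
    linear_combination he
  have h4 : v (η' - (y / X γ) ^ p) < 1 := by
    rw [h3, map_div₀, map_pow, hXv]
    exact (div_lt_one₀ (pow_pos (zero_lt_iff.2 hγ0) p)).2 h1
  have h5 : η - η' = η * ((X δ / X γ) ^ p + X δ ^ p * η) / (1 + X δ ^ p * η) := by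
    rw [hη'', eq_div_iff hd0, sub_mul, div_mul_cancel₀ _ hd0]
    ring
  have h6 : v (η - η') < 1 := by
    rw [h5, map_div₀, map_mul, hη, hd1, one_mul, div_one]
    exact v.map_add_lt hr (hXη δ hδ.2)
  rw [show η - (y / X γ) ^ p = (η - η') + (η' - (y / X γ) ^ p) by ring]
  exact v.map_add_lt h6 h4

/-- the set `V` is infinite -/
theorem V_inf (hs : Function.Surjective v) {π : L} (hπ : v π < 1) (hπ0 : π ≠ 0)
    (hN : ¬ (∃ (t : L) (m : ℕ), t ≠ 0 ∧ v t < 1 ∧ (∀ x, v x < 1 → v x ≤ v t) ∧ v π = v t ^ m)) :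
    {γ : Γ | v π < γ ∧ γ < 1}.Infinite := by
  intro hfin
  apply hN
  have hv0 : v π ≠ 0 := (v.ne_zero_iff).2 hπ0
  have hfin' : {γ : Γ | v π ≤ γ ∧ γ < 1}.Finite := by
    refine (hfin.union (Set.finite_singleton (v π))).subset ?_
    rintro γ ⟨h1, h2⟩
    rcases h1.lt_or_eq with h | h
    · exact Or.inl ⟨h, h2⟩
    · exact Or.inr h.symm
  obtain ⟨γ, hγ, hmax⟩ := Set.exists_max_image _ (fun x => x) hfin' ⟨v π, le_refl _, hπ⟩
  obtain ⟨t, rfl⟩ := hs γ
  have ht0 : v t ≠ 0 := by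
    intro h
    have := hγ.1
    rw [h] at this
    exact hv0 (le_antisymm this zero_le)
  have hmax' : ∀ γ : Γ, γ < 1 → γ ≤ v t := by
    intro γ h1
    rcases le_or_gt (v π) γ with h | h
    · exact hmax γ ⟨h, h1⟩
    · exact h.le.trans hγ.1
  obtain ⟨j, hj⟩ : ∃ j, v t ^ j < v π := by
    by_contra hcon
    push Not at hcon
    have hinj : Set.InjOn (fun j : ℕ => v t ^ (j + 1)) Set.univ := by
      intro i _ j _ h
      simp only at h
      by_contra hne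
      rcases lt_or_gt_of_ne hne with h' | h'
      · exact absurd h (pow_lt_pow_right_of_lt_one₀ (zero_lt_iff.2 ht0) hγ.2 (by omega)).ne'
      · exact absurd h (pow_lt_pow_right_of_lt_one₀ (zero_lt_iff.2 ht0) hγ.2 (by omega)).ne
    have := Set.infinite_of_injOn_mapsTo hinj (t := {γ : Γ | v π ≤ γ ∧ γ < 1}) (by
      intro j _
      exact ⟨hcon _, pow_lt_one₀ zero_le hγ.2 (Nat.succ_ne_zero j)⟩) Set.infinite_univ
    exact this hfin'
  classical
  have hj' := Nat.find_spec (⟨j, hj⟩ : ∃ j, v t ^ j < v π)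
  set i := Nat.find (⟨j, hj⟩ : ∃ j, v t ^ j < v π) with hi
  have hi0 : i ≠ 0 := by
    intro h
    rw [h, pow_zero] at hj'
    exact absurd hπ (not_lt.2 hj'.le)
  obtain ⟨l, hl⟩ := Nat.exists_eq_succ_of_ne_zero hi0
  have h1 : v π ≤ v t ^ l := by
    have := Nat.find_min (⟨j, hj⟩ : ∃ j, v t ^ j < v π) (m := l) (by rw [← hi, hl]; omega)
    exact not_lt.1 this
  refine ⟨t, l, (v.ne_zero_iff).1 ht0, hγ.2, fun x hx => hmax' _ hx, ?_⟩
  rcases h1.lt_or_eq with h | h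
  · exfalso
    have h2 : v π / v t ^ l < 1 := (div_lt_one₀ (pow_pos (zero_lt_iff.2 ht0) l)).2 h
    have h3 := hmax' _ h2
    rw [div_le_iff₀ (pow_pos (zero_lt_iff.2 ht0) l)] at h3
    rw [hl, pow_succ, mul_comm] at hj'
    exact absurd hj' (not_lt.2 h3)
  · exact h

theorem main (hs : Function.Surjective v) {p : ℕ} (hp : p.Prime)
    {π : L} (hπ : v π < 1) (hπ0 : π ≠ 0) (hpπ : v (p : L) ≤ v π)
    (hR : ∃ R : Finset L, ∀ y : L, y ≠ 0 → ∃ r ∈ R, ∃ z, y = r * z ^ p)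
    (hN : ¬ (∃ (t : L) (m : ℕ), t ≠ 0 ∧ v t < 1 ∧ (∀ x, v x < 1 → v x ≤ v t) ∧ v π = v t ^ m)) :
    ∃ z y : L, v y < 1 ∧ π = z ^ p * (1 + y) := by
  have hv : v (p : L) < 1 := lt_of_le_of_lt hpπ hπ
  have hv0 : v π ≠ 0 := (v.ne_zero_iff).2 hπ0
  have hG := G_fin v hs hp hv hR
  have hV := V_inf v hs hπ hπ0 hN
  -- `W'` is infinite
  have hW' : {γ : Γ | v π < γ ^ p ∧ γ < 1}.Infinite := by
    intro hfin
    apply hV
    refine (hG.union (hfin.image fun γ => γ ^ p)).subset ?_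
    rintro γ ⟨h1, h2⟩
    by_cases h : ∃ δ : Γ, γ = δ ^ p
    · obtain ⟨δ, rfl⟩ := h
      exact Or.inr ⟨δ, ⟨h1, lt_one_of_pow h2⟩, rfl⟩
    · push Not at h
      exact Or.inl ⟨hpπ.trans h1.le, h2, h⟩
  -- the value of `π` is a `p`-th power
  obtain ⟨δ, hδ⟩ : ∃ δ : Γ, v π = δ ^ p := by
    by_contra hcon
    push Not at hcon
    have := Set.infinite_of_injOn_mapsTo (f := fun γ : Γ => v π / γ ^ p)
      (s := {γ : Γ | v π < γ ^ p ∧ γ < 1})
      (t := {γ : Γ | v (p : L) ≤ γ ∧ γ < 1 ∧ ∀ δ : Γ, γ ≠ δ ^ p}) ?_ ?_ hW'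
    · exact this hG
    · intro a ha b hb h
      simp only at h
      have h1 : a ^ p = b ^ p := by
        rw [div_eq_mul_inv, div_eq_mul_inv] at h
        exact inv_injective (mul_left_cancel₀ hv0 h)
      exact eq_of_pow hp.ne_zero h1
    · intro a ha
      have ha0 : 0 < a ^ p := lt_of_le_of_lt zero_le ha.1
      refine ⟨?_, ?_, ?_⟩
      · refine hpπ.trans ?_
        rw [le_div_iff₀ ha0]
        exact mul_le_of_le_one_right' (pow_le_one' ha.2.le p)
      · exact (div_lt_one₀ ha0).2 ha.1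
      · intro δ h
        apply hcon (δ * a)
        rw [mul_pow, ← h, div_mul_cancel₀ _ ha0.ne']
  obtain ⟨z0, rfl⟩ := hs δ
  have hz0 : v z0 ≠ 0 := by
    intro h
    rw [h, zero_pow hp.ne_zero] at hδ
    exact hv0 hδ
  have hz0' : z0 ≠ 0 := (v.ne_zero_iff).1 hz0
  set η : L := π / z0 ^ p with hη
  have hη1 : v η = 1 := by
    rw [hη, map_div₀, map_pow, hδ, div_self (pow_ne_zero p hz0)]
  obtain ⟨ζ, hζ⟩ : ∃ ζ, v (η - ζ ^ p) < 1 := by
    by_contra hcon
    push Not at hcon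
    have hW := W_fin v hs hp hv hR η hη1 (fun ζ => not_lt.2 (hcon ζ))
    exact hW' (hW.subset fun γ hγ => ⟨lt_of_le_of_lt hpπ hγ.1, hγ.2⟩)
  have hζ1 : v (ζ ^ p) = 1 := by
    rw [show ζ ^ p = η - (η - ζ ^ p) by ring, v.map_sub_eq_of_lt_left, hη1]
    rw [hη1]
    exact hζ
  have hζ0 : ζ ^ p ≠ 0 := by
    intro h
    rw [h, map_zero] at hζ1
    exact zero_ne_one hζ1
  refine ⟨z0 * ζ, (η - ζ ^ p) / ζ ^ p, ?_, ?_⟩
  · rw [map_div₀, hζ1, div_one]
    exact hζ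
  · rw [mul_pow, hη]
    have : z0 ^ p ≠ 0 := pow_ne_zero p hz0'
    field_simp
    ring

theorem t_CASE2 : S_CASE2 := by
  intro L _ _ O p π hp hπ0 hπ hpπ hR hN
  have hv0 : O.valuation π ≠ 0 := (O.valuation.ne_zero_iff).2 hπ0
  have h1 : O.valuation (p : L) ≤ O.valuation π := by
    have := (O.valuation_le_one_iff _).2 hpπ
    rw [map_div₀, div_le_one₀ (zero_lt_iff.2 hv0)] at this
    exact this
  exact main O.valuation O.valuation_surjective hp hπ hπ0 h1 hR hN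

end Pool.Agent.N890.KO.CASE2

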