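import Pool.Agent.N890.KO.Stm2

/-!
Project KO (helper890), leaf CNT (helper608): continuity of sections.
-/

set_option autoImplicit false

namespace Pool.Agent.N890.KO.CNT

open Pool.Agent.N890.KO

theorem t_CNT : S_CNT := by
  intro k L Ω B _ _ _ _ _ _ _ _ _ _ _ s y
  have hy : IsIntegral L y := (IsAlgClosure.isAlgebraic (R := L) (K := Ω)).isAlgebraic y |>.isIntegral
  have : FiniteDimensional L (IntermediateField.adjoin L {y}) :=
    IntermediateField.adjoin.finiteDimensional hy
  have h1 : IsOpen ((IntermediateField.adjoin L {y}).fixingSubgroup : Set (Ω ≃ₐ[L] Ω)) :=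
    IntermediateField.fixingSubgroup_isOpen _
  have h2 : IsOpen (s.s ⁻¹' ((IntermediateField.adjoin L {y}).fixingSubgroup :
      Set (Ω ≃ₐ[L] Ω))) := h1.preimage s.cont
  have h3 : s.s ⁻¹' ((IntermediateField.adjoin L {y}).fixingSubgroup :
      Set (Ω ≃ₐ[L] Ω)) ∈ nhds (1 : B ≃ₐ[k] B) := by
    refine h2.mem_nhds ?_
    rw [Set.mem_preimage, map_one]
    exact Subgroup.one_mem _
  rw [krullTopology_mem_nhds_one_iff] at h3
  obtain ⟨M, hM, hsub⟩ := h3
  refine ⟨M, hM, fun g hg => ?_⟩
  have h4 : s.s g ∈ (IntermediateField.adjoin L {y}).fixingSubgroup := by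
    have h5 : g ∈ (M.fixingSubgroup : Set (B ≃ₐ[k] B)) := by
      rw [SetLike.mem_coe, IntermediateField.mem_fixingSubgroup_iff]
      exact hg
    exact hsub h5
  rw [IntermediateField.mem_fixingSubgroup_iff] at h4
  exact h4 y (IntermediateField.mem_adjoin_simple_self L y)

end Pool.Agent.N890.KO.CNT
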