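import Pool.Agent.N890.KO.Stm

/-!
# Project KO: constants in `k`, lifted from the residue field (helper353)
-/

set_option autoImplicit false

namespace Pool.Agent.N890.KO.CONST

open Pool.Agent.N890.KO

section res

variable {k : Type} [Field k]

/-- the valuation ring of a non-archimedean absolute value -/
def vr (w : AbsoluteValue k ℝ) (hna : ∀ x y, w (x + y) ≤ max (w x) (w y)) :
    ValuationSubring k where
  carrier := {x | w x ≤ 1}
  mul_mem' := by
    intro x y hx hy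
    show w (x * y) ≤ 1
    rw [map_mul]
    exact mul_le_one₀ hx (w.nonneg y) hy
  one_mem' := by
    show w 1 ≤ 1
    rw [map_one]
  add_mem' := by
    intro x y hx hy
    exact (hna x y).trans (max_le hx hy)
  zero_mem' := by
    show w 0 ≤ 1
    rw [map_zero]
    exact zero_le_one
  neg_mem' := by
    intro x hx
    show w (-x) ≤ 1
    rw [w.map_neg]
    exact hx
  mem_or_inv_mem' := by
    intro x
    by_cases h : w x ≤ 1
    · exact Or.inl h
    · right
      show w x⁻¹ ≤ 1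
      rw [map_inv₀]
      exact inv_le_one_of_one_le₀ (le_of_lt (not_le.1 h))

theorem isUnit_vr (w : AbsoluteValue k ℝ) (hna : ∀ x y, w (x + y) ≤ max (w x) (w y))
    (x : vr w hna) : IsUnit x ↔ w (x : k) = 1 := by
  have hx : w (x : k) ≤ 1 := x.2
  rw [isUnit_iff_exists_inv]
  constructor
  · rintro ⟨y, hy⟩
    have hy1 : w (y : k) ≤ 1 := y.2
    have h1 : w (x : k) * w (y : k) = 1 := by
      rw [← map_mul, ← map_one w]
      congr 1
      exact congrArg Subtype.val hy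
    apply le_antisymm hx
    have h2 := w.nonneg (x : k)
    nlinarith
  · intro h
    have h0 : (x : k) ≠ 0 := by
      intro h0
      rw [h0, map_zero] at h
      exact zero_ne_one h
    have h1 : w (x : k)⁻¹ ≤ 1 := by
      rw [map_inv₀, h, inv_one]
    exact ⟨⟨(x : k)⁻¹, h1⟩, Subtype.ext (mul_inv_cancel₀ h0)⟩

/-- the reduction map -/
structure Red (w : AbsoluteValue k ℝ) {κ : Type} [Field κ] (r : k → κ) : Prop where
  na : ∀ x y, w (x + y) ≤ max (w x) (w y)
  add : ∀ x y, w x ≤ 1 → w y ≤ 1 → r (x + y) = r x + r y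
  mul : ∀ x y, w x ≤ 1 → w y ≤ 1 → r (x * y) = r x * r y
  one : r 1 = 1
  zero : ∀ x, w x ≤ 1 → (r x = 0 ↔ w x < 1)
  surj : ∀ a, ∃ x, w x ≤ 1 ∧ r x = a

open Classical in
theorem exists_red (w : AbsoluteValue k ℝ) (hna : ∀ x y, w (x + y) ≤ max (w x) (w y))
    (hres : ∃ R : Finset k, ∀ x : k, w x ≤ 1 → ∃ s ∈ R, w (x - s) < 1) :
    ∃ (κ : Type) (_ : Field κ) (_ : Finite κ) (r : k → κ), Red w r := by
  let A := vr w hna
  have hmem : ∀ x : k, w x ≤ 1 → x ∈ A := fun x hx => hx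
  have hmem' : ∀ x : A, w (x : k) ≤ 1 := fun x => x.2
  have hz : ∀ x : A, IsLocalRing.residue A x = 0 ↔ w (x : k) < 1 := by
    intro x
    rw [IsLocalRing.residue_eq_zero_iff, IsLocalRing.mem_maximalIdeal, mem_nonunits_iff,
      isUnit_vr]
    exact ⟨fun h => lt_of_le_of_ne (hmem' x) h, fun h => ne_of_lt h⟩
  let r : k → IsLocalRing.ResidueField A := fun x =>
    if h : w x ≤ 1 then IsLocalRing.residue A ⟨x, h⟩ else 0
  have hr : ∀ (x : k) (h : w x ≤ 1), r x = IsLocalRing.residue A ⟨x, h⟩ := fun x h => dif_pos h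
  have hsurj : ∀ a, ∃ x, w x ≤ 1 ∧ r x = a := by
    intro a
    obtain ⟨x, rfl⟩ := IsLocalRing.residue_surjective a
    exact ⟨x, hmem' x, hr _ _⟩
  have hadd : ∀ x y, w x ≤ 1 → w y ≤ 1 → r (x + y) = r x + r y := by
    intro x y hx hy
    rw [hr _ hx, hr _ hy, hr _ ((hna x y).trans (max_le hx hy)), ← map_add]
    rfl
  have hmul : ∀ x y, w x ≤ 1 → w y ≤ 1 → r (x * y) = r x * r y := by
    intro x y hx hy
    have hxy : w (x * y) ≤ 1 := by
      rw [map_mul]
      exact mul_le_one₀ hx (w.nonneg y) hy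
    rw [hr _ hx, hr _ hy, hr _ hxy, ← map_mul]
    rfl
  have hone : r 1 = 1 := by
    have h1 : w 1 ≤ 1 := by rw [map_one]
    rw [hr _ h1, ← map_one (IsLocalRing.residue A)]
    rfl
  have hzero : ∀ x, w x ≤ 1 → (r x = 0 ↔ w x < 1) := by
    intro x hx
    rw [hr _ hx, hz]
  have hfin : Finite (IsLocalRing.ResidueField A) := by
    obtain ⟨R, hR⟩ := hres
    have h1 : (Set.univ : Set (IsLocalRing.ResidueField A)) ⊆ r '' (R : Set k) := by
      intro a _
      obtain ⟨x, hx, rfl⟩ := hsurj a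
      obtain ⟨s, hs, hxs⟩ := hR x hx
      have hs1 : w s ≤ 1 := by
        have e1 : s = x + -(x - s) := by ring
        rw [e1]
        refine (hna _ _).trans (max_le hx ?_)
        rw [w.map_neg]
        exact hxs.le
      refine ⟨s, hs, ?_⟩
      have h2 := hadd (x - s) s hxs.le hs1
      rw [sub_add_cancel, (hzero _ hxs.le).2 hxs, zero_add] at h2
      exact h2.symm
    exact Set.finite_univ_iff.1 ((R.finite_toSet.image r).subset h1)
  exact ⟨_, inferInstance, hfin, r, hna, hadd, hmul, hone, hzero, hsurj⟩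

end res

section red

variable {k : Type} [Field k] {w : AbsoluteValue k ℝ} {κ : Type} [Field κ] {r : k → κ}

theorem w_mul_le (x y : k) (hx : w x ≤ 1) (hy : w y ≤ 1) : w (x * y) ≤ 1 := by
  rw [map_mul]
  exact mul_le_one₀ hx (w.nonneg y) hy

theorem r_zero (h : Red w r) : r 0 = 0 := by
  have h1 : w 0 ≤ 1 := by rw [map_zero]; exact zero_le_one
  exact (h.zero 0 h1).2 (by rw [map_zero]; exact zero_lt_one)

theorem r_neg (h : Red w r) (x : k) (hx : w x ≤ 1) : r (-x) = -r x := by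
  have h1 : w (-x) ≤ 1 := by rw [w.map_neg]; exact hx
  have h2 := h.add x (-x) hx h1
  rw [add_neg_cancel, r_zero h] at h2
  exact (neg_eq_of_add_eq_zero_right h2.symm).symm

theorem r_sub (h : Red w r) (x y : k) (hx : w x ≤ 1) (hy : w y ≤ 1) : r (x - y) = r x - r y := by
  have h1 : w (-y) ≤ 1 := by rw [w.map_neg]; exact hy
  rw [sub_eq_add_neg, h.add x (-y) hx h1, r_neg h y hy, sub_eq_add_neg]

theorem w_pow_one {x : k} {n : ℕ} (hn : n ≠ 0) (h : w (x ^ n) = 1) : w x = 1 := by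
  rw [map_pow] at h
  exact (pow_eq_one_iff_of_nonneg (w.nonneg x) hn).1 h

theorem r_pow (h : Red w r) (x : k) (hx : w x ≤ 1) (n : ℕ) : w (x ^ n) ≤ 1 ∧ r (x ^ n) = r x ^ n := by
  induction n with
  | zero =>
    rw [pow_zero, pow_zero, map_one]
    exact ⟨le_rfl, h.one⟩
  | succ n ih =>
    rw [pow_succ, pow_succ]
    exact ⟨w_mul_le _ _ ih.1 hx, by rw [h.mul _ _ ih.1 hx, ih.2]⟩

theorem w_one_of (h : Red w r) {x : k} (hx : w x ≤ 1) (h0 : r x ≠ 0) : w x = 1 := by
  apply le_antisymm hx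
  by_contra h1
  exact h0 ((h.zero x hx).2 (not_le.1 h1))

theorem r_ne (h : Red w r) {x : k} (hx : w x = 1) : r x ≠ 0 := by
  intro h0
  have h1 := (h.zero x hx.le).1 h0
  rw [hx] at h1
  exact lt_irrefl _ h1

theorem w_div {x y : k} (hx : w x = 1) (hy : w y = 1) : w (x / y) = 1 := by
  rw [map_div₀, hx, hy, div_one]

theorem ne_zero_of {x : k} (hx : w x = 1) : x ≠ 0 := by
  intro h0
  rw [h0, map_zero] at hx
  exact zero_ne_one hx

theorem r_div (h : Red w r) {x y : k} (hx : w x = 1) (hy : w y = 1) : r (x / y) = r x / r y := by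
  have h1 := h.mul (x / y) y (w_div hx hy).le hy.le
  rw [div_mul_cancel₀ _ (ne_zero_of hy)] at h1
  rw [h1, mul_div_cancel_right₀ _ (r_ne h hy)]

theorem r_nat (h : Red w r) (n : ℕ) : w (n : k) ≤ 1 ∧ r (n : k) = (n : κ) := by
  induction n with
  | zero =>
    rw [Nat.cast_zero, Nat.cast_zero, map_zero]
    exact ⟨zero_le_one, r_zero h⟩
  | succ n ih =>
    have h1 : w 1 ≤ 1 := by rw [map_one]
    rw [Nat.cast_succ, Nat.cast_succ]
    exact ⟨(h.na _ _).trans (max_le ih.1 h1), by rw [h.add _ _ ih.1 h1, ih.2, h.one]⟩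

/-- powers can be read off the residue field -/
theorem pw_iff (h : Red w r) {ℓ : ℕ} (hℓ : ℓ ≠ 0)
    (hpow : ∀ x : k, w (x - 1) < 1 → ∃ y : k, y ^ ℓ = x) {x : k} (hx : w x = 1) :
    x ∈ Pw ℓ ↔ r x ∈ Pw ℓ := by
  constructor
  · rintro ⟨z, hz, rfl⟩
    have h1 := w_pow_one hℓ hx
    exact ⟨r z, r_ne h h1, (r_pow h z h1.le ℓ).2⟩
  · rintro ⟨a, ha, hax⟩
    obtain ⟨y, hy, rfl⟩ := h.surj a
    have hy1 := w_one_of h hy ha
    have hyp : w (y ^ ℓ) = 1 := by rw [map_pow, hy1, one_pow]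
    have h1 : r (x / y ^ ℓ) = 1 := by
      rw [r_div h hx hyp, hax, (r_pow h y hy ℓ).2]
      exact div_self (pow_ne_zero _ ha)
    have hw := w_div hx hyp
    have hw1 : w (x / y ^ ℓ - 1) ≤ 1 := by
      rw [sub_eq_add_neg]
      refine (h.na _ _).trans (max_le hw.le ?_)
      rw [w.map_neg, map_one]
    have h2 : r (x / y ^ ℓ - 1) = 0 := by
      rw [r_sub h _ _ hw.le (by rw [map_one]), h1, h.one, sub_self]
    obtain ⟨t, ht⟩ := hpow _ ((h.zero _ hw1).1 h2)
    refine ⟨t * y, ?_, ?_⟩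
    · refine mul_ne_zero ?_ (ne_zero_of hy1)
      intro h3
      rw [h3, zero_pow hℓ] at ht
      exact ne_zero_of hw ht.symm
    · rw [mul_pow, ht, div_mul_cancel₀ _ (ne_zero_of hyp)]

/-- the generators -/
def S0 {L : Type} [Field L] (ℓ : ℕ) (U : Set L) : Set L :=
  {d : L | d ∈ U ∧ d - 1 ∈ U ∧ (d - 1) / d ∉ Pw ℓ}

theorem w_sub_one (h : Red w r) {c : k} (hc : w c ≤ 1) : w (c - 1) ≤ 1 := by
  rw [sub_eq_add_neg]
  refine (h.na _ _).trans (max_le hc ?_)
  rw [w.map_neg, map_one]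

theorem lift_S0 (h : Red w r) {ℓ : ℕ} (hℓ : ℓ ≠ 0)
    (hpow : ∀ x : k, w (x - 1) < 1 → ∃ y : k, y ^ ℓ = x) {c : k} (hc : w c ≤ 1)
    (hr : r c ∈ S0 ℓ {x : κ | x ≠ 0}) : c ∈ S0 ℓ {x : k | w x = 1} := by
  obtain ⟨h1, h2, h3⟩ := hr
  have h1' : r c ≠ 0 := h1
  have h2' : r c - 1 ≠ 0 := h2
  have e1 : w c = 1 := w_one_of h hc h1'
  have e2 : r (c - 1) = r c - 1 := by
    rw [r_sub h _ _ hc (by rw [map_one]), h.one]
  have e3 : w (c - 1) = 1 := w_one_of h (w_sub_one h hc) (by rw [e2]; exact h2')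
  refine ⟨e1, e3, fun h4 => h3 ?_⟩
  rw [pw_iff h hℓ hpow (w_div e3 e1), r_div h e3 e1, e2] at h4
  exact h4

theorem cst_lift (h : Red w r) [Finite κ] {ℓ : ℕ} (hℓ : ℓ ≠ 0)
    (hpow : ∀ x : k, w (x - 1) < 1 → ∃ y : k, y ^ ℓ = x) (hneg : ∃ d : k, d ^ ℓ = -1)
    (hC : Cst ℓ {x : κ | x ≠ 0}) : Cst ℓ {x : k | w x = 1} := by
  have hone : w 1 ≤ 1 := by rw [map_one]
  refine ⟨hneg, ?_, ?_, ?_⟩
  · obtain ⟨c, hc, hc1, hc2, hc3⟩ := hC.a
    obtain ⟨x, hx, rfl⟩ := h.surj c
    have e1 : w x = 1 := w_one_of h hx hc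
    have e2 : r (x - 1) = r x - 1 := by
      rw [r_sub h _ _ hx hone, h.one]
    have e3 : w (x - 1) = 1 := w_one_of h (w_sub_one h hx) (by rw [e2]; exact hc1)
    refine ⟨x, e1, e3, fun h4 => hc2 ((pw_iff h hℓ hpow e1).1 h4), fun h5 h4 => hc3 h5 ?_⟩
    rw [pw_iff h hℓ hpow e3, e2] at h4
    exact h4
  · -- the generators
    have key : ∀ a ∈ Submonoid.closure (S0 ℓ {x : κ | x ≠ 0}), ∀ c : k, w c = 1 → r c = a →
        c ∈ Submonoid.closure (S0 ℓ {x : k | w x = 1}) := by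
      intro a ha
      induction ha using Submonoid.closure_induction with
      | mem x hx =>
        intro c hc hcx
        exact Submonoid.subset_closure (lift_S0 h hℓ hpow hc.le (hcx ▸ hx))
      | one =>
        intro c hc hc1
        -- there is a generator
        have hne : (S0 ℓ {x : κ | x ≠ 0}).Nonempty := by
          by_contra h0
          rw [Set.not_nonempty_iff_eq_empty] at h0
          obtain ⟨b, hb, hb1, -⟩ := hC.a
          have h2 : b ∈ Submonoid.closure (S0 ℓ {x : κ | x ≠ 0}) := hC.b b hb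
          rw [h0, Submonoid.closure_empty, Submonoid.mem_bot] at h2
          apply hb1
          rw [h2, sub_self]
        obtain ⟨b, hb⟩ := hne
        obtain ⟨d, hd, rfl⟩ := h.surj b
        have hd0 : r d ≠ 0 := hb.1
        have hd1 : w d = 1 := w_one_of h hd hd0
        have hdS : d ∈ S0 ℓ {x : k | w x = 1} := lift_S0 h hℓ hpow hd hb
        obtain ⟨q, hq, hq1⟩ : ∃ q : ℕ, 0 < q ∧ r d ^ q = 1 := by
          obtain ⟨q, hq, hq1⟩ := isOfFinOrder_iff_pow_eq_one.1
            (isOfFinOrder_of_finite (Units.mk0 (r d) hd0))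
          refine ⟨q, hq, ?_⟩
          have h5 := congrArg Units.val hq1
          rw [Units.val_pow_eq_pow_val, Units.val_mk0, Units.val_one] at h5
          exact h5
        obtain ⟨m, rfl⟩ : ∃ m, q = m + 1 := ⟨q - 1, by omega⟩
        have hdm : w (d ^ m) = 1 := by rw [map_pow, hd1, one_pow]
        have h3 : r (c / d ^ m) = r d := by
          rw [r_div h hc hdm, hc1, (r_pow h d hd m).2, div_eq_iff (pow_ne_zero _ hd0), ← hq1,
            pow_succ, mul_comm]
        have h4 : c / d ^ m ∈ S0 ℓ {x : k | w x = 1} :=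
          lift_S0 h hℓ hpow (w_div hc hdm).le (by rw [h3]; exact hb)
        have h5 : c = d ^ m * (c / d ^ m) := by
          rw [mul_div_cancel₀ _ (ne_zero_of hdm)]
        rw [h5]
        exact Submonoid.mul_mem _ (Submonoid.pow_mem _ (Submonoid.subset_closure hdS) m)
          (Submonoid.subset_closure h4)
      | mul x y _ _ ihx ihy =>
        intro c hc hcxy
        have hxy : x * y ≠ 0 := by
          rw [← hcxy]
          exact r_ne h hc
        obtain ⟨x', hx', rfl⟩ := h.surj x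
        have hx1 : w x' = 1 := w_one_of h hx' (left_ne_zero_of_mul hxy)
        have h3 : r (c / x') = y := by
          rw [r_div h hc hx1, hcxy, mul_div_cancel_left₀ _ (left_ne_zero_of_mul hxy)]
        have h5 : c = x' * (c / x') := by
          rw [mul_div_cancel₀ _ (ne_zero_of hx1)]
        rw [h5]
        exact Submonoid.mul_mem _ (ihx x' hx1 rfl) (ihy _ (w_div hc hx1) h3)
    intro c hc
    exact key (r c) (hC.b (r c) (r_ne h hc)) c hc rfl
  · intro h3
    obtain ⟨c, hc, hc1, hc2, hc3⟩ := hC.c h3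
    obtain ⟨x, hx, rfl⟩ := h.surj c
    have e1 : w x = 1 := w_one_of h hx hc
    have e2 : r (x - 1) = r x - 1 := by
      rw [r_sub h _ _ hx hone, h.one]
    have e3 : w (x - 1) = 1 := w_one_of h (w_sub_one h hx) (by rw [e2]; exact hc1)
    refine ⟨x, e1, e3, fun h4 => hc2 ((pw_iff h hℓ hpow e1).1 h4), ?_⟩
    have e4 : w (x * (x - 1)) = 1 := by rw [map_mul, e1, e3, mul_one]
    rw [pw_iff h hℓ hpow e4, h.mul _ _ e1.le e3.le, e2]
    exact hc3

end red

theorem t_CONST : S_FF → S_POW → S_CONST := by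
  intro FF POW k B _ _ _ _ _ v p π hG ℓ hℓp hLc
  have hinj : Function.Injective (algebraMap k B) := (algebraMap k B).injective
  let w : AbsoluteValue k ℝ := v.comp hinj
  have hw : ∀ x : k, w x = v (algebraMap k B x) := fun x => rfl
  have hna : ∀ x y, w (x + y) ≤ max (w x) (w y) := by
    intro x y
    rw [hw, hw, hw, map_add]
    exact hG.na _ _
  have hU : ({x : k | v (algebraMap k B x) = 1} : Set k) = {x : k | w x = 1} := rfl
  rw [hU]
  refine ⟨⟨?_, ?_, ?_, ?_, ?_⟩, ?_⟩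
  · show ¬ w 0 = 1
    rw [map_zero]
    exact zero_ne_one
  · show w 1 = 1
    rw [map_one]
  · show w (-1) = 1
    rw [w.map_neg, map_one]
  · intro x hx y hy
    have hx' : w x = 1 := hx
    have hy' : w y = 1 := hy
    show w (x * y) = 1
    rw [map_mul, hx', hy', mul_one]
  · intro x hx
    have hx' : w x = 1 := hx
    show w x⁻¹ = 1
    rw [map_inv₀, hx', inv_one]
  · obtain ⟨κ, _, _, r, hr⟩ := exists_red w hna hG.res
    have hℓ : ℓ.Prime := by
      rcases hLc with ⟨rfl, -⟩ | ⟨rfl, -⟩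
      · exact Nat.prime_two
      · exact Nat.prime_three
    have hpℓ : ¬ p ∣ ℓ := fun h => hℓp ((Nat.prime_dvd_prime_iff_eq hG.prime hℓ).1 h).symm
    have hp0 : (p : κ) = 0 := by
      rw [← (r_nat hr p).2, hr.zero _ (r_nat hr p).1, hw, map_natCast]
      exact hG.p1
    have hℓ0 : (ℓ : κ) ≠ 0 := by
      intro h0
      have hco : IsCoprime (p : ℤ) (ℓ : ℤ) :=
        Nat.isCoprime_iff_coprime.2 ((Nat.Prime.coprime_iff_not_dvd hG.prime).2 hpℓ)
      obtain ⟨a, b, hab⟩ := hco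
      have h1 : (a : κ) * (p : κ) + (b : κ) * (ℓ : κ) = 1 := by exact_mod_cast congrArg (Int.cast : ℤ → κ) hab
      rw [hp0, h0, mul_zero, mul_zero, add_zero] at h1
      exact zero_ne_one h1
    have hone : w 1 ≤ 1 := by rw [map_one]
    have hLκ : Lc ℓ κ := by
      rcases hLc with ⟨h1, i, hi⟩ | ⟨h1, ω, hω⟩
      · left
        refine ⟨h1, r i, ?_⟩
        have h2 : w i = 1 := by
          apply w_pow_one (n := 2) two_ne_zero
          rw [hi, w.map_neg, map_one]
        rw [← (r_pow hr i h2.le 2).2, hi, r_neg hr _ hone, hr.one]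
      · right
        refine ⟨h1, r ω, ?_⟩
        have h3 : ω ^ 3 = 1 := by
          have : ω ^ 3 - 1 = (ω - 1) * (ω ^ 2 + ω + 1) := by ring
          rw [hω, mul_zero] at this
          exact sub_eq_zero.1 this
        have h2 : w ω = 1 := by
          apply w_pow_one (n := 3) three_ne_zero
          rw [h3, map_one]
        have h4 := r_pow hr ω h2.le 2
        rw [← h4.2, ← hr.add _ _ h4.1 h2.le, ← hr.one, ← hr.add _ _ ?_ hone, hω, r_zero hr]
        exact (hna _ _).trans (max_le h4.1 h2.le)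
    have hneg : ∃ d : k, d ^ ℓ = -1 := by
      rcases hLc with ⟨h1, i, hi⟩ | ⟨h1, -⟩
      · exact ⟨i, by rw [h1]; exact hi⟩
      · exact ⟨-1, by rw [h1]; ring⟩
    refine cst_lift hr hℓ.ne_zero (fun x hx => ?_) hneg (FF κ ℓ hLκ hℓ0)
    obtain ⟨y, hy, -⟩ := POW k B v p π hG ℓ hpℓ x hx
    exact ⟨y, hy⟩

end Pool.Agent.N890.KO.CONST
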