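import Pool.Agent.N890.KO.Stm

/-!
# KO/EXT (helper456): the invariant valuation ring of `Ω`
-/

set_option autoImplicit false

namespace Pool.Agent.N890.KO.EXT

open Polynomial IntermediateField
open Pool.Agent.N890.KO

section canon

variable {L L' : Type} [Field L] [Field L'] (f : L ≃+* L') (ℓ : ℕ) {U : Set L} {U' : Set L'}

theorem pw_iff (x : L) : f x ∈ Pw ℓ ↔ x ∈ Pw ℓ := by
  constructor
  · rintro ⟨z, hz, h⟩
    refine ⟨f.symm z, ?_, ?_⟩
    · intro h0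
      apply hz
      rw [← f.apply_symm_apply z, h0, map_zero]
    · apply f.injective
      rw [h, map_pow, RingEquiv.apply_symm_apply]
  · rintro ⟨z, hz, rfl⟩
    exact ⟨f z, (map_ne_zero_iff f f.injective).2 hz, map_pow _ _ _⟩

theorem hh_iff (hU : ∀ x, f x ∈ U' ↔ x ∈ U) (x : L) : f x ∈ HH ℓ U' ↔ x ∈ HH ℓ U := by
  constructor
  · rintro ⟨u, hu, z, hz, h⟩
    refine ⟨f.symm u, (hU _).1 (by rw [f.apply_symm_apply]; exact hu), f.symm z, ?_, ?_⟩
    · intro h0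
      apply hz
      rw [← f.apply_symm_apply z, h0, map_zero]
    · apply f.injective
      rw [h, map_mul, map_pow, RingEquiv.apply_symm_apply, RingEquiv.apply_symm_apply]
  · rintro ⟨u, hu, z, hz, rfl⟩
    exact ⟨f u, (hU u).2 hu, f z, (map_ne_zero_iff f f.injective).2 hz, by
      rw [map_mul, map_pow]⟩

theorem om_iff (hU : ∀ x, f x ∈ U' ↔ x ∈ U) (x : L) : f x ∈ Om ℓ U' ↔ x ∈ Om ℓ U := by
  have h1 : 1 + f x ∈ Pw ℓ ↔ 1 + x ∈ Pw ℓ := by
    rw [← pw_iff f ℓ (1 + x), map_add, map_one]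
  have h2 : f x ≠ 0 ↔ x ≠ 0 := map_ne_zero_iff f f.injective
  have h3 := hh_iff f ℓ hU x
  change (f x ≠ 0 ∧ f x ∉ HH ℓ U' ∧ 1 + f x ∈ Pw ℓ) ↔ (x ≠ 0 ∧ x ∉ HH ℓ U ∧ 1 + x ∈ Pw ℓ)
  rw [h1, h2, h3]

theorem canon_iff (hU : ∀ x, f x ∈ U' ↔ x ∈ U) (x : L) : f x ∈ canon ℓ U' ↔ x ∈ canon ℓ U := by
  have h1 := om_iff f ℓ hU x
  have h2 : f x = 0 ↔ x = 0 := map_eq_zero_iff f f.injective
  have h3 := hh_iff f ℓ hU x
  have h4 : (∀ y ∈ Om ℓ U', f x * y ∈ Om ℓ U') ↔ ∀ y ∈ Om ℓ U, x * y ∈ Om ℓ U := by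
    constructor
    · intro h y hy
      have h5 := h (f y) ((om_iff f ℓ hU y).2 hy)
      rw [← map_mul] at h5
      exact (om_iff f ℓ hU _).1 h5
    · intro h y hy
      have h5 := h (f.symm y) ((om_iff f ℓ hU _).1 (by rw [f.apply_symm_apply]; exact hy))
      have h6 := (om_iff f ℓ hU _).2 h5
      rw [map_mul, f.apply_symm_apply] at h6
      exact h6
  change (f x = 0 ∨ f x ∈ Om ℓ U' ∨ (f x ∈ HH ℓ U' ∧ ∀ y ∈ Om ℓ U', f x * y ∈ Om ℓ U')) ↔
    (x = 0 ∨ x ∈ Om ℓ U ∨ (x ∈ HH ℓ U ∧ ∀ y ∈ Om ℓ U, x * y ∈ Om ℓ U))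
  rw [h1, h2, h3, h4]

end canon

section act

variable {k B Ω : Type} [Field k] [Field B] [Field Ω] [Algebra k B]
  {e : B →+* Ω} {s : (B ≃ₐ[k] B) →* (Ω ≃+* Ω)}

/-- an automorphism over `k` which fixes `M` is an automorphism over `M` -/
theorem exists_res (M : IntermediateField k B) (ρ : B ≃ₐ[k] B) (h : ∀ x ∈ M, ρ x = x) :
    ∃ τ : B ≃ₐ[M] B, resM M τ = ρ := by
  refine ⟨AlgEquiv.ofRingEquiv (f := ρ.toRingEquiv) fun x => h _ x.2, ?_⟩
  ext x
  rfl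

theorem mem_FxM (M : IntermediateField k B) (y : Ω) :
    y ∈ FxM s M ↔ ∀ ρ : B ≃ₐ[k] B, (∀ x ∈ M, ρ x = x) → s ρ y = y := by
  constructor
  · intro h ρ hρ
    obtain ⟨τ, rfl⟩ := exists_res M ρ hρ
    exact h τ
  · intro h τ
    exact h (resM M τ) fun x hx => τ.commutes ⟨x, hx⟩

theorem s_mul (g h : B ≃ₐ[k] B) (y : Ω) : s (g * h) y = s g (s h y) := by
  rw [map_mul]
  rfl

theorem s_inv (g : B ≃ₐ[k] B) (y : Ω) : s g (s g⁻¹ y) = y := by
  rw [← s_mul, mul_inv_cancel, map_one]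
  rfl

theorem s_inv' (g : B ≃ₐ[k] B) (y : Ω) : s g⁻¹ (s g y) = y := by
  rw [← s_mul, inv_mul_cancel, map_one]
  rfl

theorem stab (M : IntermediateField k B) (hM : ∀ τ : B ≃ₐ[k] B, ∀ x ∈ M, τ x ∈ M)
    (g : B ≃ₐ[k] B) {y : Ω} (hy : y ∈ FxM s M) : s g y ∈ FxM s M := by
  rw [mem_FxM] at hy ⊢
  intro ρ hρ
  have h1 : s (g⁻¹ * (ρ * g)) y = y := by
    refine hy _ fun x hx => ?_
    show g⁻¹ (ρ (g x)) = x
    rw [hρ _ (hM g x hx)]
    exact g.symm_apply_apply x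
  rw [s_mul, s_mul] at h1
  have h2 := s_inv (s := s) g (s ρ (s g y))
  rw [h1] at h2
  exact h2.symm

/-- the automorphism of the field `FxM s M` -/
def au (M : IntermediateField k B) (hM : ∀ τ : B ≃ₐ[k] B, ∀ x ∈ M, τ x ∈ M)
    (g : B ≃ₐ[k] B) : FxM s M ≃+* FxM s M where
  toFun x := ⟨s g x, stab M hM g x.2⟩
  invFun x := ⟨s g⁻¹ x, stab M hM g⁻¹ x.2⟩
  left_inv x := Subtype.ext (s_inv' g _)
  right_inv x := Subtype.ext (s_inv g _)
  map_mul' x y := Subtype.ext (map_mul (s g) _ _)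
  map_add' x y := Subtype.ext (map_add (s g) _ _)

theorem exists_fg (M : IntermediateField k B) (hM : FiniteDimensional k M) :
    ∃ t : Set B, t.Finite ∧ adjoin k t = M := by
  have h : M.toSubalgebra.FG := by
    refine Subalgebra.fg_of_fg_toSubmodule ?_
    have h2 : Module.Finite k (Subalgebra.toSubmodule M.toSubalgebra) := hM
    exact Module.Finite.iff_fg.1 h2
  exact fg_def.1 (fg_of_fg_toSubalgebra M h)

theorem act_M [Algebra.IsAlgebraic k B] (hA : Act e s) (M : IntermediateField k B) :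
    Act e (s.comp (resM M)) := by
  refine ⟨fun τ y => hA.eq _ y, fun y => ?_⟩
  obtain ⟨M', hM', h⟩ := hA.cont y
  obtain ⟨t, ht, rfl⟩ := exists_fg M' hM'
  have : Finite t := ht
  have hint : ∀ x ∈ t, IsIntegral M x := fun x _ =>
    (Algebra.IsAlgebraic.isAlgebraic (R := k) x).isIntegral.tower_top
  refine ⟨adjoin M t, finiteDimensional_adjoin hint, fun τ hτ => ?_⟩
  refine h (resM M τ) fun x hx => ?_
  have h2 : ∀ z ∈ t, (resM M τ) z = z := fun z hz => hτ z (subset_adjoin _ _ hz)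
  induction hx using adjoin_induction with
  | mem x hx => exact h2 x hx
  | algebraMap x => exact (resM M τ).commutes x
  | add x y _ _ h3 h4 => rw [map_add, h3, h4]
  | inv x _ h3 => rw [map_inv₀, h3]
  | mul x y _ _ h3 h4 => rw [map_mul, h3, h4]

end act

section main

variable {k B Ω : Type} [Field k] [Field B] [Field Ω] [Algebra k B] [IsAlgClosure k B]
  [CharZero k] [IsAlgClosed Ω] {e : B →+* Ω} {s : (B ≃ₐ[k] B) →* (Ω ≃+* Ω)}

/-- the valuation ring of the field `FxM s M` -/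
theorem one (hcan : S_CAN) (hbase : S_BASE) (hA : Act e s) {v : AbsoluteValue B ℝ} {p : ℕ} {π : k}
    (hG : Good v p π) {ℓ : ℕ} (hℓ : ℓ ≠ p) (M : IntermediateField k B)
    (hfin : FiniteDimensional k M) (hM : ∀ τ : B ≃ₐ[k] B, ∀ x ∈ M, τ x ∈ M) (hL : Lc ℓ M) :
    ∃ O : ValuationSubring (FxM s M),
      (∀ (a : B) (_ : a ∈ M) (x : FxM s M), (x : Ω) = e a → (x ∈ O ↔ v a ≤ 1)) ∧
      ∀ (g : B ≃ₐ[k] B) (x : FxM s M), x ∈ O → au M hM g x ∈ O := by
  have halg : Algebra.IsAlgebraic k B := IsAlgClosure.isAlgebraic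
  have hac : IsAlgClosed B := IsAlgClosure.isAlgClosed k
  have halgM : Algebra.IsAlgebraic M B := Algebra.IsAlgebraic.tower_top (K := k) M
  have : IsAlgClosure M B := ⟨hac, halgM⟩
  have : CharZero M := charZero_of_injective_algebraMap (algebraMap k M).injective
  obtain ⟨ϖ, hϖ⟩ := hbase k B v p π hG M hfin
  obtain ⟨O, hO1, hO2⟩ := hcan M B Ω e (s.comp (resM M)) (act_M hA M) v p ϖ hϖ ℓ hℓ hL
  refine ⟨O, fun a ha x hx => hO2 ⟨a, ha⟩ x hx, fun g x hx => ?_⟩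
  have key : ∀ (g : B ≃ₐ[k] B) (x : FxM s M),
      x ∈ {x : FxM s M | ∃ u : M, v (algebraMap M B u) = 1 ∧ (x : Ω) = e (algebraMap M B u)} →
      au M hM g x ∈
        {x : FxM s M | ∃ u : M, v (algebraMap M B u) = 1 ∧ (x : Ω) = e (algebraMap M B u)} := by
    rintro g x ⟨u, hu1, hu2⟩
    refine ⟨⟨g u, hM g u u.2⟩, ?_, ?_⟩
    · change v (g u) = 1
      rw [hG.inv]
      exact hu1
    · change s g x = e (g u)
      rw [hu2]
      exact hA.eq g u
  have hU : ∀ x : FxM s M, au M hM g x ∈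
        {x : FxM s M | ∃ u : M, v (algebraMap M B u) = 1 ∧ (x : Ω) = e (algebraMap M B u)} ↔ x ∈
        {x : FxM s M | ∃ u : M, v (algebraMap M B u) = 1 ∧ (x : Ω) = e (algebraMap M B u)} := by
    intro x
    refine ⟨fun h => ?_, key g x⟩
    have h1 := key g⁻¹ _ h
    have h2 : au M hM g⁻¹ (au M hM g x) = x := Subtype.ext (s_inv' g _)
    rwa [h2] at h1
  have h1 := canon_iff (au M hM g) ℓ hU x
  have h2 : x ∈ (O : Set (FxF (s.comp (resM M)))) := hx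
  rw [hO1] at h2
  have h3 := h1.2 h2
  change au M hM g x ∈ (O : Set (FxF (s.comp (resM M))))
  rw [hO1]
  exact h3

/-- every finite extension is contained in a stable one, which contains `w` -/
theorem cofinal (w : B) (M : IntermediateField k B) (hfin : FiniteDimensional k M) :
    ∃ N : IntermediateField k B, FiniteDimensional k N ∧ (∀ τ : B ≃ₐ[k] B, ∀ x ∈ N, τ x ∈ N) ∧
      w ∈ N ∧ M ≤ N := by
  have halg : Algebra.IsAlgebraic k B := IsAlgClosure.isAlgebraic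
  have hac : IsAlgClosed B := IsAlgClosure.isAlgClosed k
  have hno : Normal k B := IsAlgClosure.normal k B
  have hw : FiniteDimensional k k⟮w⟯ :=
    adjoin.finiteDimensional (Algebra.IsAlgebraic.isAlgebraic (R := k) w).isIntegral
  have hfin2 : FiniteDimensional k (M ⊔ k⟮w⟯ : IntermediateField k B) :=
    finiteDimensional_sup M k⟮w⟯
  refine ⟨normalClosure k (M ⊔ k⟮w⟯ : IntermediateField k B) B, inferInstance, ?_, ?_, ?_⟩
  · intro τ x hx
    have h1 : Normal k (normalClosure k (M ⊔ k⟮w⟯ : IntermediateField k B) B) := inferInstance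
    exact (normal_iff_forall_map_le'.1 h1 τ) ⟨x, hx, rfl⟩
  · exact le_normalClosure _ ((le_sup_right : k⟮w⟯ ≤ M ⊔ k⟮w⟯) (mem_adjoin_simple_self k w))
  · exact le_sup_left.trans (le_normalClosure _)

end main

theorem t_EXT : S_CAN → S_LIM → S_BASE → S_EXT := by
  intro hcan hlim hbase k B Ω _ _ _ _ _ _ _ e s hA v p π hG
  have halg : Algebra.IsAlgebraic k B := IsAlgClosure.isAlgebraic
  have hac : IsAlgClosed B := IsAlgClosure.isAlgClosed k
  obtain ⟨ℓ, w, hℓ, hw⟩ : ∃ (ℓ : ℕ) (w : B), ℓ ≠ p ∧ ∀ M : IntermediateField k B, w ∈ M → Lc ℓ M := by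
    by_cases hp : p = 2
    · obtain ⟨w, hw⟩ := IsAlgClosed.exists_root (X ^ 2 + X + 1 : B[X]) (by
        have : (X ^ 2 + X + 1 : B[X]).degree = 2 := by compute_degree!
        rw [this]
        norm_num)
      refine ⟨3, w, by omega, fun M hwM => Or.inr ⟨rfl, ⟨w, hwM⟩, ?_⟩⟩
      apply Subtype.ext
      have h1 : w ^ 2 + w + 1 = 0 := by simpa [IsRoot.def] using hw
      exact h1
    · obtain ⟨w, hw⟩ := IsAlgClosed.exists_pow_nat_eq (-1 : B) (n := 2) (by norm_num)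
      exact ⟨2, w, fun h => hp h.symm, fun M hwM => Or.inl ⟨rfl, ⟨w, hwM⟩, Subtype.ext hw⟩⟩
  let I := {M : IntermediateField k B // FiniteDimensional k M ∧
    (∀ τ : B ≃ₐ[k] B, ∀ x ∈ M, τ x ∈ M) ∧ w ∈ M}
  have hcof : ∀ M : IntermediateField k B, FiniteDimensional k M → ∃ i : I, M ≤ i.1 := by
    intro M hM
    obtain ⟨N, h1, h2, h3, h4⟩ := cofinal w M hM
    exact ⟨⟨N, h1, h2, h3⟩, h4⟩
  have hne : Nonempty I := by
    obtain ⟨i, -⟩ := hcof ⊥ inferInstance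
    exact ⟨i⟩
  have hdir : IsDirected I (· ≤ ·) := by
    refine ⟨fun a b => ?_⟩
    have ha := a.2.1
    have hb := b.2.1
    obtain ⟨i, hi⟩ := hcof (a.1 ⊔ b.1) (finiteDimensional_sup a.1 b.1)
    exact ⟨i, (le_sup_left : a.1 ≤ a.1 ⊔ b.1).trans hi, (le_sup_right : b.1 ≤ a.1 ⊔ b.1).trans hi⟩
  choose O hO1 hO2 using fun i : I => one hcan hbase hA hG hℓ i.1 i.2.1 i.2.2.1 (hw i.1 i.2.2.2)
  obtain ⟨O', h1, h2⟩ := hlim Ω (B ≃ₐ[k] B) I s (fun i => FxM s i.1)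
    (fun i => {y | ∃ h : y ∈ FxM s i.1, (⟨y, h⟩ : FxM s i.1) ∈ O i})
    (by
      intro y
      obtain ⟨M, hM, h⟩ := hA.cont y
      obtain ⟨i, hi⟩ := hcof M hM
      refine ⟨i, fun j hij => ?_⟩
      rw [mem_FxM]
      intro ρ hρ
      exact h ρ fun x hx => hρ x (hij (hi hx)))
    (fun i => ⟨O i, fun y => ⟨fun h => ⟨y.2, h⟩, fun ⟨_, h⟩ => h⟩⟩)
    (by
      rintro i g y ⟨hy, h⟩
      exact ⟨stab i.1 i.2.2.1 g hy, hO2 i g _ h⟩)
  refine ⟨O', h1, fun b => ?_⟩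
  have hb : FiniteDimensional k k⟮b⟯ :=
    adjoin.finiteDimensional (Algebra.IsAlgebraic.isAlgebraic (R := k) b).isIntegral
  obtain ⟨i, hi⟩ := hcof k⟮b⟯ hb
  have hbi : b ∈ i.1 := hi (mem_adjoin_simple_self k b)
  have hmem : ∀ j : I, i ≤ j → e b ∈ FxM s j.1 := by
    intro j hij
    rw [mem_FxM]
    intro ρ hρ
    rw [hA.eq, hρ b (hij hbi)]
  constructor
  · intro h
    by_contra hv
    refine (h2 (e b)).2 ⟨i, fun j hij => ?_⟩ h
    rintro ⟨h3, h4⟩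
    exact hv ((hO1 j b (hij hbi) ⟨e b, h3⟩ rfl).1 h4)
  · intro hv
    refine (h2 (e b)).1 ⟨i, fun j hij => ?_⟩
    exact ⟨hmem j hij, (hO1 j b (hij hbi) ⟨e b, hmem j hij⟩ rfl).2 hv⟩

end Pool.Agent.N890.KO.EXT
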