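import Pool.Agent.N890.KO.Stm

set_option autoImplicit false

/-! FF: constants in finite fields (helper901, for project KO of helper890). -/

namespace Pool.Agent.N890.KO.FF

open Pool.Agent.N890.KO Finset

section

variable {κ : Type} [Field κ] [Fintype κ]

theorem pow_of_mem {ℓ m : ℕ} (hm : ℓ * m = Fintype.card κ - 1) {x : κ} (hx : x ∈ Pw ℓ) :
    x ^ m = 1 := by
  obtain ⟨z, hz, rfl⟩ := hx
  rw [← pow_mul, hm]
  exact FiniteField.pow_card_sub_one_eq_one z hz

theorem mem_of_pow {ℓ m : ℕ} (hm : ℓ * m = Fintype.card κ - 1) (hm0 : 0 < m) {x : κ} (hx : x ≠ 0)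
    (h : x ^ m = 1) : x ∈ Pw ℓ := by
  classical
  obtain ⟨g, hg⟩ := IsCyclic.exists_generator (α := κˣ)
  have ho : orderOf g = ℓ * m := by
    rw [orderOf_eq_card_of_forall_mem_zpowers hg, Nat.card_eq_fintype_card, Fintype.card_units, hm]
  have h1 : Units.mk0 x hx ∈ Submonoid.powers g := by
    rw [mem_powers_iff_mem_zpowers]
    exact hg _
  obtain ⟨k, hk⟩ := h1
  have hk' : g ^ k = Units.mk0 x hx := hk
  have h2 : g ^ (k * m) = 1 := by
    rw [pow_mul, hk']
    ext
    simpa using h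
  have h3 : ℓ * m ∣ k * m := ho ▸ orderOf_dvd_of_pow_eq_one h2
  obtain ⟨j, rfl⟩ := Nat.dvd_of_mul_dvd_mul_right hm0 h3
  refine ⟨((g ^ j : κˣ) : κ), (g ^ j).ne_zero, ?_⟩
  have h4 : ((g ^ (ℓ * j) : κˣ) : κ) = x := by rw [hk']; rfl
  rw [← h4, mul_comm, pow_mul]
  push_cast
  rfl

omit [Fintype κ] in
theorem ne_zero_of_mem {ℓ : ℕ} {x : κ} (hx : x ∈ Pw ℓ) : x ≠ 0 := by
  obtain ⟨z, hz, rfl⟩ := hx
  exact pow_ne_zero _ hz

theorem card_le [DecidableEq κ] {m : ℕ} (hm0 : 0 < m) :
    (univ.filter fun x : κ => x ^ m = 1).card ≤ m := by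
  have h1 : (univ.filter fun x : κ => x ^ m = 1) ⊆ (Polynomial.nthRoots m (1 : κ)).toFinset := by
    intro x hx
    rw [Multiset.mem_toFinset, Polynomial.mem_nthRoots hm0]
    exact (mem_filter.1 hx).2
  exact (card_le_card h1).trans ((Multiset.toFinset_card_le _).trans (Polynomial.card_nthRoots m 1))

theorem card_ne_zero [DecidableEq κ] : (univ.filter fun x : κ => x ≠ 0).card = Fintype.card κ - 1 := by
  have : (univ.filter fun x : κ => x ≠ 0) = univ.erase 0 := by
    ext x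
    simp
  rw [this, card_erase_of_mem (mem_univ _), card_univ]

/-- the number of the non-powers -/
theorem card_not [DecidableEq κ] {ℓ m : ℕ} (hm : ℓ * m = Fintype.card κ - 1) (hm0 : 0 < m) :
    ℓ * m ≤ (univ.filter fun x : κ => x ≠ 0 ∧ ¬ x ^ m = 1).card + m := by
  have h1 : (univ.filter fun x : κ => x ≠ 0) ⊆
      (univ.filter fun x : κ => x ≠ 0 ∧ ¬ x ^ m = 1) ∪ (univ.filter fun x : κ => x ^ m = 1) := by
    intro x hx
    rw [mem_union, mem_filter, mem_filter]
    by_cases h : x ^ m = 1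
    · exact Or.inr ⟨mem_univ _, h⟩
    · exact Or.inl ⟨mem_univ _, (mem_filter.1 hx).2, h⟩
  have h2 := (card_le_card h1).trans (card_union_le _ _)
  rw [card_ne_zero, ← hm] at h2
  exact h2.trans (Nat.add_le_add_left (card_le hm0) _)

/-- there is a non-power -/
theorem exists_not [DecidableEq κ] {ℓ m : ℕ} (hm : ℓ * m = Fintype.card κ - 1) (hm0 : 0 < m)
    (hℓ : 2 ≤ ℓ) : ∃ x : κ, x ≠ 0 ∧ ¬ x ^ m = 1 := by
  have h1 := card_not hm hm0
  have h2 : 0 < (univ.filter fun x : κ => x ≠ 0 ∧ ¬ x ^ m = 1).card := by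
    have : 2 * m ≤ ℓ * m := Nat.mul_le_mul_right m hℓ
    omega
  obtain ⟨x, hx⟩ := card_pos.1 h2
  exact ⟨x, (mem_filter.1 hx).2⟩

/-- part (b) -/
theorem part_b [DecidableEq κ] {ℓ m : ℕ} (hm : ℓ * m = Fintype.card κ - 1) (hm0 : 0 < m)
    (hℓ : 2 ≤ ℓ) (c : κ) (hc : c ≠ 0) :
    c ∈ Submonoid.closure {d : κ | d ∈ {x : κ | x ≠ 0} ∧ d - 1 ∈ {x : κ | x ≠ 0} ∧
      (d - 1) / d ∉ Pw ℓ} := by
  set T : Finset κ := univ.filter fun d : κ => d ≠ 0 ∧ ¬ ((d - 1) / d) ^ m = 1 with hT
  have hTc : (univ.filter fun x : κ => x ≠ 0) ⊆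
      T ∪ ((univ.filter fun x : κ => x ^ m = 1).erase 1).image (fun e => (1 - e)⁻¹) := by
    intro d hd
    have hd0 := (mem_filter.1 hd).2
    rw [mem_union]
    by_cases h : ((d - 1) / d) ^ m = 1
    · right
      rw [mem_image]
      refine ⟨(d - 1) / d, ?_, ?_⟩
      · rw [mem_erase, mem_filter]
        refine ⟨fun h1 => ?_, mem_univ _, h⟩
        rw [div_eq_iff hd0, one_mul, sub_eq_self] at h1
        exact one_ne_zero h1
      · have : 1 - (d - 1) / d = d⁻¹ := by
          field_simp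
          ring
        rw [this, inv_inv]
    · left
      exact mem_filter.2 ⟨mem_univ _, hd0, h⟩
  have h1 := (card_le_card hTc).trans (card_union_le _ _)
  have h2 : (((univ.filter fun x : κ => x ^ m = 1).erase 1).image (fun e => (1 - e)⁻¹)).card + 1 ≤
      m := by
    have h3 : (1 : κ) ∈ (univ.filter fun x : κ => x ^ m = 1) := by simp
    have h4 := card_erase_add_one h3
    have h5 : (((univ.filter fun x : κ => x ^ m = 1).erase 1).image (fun e => (1 - e)⁻¹)).card ≤
      ((univ.filter fun x : κ => x ^ m = 1).erase 1).card := card_image_le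
    have h6 := card_le (κ := κ) hm0
    omega
  have h3 : 2 * m ≤ ℓ * m := Nat.mul_le_mul_right m hℓ
  have hTN : T ⊆ (univ.filter fun x : κ => x ≠ 0) := by
    intro d hd
    exact mem_filter.2 ⟨mem_univ _, (mem_filter.1 hd).2.1⟩
  have hT'N : T.image (fun t => c / t) ⊆ (univ.filter fun x : κ => x ≠ 0) := by
    intro x hx
    obtain ⟨t, ht, rfl⟩ := mem_image.1 hx
    exact mem_filter.2 ⟨mem_univ _, div_ne_zero hc (mem_filter.1 ht).2.1⟩
  have hcard : (T.image (fun t => c / t)).card = T.card := by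
    refine card_image_of_injOn ?_
    intro s hs t ht h
    have h' : c / s = c / t := h
    have hs0 : s ≠ 0 := (mem_filter.1 (mem_coe.1 hs)).2.1
    have ht0 : t ≠ 0 := (mem_filter.1 (mem_coe.1 ht)).2.1
    rw [div_eq_div_iff hs0 ht0] at h'
    exact (mul_left_cancel₀ hc h').symm
  have hlt : (univ.filter fun x : κ => x ≠ 0).card < T.card + (T.image (fun t => c / t)).card := by
    rw [hcard, card_ne_zero]
    rw [card_ne_zero] at h1
    omega
  obtain ⟨x, hx⟩ := inter_nonempty_of_card_lt_card_add_card hTN hT'N hlt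
  rw [mem_inter, mem_image] at hx
  obtain ⟨hx1, t, ht, htx⟩ := hx
  have hmem : ∀ d ∈ T, d ∈ Submonoid.closure {d : κ | d ∈ {x : κ | x ≠ 0} ∧
      d - 1 ∈ {x : κ | x ≠ 0} ∧ (d - 1) / d ∉ Pw ℓ} := by
    intro d hd
    obtain ⟨_, hd0, hd1⟩ := mem_filter.1 hd
    by_cases h : d = 1
    · rw [h]
      exact Submonoid.one_mem _
    · refine Submonoid.subset_closure ⟨hd0, sub_ne_zero.2 h, fun hP => hd1 (pow_of_mem hm hP)⟩
  have ht0 : t ≠ 0 := (mem_filter.1 ht).2.1
  have : c = x * t := by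
    rw [← htx, div_mul_cancel₀ c ht0]
  rw [this]
  exact Submonoid.mul_mem _ (hmem x hx1) (hmem t ht)

/-- part (a) for squares -/
theorem part_a2 [DecidableEq κ] {m : ℕ} (hm : 2 * m = Fintype.card κ - 1) (hm0 : 0 < m)
    (hneg : (-1 : κ) ^ m = 1) :
    ∃ c : κ, c ≠ 0 ∧ c - 1 ≠ 0 ∧ ¬ c ^ m = 1 ∧ ¬ (c - 1) ^ m = 1 := by
  by_contra hcon
  push Not at hcon
  have h1 := card_not hm hm0
  have h2 : (univ.filter fun x : κ => x ≠ 0 ∧ ¬ x ^ m = 1).card ≤
      ((univ.filter fun x : κ => x ^ m = 1).erase (-1)).card := by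
    refine card_le_card_of_injOn (fun x => x - 1) ?_ ?_
    · intro c hc
      obtain ⟨_, hc0, hc1⟩ := mem_filter.1 (mem_coe.1 hc)
      have hc2 : c - 1 ≠ 0 := by
        intro h
        rw [sub_eq_zero] at h
        exact hc1 (by rw [h, one_pow])
      rw [mem_coe, mem_erase, mem_filter]
      refine ⟨?_, mem_univ _, hcon c hc0 hc2 hc1⟩
      intro h
      exact hc0 (by linear_combination h)
    · intro x _ y _ h
      exact sub_left_injective h
  have h3 := card_erase_add_one (s := univ.filter fun x : κ => x ^ m = 1) (a := -1)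
    (mem_filter.2 ⟨mem_univ _, hneg⟩)
  have h4 := card_le (κ := κ) hm0
  omega

/-- part (c) -/
theorem part_c [DecidableEq κ] {m : ℕ} (hm : 3 * m = Fintype.card κ - 1) (hm0 : 0 < m)
    (hneg : (-1 : κ) ^ m = 1) :
    ∃ c : κ, c ≠ 0 ∧ c - 1 ≠ 0 ∧ ¬ c ^ m = 1 ∧ (c * (c - 1)) ^ m = 1 := by
  by_contra hcon
  push Not at hcon
  obtain ⟨g, hg0, hg1⟩ := exists_not hm hm0 (by norm_num)
  set γ : κ := g ^ m with hγ
  have hγ3 : γ ^ 3 = 1 := by
    rw [hγ, ← pow_mul, mul_comm, hm]
    exact FiniteField.pow_card_sub_one_eq_one g hg0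
  have hγ0 : γ ≠ 0 := pow_ne_zero _ hg0
  have hγ2 : γ ^ 2 + γ + 1 = 0 := by
    have h1 : (γ - 1) * (γ ^ 2 + γ + 1) = 0 := by linear_combination hγ3
    exact (mul_eq_zero.1 h1).resolve_left (sub_ne_zero.2 hg1)
  have htri : ∀ x : κ, x ≠ 0 → x ^ m = 1 ∨ x ^ m = γ ∨ x ^ m = γ ^ 2 := by
    intro x hx
    have h1 : (x ^ m) ^ 3 = 1 := by
      rw [← pow_mul, mul_comm, hm]
      exact FiniteField.pow_card_sub_one_eq_one x hx
    have h2 : (x ^ m - 1) * ((x ^ m - γ) * (x ^ m - γ ^ 2)) = 0 := by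
      linear_combination h1 + (x ^ m - (x ^ m) ^ 2) * hγ2 + (x ^ m - 1) * hγ3
    rcases mul_eq_zero.1 h2 with h | h
    · exact Or.inl (sub_eq_zero.1 h)
    · rcases mul_eq_zero.1 h with h | h
      · exact Or.inr (Or.inl (sub_eq_zero.1 h))
      · exact Or.inr (Or.inr (sub_eq_zero.1 h))
  -- the class of `g`
  set A : Finset κ := univ.filter fun x : κ => x ^ m = γ with hA
  set P : Finset κ := univ.filter fun x : κ => x ^ m = 1 with hP
  have hAP : P.card ≤ A.card := by
    refine card_le_card_of_injOn (fun x => g * x) ?_ ?_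
    · intro x hx
      rw [mem_coe, hP, mem_filter] at hx
      rw [mem_coe, hA, mem_filter]
      exact ⟨mem_univ _, by rw [mul_pow, hx.2, mul_one]⟩
    · intro x _ y _ h
      exact mul_left_cancel₀ hg0 h
  have hA0 : ∀ c ∈ A, c ≠ 0 := by
    intro c hc h
    rw [hA, mem_filter, h, zero_pow hm0.ne'] at hc
    exact hγ0 hc.2.symm
  have hAc : ∀ c ∈ A, (c - 1) ^ m = 1 ∨ (c - 1) ^ m = γ := by
    intro c hc
    have hc0 := hA0 c hc
    have hcm : c ^ m = γ := (mem_filter.1 hc).2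
    have hc1 : c - 1 ≠ 0 := by
      intro h
      rw [sub_eq_zero] at h
      rw [h, one_pow] at hcm
      exact hg1 hcm.symm
    have h1 := hcon c hc0 hc1 (by rw [hcm]; exact hg1)
    rcases htri (c - 1) hc1 with h | h | h
    · exact Or.inl h
    · exact Or.inr h
    · exfalso
      apply h1
      rw [mul_pow, hcm, h]
      linear_combination hγ3
  have hinj : A.card ≤ (P.erase 1).card := by
    refine card_le_card_of_injOn (fun c => if (c - 1) ^ m = 1 then 1 - c else 1 - c⁻¹) ?_ ?_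
    · intro c hc
      rw [mem_coe] at hc
      have hc0 := hA0 c hc
      have hcm : c ^ m = γ := (mem_filter.1 hc).2
      rw [mem_coe, mem_erase, hP, mem_filter]
      show (if (c - 1) ^ m = 1 then 1 - c else 1 - c⁻¹) ≠ 1 ∧ _ ∧
        (if (c - 1) ^ m = 1 then 1 - c else 1 - c⁻¹) ^ m = 1
      split_ifs with h
      · refine ⟨fun h1 => hc0 (by linear_combination -h1), mem_univ _, ?_⟩
        have : 1 - c = -1 * (c - 1) := by ring
        rw [this, mul_pow, hneg, h, one_mul]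
      · refine ⟨fun h1 => inv_ne_zero hc0 (by linear_combination -h1), mem_univ _, ?_⟩
        have h2 := (hAc c hc).resolve_left h
        have : 1 - c⁻¹ = (c - 1) / c := by
          field_simp
        rw [this, div_pow, h2, hcm, div_self hγ0]
    · intro c hc c' hc' h
      rw [mem_coe] at hc hc'
      have hc0 := hA0 c hc
      have hc0' := hA0 c' hc'
      have hcm : c ^ m = γ := (mem_filter.1 hc).2
      have hcm' : c' ^ m = γ := (mem_filter.1 hc').2
      have hbad : ∀ x y : κ, x ^ m = γ → y ^ m = γ → 1 - x = 1 - y⁻¹ → False := by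
        intro x y hx hy e
        have e1 : x = y⁻¹ := by linear_combination -e
        rw [e1, inv_pow, hy] at hx
        have e2 : γ ^ 2 = 1 := by
          rw [pow_two]
          nth_rewrite 1 [← hx]
          exact inv_mul_cancel₀ hγ0
        apply hg1
        have e3 : γ ^ 3 = γ ^ 2 * γ := by ring
        rw [hγ3, e2, one_mul] at e3
        exact e3.symm
      change (if (c - 1) ^ m = 1 then 1 - c else 1 - c⁻¹) =
        (if (c' - 1) ^ m = 1 then 1 - c' else 1 - c'⁻¹) at h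
      split_ifs at h with h1 h2 h2
      · linear_combination -h
      · exact (hbad c c' hcm hcm' h).elim
      · exact (hbad c' c hcm' hcm h.symm).elim
      · exact inv_injective (by linear_combination -h)
  have h1P : (1 : κ) ∈ P := by
    rw [hP]
    simp
  have h5 := card_erase_add_one h1P
  omega

/-- the divisibility -/
theorem dvd_of_root {ℓ : ℕ} (hℓ : ℓ.Prime) {z : κ} (hz : z ^ ℓ = 1) (hz1 : z ≠ 1) :
    ℓ ∣ Fintype.card κ - 1 := by
  classical
  have hz0 : z ≠ 0 := by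
    rintro rfl
    rw [zero_pow hℓ.ne_zero] at hz
    exact zero_ne_one hz
  have : Fact ℓ.Prime := ⟨hℓ⟩
  have h1 : orderOf (Units.mk0 z hz0) = ℓ := by
    refine orderOf_eq_prime ?_ ?_
    · ext
      simpa using hz
    · intro h
      apply hz1
      have := congrArg (fun u : κˣ => (u : κ)) h
      simpa using this
  rw [← Fintype.card_units, ← h1]
  exact orderOf_dvd_card

end

/-- **Constants in finite fields.** -/
theorem t_FF : S_FF := by
  classical
  intro κ _ _ ℓ hL hℓ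
  have : Fintype κ := Fintype.ofFinite κ
  have hq : 2 ≤ Fintype.card κ := Fintype.one_lt_card
  rcases hL with ⟨rfl, i, hi⟩ | ⟨rfl, w, hw⟩
  · -- `ℓ = 2`
    have h2 : (2 : κ) ≠ 0 := by simpa using hℓ
    have hne : (-1 : κ) ≠ 1 := by
      intro h
      apply h2
      linear_combination -h
    obtain ⟨m, hm⟩ := dvd_of_root (κ := κ) Nat.prime_two (z := -1) (by norm_num) hne
    have hm' : 2 * m = Fintype.card κ - 1 := hm.symm
    have hm0 : 0 < m := by omega
    have hi0 : i ≠ 0 := by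
      rintro rfl
      rw [zero_pow two_ne_zero] at hi
      exact one_ne_zero (α := κ) (by linear_combination hi)
    have hneg : (-1 : κ) ^ m = 1 := pow_of_mem hm' ⟨i, hi0, hi.symm⟩
    refine ⟨⟨i, hi⟩, ?_, fun c hc => part_b hm' hm0 le_rfl c hc, fun h => absurd h (by norm_num)⟩
    obtain ⟨c, hc0, hc1, hc2, hc3⟩ := part_a2 hm' hm0 hneg
    exact ⟨c, hc0, hc1, fun h => hc2 (pow_of_mem hm' h), fun _ h => hc3 (pow_of_mem hm' h)⟩
  · -- `ℓ = 3`
    have h3 : (3 : κ) ≠ 0 := by simpa using hℓ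
    have hw1 : w ≠ 1 := by
      rintro rfl
      apply h3
      linear_combination hw
    have hw3 : w ^ 3 = 1 := by linear_combination (w - 1) * hw
    obtain ⟨m, hm⟩ := dvd_of_root (κ := κ) Nat.prime_three (z := w) hw3 hw1
    have hm' : 3 * m = Fintype.card κ - 1 := hm.symm
    have hm0 : 0 < m := by omega
    have hneg : (-1 : κ) ^ m = 1 :=
      pow_of_mem hm' ⟨-1, neg_ne_zero.2 one_ne_zero, by norm_num⟩
    refine ⟨⟨-1, by norm_num⟩, ?_, fun c hc => part_b hm' hm0 (by norm_num) c hc, fun _ => ?_⟩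
    · obtain ⟨c, hc0, hc1⟩ := exists_not (κ := κ) hm' hm0 (by norm_num)
      refine ⟨c, hc0, ?_, fun h => hc1 (pow_of_mem hm' h), fun h => absurd h (by norm_num)⟩
      intro h
      rw [sub_eq_zero] at h
      exact hc1 (by rw [h, one_pow])
    · obtain ⟨c, hc0, hc1, hc2, hc3⟩ := part_c hm' hm0 hneg
      exact ⟨c, hc0, hc1, fun h => hc2 (pow_of_mem hm' h),
        mem_of_pow hm' hm0 (mul_ne_zero hc0 hc1) hc3⟩

end Pool.Agent.N890.KO.FF
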