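import Pool.Agent.N890.KO.Stm

/-!
Project KO (helper890), piece FINP (helper400): there are finitely many classes modulo `p`-th powers.
-/

set_option autoImplicit false

namespace Pool.Agent.N890.KO.FINP

open Pool.Agent.N890.KO Polynomial

section

variable {k : Type} [Field k] (w : AbsoluteValue k ℝ) (na : ∀ x y, w (x + y) ≤ max (w x) (w y))

include na

theorem w_nat (n : ℕ) : w (n : k) ≤ 1 := by
  induction n with
  | zero => simp
  | succ n ih =>
    push_cast
    refine (na _ _).trans (max_le ih ?_)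
    rw [map_one]

theorem w_sum {ι : Type} (s : Finset ι) (g : ι → k) (b : ℝ) (hb : 0 ≤ b)
    (h : ∀ i ∈ s, w (g i) ≤ b) : w (∑ i ∈ s, g i) ≤ b := by
  classical
  induction s using Finset.induction_on with
  | empty => simpa using hb
  | insert a s ha ih =>
    rw [Finset.sum_insert ha]
    refine (na _ _).trans (max_le (h a (Finset.mem_insert_self a s)) (ih fun i hi => ?_))
    exact h i (Finset.mem_insert_of_mem hi)

theorem w_eq_one {x y : k} (hy : w y = 1) (hxy : w (x - y) < 1) : w x = 1 := by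
  have h1 : w x ≤ 1 := by
    have h2 : x = (x - y) + y := by ring
    rw [h2]
    exact (na _ _).trans (max_le hxy.le hy.le)
  have h2 : 1 ≤ max (w (y - x)) (w x) := by
    have h3 := na (y - x) x
    rwa [sub_add_cancel, hy] at h3
  rcases le_max_iff.1 h2 with h3 | h3
  · rw [w.map_sub] at h3
    linarith
  · linarith

/-- the elements near `1` are `p`-th powers -/
theorem near_one [CharZero k] (p : ℕ) (hp : p.Prime) (π : k) (h0 : π ≠ 0) (h1 : w π < 1)
    (hens : ∀ f : Polynomial k, (∀ n, w (f.coeff n) ≤ 1) → w (f.coeff 0) < 1 →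
      w (f.coeff 1) = 1 → ∃ x : k, w x < 1 ∧ f.eval x = 0)
    (x : k) (hx : w (x - 1) ≤ w ((p : k) ^ 2 * π)) : ∃ z : k, z ^ p = x := by
  obtain ⟨q, rfl⟩ : ∃ q, p = q + 2 := ⟨p - 2, by have := hp.two_le; omega⟩
  have hp0 : ((q + 2 : ℕ) : k) ≠ 0 := by
    have : (q + 2 : ℕ) ≠ 0 := by omega
    exact_mod_cast this
  obtain ⟨P, hP⟩ : ∃ P : k, P = ((q + 2 : ℕ) : k) := ⟨_, rfl⟩
  rw [← hP] at hp0 hx
  have hP1 : w P ≤ 1 := by
    rw [hP]
    exact w_nat w na _
  have hPπ : P ^ 2 * π ≠ 0 := mul_ne_zero (pow_ne_zero _ hp0) h0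
  obtain ⟨y, hy⟩ : ∃ y : k, y = (x - 1) / (P ^ 2 * π) := ⟨_, rfl⟩
  have hyx : P ^ 2 * π * y = x - 1 := by
    rw [hy]
    field_simp
  have hwy : w y ≤ 1 := by
    rw [hy, map_div₀, div_le_one (w.pos hPπ)]
    exact hx
  -- the coefficients
  obtain ⟨c, hc⟩ : ∃ c : ℕ → k, c = fun m => ((q + 2).choose (m + 2) : k) * P ^ m * π ^ (m + 1) :=
    ⟨_, rfl⟩
  have hwc : ∀ m, w (c m) ≤ w π := by
    intro m
    rw [hc]
    simp only [map_mul, map_pow]
    have e1 := w_nat w na ((q + 2).choose (m + 2))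
    have e2 : w P ^ m ≤ 1 := pow_le_one₀ (w.nonneg _) hP1
    have e3 : w π ^ (m + 1) ≤ w π := by
      rw [pow_succ]
      have : w π ^ m ≤ 1 := pow_le_one₀ (w.nonneg _) h1.le
      calc w π ^ m * w π ≤ 1 * w π := mul_le_mul_of_nonneg_right this (w.nonneg _)
        _ = w π := one_mul _
    calc w (((q + 2).choose (m + 2) : ℕ) : k) * w P ^ m * w π ^ (m + 1)
        ≤ 1 * 1 * w π := by
          have n1 := w.nonneg P
          have n2 := w.nonneg π
          gcongr
      _ = w π := by ring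
  obtain ⟨g, hg⟩ : ∃ g : k[X], g = ∑ m ∈ Finset.range (q + 1), C (c m) * (X + C y) ^ (m + 2) :=
    ⟨_, rfl⟩
  have hwg : ∀ n, w (g.coeff n) ≤ w π := by
    intro n
    rw [hg, finset_sum_coeff]
    apply w_sum w na _ _ _ (w.nonneg _)
    intro m _
    rw [coeff_C_mul, coeff_X_add_C_pow, map_mul, map_mul, map_pow]
    have e1 := w_nat w na ((m + 2).choose n)
    have e2 : w y ^ (m + 2 - n) ≤ 1 := pow_le_one₀ (w.nonneg _) hwy
    have e3 := hwc m
    calc w (c m) * (w y ^ (m + 2 - n) * w (((m + 2).choose n : ℕ) : k))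
        ≤ w π * (1 * 1) := by
          have n1 := w.nonneg y
          have n2 := w.nonneg π
          have n3 := w.nonneg (((m + 2).choose n : ℕ) : k)
          gcongr
      _ = w π := by ring
  obtain ⟨t, ht1, ht2⟩ := hens (X + g) (fun n => by
      rw [coeff_add, coeff_X]
      refine (na _ _).trans (max_le ?_ ((hwg n).trans h1.le))
      split_ifs
      · rw [map_one]
      · rw [map_zero]; exact zero_le_one) (by
      rw [coeff_add, coeff_X_zero, zero_add]
      exact (hwg 0).trans_lt h1) (by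
      rw [coeff_add, coeff_X_one]
      apply w_eq_one w na (map_one w)
      rw [add_sub_cancel_left]
      exact (hwg 1).trans_lt h1)
  have ht3 : t + ∑ m ∈ Finset.range (q + 1), c m * (t + y) ^ (m + 2) = 0 := by
    rw [eval_add, eval_X, hg, eval_finsetSum] at ht2
    simpa using ht2
  refine ⟨P * π * (t + y) + 1, ?_⟩
  rw [add_pow, Finset.sum_range_succ', Finset.sum_range_succ']
  have e1 : ∀ m ∈ Finset.range (q + 1), (P * π * (t + y)) ^ (m + 1 + 1) *
      1 ^ (q + 2 - (m + 1 + 1)) * ((q + 2).choose (m + 1 + 1) : k) =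
      P ^ 2 * π * (c m * (t + y) ^ (m + 2)) := by
    intro m _
    rw [hc, one_pow]
    simp only
    rw [mul_pow, mul_pow]
    ring
  rw [Finset.sum_congr rfl e1, ← Finset.mul_sum]
  have e2 : ∑ m ∈ Finset.range (q + 1), c m * (t + y) ^ (m + 2) = -t := by
    linear_combination ht3
  rw [e2]
  simp only [zero_add, pow_one, one_pow, mul_one, Nat.choose_one_right, pow_zero,
    Nat.choose_zero_right, Nat.cast_one]
  rw [← hP]
  linear_combination hyx

/-- approximation by digits -/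
theorem digits (π : k) (h0 : π ≠ 0) (h1 : w π < 1)
    (disc : ∀ x : k, x ≠ 0 → ∃ n : ℤ, w x = w π ^ n)
    (res : ∃ R : Finset k, ∀ x : k, w x ≤ 1 → ∃ r ∈ R, w (x - r) < 1) (M : ℕ) :
    ∃ R : Finset k, ∀ x : k, w x ≤ 1 → ∃ r ∈ R, w (x - r) ≤ w π ^ M := by
  classical
  have hπ0 : 0 < w π := w.pos h0
  obtain ⟨S, hS⟩ := res
  induction M with
  | zero =>
    refine ⟨{0}, fun x hx => ⟨0, Finset.mem_singleton_self 0, ?_⟩⟩
    rw [sub_zero, pow_zero]
    exact hx
  | succ M ih =>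
    obtain ⟨R, hR⟩ := ih
    refine ⟨(R ×ˢ S).image fun a => a.1 + a.2 * π ^ M, fun x hx => ?_⟩
    obtain ⟨r, hr, h2⟩ := hR x hx
    obtain ⟨y, hy⟩ : ∃ y : k, y = (x - r) / π ^ M := ⟨_, rfl⟩
    have hπM : π ^ M ≠ 0 := pow_ne_zero _ h0
    have hwy : w y ≤ 1 := by
      rw [hy, map_div₀, map_pow, div_le_one (by positivity)]
      exact h2
    obtain ⟨s, hs, h3⟩ := hS y hwy
    have h4 : w (y - s) ≤ w π := by
      by_cases h5 : y - s = 0
      · rw [h5, map_zero]
        exact hπ0.le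
      · obtain ⟨n, hn⟩ := disc _ h5
        rw [hn] at h3 ⊢
        have h6 : 0 < n := by
          by_contra hcon
          push Not at hcon
          have h7 : 1 ≤ w π ^ n := one_le_zpow_of_nonpos₀ hπ0 h1.le hcon
          linarith
        calc w π ^ n ≤ w π ^ (1 : ℤ) := zpow_le_zpow_right_of_le_one₀ hπ0 h1.le (by omega)
          _ = w π := zpow_one _
    refine ⟨r + s * π ^ M, Finset.mem_image.2 ⟨(r, s), Finset.mem_product.2 ⟨hr, hs⟩, rfl⟩, ?_⟩
    have h5 : x - (r + s * π ^ M) = (y - s) * π ^ M := by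
      rw [hy]
      field_simp
      ring
    rw [h5, map_mul, map_pow, pow_succ, mul_comm]
    exact mul_le_mul_of_nonneg_left h4 (by positivity)

theorem main [CharZero k] (p : ℕ) (hp : p.Prime) (hp1 : w (p : k) < 1) (π : k) (h0 : π ≠ 0)
    (h1 : w π < 1)
    (hens : ∀ f : Polynomial k, (∀ n, w (f.coeff n) ≤ 1) → w (f.coeff 0) < 1 →
      w (f.coeff 1) = 1 → ∃ x : k, w x < 1 ∧ f.eval x = 0)
    (disc : ∀ x : k, x ≠ 0 → ∃ n : ℤ, w x = w π ^ n)
    (res : ∃ R : Finset k, ∀ x : k, w x ≤ 1 → ∃ r ∈ R, w (x - r) < 1) :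
    ∃ R : Finset k, ∀ x : k, x ≠ 0 → ∃ r ∈ R, ∃ z : k, x = r * z ^ p := by
  classical
  have hπ0 : 0 < w π := w.pos h0
  have hp0 : (p : k) ≠ 0 := by exact_mod_cast hp.ne_zero
  have hPπ : (p : k) ^ 2 * π ≠ 0 := mul_ne_zero (pow_ne_zero _ hp0) h0
  have hlt : w ((p : k) ^ 2 * π) < 1 := by
    rw [map_mul, map_pow]
    have e1 : w (p : k) ^ 2 ≤ 1 := pow_le_one₀ (w.nonneg _) hp1.le
    calc w (p : k) ^ 2 * w π ≤ 1 * w π := mul_le_mul_of_nonneg_right e1 hπ0.le
      _ < 1 := by rw [one_mul]; exact h1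
  obtain ⟨N, hN⟩ := disc _ hPπ
  have hN0 : 0 ≤ N := by
    by_contra hcon
    push Not at hcon
    have h7 : 1 ≤ w π ^ N := one_le_zpow_of_nonpos₀ hπ0 h1.le hcon.le
    linarith
  obtain ⟨N', rfl⟩ : ∃ N' : ℕ, N = (N' : ℤ) := ⟨N.toNat, by omega⟩
  rw [zpow_natCast] at hN
  obtain ⟨R, hR⟩ := digits w na π h0 h1 disc res N'
  refine ⟨(Finset.range p ×ˢ R).image fun a => π ^ a.1 * a.2, fun x hx => ?_⟩
  obtain ⟨n, hn⟩ := disc x hx
  have hppos : (0 : ℤ) < p := by exact_mod_cast hp.pos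
  obtain ⟨j, hj⟩ : ∃ j : ℕ, (j : ℤ) = n % p :=
    ⟨(n % p).toNat, Int.toNat_of_nonneg (Int.emod_nonneg _ hppos.ne')⟩
  have hjp : j < p := by
    have := Int.emod_lt_of_pos n hppos
    omega
  obtain ⟨m, hm⟩ : ∃ m : ℤ, m = n / p := ⟨_, rfl⟩
  have hnm : n = j + m * p := by
    rw [hj, hm, mul_comm]
    exact (Int.emod_add_mul_ediv n p).symm
  obtain ⟨u, hu⟩ : ∃ u : k, u = x / (π ^ j * (π ^ m) ^ p) := ⟨_, rfl⟩
  have hd0 : π ^ j * (π ^ m) ^ p ≠ 0 :=
    mul_ne_zero (pow_ne_zero _ h0) (pow_ne_zero _ (zpow_ne_zero _ h0))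
  have hux : x = π ^ j * (π ^ m) ^ p * u := by
    rw [hu]
    field_simp
  have hwu : w u = 1 := by
    rw [hu, map_div₀, map_mul, map_pow, map_pow, map_zpow₀, hn, hnm,
      div_eq_one_iff_eq (by positivity), zpow_add₀ hπ0.ne', zpow_natCast, zpow_mul, zpow_natCast]
  obtain ⟨r, hr, h2⟩ := hR u hwu.le
  rw [← hN] at h2
  have hwr : w r = 1 := by
    apply w_eq_one w na hwu
    rw [w.map_sub]
    exact h2.trans_lt hlt
  have hr0 : r ≠ 0 := by
    rintro rfl
    rw [map_zero] at hwr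
    exact zero_ne_one hwr
  obtain ⟨z, hz⟩ := near_one w na p hp π h0 h1 hens (u / r) (by
    have e1 : u / r - 1 = (u - r) / r := by field_simp
    rw [e1, map_div₀, hwr, div_one]
    exact h2)
  refine ⟨π ^ j * r, Finset.mem_image.2 ⟨(j, r), Finset.mem_product.2
    ⟨Finset.mem_range.2 hjp, hr⟩, rfl⟩, π ^ m * z, ?_⟩
  rw [mul_pow, hz, hux]
  field_simp

end

theorem t_FINP : S_HENK → S_FINP := by
  intro hens k B _ _ _ _ _ v p π hg
  have hinj : Function.Injective (algebraMap k B) := (algebraMap k B).injective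
  refine main (v.comp hinj) (fun x y => ?_) p hg.prime ?_ π hg.pi0 hg.pi1
    (fun f h1 h2 h3 => hens k B v p π hg f h1 h2 h3) hg.disc hg.res
  · change v (algebraMap k B (x + y)) ≤ _
    rw [map_add]
    exact hg.na _ _
  · change v (algebraMap k B (p : k)) < 1
    rw [map_natCast]
    exact hg.p1

end Pool.Agent.N890.KO.FINP
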