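import Pool.Agent.N890.KO.Stm

set_option autoImplicit false

/-! # Hilbert's theorem 90 for a continuous action -/

namespace Pool.Agent.N890.KO.H90

open Pool.Agent.N890.KO

/-- embeddings extend to automorphisms -/
lemma ext {k B : Type} [Field k] [Field B] [Algebra k B] [IsAlgClosure k B]
    (M : IntermediateField k B) (φ : M →ₐ[k] B) : ∃ g : B ≃ₐ[k] B, ∀ x : M, g x = φ x := by
  haveI : Normal k B := IsAlgClosure.normal k B
  haveI : Algebra.IsAlgebraic k B := IsAlgClosure.isAlgebraic
  refine ⟨AlgEquiv.ofBijective (φ.liftNormal B)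
    (Algebra.IsAlgebraic.algHom_bijective (φ.liftNormal B)), fun x => ?_⟩
  exact φ.liftNormal_commutes B x

theorem t_H90 : S_H90 := by
  intro k B Ω _ _ _ _ _ _ e s hact c c0 hc ⟨M, hM, hMc⟩
  classical
  haveI := hM
  haveI : Fintype (M →ₐ[k] B) := Fintype.ofFinite _
  choose g hg using ext (k := k) (B := B) M
  -- c depends only on the restriction to M
  have dep : ∀ σ τ : B ≃ₐ[k] B, (∀ x : M, σ x = τ x) → c σ = c τ := by
    intro σ τ h
    have h1 : c (σ⁻¹ * τ) = 1 := by
      apply hMc
      intro x hx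
      have h2 := h ⟨x, hx⟩
      simp only at h2
      rw [AlgEquiv.mul_apply, ← h2]
      exact σ.symm_apply_apply x
    have h3 := hc σ (σ⁻¹ * τ)
    rw [mul_inv_cancel_left, h1, map_one, mul_one] at h3
    exact h3.symm
  -- linear independence
  have hli := linearIndependent_monoidHom M Ω
  let F : (M →ₐ[k] B) → (M →* Ω) := fun φ => (e.comp φ.toRingHom : M →+* Ω)
  have hF : Function.Injective F := by
    intro φ ψ h
    ext x
    have h1 := DFunLike.congr_fun h x
    exact e.injective h1
  have hli2 : LinearIndependent Ω (fun φ : M →ₐ[k] B => (F φ : M → Ω)) := hli.comp F hF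
  obtain ⟨x, hx⟩ : ∃ x : M, ∑ φ : M →ₐ[k] B, c (g φ) * e (φ x) ≠ 0 := by
    by_contra hcon
    push Not at hcon
    have h1 := Fintype.linearIndependent_iff.1 hli2 (fun φ => c (g φ)) (by
      funext x
      simp only [Finset.sum_apply, Pi.smul_apply, smul_eq_mul, Pi.zero_apply]
      exact hcon x) M.val
    exact c0 _ h1
  set θ' := ∑ φ : M →ₐ[k] B, c (g φ) * e (φ x) with hθ
  have key : ∀ h : B ≃ₐ[k] B, c h * s h θ' = θ' := by
    intro h
    let E : (M →ₐ[k] B) ≃ (M →ₐ[k] B) :=
      { toFun := fun φ => (h : B →ₐ[k] B).comp φ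
        invFun := fun φ => (h.symm : B →ₐ[k] B).comp φ
        left_inv := fun φ => by
          ext y
          simp
        right_inv := fun φ => by
          ext y
          simp }
    have hE : ∀ φ (y : M), E φ y = h (φ y) := fun φ y => rfl
    rw [hθ, map_sum, Finset.mul_sum]
    refine Fintype.sum_equiv E _ _ fun φ => ?_
    have h1 : c (g (E φ)) = c (h * g φ) := by
      apply dep
      intro y
      rw [hg, hE, AlgEquiv.mul_apply, hg]
    rw [h1, hc, hE, map_mul, hact.eq]
    ring
  refine ⟨θ'⁻¹, inv_ne_zero hx, fun σ => ?_⟩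
  have h1 := key σ
  have h2 : s σ θ' ≠ 0 := (map_ne_zero (s σ)).2 hx
  rw [map_inv₀, ← h1, mul_inv]
  rw [h1]
  have h3 : c σ ≠ 0 := c0 σ
  field_simp

end Pool.Agent.N890.KO.H90
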