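import Pool.Agent.N890.KO.Stm

/-!
Project KO (helper890), part HEN (helper186): Hensel's lemma for an invariant valuation ring of an
algebraically closed field.
-/

set_option autoImplicit false

namespace Pool.Agent.N890.KO.HEN

open Polynomial Pool.Agent.N890.KO

variable {Ω : Type} [Field Ω]

/-- existence of a root in the maximal ideal -/
theorem exists_root [IsAlgClosed Ω] (O : ValuationSubring Ω) (f : Polynomial Ω)
    (h0 : f.coeff 0 ∈ O.nonunits) (h1 : f.coeff 1 ∉ O.nonunits) :
    ∃ x ∈ O.nonunits, f.eval x = 0 := by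
  by_contra hcon
  push Not at hcon
  have hz : (0 : Ω) ∈ O.nonunits := by
    rw [ValuationSubring.mem_nonunits_iff_or]
    left; rfl
  have hf0 : f.eval 0 ≠ 0 := hcon 0 hz
  have hfne : f ≠ 0 := by
    rintro rfl
    simp at hf0
  have hd := (IsAlgClosed.splits f).eval_derivative_div_eval_of_ne_zero hf0
  have hsum : (f.roots.map fun w => 1 / (0 - w)).sum ∈ O := by
    have : ∀ y ∈ f.roots.map fun w => 1 / (0 - w), y ∈ O := by
      intro y hy
      rw [Multiset.mem_map] at hy
      obtain ⟨w, hw, rfl⟩ := hy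
      have hw0 : f.eval w = 0 := (Polynomial.mem_roots hfne).1 hw
      have hwn : w ∉ O.nonunits := fun h => hcon w h hw0
      rw [ValuationSubring.mem_nonunits_iff_or] at hwn
      push Not at hwn
      have h3 : (1 : Ω) / (0 - w) = -(w⁻¹) := by
        rw [zero_sub, one_div, inv_neg]
      rw [h3]
      exact O.neg_mem _ hwn.2
    exact multiset_sum_mem _ this
  rw [← hd] at hsum
  apply h1
  have hc0 : f.eval 0 = f.coeff 0 := by rw [← Polynomial.coeff_zero_eq_eval_zero]
  have hc1 : (derivative f).eval 0 = f.coeff 1 := by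
    rw [← Polynomial.coeff_zero_eq_eval_zero, Polynomial.coeff_derivative]
    simp
  rw [hc1] at hsum
  have hmul : f.coeff 1 = f.coeff 1 / f.eval 0 * f.coeff 0 := by
    rw [← hc0]
    field_simp
  rw [hmul, ValuationSubring.mem_nonunits_iff, map_mul]
  have a1 := (O.valuation_le_one_iff _).2 hsum
  have a2 := (ValuationSubring.mem_nonunits_iff O).1 h0
  calc O.valuation (f.coeff 1 / f.eval 0) * O.valuation (f.coeff 0)
      ≤ 1 * O.valuation (f.coeff 0) := mul_le_mul_left a1 _
    _ = O.valuation (f.coeff 0) := one_mul _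
    _ < 1 := a2

/-- uniqueness of the root in the maximal ideal -/
theorem unique_root (O : ValuationSubring Ω) (f : Polynomial Ω) (hc : ∀ n, f.coeff n ∈ O)
    (h1 : f.coeff 1 ∉ O.nonunits) (x y : Ω) (hx : x ∈ O.nonunits) (hy : y ∈ O.nonunits)
    (fx : f.eval x = 0) (fy : f.eval y = 0) : x = y := by
  obtain ⟨F, hF⟩ : ∃ F : Polynomial O, F.map (algebraMap O Ω) = f := by
    have : f ∈ Polynomial.lifts (algebraMap O Ω) := by
      rw [Polynomial.lifts_iff_coeff_lifts]
      intro n
      exact ⟨⟨f.coeff n, hc n⟩, rfl⟩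
    exact (Polynomial.mem_lifts f).1 this
  obtain ⟨hxO, hx'⟩ := ValuationSubring.mem_nonunits_iff_exists_mem_maximalIdeal.1 hx
  obtain ⟨hyO, hy'⟩ := ValuationSubring.mem_nonunits_iff_exists_mem_maximalIdeal.1 hy
  set x' : O := ⟨x, hxO⟩ with hx'd
  set y' : O := ⟨y, hyO⟩ with hy'd
  have ex : F.eval x' = 0 := by
    have h2 : (F.map (algebraMap O Ω)).eval (algebraMap O Ω x') = algebraMap O Ω (F.eval x') :=
      Polynomial.eval_map_apply _ _
    rw [hF] at h2
    have h3 : f.eval (algebraMap O Ω x') = 0 := fx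
    rw [h3] at h2
    exact (FaithfulSMul.algebraMap_injective O Ω) (by rw [map_zero]; exact h2.symm)
  have ey : F.eval y' = 0 := by
    have h2 : (F.map (algebraMap O Ω)).eval (algebraMap O Ω y') = algebraMap O Ω (F.eval y') :=
      Polynomial.eval_map_apply _ _
    rw [hF] at h2
    have h3 : f.eval (algebraMap O Ω y') = 0 := fy
    rw [h3] at h2
    exact (FaithfulSMul.algebraMap_injective O Ω) (by rw [map_zero]; exact h2.symm)
  obtain ⟨k, hk⟩ := Polynomial.binomExpansion F x' (y' - x')
  rw [add_sub_cancel, ex, ey, zero_add] at hk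
  have hk2 : (y' - x') * ((derivative F).eval x' + k * (y' - x')) = 0 := by
    rw [hk]
    ring
  obtain ⟨c, hcd⟩ := Polynomial.sub_dvd_eval_sub x' 0 (derivative F)
  have hF1 : (derivative F).eval 0 = F.coeff 1 := by
    rw [← Polynomial.coeff_zero_eq_eval_zero, Polynomial.coeff_derivative]
    simp
  have hF1' : F.coeff 1 ∉ IsLocalRing.maximalIdeal O := by
    intro h
    apply h1
    rw [← hF, Polynomial.coeff_map]
    exact ValuationSubring.coe_mem_nonunits_iff.2 h
  have hunit : (derivative F).eval x' + k * (y' - x') ≠ 0 := by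
    intro h
    apply hF1'
    have e1 : F.coeff 1 = -(x' * c) - k * (y' - x') := by
      rw [hF1, sub_zero] at hcd
      linear_combination h - hcd
    rw [e1]
    exact Ideal.sub_mem _ (Ideal.neg_mem_iff _ |>.2 (Ideal.mul_mem_right _ _ hx'))
      (Ideal.mul_mem_left _ _ (Ideal.sub_mem _ hy' hx'))
  have h5 : y' - x' = 0 := (mul_eq_zero.1 hk2).resolve_right hunit
  have h6 : y' = x' := sub_eq_zero.1 h5
  exact (congrArg (fun z : O => (z : Ω)) h6).symm

theorem t_HEN : S_HEN := by
  intro Ω G _ _ _ s O hO f hf h0 h1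
  obtain ⟨x, hx, fx⟩ := exists_root O f h0 h1
  refine ⟨x, hx, fun g => ?_, fx⟩
  refine unique_root O f (fun n => (hf n).1) h1 _ _ ?_ hx ?_ fx
  · rw [ValuationSubring.mem_nonunits_iff_or] at hx ⊢
    rcases hx with rfl | hx
    · left; simp
    · right
      intro hcon
      apply hx
      rw [← map_inv₀] at hcon
      have := hO g⁻¹ _ hcon
      have h3 : s g⁻¹ (s g x⁻¹) = x⁻¹ := by
        have h4 : (s g⁻¹ * s g) x⁻¹ = x⁻¹ := by
          rw [← map_mul, inv_mul_cancel, map_one]
          rfl
        exact h4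
      rwa [h3] at this
  · have hmap : f.map (s g : Ω →+* Ω) = f := by
      ext n
      rw [Polynomial.coeff_map]
      exact (hf n).2 g
    have h2 : (f.map (s g : Ω →+* Ω)).eval ((s g : Ω →+* Ω) x) = (s g : Ω →+* Ω) (f.eval x) :=
      Polynomial.eval_map_apply _ _
    rw [hmap, fx, map_zero] at h2
    exact h2

end Pool.Agent.N890.KO.HEN
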