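import Mathlib

/-!
Project KO (helper890), page MP_8312c9_nt: the theorem of Koenigsmann on birational sections over
`p`-adically closed fields. Statements of the pieces (only Mathlib).

`k` is a henselian discretely valued field of characteristic zero with finite residue field of
characteristic `p`, `B` an algebraic closure with the absolute value `v`. `Gal(B/k)` acts
continuously on the algebraically closed field `Ω ⊇ B`. The fixed field `L` satisfies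
`L* = k* L*^n`, and `Br(k) → Br(L)` is injective. By the theory of rigid elements `Ω` has an
invariant valuation ring above that of `B`, and `L` is discrete of the same kind as `k`.
-/

set_option autoImplicit false

namespace Pool.Agent.N890.KO

open Polynomial IntermediateField

/-! ### Valued fields -/

/-- `v` is an absolute value on the extension `B` of `k`, non-archimedean and invariant under
`Gal(B/k)`, discrete on `k` with uniformizer `π` and with finite residue field of characteristic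
`p`. -/
structure Good {k B : Type} [Field k] [Field B] [Algebra k B] (v : AbsoluteValue B ℝ) (p : ℕ)
    (π : k) : Prop where
  na : ∀ x y, v (x + y) ≤ max (v x) (v y)
  inv : ∀ (τ : B ≃ₐ[k] B) x, v (τ x) = v x
  pi0 : π ≠ 0
  pi1 : v (algebraMap k B π) < 1
  disc : ∀ x : k, x ≠ 0 → ∃ n : ℤ, v (algebraMap k B x) = v (algebraMap k B π) ^ n
  res : ∃ R : Finset k, ∀ x : k, v (algebraMap k B x) ≤ 1 →
    ∃ r ∈ R, v (algebraMap k B (x - r)) < 1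
  prime : p.Prime
  p1 : v (p : B) < 1

/-- `M` is a cyclic extension of `k` of degree `n`, `σ` generates the Galois group. -/
structure Cyc {k B : Type} [Field k] [Field B] [Algebra k B] (M : IntermediateField k B)
    (σ : B ≃ₐ[k] B) (n : ℕ) : Prop where
  fin : FiniteDimensional k M
  pos : 0 < n
  norm : ∀ (τ : B ≃ₐ[k] B), ∀ x ∈ M, τ x ∈ M
  per : ∀ x ∈ M, (σ ^ n) x = x
  ord : ∀ i < n, (∀ x ∈ M, (σ ^ i) x = x) → i = 0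
  gen : ∀ τ : B ≃ₐ[k] B, ∃ i < n, ∀ x ∈ M, τ x = (σ ^ i) x

/-- restriction of scalars from `M` to `k` -/
def resM {k B : Type} [Field k] [Field B] [Algebra k B] (M : IntermediateField k B) :
    (B ≃ₐ[M] B) →* (B ≃ₐ[k] B) where
  toFun τ := τ.restrictScalars k
  map_one' := rfl
  map_mul' _ _ := rfl

/-! ### Actions -/

/-- A continuous action `s` of `Gal(B/k)` on the field `Ω`, into which `B` is embedded by `e`. -/
structure Act {k B Ω : Type} [Field k] [Field B] [Field Ω] [Algebra k B] (e : B →+* Ω)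
    (s : (B ≃ₐ[k] B) →* (Ω ≃+* Ω)) : Prop where
  eq : ∀ τ y, s τ (e y) = e (τ y)
  cont : ∀ y : Ω, ∃ M : IntermediateField k B, FiniteDimensional k M ∧
    ∀ τ : B ≃ₐ[k] B, (∀ x ∈ M, τ x = x) → s τ y = y

section fixed

variable {k B Ω G : Type} [Field k] [Field B] [Field Ω] [Algebra k B] [Group G]

/-- the fixed field -/
def FxF (s : G →* (Ω ≃+* Ω)) : Subfield Ω where
  carrier := {y | ∀ τ, s τ y = y}
  mul_mem' ha hb τ := by rw [map_mul, ha τ, hb τ]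
  one_mem' τ := map_one _
  add_mem' ha hb τ := by rw [map_add, ha τ, hb τ]
  zero_mem' τ := map_zero _
  neg_mem' ha τ := by rw [map_neg, ha τ]
  inv_mem' x hx τ := by rw [map_inv₀, hx τ]

/-- the field fixed by the automorphisms which fix `M` -/
def FxM (s : (B ≃ₐ[k] B) →* (Ω ≃+* Ω)) (M : IntermediateField k B) : Subfield Ω :=
  FxF (s.comp (resM M))

end fixed

/-- H90. Hilbert's theorem 90. -/
def S_H90 : Prop := ∀ (k B Ω : Type) [Field k] [Field B] [Field Ω] [Algebra k B] [IsAlgClosure k B]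
  [CharZero k] (e : B →+* Ω) (s : (B ≃ₐ[k] B) →* (Ω ≃+* Ω)), Act e s →
  ∀ c : (B ≃ₐ[k] B) → Ω, (∀ σ, c σ ≠ 0) → (∀ σ τ, c (σ * τ) = c σ * s σ (c τ)) →
  (∃ M : IntermediateField k B, FiniteDimensional k M ∧
    ∀ τ : B ≃ₐ[k] B, (∀ x ∈ M, τ x = x) → c τ = 1) →
  ∃ θ : Ω, θ ≠ 0 ∧ ∀ σ, s σ θ = c σ * θ

/-- KUM. Kummer theory: `L* = k* L*^n`. -/
def S_KUM : Prop := ∀ (k B Ω : Type) [Field k] [Field B] [Field Ω] [Algebra k B] [IsAlgClosure k B]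
  [CharZero k] [IsAlgClosed Ω] (e : B →+* Ω) (s : (B ≃ₐ[k] B) →* (Ω ≃+* Ω)), Act e s →
  ∀ n : ℕ, 1 ≤ n →
  (∀ y ∈ FxF s, y ≠ 0 → ∃ (c : k) (z : Ω), c ≠ 0 ∧ z ≠ 0 ∧ z ∈ FxF s ∧
    y = e (algebraMap k B c) * z ^ n) ∧
  ∀ (c : k) (z : Ω), z ∈ FxF s → z ^ n = e (algebraMap k B c) → ∃ d : k, d ^ n = c

/-- SPLIT. Norms from cyclic extensions: `Br(k) → Br(L)` is injective. -/
def S_SPLIT : Prop := ∀ (k B Ω : Type) [Field k] [Field B] [Field Ω] [Algebra k B]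
  [IsAlgClosure k B] [CharZero k] [IsAlgClosed Ω] (e : B →+* Ω) (s : (B ≃ₐ[k] B) →* (Ω ≃+* Ω)),
  Act e s → ∀ (M : IntermediateField k B) (σ : B ≃ₐ[k] B) (n : ℕ), Cyc M σ n →
  ∀ (b : k) (β : Ω), b ≠ 0 → β ∈ FxM s M →
  ∏ i ∈ Finset.range n, s (σ ^ i) β = e (algebraMap k B b) →
  ∃ β₀ ∈ M, ∏ i ∈ Finset.range n, (σ ^ i) β₀ = algebraMap k B b

/-- HEN. Hensel's lemma for a valuation ring of an algebraically closed field which is invariant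
under a group of automorphisms. -/
def S_HEN : Prop := ∀ (Ω G : Type) [Field Ω] [IsAlgClosed Ω] [Group G] (s : G →* (Ω ≃+* Ω))
  (O : ValuationSubring Ω), (∀ g y, y ∈ O → s g y ∈ O) → ∀ f : Polynomial Ω,
  (∀ n, f.coeff n ∈ O ∧ ∀ g, s g (f.coeff n) = f.coeff n) →
  f.coeff 0 ∈ O.nonunits → f.coeff 1 ∉ O.nonunits →
  ∃ x ∈ O.nonunits, (∀ g, s g x = x) ∧ f.eval x = 0

/-- HENK. Hensel's lemma for `k`. -/
def S_HENK : Prop := ∀ (k B : Type) [Field k] [Field B] [Algebra k B] [IsAlgClosure k B]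
  [CharZero k] (v : AbsoluteValue B ℝ) (p : ℕ) (π : k), Good v p π → ∀ f : Polynomial k,
  (∀ n, v (algebraMap k B (f.coeff n)) ≤ 1) → v (algebraMap k B (f.coeff 0)) < 1 →
  v (algebraMap k B (f.coeff 1)) = 1 → ∃ x : k, v (algebraMap k B x) < 1 ∧ f.eval x = 0

/-- BASE. Finite extensions. -/
def S_BASE : Prop := ∀ (k B : Type) [Field k] [Field B] [Algebra k B] [IsAlgClosure k B]
  [CharZero k] (v : AbsoluteValue B ℝ) (p : ℕ) (π : k), Good v p π →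
  ∀ M : IntermediateField k B, FiniteDimensional k M → ∃ ϖ : M, Good (k := M) v p ϖ

/-- POW. The elements near `1` are `n`-th powers for `n` prime to `p`. -/
def S_POW : Prop := ∀ (k B : Type) [Field k] [Field B] [Algebra k B] [IsAlgClosure k B]
  [CharZero k] (v : AbsoluteValue B ℝ) (p : ℕ) (π : k), Good v p π → ∀ n : ℕ, ¬ p ∣ n →
  ∀ x : k, v (algebraMap k B (x - 1)) < 1 → ∃ y : k, y ^ n = x ∧ v (algebraMap k B (y - 1)) < 1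

/-- FINP. There are finitely many classes modulo `p`-th powers. -/
def S_FINP : Prop := ∀ (k B : Type) [Field k] [Field B] [Algebra k B] [IsAlgClosure k B]
  [CharZero k] (v : AbsoluteValue B ℝ) (p : ℕ) (π : k), Good v p π →
  ∃ R : Finset k, ∀ x : k, x ≠ 0 → ∃ r ∈ R, ∃ z : k, x = r * z ^ p

/-- UNR. The unramified extension of degree `p`. -/
def S_UNR : Prop := ∀ (k B : Type) [Field k] [Field B] [Algebra k B] [IsAlgClosure k B]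
  [CharZero k] (v : AbsoluteValue B ℝ) (p : ℕ) (π : k), Good v p π →
  ∃ (M : IntermediateField k B) (σ : B ≃ₐ[k] B), Cyc M σ p ∧
    (∃ θ ∈ M, v θ ≤ 1 ∧ ∑ i ∈ Finset.range p, (σ ^ i) θ = 1) ∧
    ∀ β ∈ M, β ≠ 0 → ∃ j : ℤ, v β = v (algebraMap k B π) ^ j

/-- TAME. The norms from the tamely ramified extension by the `ℓ`-th root of `a`. -/
def S_TAME : Prop := ∀ (k B : Type) [Field k] [Field B] [Algebra k B] [IsAlgClosure k B]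
  [CharZero k] (v : AbsoluteValue B ℝ) (p : ℕ) (π : k), Good v p π →
  ∀ (ℓ : ℕ), ℓ.Prime → ℓ ≠ p → ∀ ζ : k, ζ ^ ℓ = 1 → ζ ≠ 1 →
  ∀ (a : k) (n : ℤ), v (algebraMap k B a) = v (algebraMap k B π) ^ n → ¬ (ℓ : ℤ) ∣ n →
  ∀ α : B, α ^ ℓ = algebraMap k B a →
  ∃ σ : B ≃ₐ[k] B, Cyc k⟮α⟯ σ ℓ ∧ σ α = algebraMap k B ζ * α ∧
    ∀ β ∈ k⟮α⟯, β ≠ 0 → ∃ (j : ℕ) (c : k), c ≠ 0 ∧
      ∏ i ∈ Finset.range ℓ, (σ ^ i) β = algebraMap k B (((-1) ^ (ℓ - 1) * a) ^ j * c ^ ℓ)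

/-- the case distinction for the auxiliary prime `ℓ` -/
def Lc (ℓ : ℕ) (k : Type) [Field k] : Prop :=
  (ℓ = 2 ∧ ∃ i : k, i ^ 2 = -1) ∨ (ℓ = 3 ∧ ∃ ω : k, ω ^ 2 + ω + 1 = 0)

/-- the non-zero `ℓ`-th powers -/
def Pw {L : Type} [Field L] (ℓ : ℕ) : Set L := {x | ∃ z, z ≠ 0 ∧ x = z ^ ℓ}

/-- the products of elements of `U` and `ℓ`-th powers -/
def HH {L : Type} [Field L] (ℓ : ℕ) (U : Set L) : Set L := {x | ∃ u ∈ U, ∃ z, z ≠ 0 ∧ x = u * z ^ ℓ}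

/-- the small elements which are not in `HH` -/
def Om {L : Type} [Field L] (ℓ : ℕ) (U : Set L) : Set L := {x | x ≠ 0 ∧ x ∉ HH ℓ U ∧ 1 + x ∈ Pw ℓ}

/-- the canonical ring -/
def canon {L : Type} [Field L] (ℓ : ℕ) (U : Set L) : Set L :=
  {x | x = 0 ∨ x ∈ Om ℓ U ∨ (x ∈ HH ℓ U ∧ ∀ y ∈ Om ℓ U, x * y ∈ Om ℓ U)}

/-- the units of `k`, in a field `L` -/
structure IsU {L : Type} [Field L] (U : Set L) : Prop where
  zero : (0 : L) ∉ U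
  one : (1 : L) ∈ U
  neg : (-1 : L) ∈ U
  mul : ∀ x ∈ U, ∀ y ∈ U, x * y ∈ U
  inv : ∀ x ∈ U, x⁻¹ ∈ U

/-- the constants needed for the rigid elements -/
structure Cst {L : Type} [Field L] (ℓ : ℕ) (U : Set L) : Prop where
  neg : ∃ d : L, d ^ ℓ = -1
  a : ∃ c ∈ U, c - 1 ∈ U ∧ c ∉ Pw ℓ ∧ (ℓ = 2 → c - 1 ∉ Pw ℓ)
  b : ∀ c ∈ U, c ∈ Submonoid.closure {d : L | d ∈ U ∧ d - 1 ∈ U ∧ (d - 1) / d ∉ Pw ℓ}
  c : ℓ = 3 → ∃ c ∈ U, c - 1 ∈ U ∧ c ∉ Pw ℓ ∧ c * (c - 1) ∈ Pw ℓ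

/-- FF. Constants in finite fields. -/
def S_FF : Prop := ∀ (κ : Type) [Field κ] [Finite κ] (ℓ : ℕ), Lc ℓ κ → (ℓ : κ) ≠ 0 →
  Cst ℓ {x : κ | x ≠ 0}

/-- CONST. Constants in `k`. -/
def S_CONST : Prop := ∀ (k B : Type) [Field k] [Field B] [Algebra k B] [IsAlgClosure k B]
  [CharZero k] (v : AbsoluteValue B ℝ) (p : ℕ) (π : k), Good v p π →
  ∀ ℓ : ℕ, ℓ ≠ p → Lc ℓ k → IsU {x : k | v (algebraMap k B x) = 1} ∧
    Cst ℓ {x : k | v (algebraMap k B x) = 1}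

/-- QR. Quasi-rigid elements. -/
def S_QR : Prop := ∀ (k B Ω : Type) [Field k] [Field B] [Field Ω] [Algebra k B] [IsAlgClosure k B]
  [CharZero k] [IsAlgClosed Ω] (e : B →+* Ω) (s : (B ≃ₐ[k] B) →* (Ω ≃+* Ω)), Act e s →
  ∀ (v : AbsoluteValue B ℝ) (p : ℕ) (π : k), Good v p π → ∀ ℓ : ℕ, ℓ ≠ p → Lc ℓ k →
  ∀ (a : k) (n : ℤ) (t : Ω), v (algebraMap k B a) = v (algebraMap k B π) ^ n → ¬ (ℓ : ℤ) ∣ n →
  t ∈ FxF s → t ≠ 0 → 1 + e (algebraMap k B a) * t ^ ℓ ≠ 0 →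
  ∃ (i : ℕ) (z : Ω), z ≠ 0 ∧ z ∈ FxF s ∧
    1 + e (algebraMap k B a) * t ^ ℓ = (e (algebraMap k B a) * t ^ ℓ) ^ i * z ^ ℓ

/-- RIG1. Rigid elements. -/
def S_RIG1 : Prop := ∀ (L : Type) [Field L] (ℓ : ℕ) (U : Set L), (ℓ = 2 ∨ ℓ = 3) → IsU U →
  Cst ℓ U → (∀ x : L, x ≠ 0 → x ∉ HH ℓ U → ∃ (i : ℕ) (z : L), z ≠ 0 ∧ 1 + x = x ^ i * z ^ ℓ) →
  (∀ x : L, x ≠ 0 → x ∉ HH ℓ U → 1 + x ∈ Pw ℓ ∨ (1 + x) / x ∈ Pw ℓ) ∧
  (∀ c ∈ U, ∀ x ∈ Om ℓ U, c * x ∈ Om ℓ U) ∧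
  ∀ a ∈ Om ℓ U, ∀ b ∈ Om ℓ U, 1 - a * b ∈ Pw ℓ

/-- RIG2. The valuation ring. -/
def S_RIG2 : Prop := ∀ (L : Type) [Field L] (ℓ : ℕ) (U : Set L), ℓ.Prime → IsU U →
  Cst ℓ U →
  (∀ x : L, x ≠ 0 → x ∉ HH ℓ U → 1 + x ∈ Pw ℓ ∨ (1 + x) / x ∈ Pw ℓ) →
  (∀ c ∈ U, ∀ x ∈ Om ℓ U, c * x ∈ Om ℓ U) →
  (∀ a ∈ Om ℓ U, ∀ b ∈ Om ℓ U, 1 - a * b ∈ Pw ℓ) →
  ∃ O : ValuationSubring L, (O : Set L) = canon ℓ U

/-- CAN. The canonical valuation ring of the fixed field `L`. -/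
def S_CAN : Prop := ∀ (k B Ω : Type) [Field k] [Field B] [Field Ω] [Algebra k B] [IsAlgClosure k B]
  [CharZero k] [IsAlgClosed Ω] (e : B →+* Ω) (s : (B ≃ₐ[k] B) →* (Ω ≃+* Ω)), Act e s →
  ∀ (v : AbsoluteValue B ℝ) (p : ℕ) (π : k), Good v p π → ∀ ℓ : ℕ, ℓ ≠ p → Lc ℓ k →
  ∃ O : ValuationSubring (FxF s),
    (O : Set (FxF s)) = canon (L := FxF s) ℓ {x : FxF s | ∃ u : k,
      v (algebraMap k B u) = 1 ∧ (x : Ω) = e (algebraMap k B u)} ∧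
    ∀ (a : k) (x : FxF s), (x : Ω) = e (algebraMap k B a) → (x ∈ O ↔ v (algebraMap k B a) ≤ 1)

/-- LIM. Limits of valuation rings along an ultrafilter. -/
def S_LIM : Prop := ∀ (Ω G I : Type) [Field Ω] [Group G] [Preorder I] [IsDirected I (· ≤ ·)]
  [Nonempty I] (s : G →* (Ω ≃+* Ω)) (L : I → Subfield Ω) (O : I → Set Ω),
  (∀ y, ∃ i, ∀ j, i ≤ j → y ∈ L j) →
  (∀ i, ∃ O' : ValuationSubring (L i), ∀ y : L i, y ∈ O' ↔ (y : Ω) ∈ O i) →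
  (∀ i g y, y ∈ O i → s g y ∈ O i) →
  ∃ O' : ValuationSubring Ω, (∀ g y, y ∈ O' → s g y ∈ O') ∧
    ∀ y, ((∃ i, ∀ j, i ≤ j → y ∈ O j) → y ∈ O') ∧ ((∃ i, ∀ j, i ≤ j → y ∉ O j) → y ∉ O')

/-- EXT. There is an invariant valuation ring of `Ω` above the valuation ring of `B`. -/
def S_EXT : Prop := ∀ (k B Ω : Type) [Field k] [Field B] [Field Ω] [Algebra k B] [IsAlgClosure k B]
  [CharZero k] [IsAlgClosed Ω] (e : B →+* Ω) (s : (B ≃ₐ[k] B) →* (Ω ≃+* Ω)), Act e s →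
  ∀ (v : AbsoluteValue B ℝ) (p : ℕ) (π : k), Good v p π →
  ∃ O : ValuationSubring Ω, (∀ τ y, y ∈ O → s τ y ∈ O) ∧ ∀ b : B, e b ∈ O ↔ v b ≤ 1

/-- CASE1. Discrete valuations. -/
def S_CASE1 : Prop := ∀ (L : Type) [Field L] [CharZero L] (O : ValuationSubring L)
  (K₀ : Subfield L) (p : ℕ) (π : L), p.Prime → π ∈ K₀ → π ≠ 0 → π ∈ O.nonunits →
  (p : L) / π ∈ O → (∀ c ∈ K₀, c ≠ 0 → ∃ j : ℤ, O.valuation c = O.valuation π ^ j) →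
  (∃ R : Finset L, ∀ y : L, y ≠ 0 → ∃ r ∈ R, ∃ z, y = r * z ^ p) →
  (∀ n : ℕ, 1 ≤ n → ∀ y : L, y ≠ 0 → ∃ c ∈ K₀, ∃ z, c ≠ 0 ∧ z ≠ 0 ∧ y = c * z ^ n) →
  (∃ (t : L) (m : ℕ), t ≠ 0 ∧ t ∈ O.nonunits ∧
    (∀ x ∈ O.nonunits, O.valuation x ≤ O.valuation t) ∧ O.valuation π = O.valuation t ^ m) →
  ∀ x ∈ O, ∃ a ∈ K₀, a ∈ O ∧ O.valuation (x - a) ≤ O.valuation π

/-- CASE2. Non-discrete valuations. -/
def S_CASE2 : Prop := ∀ (L : Type) [Field L] [CharZero L] (O : ValuationSubring L)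
  (p : ℕ) (π : L), p.Prime → π ≠ 0 → π ∈ O.nonunits → (p : L) / π ∈ O →
  (∃ R : Finset L, ∀ y : L, y ≠ 0 → ∃ r ∈ R, ∃ z, y = r * z ^ p) →
  ¬ (∃ (t : L) (m : ℕ), t ≠ 0 ∧ t ∈ O.nonunits ∧
    (∀ x ∈ O.nonunits, O.valuation x ≤ O.valuation t) ∧ O.valuation π = O.valuation t ^ m) →
  ∃ z y : L, y ∈ O.nonunits ∧ π = z ^ p * (1 + y)

/-- BEX. The second case is impossible. -/
def S_BEX : Prop := ∀ (k B Ω : Type) [Field k] [Field B] [Field Ω] [Algebra k B] [IsAlgClosure k B]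
  [CharZero k] [IsAlgClosed Ω] (e : B →+* Ω) (s : (B ≃ₐ[k] B) →* (Ω ≃+* Ω)), Act e s →
  ∀ (v : AbsoluteValue B ℝ) (p : ℕ) (π : k), Good v p π →
  ∀ O : ValuationSubring Ω, (∀ τ y, y ∈ O → s τ y ∈ O) → (∀ b : B, e b ∈ O ↔ v b ≤ 1) →
  ¬ ∃ z y : Ω, z ∈ FxF s ∧ y ∈ FxF s ∧ y ∈ O.nonunits ∧
    e (algebraMap k B π) = z ^ p * (1 + y)

/-- APP. Approximation of the elements of `L` by elements of `k`. -/
def S_APP : Prop := ∀ (k B Ω : Type) [Field k] [Field B] [Field Ω] [Algebra k B] [IsAlgClosure k B]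
  [CharZero k] [IsAlgClosed Ω] (e : B →+* Ω) (s : (B ≃ₐ[k] B) →* (Ω ≃+* Ω)), Act e s →
  ∀ (v : AbsoluteValue B ℝ) (p : ℕ) (π : k), Good v p π →
  ∀ O : ValuationSubring Ω, (∀ τ y, y ∈ O → s τ y ∈ O) → (∀ b : B, e b ∈ O ↔ v b ≤ 1) →
  ∀ (n : ℕ) (y : Ω), y ∈ FxF s → y ∈ O → ∃ a : k, v (algebraMap k B a) ≤ 1 ∧
    O.valuation (y - e (algebraMap k B a)) ≤ O.valuation (e (algebraMap k B π)) ^ n

/-- APM. The same for the finite extensions of `k`. -/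
def S_APM : Prop := ∀ (k B Ω : Type) [Field k] [Field B] [Field Ω] [Algebra k B] [IsAlgClosure k B]
  [CharZero k] [IsAlgClosed Ω] (e : B →+* Ω) (s : (B ≃ₐ[k] B) →* (Ω ≃+* Ω)), Act e s →
  ∀ (v : AbsoluteValue B ℝ) (p : ℕ) (π : k), Good v p π →
  ∀ O : ValuationSubring Ω, (∀ τ y, y ∈ O → s τ y ∈ O) → (∀ b : B, e b ∈ O ↔ v b ≤ 1) →
  ∀ M : IntermediateField k B, FiniteDimensional k M → ∀ (n : ℕ) (y : Ω), y ∈ FxM s M → y ∈ O →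
    ∃ a ∈ M, v a ≤ 1 ∧ O.valuation (y - e a) ≤ O.valuation (e (algebraMap k B π)) ^ n

/-- PHI. The place. -/
def S_PHI : Prop := ∀ (k B Ω C : Type) [Field k] [Field B] [Field Ω] [Field C] [Algebra k B]
  [IsAlgClosure k B] [CharZero k] [IsAlgClosed Ω] (e : B →+* Ω)
  (s : (B ≃ₐ[k] B) →* (Ω ≃+* Ω)), Act e s →
  ∀ (v : AbsoluteValue B ℝ) (p : ℕ) (π : k), Good v p π →
  ∀ O : ValuationSubring Ω, (∀ τ y, y ∈ O → s τ y ∈ O) → (∀ b : B, e b ∈ O ↔ v b ≤ 1) →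
  (∀ M : IntermediateField k B, FiniteDimensional k M → ∀ (n : ℕ) (y : Ω), y ∈ FxM s M → y ∈ O →
    ∃ a ∈ M, v a ≤ 1 ∧ O.valuation (y - e a) ≤ O.valuation (e (algebraMap k B π)) ^ n) →
  ∀ (ι : B →+* C) (V : AbsoluteValue C ℝ), (∀ x y, V (x + y) ≤ max (V x) (V y)) →
  (∀ b, V (ι b) = v b) →
  (∀ M : IntermediateField k B, FiniteDimensional k M → ∀ a : ℕ → B, (∀ n, a n ∈ M) →
    (∀ n m, n ≤ m → v (a n - a m) ≤ v (algebraMap k B π) ^ n) →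
    ∃ c : C, ∀ n, V (ι (a n) - c) ≤ v (algebraMap k B π) ^ n) →
  ∃ (W : ValuationSubring Ω) (ρ : W →+* C), (∀ x : W, ρ x ≠ 0 → (x : Ω)⁻¹ ∈ W) ∧
    (∀ b : B, ∃ h : e b ∈ W, ρ ⟨e b, h⟩ = ι b) ∧
    ∀ (σ : C ≃+* C) (τ : B ≃ₐ[k] B), (∀ c, V (σ c) = V c) → (∀ b, σ (ι b) = ι (τ b)) →
      ∀ x (hx : x ∈ W), ∃ h' : s τ x ∈ W, ρ ⟨s τ x, h'⟩ = σ (ρ ⟨x, hx⟩)

end Pool.Agent.N890.KO
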