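import Mathlib
import Pool.Agent.N890.KO.Stm

/-!
Project KO (helper890), HENK: Hensel's lemma for `k`. (helper615)
-/

set_option autoImplicit false

namespace Pool.Agent.N890.KO.HENK

open Pool.Agent.N890.KO Polynomial

theorem t_HENK : S_HEN → S_HENK := by
  intro hHEN k B _ _ _ _ _ v p π hg f h0 h1 h2
  have : IsAlgClosed B := IsAlgClosure.isAlgClosed k
  have : Algebra.IsAlgebraic k B := IsAlgClosure.isAlgebraic
  have : Normal k B := IsAlgClosure.normal k B
  have : Algebra.IsSeparable k B := Algebra.IsAlgebraic.isSeparable_of_perfectField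
  have : IsGalois k B := isGalois_iff.2 ⟨inferInstance, inferInstance⟩
  let O : ValuationSubring B :=
    { carrier := {x | v x ≤ 1}
      mul_mem' := by
        intro a b ha hb
        change v (a * b) ≤ 1
        rw [map_mul]
        exact mul_le_one₀ ha (v.nonneg b) hb
      one_mem' := by
        change v 1 ≤ 1
        rw [map_one]
      add_mem' := by
        intro a b ha hb
        exact (hg.na a b).trans (max_le ha hb)
      zero_mem' := by
        change v 0 ≤ 1
        rw [map_zero]
        exact zero_le_one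
      neg_mem' := by
        intro a ha
        change v (-a) ≤ 1
        rw [AbsoluteValue.map_neg]
        exact ha
      mem_or_inv_mem' := by
        intro x
        by_cases hx : v x ≤ 1
        · exact Or.inl hx
        · refine Or.inr ?_
          change v x⁻¹ ≤ 1
          rw [map_inv₀]
          exact inv_le_one_of_one_le₀ (not_le.1 hx).le }
  have hO : ∀ x, x ∈ O ↔ v x ≤ 1 := fun x => Iff.rfl
  have hn : ∀ x, x ∈ O.nonunits ↔ v x < 1 := by
    intro x
    rw [ValuationSubring.mem_nonunits_iff_or, hO, map_inv₀]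
    by_cases hx : x = 0
    · rw [hx, map_zero]
      simp
    · have h3 : 0 < v x := v.pos hx
      rw [or_iff_right hx, not_le, one_lt_inv₀ h3]
  let s : (B ≃ₐ[k] B) →* (B ≃+* B) :=
    { toFun := fun g => g.toRingEquiv
      map_one' := rfl
      map_mul' := fun _ _ => rfl }
  have hs : ∀ g x, s g x = g x := fun g x => rfl
  obtain ⟨x, hx1, hx2, hx3⟩ := hHEN B (B ≃ₐ[k] B) s O (fun g y hy => by
      rw [hO] at hy ⊢
      rw [hs, hg.inv]
      exact hy) (f.map (algebraMap k B)) (fun n => by
      rw [coeff_map]
      refine ⟨(hO _).2 (h0 n), fun g => ?_⟩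
      rw [hs, AlgEquiv.commutes]) (by
      rw [coeff_map, hn]
      exact h1) (by
      rw [coeff_map, hn, h2]
      exact lt_irrefl 1)
  have h4 : x ∈ (⊥ : IntermediateField k B) :=
    (InfiniteGalois.mem_bot_iff_fixed x).2 fun g => hx2 g
  obtain ⟨y, rfl⟩ := IntermediateField.mem_bot.1 h4
  refine ⟨y, (hn _).1 hx1, ?_⟩
  rw [eval_map_algebraMap, aeval_algebraMap_apply] at hx3
  have h5 := (map_eq_zero (algebraMap k B)).1 hx3
  rwa [coe_aeval_eq_eval] at h5

end Pool.Agent.N890.KO.HENK
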