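import Pool.Agent.N890.KO.Stm2

/-!
Project KO (helper890), page MP_8312c9_nt, part KK (helper565): the relative algebraic closure of
`k` in a complete discretely valued field.
-/

set_option autoImplicit false

namespace Pool.Agent.N890.KO.KK

open Polynomial IntermediateField Filter Pool.Agent.N890.KO
open scoped Topology


section conj

variable {k B L : Type} [Field k] [Field B] [Field L] [Algebra k B] [Algebra k L]

/-- the embedding of the small field -/
noncomputable def im (ι : B →ₐ[k] AlgebraicClosure L) : kk ι →+* AlgebraicClosure L :=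
  (ι : B →+* AlgebraicClosure L).comp (algebraMap (kk ι) B)

theorem im_apply (ι : B →ₐ[k] AlgebraicClosure L) (x : kk ι) : im ι x = ι (x : B) := rfl

theorem ev (ι : B →ₐ[k] AlgebraicClosure L) (f : (kk ι)[X]) (y : B) :
    (f.map (im ι)).eval (ι y) = ι (aeval y f) := by
  rw [eval_map, aeval_def]
  exact (hom_eval₂ f (algebraMap (kk ι) B) (ι : B →+* AlgebraicClosure L) y).symm

theorem conj [IsAlgClosure k B] [CharZero L] (ι : B →ₐ[k] AlgebraicClosure L) (τ : B ≃ₐ[kk ι] B)
    (y : B) : ∃ σ : AlgebraicClosure L ≃ₐ[L] AlgebraicClosure L, σ (ι y) = ι (τ y) := by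
  have hal : Algebra.IsAlgebraic k B := IsAlgClosure.isAlgebraic
  have hac : IsAlgClosed B := IsAlgClosure.isAlgClosed k
  have hinj : Function.Injective ι := ι.injective
  have hy : IsIntegral (kk ι) y := by
    have h1 : IsIntegral k y := (hal.isAlgebraic y).isIntegral
    exact h1.tower_top
  set f := minpoly (kk ι) y with hf
  have hfm : f.Monic := minpoly.monic hy
  obtain ⟨F, hF⟩ : ∃ F : L[X], F.map (algebraMap L (AlgebraicClosure L)) = f.map (im ι) := by
    have h1 : f.map (im ι) ∈ lifts (algebraMap L (AlgebraicClosure L)) := by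
      rw [lifts_iff_coeff_lifts]
      intro n
      rw [coeff_map, im_apply]
      obtain ⟨x, hx⟩ := (f.coeff n).2
      exact ⟨x, hx.symm⟩
    rwa [mem_lifts] at h1
  have hyL : IsIntegral L (ι y) := (Algebra.IsAlgebraic.isAlgebraic (ι y)).isIntegral
  set g := minpoly L (ι y) with hg
  have hgF : g ∣ F := by
    apply minpoly.dvd
    rw [aeval_def, ← eval_map, hF, ev, minpoly.aeval, map_zero]
  have hgf : g.map (algebraMap L (AlgebraicClosure L)) ∣ f.map (im ι) := by
    rw [← hF]
    exact Polynomial.map_dvd _ hgF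
  have hroots : ∀ c ∈ (g.map (algebraMap L (AlgebraicClosure L))).roots,
      c ∈ (ι : B →+* AlgebraicClosure L).range := by
    intro c hc
    have hfi0 : f.map (im ι) ≠ 0 := (hfm.map _).ne_zero
    have h1 : c ∈ (f.map (im ι)).roots := Multiset.mem_of_le (roots.le_of_dvd hfi0 hgf) hc
    have h2 : f.map (im ι) = (f.map (algebraMap (kk ι) B)).map (ι : B →+* AlgebraicClosure L) := by
      rw [Polynomial.map_map]
      rfl
    rw [h2, (IsAlgClosed.splits (f.map (algebraMap (kk ι) B))).roots_map] at h1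
    obtain ⟨b, _, hb⟩ := Multiset.mem_map.1 h1
    exact ⟨b, hb⟩
  have hgm : (g.map (algebraMap L (AlgebraicClosure L))).Monic := (minpoly.monic hyL).map _
  have h3 := (IsAlgClosed.splits (g.map (algebraMap L (AlgebraicClosure L)))).mem_lift_of_roots_mem_range
    hgm (ι : B →+* AlgebraicClosure L) hroots
  rw [lifts_iff_coeff_lifts] at h3
  obtain ⟨g0, hg0⟩ : ∃ g0 : (kk ι)[X], g0.map (im ι) = g.map (algebraMap L (AlgebraicClosure L)) := by
    have h1 : g.map (algebraMap L (AlgebraicClosure L)) ∈ lifts (im ι) := by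
      rw [lifts_iff_coeff_lifts]
      intro n
      obtain ⟨b, hb⟩ := h3 n
      rw [coeff_map] at hb ⊢
      exact ⟨⟨b, ⟨g.coeff n, hb⟩⟩, hb⟩
    rwa [mem_lifts] at h1
  have hfg0 : f ∣ g0 := by
    apply minpoly.dvd
    apply hinj
    rw [← ev, hg0, eval_map, ← aeval_def, minpoly.aeval, map_zero]
  have h5 : aeval (ι (τ y)) g = 0 := by
    rw [aeval_def, ← eval_map, ← hg0, ev]
    obtain ⟨q, hq⟩ := hfg0
    have h6 : aeval (τ y) f = 0 := by
      rw [← AlgEquiv.coe_toAlgHom, aeval_algHom_apply, minpoly.aeval, map_zero]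
    rw [hq, map_mul, h6, zero_mul, map_zero]
  have h6 : IsConjRoot L (ι y) (ι (τ y)) := (isConjRoot_iff_aeval_eq_zero hyL).2 h5
  have hn : Normal L (AlgebraicClosure L) := IsAlgClosure.normal L (AlgebraicClosure L)
  exact h6.symm.exists_algEquiv

end conj

theorem t_KK : S_KK := by
  intro L _ _ V p hV k B _ _ _ _ _ ι
  classical
  have hinj : Function.Injective ι := ι.injective
  set v : AbsoluteValue B ℝ := V.comp (f := (ι : B →+* AlgebraicClosure L)) hinj with hv
  have hvV : ∀ b, V (ι b) = v b := fun b => rfl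
  have hkc : ∀ x : kk ι, ∃ y : L, ι (algebraMap (kk ι) B x) = algebraMap L _ y := fun x => x.2
  choose jj hjj using hkc
  obtain ⟨ϖ, hϖ0, hϖ1, hϖ⟩ := hV.disc
  set q : ℝ := V (algebraMap L (AlgebraicClosure L) ϖ) with hq
  have hq0 : 0 < q := V.pos (by simpa using hϖ0)
  have hBz : CharZero B := by
    have : CharZero (AlgebraicClosure L) := charZero_of_injective_algebraMap
      (algebraMap L (AlgebraicClosure L)).injective
    exact ⟨fun a b hab => by
      have h1 := congrArg ι hab
      rw [map_natCast, map_natCast] at h1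
      exact Nat.cast_injective h1⟩
  -- the values of the small field
  have hval : ∀ x : kk ι, x ≠ 0 → ∃ n : ℤ, v (algebraMap (kk ι) B x) = q ^ n := by
    intro x hx
    have h1 : jj x ≠ 0 := by
      intro h2
      have h3 := hjj x
      rw [h2, map_zero] at h3
      have h4 : algebraMap (kk ι) B x = 0 := hinj (by rw [h3, map_zero])
      exact hx (by simpa using h4)
    obtain ⟨n, hn⟩ := hϖ (jj x) h1
    refine ⟨n, ?_⟩
    rw [← hvV, hjj, hn]
  have hqinj : ∀ a b : ℤ, q ^ a = q ^ b → a = b := fun a b hab =>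
    (zpow_right_injective₀ hq0 hϖ1.ne) hab
  let H : AddSubgroup ℤ :=
    { carrier := {n | ∃ x : kk ι, x ≠ 0 ∧ v (algebraMap (kk ι) B x) = q ^ n}
      zero_mem' := ⟨1, one_ne_zero, by rw [map_one, map_one, zpow_zero]⟩
      add_mem' := by
        rintro a b ⟨x, hx, hx2⟩ ⟨y, hy, hy2⟩
        exact ⟨x * y, mul_ne_zero hx hy, by rw [map_mul, map_mul, hx2, hy2, zpow_add₀ hq0.ne']⟩
      neg_mem' := by
        rintro a ⟨x, hx, hx2⟩
        exact ⟨x⁻¹, inv_ne_zero hx, by rw [map_inv₀, map_inv₀, hx2, zpow_neg]⟩ }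
  obtain ⟨g, hg⟩ := Int.subgroup_cyclic H
  have hgm : g ∈ H := by
    rw [hg]
    exact AddSubgroup.subset_closure rfl
  obtain ⟨x0, hx0, hx0v⟩ : ∃ x : kk ι, x ≠ 0 ∧ v (algebraMap (kk ι) B x) = q ^ (|g|) := by
    have h1 : |g| ∈ H := by
      rcases abs_choice g with h | h
      · rw [h]
        exact hgm
      · rw [h]
        exact H.neg_mem hgm
    exact h1
  have hH : ∀ n ∈ H, ∃ j : ℤ, n = |g| * j := by
    intro n hn
    rw [hg, AddSubgroup.mem_closure_singleton] at hn
    obtain ⟨j, hj⟩ := hn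
    rcases abs_choice g with h | h
    · exact ⟨j, by rw [h, ← hj, smul_eq_mul, mul_comm]⟩
    · exact ⟨-j, by rw [h, ← hj, smul_eq_mul]; ring⟩
  have hp0 : (p : kk ι) ≠ 0 := by
    intro h1
    have h2 : ((p : ℕ) : B) = 0 := by
      have := congrArg (algebraMap (kk ι) B) h1
      simpa using this
    exact hV.prime.ne_zero (Nat.cast_injective (R := B) (by simpa using h2))
  have hvp : v (p : B) < 1 := by
    rw [← hvV, map_natCast]
    exact hV.p1
  have hg0 : 0 < |g| := by
    obtain ⟨n, hn⟩ := hval p hp0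
    obtain ⟨j, hj⟩ := hH n ⟨p, hp0, hn⟩
    rw [abs_pos]
    intro h1
    rw [h1, abs_zero, zero_mul] at hj
    rw [hj, zpow_zero, map_natCast] at hn
    linarith
  have hx0q : v (algebraMap (kk ι) B x0) < 1 := by
    rw [hx0v]
    exact zpow_lt_one₀ hq0 hϖ1 hg0
  have hna : ∀ x y, v (x + y) ≤ max (v x) (v y) := by
    intro x y
    rw [← hvV, ← hvV, ← hvV, map_add]
    exact hV.na _ _
  refine ⟨v, x0, hvV, ⟨hna, ?_, hx0, hx0q, ?_, ?_, hV.prime, hvp⟩, ?_⟩
  · intro τ y
    obtain ⟨σ, hσ⟩ := conj ι τ y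
    rw [← hvV, ← hσ, hV.inv, hvV]
  · intro x hx
    obtain ⟨n, hn⟩ := hval x hx
    obtain ⟨j, hj⟩ := hH n ⟨x, hx, hn⟩
    exact ⟨j, by rw [hn, hx0v, ← zpow_mul, hj]⟩
  · obtain ⟨R, hR⟩ := hV.res
    have hch : ∀ r : L, ∃ r' : kk ι, (∃ z : kk ι, V (ι (algebraMap (kk ι) B z) - algebraMap L _ r) < 1) →
        V (ι (algebraMap (kk ι) B r') - algebraMap L _ r) < 1 := by
      intro r
      by_cases h : ∃ z : kk ι, V (ι (algebraMap (kk ι) B z) - algebraMap L _ r) < 1
      · obtain ⟨z, hz⟩ := h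
        exact ⟨z, fun _ => hz⟩
      · exact ⟨0, fun h2 => absurd h2 h⟩
    choose rr hrr using hch
    refine ⟨R.image rr, fun x hx => ?_⟩
    rw [← hvV, hjj] at hx
    obtain ⟨r, hr, hr2⟩ := hR (jj x) hx
    refine ⟨rr r, Finset.mem_image_of_mem _ hr, ?_⟩
    rw [map_sub, ← hjj] at hr2
    have h3 := hrr r ⟨x, hr2⟩
    have h4 : ι (algebraMap (kk ι) B (x - rr r)) =
        (ι (algebraMap (kk ι) B x) - algebraMap L _ r) +
        (algebraMap L _ r - ι (algebraMap (kk ι) B (rr r))) := by
      rw [map_sub, map_sub]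
      ring
    rw [← hvV, h4]
    refine lt_of_le_of_lt (hV.na _ _) (max_lt hr2 ?_)
    rw [V.map_sub]
    exact h3
  · intro M hM a ha hav
    have := hM
    -- the finite extension of L
    let b := Module.finBasis (kk ι) M
    set S : Set (AlgebraicClosure L) := Set.range fun i => ι ((b i : M) : B) with hS
    have hSf : Finite S := Set.finite_range _
    have hSfin : FiniteDimensional L (adjoin L S) :=
      IntermediateField.finiteDimensional_adjoin fun x _ =>
        (Algebra.IsAlgebraic.isAlgebraic x).isIntegral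
    have hME : ∀ y ∈ M, ι y ∈ adjoin L S := by
      intro y hy
      have h1 := b.sum_repr ⟨y, hy⟩
      have h2 : y = ∑ i, (algebraMap (kk ι) B ((b.repr ⟨y, hy⟩) i)) * ((b i : M) : B) := by
        have h3 := congrArg (fun z : M => (z : B)) h1
        simp only at h3
        refine h3.symm.trans ?_
        simp [Algebra.smul_def]
      rw [h2, map_sum]
      refine sum_mem fun i _ => ?_
      rw [map_mul, hjj]
      exact mul_mem ((adjoin L S).algebraMap_mem _) (subset_adjoin L S ⟨i, rfl⟩)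
    have hπ0 : 0 < v (algebraMap (kk ι) B x0) := v.pos (by simpa using hx0)
    have hcau : ∀ n m, n ≤ m → V (ι (a n) - ι (a m)) ≤ v (algebraMap (kk ι) B x0) ^ n := by
      intro n m hnm
      rw [← map_sub, hvV]
      exact hav n m hnm
    obtain ⟨c, hc⟩ := hV.cpl (adjoin L S) hSfin (fun n => ι (a n)) (fun n => hME _ (ha n)) (by
      intro ε hε
      obtain ⟨N, hN⟩ := exists_pow_lt_of_lt_one hε hx0q
      refine ⟨N, fun n m hn hm => ?_⟩
      rcases le_total n m with h | h
      · refine lt_of_le_of_lt ((hcau n m h).trans ?_) hN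
        exact pow_le_pow_of_le_one hπ0.le hx0q.le hn
      · rw [V.map_sub]
        refine lt_of_le_of_lt ((hcau m n h).trans ?_) hN
        exact pow_le_pow_of_le_one hπ0.le hx0q.le hm)
    refine ⟨c, fun n => ?_⟩
    have h1 : ∀ᶠ m in atTop, V (ι (a m) - c) < v (algebraMap (kk ι) B x0) ^ n :=
      hc.eventually_lt_const (pow_pos hπ0 n)
    obtain ⟨m, hm1, hm2⟩ := (h1.and (eventually_ge_atTop n)).exists
    have h2 : ι (a n) - c = (ι (a n) - ι (a m)) + (ι (a m) - c) := by ring
    rw [h2]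
    exact (hV.na _ _).trans (max_le (hcau n m hm2) hm1.le)

end Pool.Agent.N890.KO.KK
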