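import Pool.Agent.N890.KO.Stm

/-!
Project KO (helper890), part KUM (helper971): Kummer theory, `L* = k* L*^n`.
-/

set_option autoImplicit false

namespace Pool.Agent.N890.KO.KUM

open Pool.Agent.N890.KO
open Polynomial IntermediateField

/-- the action of the Galois group on `B` -/
def act (k B : Type) [Field k] [Field B] [Algebra k B] : (B ≃ₐ[k] B) →* (B ≃+* B) where
  toFun g := g.toRingEquiv
  map_one' := rfl
  map_mul' _ _ := rfl

theorem act_apply {k B : Type} [Field k] [Field B] [Algebra k B] (g : B ≃ₐ[k] B) (x : B) :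
    act k B g x = g x := rfl

theorem act_act (k B : Type) [Field k] [Field B] [Algebra k B] [IsAlgClosure k B] :
    Act (RingHom.id B) (act k B) where
  eq _ _ := rfl
  cont y := by
    have h1 : IsIntegral k y := (IsAlgClosure.isAlgebraic (R := k) (K := B)).isIntegral.isIntegral y
    exact ⟨k⟮y⟯, IntermediateField.adjoin.finiteDimensional h1,
      fun τ hτ => hτ y (IntermediateField.mem_adjoin_simple_self k y)⟩

/-- the elements fixed by the Galois group -/
theorem fixed {k B : Type} [Field k] [Field B] [Algebra k B] [IsAlgClosure k B] [CharZero k]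
    (x : B) (hx : ∀ σ : B ≃ₐ[k] B, σ x = x) : ∃ c : k, algebraMap k B c = x := by
  have hg : IsGalois k B := IsAlgClosure.isGalois k B
  exact (InfiniteGalois.mem_range_algebraMap_iff_fixed x).2 hx

/-- the roots of unity -/
theorem roots {B Ω : Type} [Field B] [Field Ω] [IsAlgClosed B] [CharZero B] (e : B →+* Ω) (n : ℕ)
    (hn : 1 ≤ n) (u : Ω) (hu : u ^ n = 1) : ∃ b : B, b ^ n = 1 ∧ e b = u := by
  have hne : NeZero n := ⟨by omega⟩
  obtain ⟨ζ, hζ⟩ := HasEnoughRootsOfUnity.exists_primitiveRoot B n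
  have h1 : IsPrimitiveRoot (e ζ) n := hζ.map_of_injective e.injective
  obtain ⟨i, -, hi⟩ := h1.eq_pow_of_pow_eq_one hu
  refine ⟨ζ ^ i, ?_, ?_⟩
  · rw [← pow_mul, mul_comm, pow_mul, hζ.pow_eq_one, one_pow]
  · rw [map_pow, hi]

/-- KUM -/
theorem t_KUM : S_H90 → S_KUM := by
  intro hH k B Ω _ _ _ _ _ _ _ e s hs n hn
  have hB : IsAlgClosed B := IsAlgClosure.isAlgClosed k
  have hchar : CharZero B := charZero_of_injective_algebraMap (algebraMap k B).injective
  constructor
  · intro y hy hy0
    obtain ⟨Y, hY⟩ := IsAlgClosed.exists_pow_nat_eq y (by omega : 0 < n)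
    have hY0 : Y ≠ 0 := by
      rintro rfl
      rw [zero_pow (by omega)] at hY
      exact hy0 hY.symm
    have h1 : ∀ g : B ≃ₐ[k] B, ∃ b : B, b ^ n = 1 ∧ e b = s g Y / Y := by
      intro g
      apply roots e n hn
      rw [div_pow, ← map_pow, hY, hy g, div_self hy0]
    choose c hc1 hc2 using h1
    have hc3 : ∀ g, s g Y = e (c g) * Y := by
      intro g
      rw [hc2, div_mul_cancel₀ _ hY0]
    have hc0 : ∀ g, c g ≠ 0 := by
      intro g h
      have h2 := hc1 g
      rw [h, zero_pow (by omega)] at h2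
      exact zero_ne_one h2
    have hcoc : ∀ g h, c (g * h) = c g * act k B g (c h) := by
      intro g h
      apply e.injective
      apply mul_right_cancel₀ hY0
      have h5 : s (g * h) Y = s g (s h Y) := by
        rw [map_mul]
        rfl
      rw [← hc3, h5, map_mul, act_apply, hc3 h, map_mul, hs.eq, hc3 g]
      ring
    obtain ⟨M, hM, hM2⟩ := hs.cont Y
    obtain ⟨θ, hθ0, hθ⟩ := hH k B B (RingHom.id B) (act k B) (act_act k B) c hc0 hcoc
      ⟨M, hM, fun τ hτ => by
        apply e.injective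
        rw [hc2, hM2 τ hτ, div_self hY0, map_one]⟩
    have hfix : ∀ σ : B ≃ₐ[k] B, σ (θ ^ n) = θ ^ n := by
      intro σ
      have h2 : σ θ = c σ * θ := hθ σ
      rw [map_pow, h2, mul_pow, hc1, one_mul]
    obtain ⟨a, ha⟩ := fixed (θ ^ n) hfix
    have heθ : e θ ≠ 0 := by
      rw [Ne, map_eq_zero]
      exact hθ0
    refine ⟨a, Y / e θ, ?_, div_ne_zero hY0 heθ, ?_, ?_⟩
    · rintro rfl
      rw [map_zero] at ha
      exact pow_ne_zero n hθ0 ha.symm
    · intro σ
      have h2 : σ θ = c σ * θ := hθ σ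
      have h3 : e (c σ) ≠ 0 := by
        rw [Ne, map_eq_zero]
        exact hc0 σ
      rw [map_div₀, hs.eq, h2, map_mul, hc3, mul_div_mul_left _ _ h3]
    · rw [ha, map_pow, ← mul_pow, mul_div_cancel₀ _ heθ, hY]
  · intro c z hz hzc
    by_cases hc : c = 0
    · exact ⟨0, by rw [hc, zero_pow (by omega)]⟩
    obtain ⟨w, hw⟩ := IsAlgClosed.exists_pow_nat_eq (algebraMap k B c) (by omega : 0 < n)
    have hw0 : w ≠ 0 := by
      rintro rfl
      rw [zero_pow (by omega)] at hw
      have h2 : algebraMap k B c = 0 := hw.symm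
      rw [map_eq_zero] at h2
      exact hc h2
    have hew : e w ≠ 0 := by
      rw [Ne, map_eq_zero]
      exact hw0
    obtain ⟨b, hb1, hb2⟩ := roots e n hn (z / e w) (by
      rw [div_pow, hzc, ← map_pow, hw, div_self]
      rw [← hw, map_pow]
      exact pow_ne_zero n hew)
    have hz2 : z = e (w * b) := by
      rw [map_mul, hb2, mul_div_cancel₀ _ hew]
    have hfix : ∀ σ : B ≃ₐ[k] B, σ (w * b) = w * b := by
      intro σ
      apply e.injective
      rw [← hs.eq, ← hz2]
      exact hz σ
    obtain ⟨d, hd⟩ := fixed (w * b) hfix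
    refine ⟨d, ?_⟩
    apply (algebraMap k B).injective
    rw [map_pow, hd, mul_pow, hw, hb1, mul_one]

end Pool.Agent.N890.KO.KUM
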