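import Pool.Agent.N890.KO.Stm

/-!
# Project KO (helper890), part LIM (helper897): limits of valuation rings along an ultrafilter
-/

set_option autoImplicit false

namespace Pool.Agent.N890.KO.LIM

open Pool.Agent.N890.KO Filter

theorem t_LIM : S_LIM := by
  intro Ω G I _ _ _ _ _ s L O hL hO hinv
  have : (atTop : Filter I).NeBot := atTop_neBot
  obtain ⟨U, hU⟩ : ∃ U : Ultrafilter I, (U : Filter I) ≤ atTop :=
    ⟨Ultrafilter.of atTop, Ultrafilter.of_le _⟩
  have hev : ∀ P : I → Prop, (∃ i, ∀ j, i ≤ j → P j) → ∀ᶠ j in (U : Filter I), P j := by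
    rintro P ⟨i, hi⟩
    exact Filter.Eventually.filter_mono hU (eventually_atTop.2 ⟨i, hi⟩)
  have hLev : ∀ y, ∀ᶠ j in (U : Filter I), y ∈ L j := fun y => hev _ (hL y)
  choose V hV using hO
  have hmul : ∀ j x y, x ∈ L j → y ∈ L j → x ∈ O j → y ∈ O j → x * y ∈ O j := by
    intro j x y hx hy hxO hyO
    exact (hV j (⟨x, hx⟩ * ⟨y, hy⟩)).1
      ((V j).mul_mem _ _ ((hV j ⟨x, hx⟩).2 hxO) ((hV j ⟨y, hy⟩).2 hyO))
  have hadd : ∀ j x y, x ∈ L j → y ∈ L j → x ∈ O j → y ∈ O j → x + y ∈ O j := by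
    intro j x y hx hy hxO hyO
    exact (hV j (⟨x, hx⟩ + ⟨y, hy⟩)).1
      ((V j).add_mem _ _ ((hV j ⟨x, hx⟩).2 hxO) ((hV j ⟨y, hy⟩).2 hyO))
  have hneg : ∀ j x, x ∈ L j → x ∈ O j → -x ∈ O j := by
    intro j x hx hxO
    exact (hV j (-⟨x, hx⟩)).1 ((V j).neg_mem _ ((hV j ⟨x, hx⟩).2 hxO))
  have hone : ∀ j, (1 : Ω) ∈ O j := fun j => (hV j 1).1 (V j).one_mem
  have hzero : ∀ j, (0 : Ω) ∈ O j := fun j => (hV j 0).1 (V j).zero_mem
  have hor : ∀ j x, x ∈ L j → x ∈ O j ∨ x⁻¹ ∈ O j := by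
    intro j x hx
    rcases (V j).mem_or_inv_mem ⟨x, hx⟩ with h | h
    · exact Or.inl ((hV j ⟨x, hx⟩).1 h)
    · exact Or.inr ((hV j (⟨x, hx⟩⁻¹)).1 h)
  refine ⟨{ carrier := {y | ∀ᶠ j in (U : Filter I), y ∈ O j}
            mul_mem' := ?_
            one_mem' := Eventually.of_forall hone
            add_mem' := ?_
            zero_mem' := Eventually.of_forall hzero
            neg_mem' := ?_
            mem_or_inv_mem' := ?_ }, ?_, ?_⟩
  · intro x y hx hy
    change ∀ᶠ j in (U : Filter I), x * y ∈ O j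
    filter_upwards [hx, hy, hLev x, hLev y] with j h1 h2 h3 h4
    exact hmul j x y h3 h4 h1 h2
  · intro x y hx hy
    change ∀ᶠ j in (U : Filter I), x + y ∈ O j
    filter_upwards [hx, hy, hLev x, hLev y] with j h1 h2 h3 h4
    exact hadd j x y h3 h4 h1 h2
  · intro x hx
    change ∀ᶠ j in (U : Filter I), -x ∈ O j
    filter_upwards [hx, hLev x] with j h1 h2
    exact hneg j x h2 h1
  · intro x
    have h : ∀ᶠ j in (U : Filter I), x ∈ O j ∨ x⁻¹ ∈ O j := by
      filter_upwards [hLev x] with j hj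
      exact hor j x hj
    exact Ultrafilter.eventually_or.1 h
  · intro g y hy
    change ∀ᶠ j in (U : Filter I), s g y ∈ O j
    have hy' : ∀ᶠ j in (U : Filter I), y ∈ O j := hy
    filter_upwards [hy'] with j hj
    exact hinv j g y hj
  · intro y
    refine ⟨fun h => hev _ h, fun h hy => ?_⟩
    have hy' : ∀ᶠ j in (U : Filter I), y ∈ O j := hy
    obtain ⟨j, h1, h2⟩ := (hy'.and (hev _ h)).exists
    exact h2 h1

end Pool.Agent.N890.KO.LIM
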