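import Pool.Agent.N890.KO.Stm2
import Pool.Agent.Y791.BS.Loc

/-!
# LOC: the completions of a number field are complete with finite residue field
-/

set_option autoImplicit false
set_option linter.unusedSectionVars false

namespace Pool.Agent.N890.KO.LOC

open Pool.Agent.N890.KO NumberField IsDedekindDomain Filter
open scoped Topology

section

variable (L : Type) [NontriviallyNormedField L] [IsUltrametricDist L]

/-- the norm is discrete -/
theorem exists_unif [ProperSpace L] : ∃ ϖ : L, ϖ ≠ 0 ∧ ‖ϖ‖ < 1 ∧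
    ∀ x : L, x ≠ 0 → ∃ n : ℤ, ‖x‖ = ‖ϖ‖ ^ n := by
  obtain ⟨z, hz0, hz1⟩ := NormedField.exists_norm_lt_one L
  have hcomp : IsCompact {x : L | ‖x‖ < 1} := by
    have e : {x : L | ‖x‖ < 1} = Metric.ball 0 1 := by
      ext x
      simp
    rw [e]
    refine (isCompact_closedBall (0 : L) 1).of_isClosed_subset ?_ Metric.ball_subset_closedBall
    exact IsUltrametricDist.isClosed_ball 0 1
  obtain ⟨ϖ, hϖ1, hmax⟩ := hcomp.exists_isMaxOn ⟨z, hz1⟩ continuous_norm.continuousOn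
  have hϖ0 : ϖ ≠ 0 := by
    rintro rfl
    have h : ‖z‖ ≤ ‖(0 : L)‖ := hmax hz1
    rw [norm_zero] at h
    linarith
  have hpos : 0 < ‖ϖ‖ := norm_pos_iff.2 hϖ0
  have hlt : ‖ϖ‖ < 1 := hϖ1
  refine ⟨ϖ, hϖ0, hlt, fun x hx => ?_⟩
  have hx0 : 0 < ‖x‖ := norm_pos_iff.2 hx
  obtain ⟨n, hn1, hn2⟩ := exists_mem_Ico_zpow hx0 ((one_lt_inv₀ hpos).2 hlt)
  refine ⟨-n, ?_⟩
  have hq : ‖x * ϖ ^ n‖ = ‖x‖ * ‖ϖ‖ ^ n := by rw [norm_mul, norm_zpow]
  have hp : 0 < ‖ϖ‖ ^ n := zpow_pos hpos n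
  rw [inv_zpow] at hn1
  rw [inv_zpow, zpow_add_one₀ hpos.ne', mul_inv] at hn2
  have h1 : 1 ≤ ‖x‖ * ‖ϖ‖ ^ n := by
    have := mul_le_mul_of_nonneg_right hn1 hp.le
    rwa [inv_mul_cancel₀ hp.ne'] at this
  have h2 : ‖x‖ * ‖ϖ‖ ^ n < ‖ϖ‖⁻¹ := by
    have := mul_lt_mul_of_pos_right hn2 hp
    rwa [mul_comm (‖ϖ‖ ^ n)⁻¹, mul_assoc, inv_mul_cancel₀ hp.ne', mul_one] at this
  have h3 : ‖x‖ * ‖ϖ‖ ^ n ≤ 1 := by
    by_contra hcon
    push Not at hcon
    have h4 : ‖x * ϖ ^ n * ϖ‖ < 1 := by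
      rw [norm_mul, hq]
      have := mul_lt_mul_of_pos_right h2 hpos
      rwa [inv_mul_cancel₀ hpos.ne'] at this
    have h5 : ‖x * ϖ ^ n * ϖ‖ ≤ ‖ϖ‖ := hmax h4
    rw [norm_mul, hq] at h5
    have h6 := mul_lt_mul_of_pos_right hcon hpos
    linarith
  have h4 : ‖x‖ * ‖ϖ‖ ^ n = 1 := le_antisymm h3 h1
  rw [zpow_neg]
  exact eq_inv_of_mul_eq_one_left h4

/-- the residue field is finite -/
theorem exists_res [ProperSpace L] : ∃ R : Finset L, ∀ x : L, ‖x‖ ≤ 1 →
    ∃ r ∈ R, ‖x - r‖ < 1 := by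
  obtain ⟨t, -, ht, hcov⟩ := (isCompact_closedBall (0 : L) 1).finite_cover_balls one_pos
  refine ⟨ht.toFinset, fun x hx => ?_⟩
  have h1 : x ∈ Metric.closedBall (0 : L) 1 := by simpa using hx
  have h2 := hcov h1
  rw [Set.mem_iUnion₂] at h2
  obtain ⟨r, hr, h3⟩ := h2
  refine ⟨r, ht.mem_toFinset.2 hr, ?_⟩
  rwa [Metric.mem_ball, dist_eq_norm] at h3

/-- the residue characteristic -/
theorem exists_prime [ProperSpace L] : ∃ p : ℕ, p.Prime ∧ ‖(p : L)‖ < 1 := by
  obtain ⟨R, hR⟩ := exists_res L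
  have hn : ∀ n : ℕ, ‖(n : L)‖ ≤ 1 := fun n => IsUltrametricDist.norm_natCast_le_one L n
  choose f hf1 hf2 using fun n : ℕ => hR (n : L) (hn n)
  obtain ⟨m, n, hmn, hfe⟩ : ∃ m n : ℕ, m < n ∧ f m = f n := by
    have h := Finite.exists_ne_map_eq_of_infinite (fun n : ℕ => (⟨f n, hf1 n⟩ : {x // x ∈ R}))
    obtain ⟨m, n, hne, he⟩ := h
    have he' : f m = f n := congrArg Subtype.val he
    rcases lt_or_gt_of_ne hne with h | h
    · exact ⟨m, n, h, he'⟩
    · exact ⟨n, m, h, he'.symm⟩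
  have hd : ‖((n - m : ℕ) : L)‖ < 1 := by
    rw [Nat.cast_sub hmn.le]
    have e : (n : L) - m = ((n : L) - f n) - ((m : L) - f m) := by rw [hfe]; ring
    rw [e, sub_eq_add_neg]
    refine (IsUltrametricDist.norm_add_le_max _ _).trans_lt (max_lt (hf2 n) ?_)
    rw [norm_neg]
    exact hf2 m
  have hex : ∃ d : ℕ, 0 < d ∧ ‖(d : L)‖ < 1 := ⟨n - m, by omega, hd⟩
  classical
  let d := Nat.find hex
  obtain ⟨hd0, hd1⟩ : 0 < d ∧ ‖(d : L)‖ < 1 := Nat.find_spec hex
  have hmin : ∀ c : ℕ, 0 < c → c < d → 1 ≤ ‖(c : L)‖ := by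
    intro c hc hcd
    by_contra h
    push Not at h
    exact Nat.find_min hex hcd ⟨hc, h⟩
  have hne1 : d ≠ 1 := by
    intro h
    rw [h, Nat.cast_one, norm_one] at hd1
    exact lt_irrefl _ hd1
  refine ⟨d.minFac, Nat.minFac_prime hne1, ?_⟩
  by_contra hcon
  push Not at hcon
  obtain ⟨c, hc⟩ := Nat.minFac_dvd d
  have hq : 2 ≤ d.minFac := (Nat.minFac_prime hne1).two_le
  have hc0 : 0 < c := by
    rcases Nat.eq_zero_or_pos c with h | h
    · rw [h, mul_zero] at hc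
      omega
    · exact h
  have hcd : c < d := by
    have h1 : 2 * c ≤ d.minFac * c := Nat.mul_le_mul_right c hq
    rw [← hc] at h1
    omega
  have h2 := hmin c hc0 hcd
  have h3 : ‖(d : L)‖ = ‖(d.minFac : L)‖ * ‖(c : L)‖ := by
    rw [← norm_mul, ← Nat.cast_mul, ← hc]
  rw [h3] at hd1
  have h4 := mul_le_mul hcon h2 zero_le_one (norm_nonneg _)
  linarith

end

section

variable (L : Type) [NontriviallyNormedField L] [CompleteSpace L]
  (V : AbsoluteValue (AlgebraicClosure L) ℝ)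

/-- finite extensions are complete -/
theorem cpl_aux (hV : ∀ x : L, V (algebraMap L (AlgebraicClosure L) x) = ‖x‖)
    (E : IntermediateField L (AlgebraicClosure L)) [FiniteDimensional L E]
    (a : ℕ → AlgebraicClosure L) (ha : ∀ n, a n ∈ E)
    (hc : ∀ ε : ℝ, 0 < ε → ∃ N, ∀ n m, N ≤ n → N ≤ m → V (a n - a m) < ε) :
    ∃ c, Tendsto (fun n => V (a n - c)) atTop (𝓝 0) := by
  let N : AddGroupNorm E :=
    { toFun := fun x => V x
      map_zero' := by simp
      add_le' := fun x y => V.add_le x y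
      neg' := fun x => by simp
      eq_zero_of_map_eq_zero' := fun x h => by
        have h1 : (x : AlgebraicClosure L) = 0 := V.eq_zero.1 h
        exact Subtype.ext h1 }
  let i1 : NormedAddCommGroup E := N.toNormedAddCommGroup
  let i2 : NormedSpace L E :=
    { norm_smul_le := fun c x => by
        change V ((c • x : E) : AlgebraicClosure L) ≤ ‖c‖ * V x
        have e : ((c • x : E) : AlgebraicClosure L) = algebraMap L _ c * x := by
          rw [IntermediateField.coe_smul, Algebra.smul_def]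
        rw [e, map_mul, hV] }
  have : CompleteSpace E := FiniteDimensional.complete L E
  let b : ℕ → E := fun n => ⟨a n, ha n⟩
  have hb : CauchySeq b := by
    rw [Metric.cauchySeq_iff]
    intro ε hε
    obtain ⟨M, hM⟩ := hc ε hε
    refine ⟨M, fun m hm n hn => ?_⟩
    rw [dist_eq_norm]
    exact hM m n hm hn
  obtain ⟨c, hc⟩ := cauchySeq_tendsto_of_complete hb
  refine ⟨c, ?_⟩
  exact tendsto_iff_norm_sub_tendsto_zero.1 hc

end

theorem aux (L : Type) [NontriviallyNormedField L] [IsUltrametricDist L] [CompleteSpace L]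
    [ProperSpace L] : ∃ V p, Cpl L V p := by
  have hpm := spectralMulAlgNorm_def (K := L) (L := AlgebraicClosure L)
  let f := spectralMulAlgNorm L (AlgebraicClosure L)
  let V : AbsoluteValue (AlgebraicClosure L) ℝ :=
    { toFun := f
      map_mul' := fun x y => map_mul f x y
      nonneg' := fun x => apply_nonneg f x
      eq_zero' := fun x => map_eq_zero_iff_eq_zero f
      add_le' := fun x y => map_add_le_add f x y }
  have hV : ∀ x : L, V (algebraMap L (AlgebraicClosure L) x) = ‖x‖ := by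
    intro x
    change f (algebraMap L (AlgebraicClosure L) x) = ‖x‖
    rw [hpm]
    exact spectralNorm_extends x
  obtain ⟨p, hp, hp1⟩ := exists_prime L
  obtain ⟨R, hR⟩ := exists_res L
  obtain ⟨ϖ, hϖ0, hϖ1, hϖ⟩ := exists_unif L
  refine ⟨V, p, ?_⟩
  constructor
  · intro x y
    change f (x + y) ≤ max (f x) (f y)
    rw [hpm, hpm, hpm]
    exact isNonarchimedean_spectralNorm x y
  · intro σ x
    change f (σ x) = f x
    rw [hpm, hpm, ← spectralNorm_eq_of_equiv]
  · refine ⟨ϖ, hϖ0, by rw [hV]; exact hϖ1, fun x hx => ?_⟩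
    rw [hV, hV]
    exact hϖ x hx
  · refine ⟨R, fun x hx => ?_⟩
    rw [hV] at hx
    obtain ⟨r, hr, h⟩ := hR x hx
    exact ⟨r, hr, by rw [hV]; exact h⟩
  · exact hp
  · rw [← map_natCast (algebraMap L (AlgebraicClosure L)) p, hV]
    exact hp1
  · intro E hE a ha hc
    exact cpl_aux L V hV E a ha hc

open scoped WithZero in
theorem t_LOC : S_LOC := by
  intro F _ _ w
  let i1 : NontriviallyNormedField (w.adicCompletion F) :=
    Valued.toNontriviallyNormedField (w.adicCompletion F) ℤᵐ⁰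
  have i2 : @IsUltrametricDist (w.adicCompletion F) i1.toDist := inferInstance
  have i3 : @CompleteSpace (w.adicCompletion F) i1.toUniformSpace := inferInstance
  have i4 : @ProperSpace (w.adicCompletion F) i1.toPseudoMetricSpace :=
    Pool.Agent.Y791.BS.proper w
  exact aux (w.adicCompletion F)

end Pool.Agent.N890.KO.LOC
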