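import Pool.Agent.N890.KO.Stm

/-!
Project KO (helper890), piece PHI (helper75): the place.
-/

set_option autoImplicit false

namespace Pool.Agent.N890.KO.PHI

open Pool.Agent.N890.KO

section

variable {B Ω C : Type} [Field B] [Field Ω] [Field C]

/-- the data -/
structure Ctx (e : B →+* Ω) (v : AbsoluteValue B ℝ) (P : B) (O : ValuationSubring Ω)
    (ι : B →+* C) (V : AbsoluteValue C ℝ) : Prop where
  P0 : P ≠ 0
  P1 : v P < 1
  mem : ∀ b : B, e b ∈ O ↔ v b ≤ 1
  NA : ∀ x y, V (x + y) ≤ max (V x) (V y)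
  VI : ∀ b, V (ι b) = v b

/-- `c` is the value of `x` -/
def Rel (e : B →+* Ω) (v : AbsoluteValue B ℝ) (P : B) (O : ValuationSubring Ω)
    (ι : B →+* C) (V : AbsoluteValue C ℝ) (x : Ω) (c : C) : Prop :=
  ∀ n : ℕ, ∃ a : B, (x - e a) / (e P) ^ n ∈ O ∧ V (ι a - c) ≤ (v P) ^ n

variable {e : B →+* Ω} {v : AbsoluteValue B ℝ} {P : B} {O : ValuationSubring Ω}
  {ι : B →+* C} {V : AbsoluteValue C ℝ}

theorem Ctx.vP (h : Ctx e v P O ι V) : 0 < v P := v.pos h.P0

theorem Ctx.eP (h : Ctx e v P O ι V) : e P ≠ 0 := by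
  rw [Ne, map_eq_zero]
  exact h.P0

theorem Ctx.sub (h : Ctx e v P O ι V) (x y : C) : V (x - y) ≤ max (V x) (V y) := by
  have h1 := h.NA x (-y)
  rwa [← sub_eq_add_neg, V.map_neg] at h1

theorem dv_e (h : Ctx e v P O ι V) (b : B) (n : ℕ) :
    e b / (e P) ^ n ∈ O ↔ v b ≤ (v P) ^ n := by
  rw [← map_pow, ← map_div₀, h.mem, map_div₀, map_pow, div_le_one (pow_pos h.vP n)]

theorem dv_mono (h : Ctx e v P O ι V) {x : Ω} {n m : ℕ} (hnm : n ≤ m)
    (hx : x / (e P) ^ m ∈ O) : x / (e P) ^ n ∈ O := by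
  have h1 : x / (e P) ^ n = (x / (e P) ^ m) * (e (P ^ (m - n))) := by
    have h2 : (e P) ^ m = (e P) ^ n * (e P) ^ (m - n) := by
      rw [← pow_add]
      congr 1
      omega
    have h3 := h.eP
    rw [map_pow, h2]
    field_simp
  rw [h1]
  refine O.mul_mem _ _ hx ?_
  rw [h.mem, map_pow]
  exact pow_le_one₀ h.vP.le h.P1.le

/-- uniqueness -/
theorem Rel.unique (h : Ctx e v P O ι V) {x : Ω} {c c' : C} (h1 : Rel e v P O ι V x c)
    (h2 : Rel e v P O ι V x c') : c = c' := by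
  have h3 : ∀ n : ℕ, V (c - c') ≤ (v P) ^ n := by
    intro n
    obtain ⟨a, ha1, ha2⟩ := h1 n
    obtain ⟨b, hb1, hb2⟩ := h2 n
    have h4 : v (a - b) ≤ (v P) ^ n := by
      rw [← dv_e h]
      have h5 : e (a - b) / (e P) ^ n = (x - e b) / (e P) ^ n - (x - e a) / (e P) ^ n := by
        rw [map_sub]
        ring
      rw [h5]
      exact sub_mem hb1 ha1
    have h5 : V (ι (a - b)) ≤ (v P) ^ n := by rwa [h.VI]
    have h6 : c - c' = ι (a - b) - ((ι a - c) - (ι b - c')) := by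
      rw [map_sub]
      ring
    rw [h6]
    exact (h.sub _ _).trans (max_le h5 ((h.sub _ _).trans (max_le ha2 hb2)))
  have h4 : V (c - c') ≤ 0 := by
    have h5 : Filter.Tendsto (fun n : ℕ => (v P) ^ n) Filter.atTop (nhds 0) :=
      tendsto_pow_atTop_nhds_zero_of_lt_one h.vP.le h.P1
    exact ge_of_tendsto' h5 h3
  have h5 : V (c - c') = 0 := le_antisymm h4 (V.nonneg _)
  rw [V.eq_zero] at h5
  exact sub_eq_zero.1 h5

theorem rel_e (h : Ctx e v P O ι V) (b : B) : Rel e v P O ι V (e b) (ι b) := by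
  intro n
  refine ⟨b, ?_, ?_⟩
  · rw [sub_self, zero_div]
    exact O.zero_mem
  · rw [sub_self, map_zero]
    exact (pow_pos h.vP n).le

theorem Rel.add (h : Ctx e v P O ι V) {x y : Ω} {c d : C} (h1 : Rel e v P O ι V x c)
    (h2 : Rel e v P O ι V y d) : Rel e v P O ι V (x + y) (c + d) := by
  intro n
  obtain ⟨a, ha1, ha2⟩ := h1 n
  obtain ⟨b, hb1, hb2⟩ := h2 n
  refine ⟨a + b, ?_, ?_⟩
  · have h5 : (x + y - e (a + b)) / (e P) ^ n = (x - e a) / (e P) ^ n + (y - e b) / (e P) ^ n := by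
      rw [map_add]
      ring
    rw [h5]
    exact O.add_mem _ _ ha1 hb1
  · have h6 : ι (a + b) - (c + d) = (ι a - c) + (ι b - d) := by
      rw [map_add]
      ring
    rw [h6]
    exact (h.NA _ _).trans (max_le ha2 hb2)

theorem Rel.neg {x : Ω} {c : C} (h1 : Rel e v P O ι V x c) :
    Rel e v P O ι V (-x) (-c) := by
  intro n
  obtain ⟨a, ha1, ha2⟩ := h1 n
  refine ⟨-a, ?_, ?_⟩
  · have h5 : (-x - e (-a)) / (e P) ^ n = -((x - e a) / (e P) ^ n) := by
      rw [map_neg]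
      ring
    rw [h5]
    exact O.neg_mem _ ha1
  · have h6 : ι (-a) - -c = -(ι a - c) := by
      rw [map_neg]
      ring
    rw [h6, V.map_neg]
    exact ha2

theorem Rel.mul (h : Ctx e v P O ι V) {x y : Ω} {c d : C} (h1 : Rel e v P O ι V x c)
    (h2 : Rel e v P O ι V y d) : Rel e v P O ι V (x * y) (c * d) := by
  obtain ⟨a₀, h3, -⟩ := h1 0
  rw [pow_zero, div_one] at h3
  obtain ⟨M, hM⟩ : ∃ M : ℝ, M = max 1 (max (v a₀) (max (V c) (V d))) := ⟨_, rfl⟩
  have hM1 : 1 ≤ M := by rw [hM]; exact le_max_left _ _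
  have hMa : v a₀ ≤ M := by
    rw [hM]
    exact (le_max_left _ _).trans (le_max_right _ _)
  have hMc : V c ≤ M := by
    rw [hM]
    exact ((le_max_left _ _).trans (le_max_right _ _)).trans (le_max_right _ _)
  have hMd : V d ≤ M := by
    rw [hM]
    exact ((le_max_right _ _).trans (le_max_right _ _)).trans (le_max_right _ _)
  obtain ⟨K, hK⟩ := exists_pow_lt_of_lt_one (show (0 : ℝ) < 1 / M by positivity) h.P1
  have hKM : (v P) ^ K * M ≤ 1 := by
    rw [lt_div_iff₀ (by linarith)] at hK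
    exact hK.le
  have hv := h.vP
  have he := h.eP
  have key : ∀ b : B, v b ≤ M → e b * (e P) ^ K ∈ O := by
    intro b hb
    rw [← map_pow, ← map_mul, h.mem, map_mul, map_pow]
    calc v b * (v P) ^ K ≤ M * (v P) ^ K := mul_le_mul_of_nonneg_right hb (by positivity)
      _ = (v P) ^ K * M := mul_comm _ _
      _ ≤ 1 := hKM
  have hxK : x * (e P) ^ K ∈ O := by
    have h4 : x * (e P) ^ K = (x - e a₀) * e (P ^ K) + e a₀ * (e P) ^ K := by
      rw [map_pow]
      ring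
    rw [h4]
    refine O.add_mem _ _ (O.mul_mem _ _ h3 ?_) (key a₀ hMa)
    rw [h.mem, map_pow]
    exact pow_le_one₀ hv.le h.P1.le
  intro n
  obtain ⟨a, ha1, ha2⟩ := h1 (n + K)
  obtain ⟨b, hb1, hb2⟩ := h2 (n + K)
  have hq1 : (v P) ^ (n + K) ≤ 1 := pow_le_one₀ hv.le h.P1.le
  have hqM : ∀ t : ℝ, 0 ≤ t → t ≤ M → t * (v P) ^ (n + K) ≤ (v P) ^ n := by
    intro t h0 ht
    calc t * (v P) ^ (n + K) = (v P) ^ n * ((v P) ^ K * t) := by rw [pow_add]; ring
      _ ≤ (v P) ^ n * ((v P) ^ K * M) :=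
          mul_le_mul_of_nonneg_left (mul_le_mul_of_nonneg_left ht (by positivity)) (by positivity)
      _ ≤ (v P) ^ n * 1 := mul_le_mul_of_nonneg_left hKM (by positivity)
      _ = (v P) ^ n := mul_one _
  have hva : V (ι a) ≤ M := by
    have h4 : ι a = (ι a - c) + c := by ring
    rw [h4]
    exact (h.NA _ _).trans (max_le (ha2.trans (hq1.trans hM1)) hMc)
  have hvb : v b ≤ M := by
    rw [← h.VI]
    have h4 : ι b = (ι b - d) + d := by ring
    rw [h4]
    exact (h.NA _ _).trans (max_le (hb2.trans (hq1.trans hM1)) hMd)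
  refine ⟨a * b, ?_, ?_⟩
  · have h4 : (x * y - e (a * b)) / (e P) ^ n =
        (x * (e P) ^ K) * ((y - e b) / (e P) ^ (n + K)) +
          (e b * (e P) ^ K) * ((x - e a) / (e P) ^ (n + K)) := by
      rw [map_mul, pow_add]
      field_simp
      ring
    rw [h4]
    exact O.add_mem _ _ (O.mul_mem _ _ hxK hb1) (O.mul_mem _ _ (key b hvb) ha1)
  · have h4 : ι (a * b) - c * d = ι a * (ι b - d) + d * (ι a - c) := by
      rw [map_mul]
      ring
    rw [h4]
    refine (h.NA _ _).trans (max_le ?_ ?_)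
    · rw [map_mul]
      exact (mul_le_mul_of_nonneg_left hb2 (V.nonneg _)).trans (hqM _ (V.nonneg _) hva)
    · rw [map_mul]
      exact (mul_le_mul_of_nonneg_left ha2 (V.nonneg _)).trans (hqM _ (V.nonneg _) hMd)

/-- elements with nonzero value -/
theorem Rel.unit (h : Ctx e v P O ι V) {x : Ω} {c : C} (h1 : Rel e v P O ι V x c) (hc : c ≠ 0) :
    ∃ (a : B) (u : Ω), u⁻¹ ∈ O ∧ x = e a * u := by
  obtain ⟨m, hm⟩ := exists_pow_lt_of_lt_one (V.pos hc) h.P1
  obtain ⟨a, ha1, ha2⟩ := h1 m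
  have hv := h.vP
  have he := h.eP
  have hva : (v P) ^ m < v a := by
    by_contra hcon
    push Not at hcon
    rw [← h.VI] at hcon
    have h4 : c = ι a - (ι a - c) := by ring
    have h5 : V c ≤ (v P) ^ m := by
      rw [h4]
      exact (h.sub _ _).trans (max_le hcon ha2)
    linarith
  have ha0 : a ≠ 0 := by
    rintro rfl
    rw [map_zero] at hva
    have := pow_pos hv m
    linarith
  have hea : e a ≠ 0 := by
    rw [Ne, map_eq_zero]
    exact ha0
  obtain ⟨t, ht⟩ : ∃ t : B, t = P ^ m / a := ⟨_, rfl⟩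
  have hvt : v t < 1 := by
    rw [ht, map_div₀, map_pow, div_lt_one (v.pos ha0)]
    exact hva
  have hPm : P ^ m ≠ 0 := pow_ne_zero _ h.P0
  have ht0 : t ≠ 0 := by
    rw [ht]
    exact div_ne_zero hPm ha0
  have het : O.valuation (e t) < 1 := by
    by_contra hcon
    push Not at hcon
    have h5 : O.valuation (e t)⁻¹ ≤ 1 := by
      rw [map_inv₀]
      exact inv_le_one_of_one_le₀ hcon
    rw [O.valuation_le_one_iff, ← map_inv₀, h.mem, map_inv₀] at h5
    have h6 : 0 < v t := v.pos ht0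
    have h7 := (inv_le_one₀ h6).1 h5
    linarith
  obtain ⟨w, hw⟩ : ∃ w : Ω, w = (x - e a) / (e P) ^ m * e t := ⟨_, rfl⟩
  have hwv : O.valuation w < 1 := by
    rw [hw, map_mul]
    calc _ ≤ 1 * O.valuation (e t) :=
          mul_le_mul_left ((O.valuation_le_one_iff _).2 ha1) _
      _ < 1 := by rwa [one_mul]
  have hu : O.valuation (1 + w) = 1 := O.valuation.map_one_add_of_lt hwv
  refine ⟨a, 1 + w, ?_, ?_⟩
  · rw [← O.valuation_le_one_iff, map_inv₀, hu, inv_one]
  · rw [hw, ht, map_div₀, map_pow]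
    field_simp
    ring

end

/-- PHI -/
theorem t_PHI : S_PHI := by
  intro k B Ω C _ _ _ _ _ _ _ _ e s hact v p π hg O hOs hmem hAPM ι V hNA hVI hcomp
  classical
  obtain ⟨P, hP⟩ : ∃ P : B, P = algebraMap k B π := ⟨_, rfl⟩
  have hP0 : P ≠ 0 := by
    rw [hP, Ne, map_eq_zero]
    exact hg.pi0
  have hP1 : v P < 1 := by
    rw [hP]
    exact hg.pi1
  have h : Ctx e v P O ι V := ⟨hP0, hP1, hmem, hNA, hVI⟩
  have hPe : e P ≠ 0 := h.eP
  rw [← hP] at hAPM hcomp
  have hex : ∀ y ∈ O, ∃ c, Rel e v P O ι V y c := by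
    intro y hy
    obtain ⟨M, hM, hMy⟩ := hact.cont y
    have hyM : y ∈ FxM s M := by
      intro τ
      exact hMy _ (fun x hx => τ.commutes ⟨x, hx⟩)
    have hap : ∀ n : ℕ, ∃ a ∈ M, (y - e a) / (e P) ^ n ∈ O := by
      intro n
      obtain ⟨a, ha, -, ha2⟩ := hAPM M hM n y hyM hy
      refine ⟨a, ha, ?_⟩
      rw [← O.valuation_le_one_iff, map_div₀, map_pow]
      have h1 : O.valuation (e P) ≠ 0 := by
        rw [Ne, map_eq_zero]
        exact hPe
      have h2 : 0 < O.valuation (e P) ^ n := zero_lt_iff.2 (pow_ne_zero _ h1)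
      exact (div_le_one₀ h2).2 ha2
    choose a haM ha using hap
    have hd : ∀ n m, n ≤ m → v (a n - a m) ≤ v P ^ n := by
      intro n m hnm
      rw [← dv_e h]
      have h1 := dv_mono h hnm (ha m)
      have h5 : e (a n - a m) / (e P) ^ n =
          (y - e (a m)) / (e P) ^ n - (y - e (a n)) / (e P) ^ n := by
        rw [map_sub]
        ring
      rw [h5]
      exact sub_mem h1 (ha n)
    obtain ⟨c, hc⟩ := hcomp M hM a haM hd
    exact ⟨c, fun n => ⟨a n, ha n, hc n⟩⟩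
  have hone : Rel e v P O ι V 1 1 := by
    have h1 := rel_e h (1 : B)
    rwa [map_one, map_one] at h1
  have hzero : Rel e v P O ι V 0 0 := by
    have h1 := rel_e h (0 : B)
    rwa [map_zero, map_zero] at h1
  obtain ⟨W, hW⟩ : ∃ W : ValuationSubring Ω, ∀ x, x ∈ W ↔ ∃ c, Rel e v P O ι V x c := by
    refine ⟨{ carrier := {x | ∃ c, Rel e v P O ι V x c}
              mul_mem' := ?_
              one_mem' := ⟨1, hone⟩
              add_mem' := ?_
              zero_mem' := ⟨0, hzero⟩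
              neg_mem' := ?_
              mem_or_inv_mem' := ?_ }, fun x => Iff.rfl⟩
    · rintro x y ⟨c, hc⟩ ⟨d, hd⟩
      exact ⟨_, hc.mul h hd⟩
    · rintro x y ⟨c, hc⟩ ⟨d, hd⟩
      exact ⟨_, hc.add h hd⟩
    · rintro x ⟨c, hc⟩
      exact ⟨_, hc.neg⟩
    · intro x
      exact (O.mem_or_inv_mem x).imp (hex x) (hex _)
  have hf0 : ∀ x : W, ∃ c, Rel e v P O ι V (x : Ω) c := fun x => (hW _).1 x.2
  choose f hf using hf0
  obtain ⟨ρ, hρ⟩ : ∃ ρ : W →+* C, ∀ x : W, Rel e v P O ι V (x : Ω) (ρ x) := by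
    refine ⟨{ toFun := f
              map_one' := ?_
              map_mul' := ?_
              map_zero' := ?_
              map_add' := ?_ }, hf⟩
    · exact Rel.unique h (hf 1) hone
    · intro x y
      exact Rel.unique h (hf (x * y)) ((hf x).mul h (hf y))
    · exact Rel.unique h (hf 0) hzero
    · intro x y
      exact Rel.unique h (hf (x + y)) ((hf x).add h (hf y))
  refine ⟨W, ρ, ?_, ?_, ?_⟩
  · intro x hx
    obtain ⟨a, u, hu, hxu⟩ := (hρ x).unit h hx
    rw [hxu, mul_inv, ← map_inv₀]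
    exact W.mul_mem _ _ ((hW _).2 ⟨_, rel_e h _⟩) ((hW _).2 (hex _ hu))
  · intro b
    exact ⟨(hW _).2 ⟨_, rel_e h b⟩, Rel.unique h (hρ _) (rel_e h b)⟩
  · intro σ τ hσV hσ x hx
    have hτP : τ P = P := by
      rw [hP]
      exact τ.commutes π
    have key : ∀ c, Rel e v P O ι V x c → Rel e v P O ι V (s τ x) (σ c) := by
      intro c hc n
      obtain ⟨a, ha1, ha2⟩ := hc n
      refine ⟨τ a, ?_, ?_⟩
      · have h5 : (s τ x - e (τ a)) / (e P) ^ n = s τ ((x - e a) / (e P) ^ n) := by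
          rw [map_div₀, map_sub, map_pow, hact.eq, hact.eq, hτP]
        rw [h5]
        exact hOs τ _ ha1
      · rw [← hσ, ← map_sub, hσV]
        exact ha2
    exact ⟨(hW _).2 ⟨_, key _ (hρ ⟨x, hx⟩)⟩, Rel.unique h (hρ _) (key _ (hρ ⟨x, hx⟩))⟩

end Pool.Agent.N890.KO.PHI
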