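import Pool.Agent.N890.KO.Stm

/-!
Project KO (helper890): POW, the elements near `1` are `n`-th powers for `n` prime to `p`.
-/

set_option autoImplicit false

namespace Pool.Agent.N890.KO.POW

open Pool.Agent.N890.KO Polynomial

section

variable {B : Type} [Field B] (v : AbsoluteValue B ℝ) (na : ∀ x y, v (x + y) ≤ max (v x) (v y))

include na

theorem v_nat (m : ℕ) : v (m : B) ≤ 1 := by
  induction m with
  | zero => simp
  | succ m ih =>
    rw [Nat.cast_succ]
    refine (na _ _).trans (max_le ih ?_)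
    rw [map_one]

theorem v_int (m : ℤ) : v (m : B) ≤ 1 := by
  obtain ⟨a, rfl | rfl⟩ := m.eq_nat_or_neg
  · rw [Int.cast_natCast]
    exact v_nat v na a
  · rw [Int.cast_neg, Int.cast_natCast, AbsoluteValue.map_neg]
    exact v_nat v na a

theorem v_one (p n : ℕ) (hp : p.Prime) (h1 : v (p : B) < 1) (hn : ¬ p ∣ n) :
    v (n : B) = 1 := by
  refine le_antisymm (v_nat v na n) ?_
  by_contra hlt
  rw [not_le] at hlt
  have hc : IsCoprime (p : ℤ) (n : ℤ) :=
    Nat.isCoprime_iff_coprime.2 ((Nat.Prime.coprime_iff_not_dvd hp).2 hn)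
  obtain ⟨a, b, hab⟩ := hc
  have e : (a : B) * (p : B) + (b : B) * (n : B) = 1 := by
    exact_mod_cast congrArg (Int.cast : ℤ → B) hab
  have h2 := na ((a : B) * (p : B)) ((b : B) * (n : B))
  rw [e, map_one, map_mul, map_mul] at h2
  have h3 : v (a : B) * v (p : B) < 1 :=
    lt_of_le_of_lt (mul_le_of_le_one_left (v.nonneg _) (v_int v na a)) h1
  have h4 : v (b : B) * v (n : B) < 1 :=
    lt_of_le_of_lt (mul_le_of_le_one_left (v.nonneg _) (v_int v na b)) hlt
  exact absurd h2 (not_le.2 (max_lt h3 h4))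

end

theorem t_POW : S_HENK → S_POW := by
  intro H k B _ _ _ _ _ v p π hG n hn x hx
  have hn0 : n ≠ 0 := by
    rintro rfl
    exact hn (dvd_zero p)
  have h1 : ∀ m, v (algebraMap k B (((1 + X) ^ n - C x : Polynomial k).coeff m)) ≤ 1 := by
    intro m
    rw [coeff_sub, coeff_one_add_X_pow]
    by_cases hm : m = 0
    · subst hm
      rw [coeff_C_zero, Nat.choose_zero_right, Nat.cast_one, ← neg_sub, map_neg,
        AbsoluteValue.map_neg]
      exact hx.le
    · rw [coeff_C_of_ne_zero hm, sub_zero, map_natCast]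
      exact v_nat v hG.na _
  have h2 : v (algebraMap k B (((1 + X) ^ n - C x : Polynomial k).coeff 0)) < 1 := by
    rw [coeff_sub, coeff_one_add_X_pow, coeff_C_zero, Nat.choose_zero_right, Nat.cast_one,
      ← neg_sub, map_neg, AbsoluteValue.map_neg]
    exact hx
  have h3 : v (algebraMap k B (((1 + X) ^ n - C x : Polynomial k).coeff 1)) = 1 := by
    rw [coeff_sub, coeff_one_add_X_pow, coeff_C_of_ne_zero one_ne_zero, sub_zero,
      Nat.choose_one_right, map_natCast]
    exact v_one v hG.na p n hG.prime hG.p1 hn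
  obtain ⟨z, hz, hz2⟩ := H k B v p π hG ((1 + X) ^ n - C x) h1 h2 h3
  refine ⟨1 + z, ?_, ?_⟩
  · rw [eval_sub, eval_pow, eval_add, eval_one, eval_X, eval_C] at hz2
    exact sub_eq_zero.1 hz2
  · rw [add_sub_cancel_left]
    exact hz

end Pool.Agent.N890.KO.POW
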