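import Pool.Agent.N890.KO.Stm

/-!
# QR: quasi-rigid elements
-/

set_option autoImplicit false

namespace Pool.Agent.N890.KO.QR

open Pool.Agent.N890.KO IntermediateField

lemma consts {k Ω : Type} [Field k] [CharZero k] [Field Ω] {l : ℕ} (h : Lc l k) :
    l.Prime ∧ ∃ ζ : k, ζ ^ l = 1 ∧ ζ ≠ 1 ∧
      (∀ (E : k →+* Ω) (Y : Ω), ∏ i ∈ Finset.range l, (1 - E (ζ ^ i) * Y) = 1 - Y ^ l) ∧
      ∃ ε : k, ε ≠ 0 ∧ ∀ a : k, (-1) ^ (l - 1) * (-a) = ε ^ l * a := by
  rcases h with ⟨rfl, i, hi⟩ | ⟨rfl, ω, hω⟩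
  · refine ⟨Nat.prime_two, -1, by norm_num, ?_, ?_, 1, one_ne_zero, fun a => by ring⟩
    · intro h
      have h2 : (2 : k) = 0 := by linear_combination -h
      exact two_ne_zero h2
    · intro E Y
      rw [Finset.prod_range_succ, Finset.prod_range_succ, Finset.prod_range_zero, pow_zero,
        pow_one, map_neg, map_one]
      ring
  · refine ⟨Nat.prime_three, ω, ?_, ?_, ?_, -1, by norm_num, fun a => by ring⟩
    · linear_combination (ω - 1) * hω
    · rintro rfl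
      have h3 : (3 : k) = 0 := by linear_combination hω
      exact three_ne_zero h3
    · intro E Y
      rw [Finset.prod_range_succ, Finset.prod_range_succ, Finset.prod_range_succ,
        Finset.prod_range_zero, pow_zero, pow_one, map_one, map_pow]
      have hW : E ω ^ 2 + E ω + 1 = 0 := by
        rw [← map_pow, ← map_one E, ← map_add, ← map_add, hω, map_zero]
      linear_combination (-Y + E ω * Y ^ 2 - (E ω - 1) * Y ^ 3) * hW

theorem t_QR : S_SPLIT → S_KUM → S_TAME → S_QR := by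
  intro hSP hKU hTA k B Ω _ _ _ _ _ _ _ e s hA v p π hG l hlp hLc a n t hva hdvd ht ht0 h1
  obtain ⟨hl, ζ, hζ, hζ1, hprod, ε, hε0, hε⟩ := consts (Ω := Ω) hLc
  have hfix : ∀ c : k, e (algebraMap k B c) ∈ FxF s := by
    intro c τ
    rw [hA.eq, τ.commutes]
  -- the class of `1 + x`
  have hx : 1 + e (algebraMap k B a) * t ^ l ∈ FxF s :=
    (FxF s).add_mem (FxF s).one_mem ((FxF s).mul_mem (hfix a) ((FxF s).pow_mem ht l))
  obtain ⟨b, w, hb0, hw0, hw, hbw⟩ := (hKU k B Ω e s hA l hl.one_lt.le).1 _ hx h1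
  -- the cyclic extension
  have : IsAlgClosed B := IsAlgClosure.isAlgClosed k
  obtain ⟨α, hα⟩ := IsAlgClosed.exists_pow_nat_eq (algebraMap k B (-a)) hl.pos
  have hva' : v (algebraMap k B (-a)) = v (algebraMap k B π) ^ n := by
    rw [map_neg, AbsoluteValue.map_neg, hva]
  obtain ⟨σ, hcyc, hσ, hnorm⟩ := hTA k B v p π hG l hl hlp ζ hζ hζ1 (-a) n hva' hdvd α hα
  have hpow : ∀ i : ℕ, (σ ^ i) α = algebraMap k B (ζ ^ i) * α := by
    intro i
    induction i with
    | zero => rw [pow_zero, pow_zero, map_one, one_mul, AlgEquiv.one_apply]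
    | succ i ih =>
      rw [pow_succ', AlgEquiv.mul_apply, ih, map_mul, AlgEquiv.commutes, hσ, pow_succ, map_mul]
      ring
  -- the element with norm `e b`
  have hβ : (1 - e α * t) * w⁻¹ ∈ FxM s k⟮α⟯ := by
    intro τ
    have h2 : (s.comp (resM k⟮α⟯)) τ (e α) = e α := by
      change s (resM k⟮α⟯ τ) (e α) = e α
      rw [hA.eq]
      congr 1
      exact τ.commutes ⟨α, mem_adjoin_simple_self k α⟩
    have h3 : (s.comp (resM k⟮α⟯)) τ t = t := ht _
    have h4 : (s.comp (resM k⟮α⟯)) τ w = w := hw _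
    rw [map_mul, map_sub, map_one, map_mul, map_inv₀, h2, h3, h4]
  have hN : ∏ i ∈ Finset.range l, s (σ ^ i) ((1 - e α * t) * w⁻¹) = e (algebraMap k B b) := by
    have h5 : ∀ i ∈ Finset.range l, s (σ ^ i) ((1 - e α * t) * w⁻¹) =
        (1 - (e.comp (algebraMap k B)) (ζ ^ i) * (e α * t)) * w⁻¹ := by
      intro i _
      have h3 : s (σ ^ i) t = t := ht _
      have h4 : s (σ ^ i) w = w := hw _
      rw [map_mul, map_sub, map_one, map_mul, map_inv₀, h3, h4, hA.eq, hpow, map_mul,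
        RingHom.comp_apply, mul_assoc]
    rw [Finset.prod_congr rfl h5, Finset.prod_mul_distrib, hprod, Finset.prod_const,
      Finset.card_range, mul_pow, ← map_pow, hα, map_neg, map_neg, inv_pow]
    have h6 : 1 - -e (algebraMap k B a) * t ^ l = 1 + e (algebraMap k B a) * t ^ l := by ring
    rw [h6, hbw, mul_assoc, mul_inv_cancel₀ (pow_ne_zero _ hw0), mul_one]
  obtain ⟨β₀, hβ₀, hβ₁⟩ := hSP k B Ω e s hA k⟮α⟯ σ l hcyc b _ hb0 hβ hN
  have hβ0 : β₀ ≠ 0 := by
    rintro rfl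
    have h7 : ∏ i ∈ Finset.range l, (σ ^ i) (0 : B) = 0 :=
      Finset.prod_eq_zero (Finset.mem_range.2 hl.pos) (map_zero _)
    rw [h7] at hβ₁
    exact hb0 ((map_eq_zero (algebraMap k B)).1 hβ₁.symm)
  obtain ⟨j, c, hc0, hc⟩ := hnorm β₀ hβ₀ hβ0
  rw [hβ₁, hε] at hc
  have hb : b = (ε ^ l * a) ^ j * c ^ l := (algebraMap k B).injective hc
  refine ⟨j, e (algebraMap k B (ε ^ j * c)) * w * t⁻¹ ^ j, ?_, ?_, ?_⟩
  · refine mul_ne_zero (mul_ne_zero ?_ hw0) (pow_ne_zero _ (inv_ne_zero ht0))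
    exact (map_ne_zero e).2 ((map_ne_zero _).2 (mul_ne_zero (pow_ne_zero _ hε0) hc0))
  · exact (FxF s).mul_mem ((FxF s).mul_mem (hfix _) hw) ((FxF s).pow_mem ((FxF s).inv_mem ht) j)
  · rw [hbw, hb]
    have h8 : (t ^ l) ^ j * (t⁻¹ ^ j) ^ l = 1 := by
      rw [← pow_mul, ← pow_mul, mul_comm j l, ← mul_pow, mul_inv_cancel₀ ht0, one_pow]
    simp only [map_mul, map_pow, mul_pow]
    rw [← pow_mul, ← pow_mul, mul_comm l j]
    linear_combination (-(e (algebraMap k B ε) ^ (j * l) * e (algebraMap k B a) ^ j *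
      e (algebraMap k B c) ^ l * w ^ l)) * h8

end Pool.Agent.N890.KO.QR
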