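import Pool.Agent.N890.KO.Stm

/-!
RIG1: rigid elements modulo `ℓ`-th powers, `ℓ = 2` or `3` (helper374 for helper890).
-/

set_option autoImplicit false

namespace Pool.Agent.N890.KO.RIG1

open Pool.Agent.N890.KO

variable {L : Type} [Field L]

/-- the classes modulo powers -/
abbrev Q (L : Type) [Field L] (ℓ : ℕ) : Type := Lˣ ⧸ (powMonoidHom ℓ : Lˣ →* Lˣ).range

open Classical in
/-- the class of an element -/
noncomputable def q (ℓ : ℕ) (x : L) : Q L ℓ :=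
  if h : x ≠ 0 then QuotientGroup.mk (Units.mk0 x h) else 1

theorem q_of_ne (ℓ : ℕ) {x : L} (hx : x ≠ 0) : q ℓ x = QuotientGroup.mk (Units.mk0 x hx) := by
  unfold q
  rw [dif_pos hx]

theorem q_mul (ℓ : ℕ) {x y : L} (hx : x ≠ 0) (hy : y ≠ 0) :
    q ℓ (x * y) = q ℓ x * q ℓ y := by
  rw [q_of_ne ℓ hx, q_of_ne ℓ hy, q_of_ne ℓ (mul_ne_zero hx hy), ← QuotientGroup.mk_mul]
  apply congrArg
  ext
  simp

theorem q_eq_one (ℓ : ℕ) {x : L} (hx : x ≠ 0) : q ℓ x = 1 ↔ x ∈ Pw ℓ := by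
  rw [q_of_ne ℓ hx, QuotientGroup.eq_one_iff]
  constructor
  · rintro ⟨u, hu⟩
    refine ⟨u, u.ne_zero, ?_⟩
    have := congrArg Units.val hu
    simpa using this.symm
  · rintro ⟨z, hz, h⟩
    refine ⟨Units.mk0 z hz, ?_⟩
    ext
    simpa using h.symm

theorem q_pow (ℓ : ℕ) (g : Q L ℓ) : g ^ ℓ = 1 := by
  induction g using QuotientGroup.induction_on with
  | H u =>
    rw [← QuotientGroup.mk_pow, QuotientGroup.eq_one_iff]
    exact ⟨u, rfl⟩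

theorem q_one (ℓ : ℕ) : q ℓ (1 : L) = 1 :=
  (q_eq_one ℓ one_ne_zero).2 ⟨1, one_ne_zero, by simp⟩

theorem q_inv (ℓ : ℕ) {x : L} (hx : x ≠ 0) : q ℓ x⁻¹ = (q ℓ x)⁻¹ := by
  rw [eq_inv_iff_mul_eq_one, ← q_mul ℓ (inv_ne_zero hx) hx, inv_mul_cancel₀ hx, q_one]

theorem q_div (ℓ : ℕ) {x y : L} (hx : x ≠ 0) (hy : y ≠ 0) :
    q ℓ (x / y) = q ℓ x * (q ℓ y)⁻¹ := by
  rw [div_eq_mul_inv, q_mul ℓ hx (inv_ne_zero hy), q_inv ℓ hy]

theorem q_xpow (ℓ : ℕ) {x : L} (hx : x ≠ 0) (i : ℕ) : q ℓ (x ^ i) = q ℓ x ^ i := by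
  induction i with
  | zero => rw [pow_zero, pow_zero, q_one]
  | succ i ih => rw [pow_succ, pow_succ, q_mul ℓ (pow_ne_zero i hx) hx, ih]

theorem q_neg (ℓ : ℕ) (hn : ∃ d : L, d ^ ℓ = -1) {x : L} (hx : x ≠ 0) : q ℓ (-x) = q ℓ x := by
  obtain ⟨d, hd⟩ := hn
  have h1 : (-1 : L) ≠ 0 := neg_ne_zero.2 one_ne_zero
  have hℓ : ℓ ≠ 0 ∨ ℓ = 0 := by tauto
  have : q ℓ (-1 : L) = 1 := by
    rcases hℓ with hℓ | hℓ
    · refine (q_eq_one ℓ h1).2 ⟨d, ?_, hd.symm⟩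
      rintro rfl
      rw [zero_pow hℓ] at hd
      exact h1 hd.symm
    · refine (q_eq_one ℓ h1).2 ⟨1, one_ne_zero, ?_⟩
      rw [one_pow, ← hd, hℓ, pow_zero]
  rw [← neg_one_mul, q_mul ℓ h1 hx, this]
  exact one_mul (q ℓ x)

/-- the subgroup generated by `U` -/
noncomputable def HQ (ℓ : ℕ) (U : Set L) (hU : IsU U) : Subgroup (Q L ℓ) where
  carrier := {g | ∃ u ∈ U, g = q ℓ u}
  mul_mem' := by
    rintro a b ⟨u, hu, rfl⟩ ⟨w, hw, rfl⟩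
    refine ⟨u * w, hU.mul u hu w hw, ?_⟩
    rw [q_mul ℓ (fun h => hU.zero (h ▸ hu)) (fun h => hU.zero (h ▸ hw))]
  one_mem' := ⟨1, hU.one, (q_one ℓ).symm⟩
  inv_mem' := by
    rintro a ⟨u, hu, rfl⟩
    exact ⟨u⁻¹, hU.inv u hu, (q_inv ℓ (fun h => hU.zero (h ▸ hu))).symm⟩

theorem q_mem (ℓ : ℕ) (U : Set L) (hU : IsU U) {x : L} (hx : x ≠ 0) :
    q ℓ x ∈ HQ ℓ U hU ↔ x ∈ HH ℓ U := by
  constructor
  · rintro ⟨u, hu, h⟩
    have hu0 : u ≠ 0 := fun h => hU.zero (h ▸ hu)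
    have h1 : q ℓ (x / u) = 1 := by rw [q_div ℓ hx hu0, h, mul_inv_cancel]
    rw [q_eq_one ℓ (div_ne_zero hx hu0)] at h1
    obtain ⟨z, hz, h2⟩ := h1
    refine ⟨u, hu, z, hz, ?_⟩
    rw [← h2, mul_div_cancel₀ _ hu0]
  · rintro ⟨u, hu, z, hz, h⟩
    have hu0 : u ≠ 0 := fun h => hU.zero (h ▸ hu)
    refine ⟨u, hu, ?_⟩
    rw [h, q_mul ℓ hu0 (pow_ne_zero _ hz), q_xpow ℓ hz, q_pow]
    exact mul_one (q ℓ u)

theorem q_U (ℓ : ℕ) (U : Set L) (hU : IsU U) {x : L} (hx : x ∈ U) : q ℓ x ∈ HQ ℓ U hU :=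
  ⟨x, hx, rfl⟩

/-- in a group of exponent `ℓ` -/
theorem mem_of_zpow {G : Type} [CommGroup G] (K : Subgroup G) {ℓ : ℕ} (hℓ : ℓ.Prime) {g : G}
    (hg : g ^ ℓ = 1) {j : ℤ} (hj : g ^ j ∈ K) (hd : ¬ (ℓ : ℤ) ∣ j) : g ∈ K := by
  have hc : IsCoprime (ℓ : ℤ) j :=
    (Prime.coprime_iff_not_dvd (Nat.prime_iff_prime_int.1 hℓ)).2 hd
  obtain ⟨a, b, hab⟩ := hc
  have : g = (g ^ j) ^ b := by
    rw [← zpow_mul]
    have h1 : g ^ ((ℓ : ℤ) * a) = 1 := by rw [zpow_mul, zpow_natCast, hg, one_zpow]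
    calc g = g ^ (1 : ℤ) := (zpow_one g).symm
      _ = g ^ ((ℓ : ℤ) * a + j * b) := by rw [← hab]; ring_nf
      _ = g ^ (j * b) := by rw [zpow_add, h1, one_mul]
  rw [this]
  exact K.zpow_mem hj b

/-- an abstract class map -/
structure Cls {G : Type} [CommGroup G] (ℓ : ℕ) (U : Set L) (q : L → G) (K : Subgroup G) :
    Prop where
  mul : ∀ x y, x ≠ 0 → y ≠ 0 → q (x * y) = q x * q y
  one_iff : ∀ x, x ≠ 0 → (q x = 1 ↔ x ∈ Pw ℓ)
  pow : ∀ g : G, g ^ ℓ = 1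
  neg : ∀ x, x ≠ 0 → q (-x) = q x
  mem : ∀ x, x ≠ 0 → (q x ∈ K ↔ x ∈ HH ℓ U)
  U : ∀ x ∈ U, q x ∈ K

section abs

variable {G : Type} [CommGroup G] {ℓ : ℕ} {U : Set L} {q : L → G} {K : Subgroup G}

theorem Cls.one (h : Cls ℓ U q K) : q 1 = 1 :=
  (h.one_iff 1 one_ne_zero).2 ⟨1, one_ne_zero, by simp⟩

theorem Cls.inv (h : Cls ℓ U q K) {x : L} (hx : x ≠ 0) : q x⁻¹ = (q x)⁻¹ := by
  rw [eq_inv_iff_mul_eq_one, ← h.mul _ _ (inv_ne_zero hx) hx, inv_mul_cancel₀ hx, h.one]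

theorem Cls.div (h : Cls ℓ U q K) {x y : L} (hx : x ≠ 0) (hy : y ≠ 0) :
    q (x / y) = q x * (q y)⁻¹ := by
  rw [div_eq_mul_inv, h.mul _ _ hx (inv_ne_zero hy), h.inv hy]

theorem Cls.xpow (h : Cls ℓ U q K) {x : L} (hx : x ≠ 0) (i : ℕ) : q (x ^ i) = q x ^ i := by
  induction i with
  | zero => rw [pow_zero, pow_zero, h.one]
  | succ i ih => rw [pow_succ, pow_succ, h.mul _ _ (pow_ne_zero i hx) hx, ih]

/-- quasi-rigidity for the class map -/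
theorem Cls.qr (h : Cls ℓ U q K)
    (hQ : ∀ x : L, x ≠ 0 → x ∉ HH ℓ U → ∃ (i : ℕ) (z : L), z ≠ 0 ∧ 1 + x = x ^ i * z ^ ℓ)
    {x : L} (hx : x ≠ 0) (hK : q x ∉ K) : 1 + x ≠ 0 ∧ ∃ i : ℕ, q (1 + x) = q x ^ i := by
  obtain ⟨i, z, hz, he⟩ := hQ x hx (fun hh => hK ((h.mem x hx).2 hh))
  refine ⟨?_, i, ?_⟩
  · rw [he]
    exact mul_ne_zero (pow_ne_zero _ hx) (pow_ne_zero _ hz)
  · rw [he, h.mul _ _ (pow_ne_zero _ hx) (pow_ne_zero _ hz), h.xpow hx, h.xpow hz, h.pow,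
      mul_one]

theorem not_mem_mul {K : Subgroup G} {a b : G} (ha : a ∈ K) (hb : b ∉ K) : a * b ∉ K :=
  fun h => hb ((K.mul_mem_cancel_left ha).1 h)

/-- (R) -/
theorem Cls.R (h : Cls ℓ U q K) (hℓ : ℓ = 2 ∨ ℓ = 3) (hU : IsU U) (hC : Cst ℓ U)
    (hQ : ∀ x : L, x ≠ 0 → x ∉ HH ℓ U → ∃ (i : ℕ) (z : L), z ≠ 0 ∧ 1 + x = x ^ i * z ^ ℓ)
    {x : L} (hx : x ≠ 0) (hK : q x ∉ K) : q (1 + x) = 1 ∨ q (1 + x) = q x := by
  obtain ⟨h1x, i, hi⟩ := h.qr hQ hx hK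
  rcases hℓ with hℓ | hℓ
  · subst hℓ
    rcases Nat.even_or_odd' i with ⟨k, hk | hk⟩
    · left
      rw [hi, hk, pow_mul, h.pow, one_pow]
    · right
      rw [hi, hk, pow_succ, pow_mul, h.pow, one_pow, one_mul]
  · subst hℓ
    have hr : i % 3 < 3 := Nat.mod_lt _ (by norm_num)
    have hi' : q (1 + x) = q x ^ (i % 3) := by
      rw [hi]
      conv_lhs => rw [← Nat.div_add_mod i 3, pow_add, pow_mul, h.pow, one_pow, one_mul]
    generalize i % 3 = r at hr hi'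
    have hr3 : r = 0 ∨ r = 1 ∨ r = 2 := by omega
    rcases hr3 with rfl | rfl | rfl
    · left
      rw [hi', pow_zero]
    · right
      rw [hi', pow_one]
    · exfalso
      obtain ⟨c, hc, hc1, hcP, hcc⟩ := hC.c rfl
      have hc0 : c ≠ 0 := fun hh => hU.zero (hh ▸ hc)
      have hc10 : c - 1 ≠ 0 := fun hh => hU.zero (hh ▸ hc1)
      have hCD : q c * q (c - 1) = 1 := by
        rw [← h.mul _ _ hc0 hc10]
        exact (h.one_iff _ (mul_ne_zero hc0 hc10)).2 hcc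
      have hC1 : q c ≠ 1 := fun hh => hcP ((h.one_iff c hc0).1 hh)
      have hD : q (c - 1) = (q c)⁻¹ := (eq_inv_of_mul_eq_one_right hCD)
      set a := q x with ha
      set C := q c with hCdef
      have hCK : C ∈ K := h.U c hc
      have ha3 : a ^ 3 = 1 := h.pow a
      have hC3 : C ^ 3 = 1 := h.pow C
      have hy0 : (c - 1) * x / (1 + x) ≠ 0 := div_ne_zero (mul_ne_zero hc10 hx) h1x
      have hqy : q ((c - 1) * x / (1 + x)) = C⁻¹ * a⁻¹ := by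
        rw [h.div (mul_ne_zero hc10 hx) h1x, h.mul _ _ hc10 hx, hi', hD, ← ha]
        group
      have hyK : q ((c - 1) * x / (1 + x)) ∉ K := by
        rw [hqy]
        exact not_mem_mul (K.inv_mem hCK) (fun hh => hK ((K.inv_mem_iff).1 hh))
      obtain ⟨h1y, s, hs⟩ := h.qr hQ hy0 hyK
      have hcxK : q (c * x) ∉ K := by
        rw [h.mul _ _ hc0 hx]
        exact not_mem_mul hCK hK
      obtain ⟨h1cx, n, hn⟩ := h.qr hQ (mul_ne_zero hc0 hx) hcxK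
      have he : 1 + c * x = (1 + x) * (1 + (c - 1) * x / (1 + x)) := by
        field_simp
        ring
      rw [he, h.mul _ _ h1x h1y, hs, hqy, hi', h.mul _ _ hc0 hx] at hn
      -- hn : a ^ 2 * (C⁻¹ * a⁻¹) ^ s = (C * a) ^ n
      have h5 : a ^ (2 - ((s : ℤ) + n)) = C ^ ((s : ℤ) + n) := by
        have : a ^ (2 : ℤ) * (C⁻¹ * a⁻¹) ^ (s : ℤ) = (C * a) ^ (n : ℤ) := by
          exact_mod_cast hn
        rw [mul_zpow, mul_zpow, inv_zpow', inv_zpow'] at this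
        calc a ^ (2 - ((s : ℤ) + n)) = (a ^ (2 : ℤ) * (C ^ (-(s : ℤ)) * a ^ (-(s : ℤ)))) *
            (C ^ (s : ℤ) * a ^ (-(n : ℤ))) := by
              rw [sub_eq_add_neg, neg_add, zpow_add, zpow_add, zpow_neg C]
              have : (C ^ (s : ℤ))⁻¹ * C ^ (s : ℤ) = 1 := inv_mul_cancel _
              calc _ = a ^ (2 : ℤ) * (((C ^ (s : ℤ))⁻¹ * C ^ (s : ℤ)) *
                    (a ^ (-(s : ℤ)) * a ^ (-(n : ℤ)))) := by rw [this, one_mul]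
                _ = _ := by ac_rfl
          _ = (C ^ (n : ℤ) * a ^ (n : ℤ)) * (C ^ (s : ℤ) * a ^ (-(n : ℤ))) := by rw [this]
          _ = C ^ ((s : ℤ) + n) := by
              rw [zpow_add, zpow_neg]
              have : a ^ (n : ℤ) * (a ^ (n : ℤ))⁻¹ = 1 := mul_inv_cancel _
              calc _ = C ^ (s : ℤ) * C ^ (n : ℤ) * (a ^ (n : ℤ) * (a ^ (n : ℤ))⁻¹) := by ac_rfl
                _ = _ := by rw [this, mul_one]
      have h6 : (3 : ℤ) ∣ 2 - ((s : ℤ) + n) := by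
        by_contra hd
        exact hK (mem_of_zpow K Nat.prime_three ha3 (h5 ▸ K.zpow_mem hCK _) hd)
      have h7 : a ^ (2 - ((s : ℤ) + n)) = 1 := by
        obtain ⟨t, ht⟩ := h6
        rw [ht, zpow_mul]
        have : a ^ (3 : ℤ) = 1 := by exact_mod_cast ha3
        rw [this, one_zpow]
      rw [h7] at h5
      have h8 : (3 : ℤ) ∣ (s : ℤ) + n := by
        by_contra hd
        have := mem_of_zpow (⊥ : Subgroup G) Nat.prime_three hC3 (j := (s : ℤ) + n)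
          (by rw [← h5]; exact Subgroup.one_mem _) hd
        exact hC1 (Subgroup.mem_bot.1 this)
      omega

/-- (S), scaling -/
theorem Cls.S (h : Cls ℓ U q K) (hU : IsU U) (hC : Cst ℓ U)
    (hQ : ∀ x : L, x ≠ 0 → x ∉ HH ℓ U → ∃ (i : ℕ) (z : L), z ≠ 0 ∧ 1 + x = x ^ i * z ^ ℓ)
    (hR : ∀ x : L, x ≠ 0 → q x ∉ K → q (1 + x) = 1 ∨ q (1 + x) = q x) :
    ∀ c ∈ U, ∀ x ∈ Om ℓ U, c * x ∈ Om ℓ U := by
  suffices key : ∀ c ∈ Submonoid.closure {d : L | d ∈ U ∧ d - 1 ∈ U ∧ (d - 1) / d ∉ Pw ℓ},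
      ∀ x ∈ Om ℓ U, c * x ∈ Om ℓ U from fun c hc => key c (hC.b c hc)
  intro c hcl
  induction hcl using Submonoid.closure_induction with
  | mem d hd =>
    obtain ⟨hdU, hd1, hdP⟩ := hd
    rintro x ⟨hx0, hxH, hxP⟩
    have hd0 : d ≠ 0 := fun hh => hU.zero (hh ▸ hdU)
    have hd10 : d - 1 ≠ 0 := fun hh => hU.zero (hh ▸ hd1)
    have hxK : q x ∉ K := fun hh => hxH ((h.mem x hx0).1 hh)
    obtain ⟨h1x, -⟩ := h.qr hQ hx0 hxK
    have hq1 : q (1 + x) = 1 := (h.one_iff _ h1x).2 hxP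
    have hdx0 : d * x ≠ 0 := mul_ne_zero hd0 hx0
    have hqdx : q (d * x) = q d * q x := h.mul _ _ hd0 hx0
    have hdxK : q (d * x) ∉ K := by
      rw [hqdx]
      exact not_mem_mul (h.U d hdU) hxK
    have hy0 : (d - 1) * x / (1 + x) ≠ 0 := div_ne_zero (mul_ne_zero hd10 hx0) h1x
    have hqy : q ((d - 1) * x / (1 + x)) = q (d - 1) * q x := by
      rw [h.div (mul_ne_zero hd10 hx0) h1x, h.mul _ _ hd10 hx0, hq1, inv_one, mul_one]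
    have hyK : q ((d - 1) * x / (1 + x)) ∉ K := by
      rw [hqy]
      exact not_mem_mul (h.U _ hd1) hxK
    obtain ⟨h1y, -⟩ := h.qr hQ hy0 hyK
    obtain ⟨h1dx, -⟩ := h.qr hQ hdx0 hdxK
    have he : 1 + d * x = (1 + x) * (1 + (d - 1) * x / (1 + x)) := by
      field_simp
      ring
    have h2 : q (1 + d * x) = q (1 + (d - 1) * x / (1 + x)) := by
      rw [he, h.mul _ _ h1x h1y, hq1, one_mul]
    refine ⟨hdx0, fun hh => hdxK ((h.mem _ hdx0).2 hh), (h.one_iff _ h1dx).1 ?_⟩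
    rcases hR _ hy0 hyK with h3 | h3
    · rw [h2, h3]
    · rcases hR _ hdx0 hdxK with h4 | h4
      · exact h4
      · exfalso
        rw [h2, h3, hqy, hqdx] at h4
        have h5 : q (d - 1) = q d := mul_right_cancel h4
        apply hdP
        rw [← h.one_iff _ (div_ne_zero hd10 hd0), h.div hd10 hd0, h5, mul_inv_cancel]
  | one =>
    intro x hx
    rwa [one_mul]
  | mul c d _ _ ihc ihd =>
    intro x hx
    rw [mul_assoc]
    exact ihc _ (ihd x hx)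

/-- first step for the product: different or equal classes -/
theorem Cls.star1 (h : Cls ℓ U q K)
    (hQ : ∀ x : L, x ≠ 0 → x ∉ HH ℓ U → ∃ (i : ℕ) (z : L), z ≠ 0 ∧ 1 + x = x ^ i * z ^ ℓ)
    (hR : ∀ x : L, x ≠ 0 → q x ∉ K → q (1 + x) = 1 ∨ q (1 + x) = q x) {a b : L}
    (ha : a ∈ Om ℓ U) (hb : b ∈ Om ℓ U) :
    1 - a * b ≠ 0 ∧ (q (1 - a * b) = 1 ∨ q (1 - a * b) = q a) := by
  obtain ⟨ha0, haH, haP⟩ := ha
  obtain ⟨hb0, hbH, hbP⟩ := hb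
  have haK : q a ∉ K := fun hh => haH ((h.mem a ha0).1 hh)
  have hbK : q b ∉ K := fun hh => hbH ((h.mem b hb0).1 hh)
  obtain ⟨h1a, -⟩ := h.qr hQ ha0 haK
  obtain ⟨h1b, -⟩ := h.qr hQ hb0 hbK
  have hqa1 : q (1 + a) = 1 := (h.one_iff _ h1a).2 haP
  have hqb1 : q (1 + b) = 1 := (h.one_iff _ h1b).2 hbP
  have hw : a * (1 + b) / (1 + a) ≠ 0 := div_ne_zero (mul_ne_zero ha0 h1b) h1a
  have hqw : q (-(a * (1 + b) / (1 + a))) = q a := by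
    rw [h.neg _ hw, h.div (mul_ne_zero ha0 h1b) h1a, h.mul _ _ ha0 h1b, hqa1, hqb1, inv_one,
      mul_one, mul_one]
  have hwK : q (-(a * (1 + b) / (1 + a))) ∉ K := by rwa [hqw]
  obtain ⟨h1w, -⟩ := h.qr hQ (neg_ne_zero.2 hw) hwK
  have he : 1 - a * b = (1 + a) * (1 + -(a * (1 + b) / (1 + a))) := by
    field_simp
    ring
  have h2 : q (1 - a * b) = q (1 + -(a * (1 + b) / (1 + a))) := by
    rw [he, h.mul _ _ h1a h1w, hqa1, one_mul]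
  refine ⟨by rw [he]; exact mul_ne_zero h1a h1w, ?_⟩
  rw [h2]
  have := hR _ (neg_ne_zero.2 hw) hwK
  rwa [hqw] at this

/-- different classes -/
theorem Cls.star2 (h : Cls ℓ U q K)
    (hQ : ∀ x : L, x ≠ 0 → x ∉ HH ℓ U → ∃ (i : ℕ) (z : L), z ≠ 0 ∧ 1 + x = x ^ i * z ^ ℓ)
    (hR : ∀ x : L, x ≠ 0 → q x ∉ K → q (1 + x) = 1 ∨ q (1 + x) = q x) {a b : L}
    (ha : a ∈ Om ℓ U) (hb : b ∈ Om ℓ U) (hab : q a ≠ q b) : q (1 - a * b) = 1 := by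
  rcases (h.star1 hQ hR ha hb).2 with h1 | h1
  · exact h1
  · rcases (h.star1 hQ hR hb ha).2 with h2 | h2
    · rwa [mul_comm b a] at h2
    · rw [mul_comm b a] at h2
      exact absurd (h1.symm.trans h2) hab

/-- the product -/
theorem Cls.star (h : Cls ℓ U q K) (hℓ : ℓ = 2 ∨ ℓ = 3) (hU : IsU U) (hC : Cst ℓ U)
    (hQ : ∀ x : L, x ≠ 0 → x ∉ HH ℓ U → ∃ (i : ℕ) (z : L), z ≠ 0 ∧ 1 + x = x ^ i * z ^ ℓ)
    (hR : ∀ x : L, x ≠ 0 → q x ∉ K → q (1 + x) = 1 ∨ q (1 + x) = q x)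
    (hS : ∀ c ∈ U, ∀ x ∈ Om ℓ U, c * x ∈ Om ℓ U) {a b : L}
    (ha : a ∈ Om ℓ U) (hb : b ∈ Om ℓ U) : q (1 - a * b) = 1 := by
  by_cases hab : q a = q b
  swap
  · exact h.star2 hQ hR ha hb hab
  obtain ⟨h1ab, hcase⟩ := h.star1 hQ hR ha hb
  rcases hcase with h1 | h1
  · exact h1
  exfalso
  obtain ⟨c, hc, hc1, hcP, hc2⟩ := hC.a
  have hc0 : c ≠ 0 := fun hh => hU.zero (hh ▸ hc)
  have hc10 : c - 1 ≠ 0 := fun hh => hU.zero (hh ▸ hc1)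
  have hC1 : q c ≠ 1 := fun hh => hcP ((h.one_iff c hc0).1 hh)
  have ha0 : a ≠ 0 := ha.1
  have hb0 : b ≠ 0 := hb.1
  have haK : q a ∉ K := fun hh => ha.2.1 ((h.mem a ha0).1 hh)
  have hcb : c * b ∈ Om ℓ U := hS c hc b hb
  have hqcb : q a ≠ q (c * b) := by
    rw [h.mul _ _ hc0 hb0, hab]
    intro hh
    exact hC1 (mul_eq_right.1 hh.symm)
  have h3 : q (1 - a * (c * b)) = 1 := h.star2 hQ hR ha hcb hqcb
  have hab0 : a * b ≠ 0 := mul_ne_zero ha0 hb0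
  have hw : (c - 1) * (a * b) / (1 - a * b) ≠ 0 := div_ne_zero (mul_ne_zero hc10 hab0) h1ab
  have hqw : q (-((c - 1) * (a * b) / (1 - a * b))) = q (c - 1) * q a := by
    rw [h.neg _ hw, h.div (mul_ne_zero hc10 hab0) h1ab, h.mul _ _ hc10 hab0, h.mul _ _ ha0 hb0,
      h1, ← hab]
    group
  have hwK : q (-((c - 1) * (a * b) / (1 - a * b))) ∉ K := by
    rw [hqw]
    exact not_mem_mul (h.U _ hc1) haK
  obtain ⟨h1w, -⟩ := h.qr hQ (neg_ne_zero.2 hw) hwK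
  have he : 1 - a * (c * b) = (1 - a * b) * (1 + -((c - 1) * (a * b) / (1 - a * b))) := by
    field_simp
    ring
  rw [he, h.mul _ _ h1ab h1w, h1] at h3
  rcases hR _ (neg_ne_zero.2 hw) hwK with h4 | h4
  · rw [h4, mul_one] at h3
    exact haK (h3 ▸ K.one_mem)
  · rw [h4, hqw] at h3
    have h5 : q a ^ 2 = (q (c - 1))⁻¹ := by
      rw [eq_inv_iff_mul_eq_one, ← h3, pow_two]
      ac_rfl
    have h6 : q a ^ 2 ∈ K := by
      rw [h5]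
      exact K.inv_mem (h.U _ hc1)
    rcases hℓ with hℓ | hℓ
    · subst hℓ
      rw [h.pow] at h5
      have h7 : q (c - 1) = 1 := inv_eq_one.1 h5.symm
      exact hc2 rfl ((h.one_iff _ hc10).1 h7)
    · subst hℓ
      exact haK (mem_of_zpow K Nat.prime_three (h.pow _) (j := 2) (by exact_mod_cast h6)
        (by norm_num))

end abs

theorem t_RIG1 : S_RIG1 := by
  intro L _ ℓ U hℓ hU hC hQ
  have h : Cls ℓ U (q ℓ : L → Q L ℓ) (HQ ℓ U hU) :=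
    { mul := fun x y hx hy => q_mul ℓ hx hy
      one_iff := fun x hx => q_eq_one ℓ hx
      pow := q_pow ℓ
      neg := fun x hx => q_neg ℓ hC.neg hx
      mem := fun x hx => q_mem ℓ U hU hx
      U := fun x hx => q_U ℓ U hU hx }
  have hR : ∀ x : L, x ≠ 0 → q ℓ x ∉ HQ ℓ U hU → q ℓ (1 + x) = 1 ∨ q ℓ (1 + x) = q ℓ x :=
    fun x hx hK => h.R hℓ hU hC hQ hx hK
  have hS := h.S hU hC hQ hR
  refine ⟨?_, hS, ?_⟩
  · intro x hx hxH
    have hK : q ℓ x ∉ HQ ℓ U hU := fun hh => hxH ((h.mem x hx).1 hh)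
    obtain ⟨h1x, -⟩ := h.qr hQ hx hK
    rcases hR x hx hK with h1 | h1
    · left
      exact (h.one_iff _ h1x).1 h1
    · right
      rw [← h.one_iff _ (div_ne_zero h1x hx), h.div h1x hx, h1, mul_inv_cancel]
  · intro a ha b hb
    have := h.star1 hQ hR ha hb
    exact (h.one_iff _ this.1).1 (h.star hℓ hU hC hQ hR hS ha hb)

end Pool.Agent.N890.KO.RIG1
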