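import Pool.Agent.N890.KO.Stm

/-!
Project KO, part SPLIT: norms from cyclic extensions descend from `L` to `k` (helper438).
-/

set_option autoImplicit false

namespace Pool.Agent.N890.KO.SPLIT

open Pool.Agent.N890.KO Polynomial IntermediateField

/-! ### The exponents -/

section chi

variable {k B : Type} [Field k] [Field B] [Algebra k B] {M : IntermediateField k B} {σ : B ≃ₐ[k] B}
  {n : ℕ}

theorem pow_mem (h : Cyc M σ n) (m : ℕ) {x : B} (hx : x ∈ M) : (σ ^ m) x ∈ M := h.norm _ x hx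

theorem mul_ap (g g' : B ≃ₐ[k] B) (x : B) : (g * g') x = g (g' x) := rfl

theorem per_mul (h : Cyc M σ n) (q : ℕ) {x : B} (hx : x ∈ M) : (σ ^ (n * q)) x = x := by
  induction q with
  | zero => rw [mul_zero, pow_zero]; rfl
  | succ q ih => rw [Nat.mul_succ, pow_add, mul_ap, h.per x hx, ih]

theorem pow_mod (h : Cyc M σ n) (m : ℕ) {x : B} (hx : x ∈ M) : (σ ^ m) x = (σ ^ (m % n)) x := by
  conv_lhs => rw [← Nat.mod_add_div m n, pow_add, mul_ap, per_mul h _ hx]

theorem uniq' (h : Cyc M σ n) {i j : ℕ} (hj : j < n) (hij : i ≤ j)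
    (he : ∀ x ∈ M, (σ ^ i) x = (σ ^ j) x) : i = j := by
  have h1 : j - i = 0 := by
    apply h.ord _ (by omega)
    intro x hx
    have h2 := he x hx
    have h3 : (σ ^ j) x = (σ ^ i) ((σ ^ (j - i)) x) := by
      rw [← mul_ap, ← pow_add, Nat.add_sub_cancel' hij]
    rw [h3] at h2
    exact ((σ ^ i).injective h2).symm
  omega

theorem uniq (h : Cyc M σ n) {i j : ℕ} (hi : i < n) (hj : j < n)
    (he : ∀ x ∈ M, (σ ^ i) x = (σ ^ j) x) : i = j := by
  rcases le_total i j with h1 | h1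
  · exact uniq' h hj h1 he
  · exact (uniq' h hi h1 fun x hx => (he x hx).symm).symm

/-- the exponent -/
noncomputable def chi (h : Cyc M σ n) (g : B ≃ₐ[k] B) : ℕ := (h.gen g).choose

theorem chi_lt (h : Cyc M σ n) (g : B ≃ₐ[k] B) : chi h g < n := (h.gen g).choose_spec.1

theorem chi_spec (h : Cyc M σ n) (g : B ≃ₐ[k] B) {x : B} (hx : x ∈ M) : g x = (σ ^ chi h g) x :=
  (h.gen g).choose_spec.2 x hx

theorem chi_eq (h : Cyc M σ n) {g : B ≃ₐ[k] B} {i : ℕ} (hi : i < n) (hg : ∀ x ∈ M, g x = (σ ^ i) x) :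
    chi h g = i :=
  uniq h (chi_lt h g) hi fun x hx => by rw [← chi_spec h g hx, hg x hx]

theorem chi_mul (h : Cyc M σ n) (g g' : B ≃ₐ[k] B) : chi h (g * g') = (chi h g + chi h g') % n := by
  apply chi_eq h (Nat.mod_lt _ h.pos)
  intro x hx
  rw [mul_ap, chi_spec h g' hx, chi_spec h g (pow_mem h _ hx), ← mul_ap, ← pow_add, pow_mod h _ hx]

/-- the carry -/
def cr (n i j : ℕ) : ℕ := if n ≤ i + j then 1 else 0

theorem chi_add (h : Cyc M σ n) (g g' : B ≃ₐ[k] B) :
    chi h g + chi h g' = chi h (g * g') + n * cr n (chi h g) (chi h g') := by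
  have h1 := chi_lt h g
  have h2 := chi_lt h g'
  rw [chi_mul]
  unfold cr
  split_ifs with h3
  · rw [Nat.mod_eq_sub_mod h3, Nat.mod_eq_of_lt (by omega)]
    omega
  · rw [Nat.mod_eq_of_lt (by omega)]
    omega

theorem chi_pow (h : Cyc M σ n) {j : ℕ} (hj : j < n) : chi h (σ ^ j) = j := chi_eq h hj fun _ _ => rfl

theorem chi_fx (h : Cyc M σ n) {τ : B ≃ₐ[k] B} (hτ : ∀ x ∈ M, τ x = x) : chi h τ = 0 :=
  chi_eq h h.pos fun x hx => by rw [hτ x hx, pow_zero]; rfl

/-- the automorphisms which fix `M` -/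
def up (M : IntermediateField k B) (τ : B ≃ₐ[k] B) (hτ : ∀ x ∈ M, τ x = x) : B ≃ₐ[M] B :=
  { τ.toRingEquiv with commutes' := fun x => hτ x x.2 }

theorem resM_up (M : IntermediateField k B) (τ : B ≃ₐ[k] B) (hτ : ∀ x ∈ M, τ x = x) :
    resM M (up M τ hτ) = τ := by
  ext x
  rfl

theorem resM_fx (M : IntermediateField k B) (τ : B ≃ₐ[M] B) : ∀ x ∈ M, resM M τ x = x :=
  fun x hx => τ.commutes ⟨x, hx⟩

end chi

/-! ### Second step: from a cochain in `B` to an element of `M` -/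

section second

variable {k B : Type} [Field k] [Field B] [Algebra k B] {M : IntermediateField k B} {σ : B ≃ₐ[k] B}
  {n : ℕ}

/-- the action of `Gal(B/M)` on `B` -/
def sB (M : IntermediateField k B) : (B ≃ₐ[M] B) →* (B ≃+* B) where
  toFun τ := τ.toRingEquiv
  map_one' := rfl
  map_mul' _ _ := rfl

theorem act_B [IsAlgClosure k B] (M : IntermediateField k B) : Act (RingHom.id B) (sB M) := by
  have h1 : Algebra.IsAlgebraic k B := IsAlgClosure.isAlgebraic
  have h2 : Algebra.IsAlgebraic M B := inferInstance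
  refine ⟨fun τ y => rfl, fun y => ⟨M⟮y⟯, ?_, ?_⟩⟩
  · exact IntermediateField.adjoin.finiteDimensional (Algebra.IsIntegral.isIntegral y)
  · intro τ hτ
    exact hτ y (IntermediateField.mem_adjoin_simple_self M y)

theorem mem_of_fixed [IsAlgClosure k B] [CharZero k] (M : IntermediateField k B) (x : B)
    (h : ∀ τ : B ≃ₐ[k] B, (∀ x ∈ M, τ x = x) → τ x = x) : x ∈ M := by
  have h1 : IsGalois k B := IsAlgClosure.isGalois k B
  have h2 : IsGalois M B := IsGalois.tower_top_intermediateField M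
  have h3 := (InfiniteGalois.mem_range_algebraMap_iff_fixed (k := M) (K := B) x).2 (by
    intro τ
    exact h (resM M τ) (resM_fx M τ))
  obtain ⟨y, hy⟩ := h3
  rw [← hy]
  exact y.2

theorem second [IsAlgClosure k B] [CharZero k] (H : S_H90) (hc : Cyc M σ n) (hn : 2 ≤ n) (b : B)
    (C : (B ≃ₐ[k] B) → B) (hC0 : ∀ g, C g ≠ 0)
    (h3 : ∀ g h, C g * g (C h) = b ^ cr n (chi hc g) (chi hc h) * C (g * h))
    (hcont : ∃ M1 : IntermediateField k B, FiniteDimensional k M1 ∧
      ∀ τ : B ≃ₐ[k] B, (∀ x ∈ M, τ x = x) → (∀ x ∈ M1, τ x = x) → C τ = 1) :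
    ∃ β₀ ∈ M, ∏ i ∈ Finset.range n, (σ ^ i) β₀ = b := by
  obtain ⟨M1, hM1, hC1⟩ := hcont
  have hfin := hc.fin
  have i1 : IsAlgClosed B := IsAlgClosure.isAlgClosed k
  have i2 : Algebra.IsAlgebraic k B := IsAlgClosure.isAlgebraic
  have i3 : Algebra.IsAlgebraic M B := inferInstance
  have i4 : IsAlgClosure M B := ⟨i1, i3⟩
  have hcr0 : ∀ i j, i + j < n → cr n i j = 0 := fun i j h => if_neg (by omega)
  -- Hilbert 90 for `M`
  obtain ⟨t, ht0, ht⟩ := H M B B (RingHom.id B) (sB M) (act_B M) (fun τ => C (resM M τ))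
    (fun τ => hC0 _) (by
      intro τ τ'
      have h4 := h3 (resM M τ) (resM M τ')
      rw [chi_fx hc (resM_fx M τ), chi_fx hc (resM_fx M τ'), hcr0 0 0 hc.pos, pow_zero, one_mul] at h4
      rw [map_mul, ← h4]
      rfl) (by
      have hle : M ≤ M ⊔ M1 := le_sup_left
      refine ⟨IntermediateField.extendScalars hle, ?_, ?_⟩
      · have h5 : FiniteDimensional k (M ⊔ M1 : IntermediateField k B) := inferInstance
        let f : (M ⊔ M1 : IntermediateField k B) ≃ₗ[k] (IntermediateField.extendScalars hle) :=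
          { toFun := fun x => ⟨x.1, x.2⟩
            invFun := fun x => ⟨x.1, x.2⟩
            map_add' := fun _ _ => rfl
            map_smul' := fun _ _ => rfl
            left_inv := fun _ => rfl
            right_inv := fun _ => rfl }
        have h6 : FiniteDimensional k (IntermediateField.extendScalars hle) := Module.Finite.equiv f
        exact FiniteDimensional.right k M (IntermediateField.extendScalars hle)
      · intro τ hτ
        apply hC1 _ (resM_fx M τ)
        intro x hx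
        exact hτ x (show x ∈ (M ⊔ M1 : IntermediateField k B) from (le_sup_right : M1 ≤ M ⊔ M1) hx))
  have ht' : ∀ τ : B ≃ₐ[k] B, (∀ x ∈ M, τ x = x) → τ t = C τ * t := by
    intro τ hτ
    have h5 := ht (up M τ hτ)
    simp only [resM_up] at h5
    exact h5
  -- the second cochain
  obtain ⟨D, hD⟩ : ∃ D : (B ≃ₐ[k] B) → B, ∀ g, D g = C g * t / g t := ⟨_, fun _ => rfl⟩
  have hgt : ∀ g : B ≃ₐ[k] B, g t ≠ 0 := fun g => (map_ne_zero g).2 ht0
  have hD3 : ∀ g h, D g * g (D h) = b ^ cr n (chi hc g) (chi hc h) * D (g * h) := by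
    intro g h
    have h5 := h3 g h
    rw [hD, hD, hD, map_div₀, map_mul, ← mul_ap g h t]
    have e1 := hgt g
    have e2 := hgt (g * h)
    field_simp
    linear_combination h5
  have hD1 : ∀ τ : B ≃ₐ[k] B, (∀ x ∈ M, τ x = x) → D τ = 1 := by
    intro τ hτ
    rw [hD, ht' τ hτ, div_self (mul_ne_zero (hC0 τ) ht0)]
  have hDr : ∀ g τ : B ≃ₐ[k] B, (∀ x ∈ M, τ x = x) → D (g * τ) = D g := by
    intro g τ hτ
    have h5 := hD3 g τ
    rw [hD1 τ hτ, map_one, mul_one, chi_fx hc hτ, hcr0 _ 0 (by rw [add_zero]; exact chi_lt hc g), pow_zero,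
      one_mul] at h5
    exact h5.symm
  have hDm : ∀ g, D g ∈ M := by
    intro g
    apply mem_of_fixed M
    intro τ hτ
    have h5 := hD3 τ g
    rw [hD1 τ hτ, one_mul, chi_fx hc hτ, hcr0 0 _ (by rw [zero_add]; exact chi_lt hc g), pow_zero, one_mul] at h5
    rw [h5]
    have e1 : τ * g = g * (g⁻¹ * τ * g) := by group
    rw [e1]
    apply hDr
    intro x hx
    have e2 : (g⁻¹ * τ * g) x = g⁻¹ (τ (g x)) := rfl
    rw [e2, hτ (g x) (hc.norm g x hx)]
    have e3 : g⁻¹ (g x) = (g⁻¹ * g) x := rfl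
    rw [e3, inv_mul_cancel]
    rfl
  have hprod : ∀ j, j < n → ∏ i ∈ Finset.range j, (σ ^ i) (D σ) = D (σ ^ j) := by
    intro j
    induction j with
    | zero =>
      intro _
      rw [Finset.prod_range_zero, pow_zero, hD1 1 (fun x _ => rfl)]
    | succ j ih =>
      intro hj
      have h5 := hD3 (σ ^ j) σ
      have h6 : chi hc σ = 1 := by
        have := chi_pow hc (show 1 < n by omega)
        rwa [pow_one] at this
      rw [chi_pow hc (show j < n by omega), h6, hcr0 j 1 hj, pow_zero, one_mul, ← pow_succ] at h5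
      rw [Finset.prod_range_succ, ih (by omega), h5]
  refine ⟨D σ, hDm σ, ?_⟩
  obtain ⟨m, rfl⟩ : ∃ m, n = m + 1 := ⟨n - 1, by omega⟩
  have h5 := hD3 (σ ^ m) σ
  have h6 : chi hc σ = 1 := by
    have := chi_pow hc (show 1 < m + 1 by omega)
    rwa [pow_one] at this
  have h7 : cr (m + 1) m 1 = 1 := if_pos le_rfl
  rw [chi_pow hc (show m < m + 1 by omega), h6, h7, pow_one, ← pow_succ, hD1 _ (fun x hx => hc.per x hx),
    mul_one] at h5
  rw [Finset.prod_range_succ, hprod m (by omega), h5]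

end second

/-! ### First step -/

section first

variable {k B Ω : Type} [Field k] [Field B] [Field Ω] [Algebra k B] {M : IntermediateField k B}
  {σ : B ≃ₐ[k] B} {n : ℕ} {e : B →+* Ω} {s : (B ≃ₐ[k] B) →* (Ω ≃+* Ω)}

theorem root_desc [IsAlgClosed B] (e : B →+* Ω) {n : ℕ} (hn : 0 < n) (c : B) (y : Ω)
    (hy : y ^ n = e c) : ∃ z : B, e z = y := by
  have h1 : (X ^ n - Polynomial.C c : B[X]).Splits := IsAlgClosed.splits _
  have h2 := h1.roots_map e
  have h3 : y ∈ ((X ^ n - Polynomial.C c : B[X]).map e).roots := by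
    rw [Polynomial.map_sub, Polynomial.map_pow, Polynomial.map_X, Polynomial.map_C,
      mem_roots (X_pow_sub_C_ne_zero hn _)]
    simp [hy]
  rw [h2, Multiset.mem_map] at h3
  obtain ⟨z, -, hz⟩ := h3
  exact ⟨z, hz⟩

theorem s_mul (g h : B ≃ₐ[k] B) (y : Ω) : s (g * h) y = s g (s h y) := by
  rw [map_mul]
  rfl

theorem dep {y : Ω} (hy : y ∈ FxM s M) {g h : B ≃ₐ[k] B} (hgh : ∀ x ∈ M, g x = h x) :
    s g y = s h y := by
  have h1 : s (h⁻¹ * g) y = y := by
    have h2 : ∀ x ∈ M, (h⁻¹ * g) x = x := by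
      intro x hx
      have e2 : (h⁻¹ * g) x = h⁻¹ (g x) := rfl
      rw [e2, hgh x hx]
      have e3 : h⁻¹ (h x) = (h⁻¹ * h) x := rfl
      rw [e3, inv_mul_cancel]
      rfl
    have h3 := hy (up M _ h2)
    have h4 : (s.comp (resM M)) (up M _ h2) = s (h⁻¹ * g) := by
      rw [MonoidHom.comp_apply, resM_up]
    rw [h4] at h3
    exact h3
  have h5 : g = h * (h⁻¹ * g) := by group
  conv_lhs => rw [h5, s_mul, h1]

/-- the finite products -/
def Bj (s : (B ≃ₐ[k] B) →* (Ω ≃+* Ω)) (σ : B ≃ₐ[k] B) (β : Ω) (j : ℕ) : Ω :=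
  ∏ i ∈ Finset.range j, s (σ ^ i) β

theorem Bj_add (β : Ω) (i j : ℕ) : Bj s σ β i * s (σ ^ i) (Bj s σ β j) = Bj s σ β (i + j) := by
  unfold Bj
  rw [map_prod, Finset.prod_range_add]
  congr 1
  refine Finset.prod_congr rfl fun l _ => ?_
  rw [← s_mul, ← pow_add]

theorem Bj_n (hc : Cyc M σ n) {β : Ω} (hβ : β ∈ FxM s M) (i : ℕ) :
    Bj s σ β (n + i) = Bj s σ β n * Bj s σ β i := by
  unfold Bj
  rw [Finset.prod_range_add]
  congr 1
  refine Finset.prod_congr rfl fun l _ => ?_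
  apply dep hβ
  intro x hx
  rw [pow_add, mul_ap, hc.per _ (pow_mem hc l hx)]

theorem Bj_s (hc : Cyc M σ n) {β : Ω} (hβ : β ∈ FxM s M) (g : B ≃ₐ[k] B) (j : ℕ) :
    s g (Bj s σ β j) = s (σ ^ chi hc g) (Bj s σ β j) := by
  unfold Bj
  rw [map_prod, map_prod]
  refine Finset.prod_congr rfl fun l _ => ?_
  rw [← s_mul, ← s_mul]
  apply dep hβ
  intro x hx
  rw [mul_ap, mul_ap, chi_spec hc g (pow_mem hc l hx)]

theorem Bj_mul (hc : Cyc M σ n) {β : Ω} (hβ : β ∈ FxM s M) (g h : B ≃ₐ[k] B) :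
    Bj s σ β (chi hc g) * s g (Bj s σ β (chi hc h)) =
      Bj s σ β n ^ cr n (chi hc g) (chi hc h) * Bj s σ β (chi hc (g * h)) := by
  rw [Bj_s hc hβ, Bj_add, chi_add]
  unfold cr
  split_ifs with h1
  · rw [mul_one, add_comm, Bj_n hc hβ, pow_one]
  · rw [mul_zero, add_zero, pow_zero, one_mul]

end first

theorem t_SPLIT : S_H90 → S_SPLIT := by
  intro H k B Ω _ _ _ _ _ _ _ e s hA M σ n hc b β hb hβ hprod
  have i1 : IsAlgClosed B := IsAlgClosure.isAlgClosed k
  rcases Nat.lt_or_ge n 2 with hn | hn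
  · have h1 : n = 1 := by have := hc.pos; omega
    subst h1
    refine ⟨algebraMap k B b, M.algebraMap_mem b, ?_⟩
    rw [Finset.prod_range_one]
    exact AlgEquiv.commutes _ _
  · have hb' : algebraMap k B b ≠ 0 := (_root_.map_ne_zero _).2 hb
    have hBn : Bj s σ β n = e (algebraMap k B b) := hprod
    have heb : e (algebraMap k B b) ≠ 0 := (_root_.map_ne_zero e).2 hb'
    have hβ0 : β ≠ 0 := by
      rintro rfl
      apply heb
      rw [← hprod]
      exact Finset.prod_eq_zero (Finset.mem_range.2 hc.pos) (map_zero _)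
    have hBj0 : ∀ j, Bj s σ β j ≠ 0 := fun j =>
      Finset.prod_ne_zero_iff.2 fun i _ => (map_ne_zero_iff _ (s (σ ^ i)).injective).2 hβ0
    have hsb : ∀ g, s g (e (algebraMap k B b)) = e (algebraMap k B b) := by
      intro g
      rw [hA.eq, AlgEquiv.commutes]
    -- the first cocycle
    obtain ⟨c, hcd⟩ : ∃ c : (B ≃ₐ[k] B) → Ω, ∀ g, c g = e (algebraMap k B b) ^ chi hc g /
      (Bj s σ β (chi hc g)) ^ n := ⟨_, fun _ => rfl⟩
    obtain ⟨Θ, hΘ0, hΘ⟩ := H k B Ω e s hA c (fun g => by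
      rw [hcd]
      exact div_ne_zero (pow_ne_zero _ heb) (pow_ne_zero _ (hBj0 _))) (by
      intro g h
      have h1 := Bj_mul hc hβ g h
      rw [hBn] at h1
      rw [hcd, hcd, hcd, map_div₀, map_pow, map_pow, hsb, div_mul_div_comm, ← mul_pow, h1, ← pow_add,
        chi_add, pow_add, mul_pow, ← pow_mul, mul_comm n]
      rw [mul_comm (e (algebraMap k B b) ^ chi hc (g * h)), mul_div_mul_left _ _ (pow_ne_zero _ heb)])
      ⟨M, hc.fin, by
        intro τ hτ
        rw [hcd, chi_fx hc hτ]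
        simp [Bj]⟩
    obtain ⟨th, hth⟩ := IsAlgClosed.exists_pow_nat_eq Θ hc.pos
    have hth0 : th ≠ 0 := by
      rintro rfl
      apply hΘ0
      rw [← hth, zero_pow hc.pos.ne']
    have hsth : ∀ g, s g th ≠ 0 := fun g => (map_ne_zero_iff _ (s g).injective).2 hth0
    -- the second cochain
    have hF : ∀ g, ∃ z : B, e z = Bj s σ β (chi hc g) * s g th / th := by
      intro g
      apply root_desc e hc.pos (algebraMap k B b ^ chi hc g)
      have h1 := hΘ g
      rw [← hth, map_pow, hcd] at h1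
      rw [div_pow, mul_pow, h1, map_pow]
      have h2 := hBj0 (chi hc g)
      field_simp
    choose C hC using hF
    refine second H hc hn (algebraMap k B b) C ?_ ?_ ?_
    · intro g h0
      have h1 := hC g
      rw [h0, map_zero] at h1
      exact div_ne_zero (mul_ne_zero (hBj0 _) (hsth g)) hth0 h1.symm
    · intro g h
      apply e.injective
      have h1 := Bj_mul hc hβ g h
      rw [hBn] at h1
      rw [map_mul, ← hA.eq, hC, hC, map_mul, map_pow, hC, map_div₀, map_mul, s_mul]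
      have h2 := hsth g
      field_simp
      linear_combination (s g (s h th)) * h1
    · obtain ⟨M1, hM1, h1⟩ := hA.cont th
      refine ⟨M1, hM1, ?_⟩
      intro τ hτ hτ1
      apply e.injective
      rw [hC, h1 τ hτ1, chi_fx hc hτ, map_one]
      simp [Bj, hth0]

end Pool.Agent.N890.KO.SPLIT
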