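import Pool.Agent.N890.KO.Stm

/-!
Project KO, piece TAME: the norms from the tamely ramified extension `k(a^(1/ℓ))`.
-/

set_option autoImplicit false

namespace Pool.Agent.N890.KO.TAME

open Pool.Agent.N890.KO Polynomial IntermediateField

section val

variable {k B : Type} [Field k] [Field B] [Algebra k B] {v : AbsoluteValue B ℝ} {p : ℕ} {π : k}

lemma vpi_pos (hG : Good v p π) : 0 < v (algebraMap k B π) :=
  v.pos ((map_ne_zero (algebraMap k B)).2 hG.pi0)

lemma zinj (hG : Good v p π) {m n : ℤ}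
    (h : v (algebraMap k B π) ^ m = v (algebraMap k B π) ^ n) : m = n :=
  zpow_right_injective₀ (vpi_pos hG) hG.pi1.ne h

lemma val_ne (hG : Good v p π) {ℓ : ℕ} (hℓ : ℓ.Prime) {a : k} {n : ℤ}
    (ha : v (algebraMap k B a) = v (algebraMap k B π) ^ n) (hn : ¬ (ℓ : ℤ) ∣ n) {α : B}
    (hα : α ^ ℓ = algebraMap k B a) {c d : k} (hc : c ≠ 0) (hd : d ≠ 0) {i j : ℕ} (hi : i < ℓ)
    (hj : j < ℓ) (hij : i ≠ j) :
    v (algebraMap k B c * α ^ i) ≠ v (algebraMap k B d * α ^ j) := by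
  intro h
  obtain ⟨m, hm⟩ := hG.disc c hc
  obtain ⟨m', hm'⟩ := hG.disc d hd
  have hva : v α ^ ℓ = v (algebraMap k B π) ^ n := by rw [← map_pow, hα, ha]
  have key : ∀ (e : k) (q : ℤ) (t : ℕ), v (algebraMap k B e) = v (algebraMap k B π) ^ q →
      v (algebraMap k B e * α ^ t) ^ ℓ = v (algebraMap k B π) ^ (q * ℓ + n * t) := by
    intro e q t he
    rw [map_mul, mul_pow, map_pow, he, ← pow_mul, mul_comm t ℓ, pow_mul, hva,
      zpow_add₀ (vpi_pos hG).ne', zpow_mul, zpow_mul, zpow_natCast, zpow_natCast]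
  have h2 : v (algebraMap k B c * α ^ i) ^ ℓ = v (algebraMap k B d * α ^ j) ^ ℓ := by rw [h]
  rw [key c m i hm, key d m' j hm'] at h2
  have h3 := zinj hG h2
  have h4 : (ℓ : ℤ) ∣ n * ((i : ℤ) - j) := ⟨m' - m, by linarith⟩
  rcases (Nat.prime_iff_prime_int.1 hℓ).dvd_or_dvd h4 with h5 | h5
  · exact hn h5
  · apply hij
    have h6 : ((i : ℤ) - j) = 0 := by
      apply Int.eq_zero_of_abs_lt_dvd h5
      rw [abs_lt]
      constructor <;> omega
    omega

lemma npow (hG : Good v p π) {ℓ : ℕ} {a : k} {n : ℤ}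
    (ha : v (algebraMap k B a) = v (algebraMap k B π) ^ n) (hn : ¬ (ℓ : ℤ) ∣ n) (ha0 : a ≠ 0)
    (hl : ℓ ≠ 0) (b : k) : b ^ ℓ ≠ a := by
  rintro rfl
  have hb : b ≠ 0 := by
    rintro rfl
    exact ha0 (zero_pow hl)
  obtain ⟨m, hm⟩ := hG.disc b hb
  rw [map_pow, map_pow, hm, ← zpow_natCast, ← zpow_mul] at ha
  have := zinj hG ha
  exact hn ⟨m, by rw [← this]; ring⟩

lemma sum_lt (hna : ∀ x y, v (x + y) ≤ max (v x) (v y)) {r : ℝ} (hr : 0 < r) (s : Finset ℕ)
    (f : ℕ → B) (hf : ∀ i ∈ s, v (f i) < r) : v (∑ i ∈ s, f i) < r := by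
  classical
  induction s using Finset.induction_on with
  | empty => simpa using hr
  | insert i s hi ih =>
    rw [Finset.sum_insert hi]
    refine lt_of_le_of_lt (hna _ _) (max_lt (hf i (Finset.mem_insert_self _ _)) (ih ?_))
    intro j hj
    exact hf j (Finset.mem_insert_of_mem hj)

lemma dominant (hna : ∀ x y, v (x + y) ≤ max (v x) (v y)) (s : Finset ℕ) (f : ℕ → B)
    (hs : ∃ i ∈ s, f i ≠ 0)
    (hd : ∀ i ∈ s, ∀ j ∈ s, i ≠ j → f i ≠ 0 → f j ≠ 0 → v (f i) ≠ v (f j)) :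
    ∃ i ∈ s, f i ≠ 0 ∧ v (∑ j ∈ s, f j - f i) < v (f i) := by
  classical
  obtain ⟨i₁, hi₁, hf₁⟩ := hs
  obtain ⟨i, hi, hmax⟩ := Finset.exists_max_image s (fun i => v (f i)) ⟨i₁, hi₁⟩
  have hpos : 0 < v (f i) := lt_of_lt_of_le (v.pos hf₁) (hmax i₁ hi₁)
  have hne : f i ≠ 0 := by
    intro h
    rw [h, map_zero] at hpos
    exact lt_irrefl _ hpos
  refine ⟨i, hi, hne, ?_⟩
  rw [← Finset.add_sum_erase s f hi, add_sub_cancel_left]
  apply sum_lt hna hpos
  intro j hj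
  by_cases hj0 : f j = 0
  · rw [hj0, map_zero]
    exact hpos
  · exact lt_of_le_of_ne (hmax j (Finset.mem_of_mem_erase hj))
      (hd j (Finset.mem_of_mem_erase hj) i hi (Finset.ne_of_mem_erase hj) hj0 hne)

lemma prod_near (hna : ∀ x y, v (x + y) ≤ max (v x) (v y)) (n : ℕ) (f : ℕ → B)
    (hf : ∀ i, v (f i - 1) < 1) : v (∏ i ∈ Finset.range n, f i - 1) < 1 := by
  induction n with
  | zero => simp
  | succ n ih =>
    rw [Finset.prod_range_succ]
    have e : (∏ i ∈ Finset.range n, f i) * f n - 1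
        = (∏ i ∈ Finset.range n, f i - 1) * (f n - 1)
          + ((∏ i ∈ Finset.range n, f i - 1) + (f n - 1)) := by ring
    rw [e]
    refine lt_of_le_of_lt (hna _ _) (max_lt ?_ (lt_of_le_of_lt (hna _ _) (max_lt ih (hf n))))
    rw [map_mul]
    exact mul_lt_one_of_nonneg_of_lt_one_left (v.nonneg _) ih (hf n).le

end val

section gal

variable {k B : Type} [Field k] [Field B] [Algebra k B]

lemma mem_poly [IsAlgClosure k B] {α x : B} (hx : x ∈ k⟮α⟯) : ∃ P : k[X], aeval α P = x := by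
  have halg : IsAlgebraic k α := (IsAlgClosure.isAlgebraic : Algebra.IsAlgebraic k B).isAlgebraic α
  have h1 : x ∈ (k⟮α⟯).toSubalgebra := hx
  rw [adjoin_simple_toSubalgebra_of_isAlgebraic halg, Algebra.adjoin_singleton_eq_range_aeval] at h1
  obtain ⟨P, hP⟩ := h1
  exact ⟨P, hP⟩

lemma poly_mem {α γ : B} (h : γ ∈ k⟮α⟯) (P : k[X]) : aeval γ P ∈ k⟮α⟯ := by
  rw [aeval_eq_sum_range]
  exact sum_mem fun i _ => IntermediateField.smul_mem _ (pow_mem h i)

lemma pow_sigma {σ : B ≃ₐ[k] B} {α : B} {ζ : k} (h : σ α = algebraMap k B ζ * α) (i : ℕ) :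
    (σ ^ i) α = algebraMap k B (ζ ^ i) * α := by
  induction i with
  | zero => simp
  | succ i ih =>
    rw [pow_succ, AlgEquiv.mul_apply, h, map_mul, AlgEquiv.commutes, ih, pow_succ, map_mul]
    ring

lemma eq_on [IsAlgClosure k B] {α : B} {σ τ : B ≃ₐ[k] B} (h : τ α = σ α) {x : B}
    (hx : x ∈ k⟮α⟯) : τ x = σ x := by
  obtain ⟨P, rfl⟩ := mem_poly hx
  have h1 : ∀ ρ : B ≃ₐ[k] B, ρ (aeval α P) = aeval (ρ α) P := by
    intro ρ
    exact (Polynomial.aeval_algHom_apply ρ α P).symm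
  rw [h1, h1, h]

lemma cyc [IsAlgClosure k B] {ℓ : ℕ} (hℓ : ℓ.Prime) {ζ : k} (hz : IsPrimitiveRoot ζ ℓ) {α : B}
    {a : k} (ha0 : a ≠ 0) (hα : α ^ ℓ = algebraMap k B a) {σ : B ≃ₐ[k] B}
    (h : σ α = algebraMap k B ζ * α) : Cyc k⟮α⟯ σ ℓ := by
  have halg : IsAlgebraic k α := (IsAlgClosure.isAlgebraic : Algebra.IsAlgebraic k B).isAlgebraic α
  have hα0 : α ≠ 0 := by
    rintro rfl
    rw [zero_pow hℓ.ne_zero] at hα
    exact (map_ne_zero (algebraMap k B)).2 ha0 hα.symm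
  have hmem : α ∈ k⟮α⟯ := mem_adjoin_simple_self k α
  have hgen : ∀ τ : B ≃ₐ[k] B, ∃ i < ℓ, τ α = (σ ^ i) α := by
    intro τ
    have hz' : IsPrimitiveRoot (algebraMap k B ζ) ℓ :=
      hz.map_of_injective (algebraMap k B).injective
    have h1 : (τ α / α) ^ ℓ = 1 := by
      rw [div_pow, ← map_pow, hα, AlgEquiv.commutes]
      exact div_self ((map_ne_zero (algebraMap k B)).2 ha0)
    have : NeZero ℓ := ⟨hℓ.ne_zero⟩
    obtain ⟨i, hi, hi2⟩ := hz'.eq_pow_of_pow_eq_one h1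
    refine ⟨i, hi, ?_⟩
    rw [pow_sigma h, map_pow, hi2, div_mul_cancel₀ _ hα0]
  refine ⟨adjoin.finiteDimensional halg.isIntegral, hℓ.pos, ?_, ?_, ?_, ?_⟩
  · intro τ x hx
    obtain ⟨i, -, hi2⟩ := hgen τ
    obtain ⟨P, rfl⟩ := mem_poly hx
    have h1 : τ (aeval α P) = aeval (τ α) P := (Polynomial.aeval_algHom_apply τ α P).symm
    rw [h1, hi2, pow_sigma h]
    exact poly_mem (mul_mem (IntermediateField.algebraMap_mem _ _) hmem) P
  · intro x hx
    have h1 : (σ ^ ℓ) α = (1 : B ≃ₐ[k] B) α := by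
      rw [pow_sigma h, hz.pow_eq_one]
      simp
    have := eq_on h1 hx
    rw [this]
    rfl
  · intro i hi h1
    have h2 := h1 α hmem
    rw [pow_sigma h] at h2
    have h3 : algebraMap k B (ζ ^ i) = 1 := by
      have : algebraMap k B (ζ ^ i) * α = 1 * α := by rw [h2, one_mul]
      exact mul_right_cancel₀ hα0 this
    have h4 : ζ ^ i = 1 := (algebraMap k B).injective (by rw [h3, map_one])
    exact Nat.eq_zero_of_dvd_of_lt ((hz.pow_eq_one_iff_dvd i).1 h4) hi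
  · intro τ
    obtain ⟨i, hi, hi2⟩ := hgen τ
    exact ⟨i, hi, fun x hx => eq_on hi2 hx⟩

lemma norm_alpha {ℓ : ℕ} (hℓ : ℓ.Prime) {ζ : k} (hz1 : ζ ^ ℓ = 1) (hz2 : ζ ≠ 1) {α : B}
    {a : k} (hα : α ^ ℓ = algebraMap k B a) {σ : B ≃ₐ[k] B}
    (h : σ α = algebraMap k B ζ * α) :
    ∏ i ∈ Finset.range ℓ, (σ ^ i) α = algebraMap k B ((-1) ^ (ℓ - 1) * a) := by
  simp only [pow_sigma h]
  rw [Finset.prod_mul_distrib, Finset.prod_const, Finset.card_range, hα, ← map_prod,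
    Finset.prod_pow_eq_pow_sum, ← map_mul]
  congr 2
  rcases hℓ.eq_two_or_odd' with h2 | ⟨m, hm⟩
  · subst h2
    have : ∑ i ∈ Finset.range 2, i = 1 := by decide
    rw [this, pow_one]
    have h3 : (ζ - 1) * (ζ + 1) = 0 := by ring_nf; rw [hz1]; ring
    rcases mul_eq_zero.1 h3 with h4 | h4
    · exact absurd (sub_eq_zero.1 h4) hz2
    · rw [eq_neg_of_add_eq_zero_left h4]
      norm_num
  · have h3 : ∑ i ∈ Finset.range ℓ, i = ℓ * m := by
      rw [Finset.sum_range_id, hm, Nat.add_sub_cancel]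
      have : (2 * m + 1) * (2 * m) = (2 * m + 1) * m * 2 := by ring
      rw [this, Nat.mul_div_cancel _ (by norm_num)]
    rw [h3, pow_mul, hz1, one_pow]
    have h4 : ℓ - 1 = 2 * m := by omega
    rw [h4, pow_mul]
    norm_num

/-- the norm of an element of the cyclic extension is in the ground field -/
lemma norm_mem [CharZero k] [IsAlgClosure k B] {M : IntermediateField k B} {σ : B ≃ₐ[k] B}
    {ℓ : ℕ} (hC : Cyc M σ ℓ) {w : B} (hw : w ∈ M) (hw0 : w ≠ 0) :
    ∃ x : k, algebraMap k B x = ∏ i ∈ Finset.range ℓ, (σ ^ i) w := by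
  have hs : σ (∏ i ∈ Finset.range ℓ, (σ ^ i) w) = ∏ i ∈ Finset.range ℓ, (σ ^ i) w := by
    rw [map_prod]
    have h1 : ∀ i, σ ((σ ^ i) w) = (σ ^ (i + 1)) w := by
      intro i
      rw [pow_succ', AlgEquiv.mul_apply]
    simp only [h1]
    have h2 := Finset.prod_range_succ (fun i => (σ ^ i) w) ℓ
    have h3 := Finset.prod_range_succ' (fun i => (σ ^ i) w) ℓ
    rw [h2] at h3
    simp only [hC.per w hw, pow_zero, AlgEquiv.one_apply] at h3
    exact (mul_right_cancel₀ hw0 h3).symm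
  have hs2 : ∀ j : ℕ, (σ ^ j) (∏ i ∈ Finset.range ℓ, (σ ^ i) w)
      = ∏ i ∈ Finset.range ℓ, (σ ^ i) w := by
    intro j
    induction j with
    | zero => simp
    | succ j ih => rw [pow_succ, AlgEquiv.mul_apply, hs, ih]
  have hNm : (∏ i ∈ Finset.range ℓ, (σ ^ i) w) ∈ M := prod_mem fun i _ => hC.norm _ _ hw
  have := (InfiniteGalois.mem_range_algebraMap_iff_fixed (k := k) (K := B)
    (∏ i ∈ Finset.range ℓ, (σ ^ i) w)).2 (by
      intro τ
      obtain ⟨j, -, hj⟩ := hC.gen τ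
      exact (hj _ hNm).trans (hs2 j))
  exact this

end gal

theorem t_TAME : S_POW → S_TAME := by
  intro hPOW k B _ _ _ _ _ v p π hG ℓ hℓ hℓp ζ hz1 hz2 a n ha hn α hα
  have ha0 : a ≠ 0 := by
    rintro rfl
    rw [map_zero, map_zero] at ha
    exact (zpow_pos (vpi_pos hG) n).ne ha
  have hα0 : α ≠ 0 := by
    rintro rfl
    rw [zero_pow hℓ.ne_zero] at hα
    exact (map_ne_zero (algebraMap k B)).2 ha0 hα.symm
  have hirr : Irreducible (X ^ ℓ - C a : k[X]) :=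
    X_pow_sub_C_irreducible_of_prime hℓ (npow hG ha hn ha0 hℓ.ne_zero)
  have hmin : ∀ γ : B, γ ^ ℓ = algebraMap k B a → minpoly k γ = X ^ ℓ - C a := by
    intro γ hγ
    refine (minpoly.eq_of_irreducible_of_monic hirr ?_ (monic_X_pow_sub_C a hℓ.ne_zero)).symm
    simp [hγ]
  have hprim : IsPrimitiveRoot ζ ℓ := by
    have : Fact ℓ.Prime := ⟨hℓ⟩
    have := IsPrimitiveRoot.orderOf ζ
    rwa [orderOf_eq_prime hz1 hz2] at this
  have hconj : IsConjRoot k (algebraMap k B ζ * α) α := by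
    rw [isConjRoot_def, hmin α hα, hmin]
    rw [mul_pow, ← map_pow, hz1, map_one, one_mul, hα]
  obtain ⟨σ, hσ⟩ := hconj.exists_algEquiv
  have hC := cyc hℓ hprim ha0 hα hσ
  refine ⟨σ, hC, hσ, ?_⟩
  intro β hβ hβ0
  obtain ⟨P, hP⟩ := mem_poly hβ
  set Q : k[X] := P %ₘ (X ^ ℓ - C a) with hQ
  have hQβ : aeval α Q = β := by
    have h1 := congrArg (aeval α) (modByMonic_add_div P (X ^ ℓ - C a))
    rw [map_add, map_mul] at h1
    have h2 : aeval α (X ^ ℓ - C a) = 0 := by simp [hα]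
    rw [h2, zero_mul, add_zero] at h1
    rw [hQ, h1, hP]
  have hQd : Q.natDegree < ℓ := by
    have h1 := natDegree_modByMonic_lt P (monic_X_pow_sub_C a hℓ.ne_zero) (by
      intro h2
      have := natDegree_X_pow_sub_C (n := ℓ) (r := a)
      rw [h2, natDegree_one] at this
      exact hℓ.ne_zero this.symm)
    rwa [natDegree_X_pow_sub_C] at h1
  have hsum : β = ∑ i ∈ Finset.range ℓ, algebraMap k B (Q.coeff i) * α ^ i := by
    rw [← hQβ, aeval_eq_sum_range' hQd]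
    exact Finset.sum_congr rfl fun i _ => by rw [Algebra.smul_def]
  have hcoef : ∀ i, algebraMap k B (Q.coeff i) * α ^ i ≠ 0 → Q.coeff i ≠ 0 := by
    intro i hi h0
    apply hi
    rw [h0, map_zero, zero_mul]
  obtain ⟨i, hi, hfi, hlt⟩ := dominant hG.na (Finset.range ℓ)
    (fun i => algebraMap k B (Q.coeff i) * α ^ i) (by
      by_contra hcon
      push Not at hcon
      apply hβ0
      rw [hsum]
      exact Finset.sum_eq_zero hcon) (by
      intro i hi j hj hij h1 h2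
      exact val_ne hG hℓ ha hn hα (hcoef i h1) (hcoef j h2) (Finset.mem_range.1 hi)
        (Finset.mem_range.1 hj) hij)
  rw [← hsum] at hlt
  set c : k := Q.coeff i with hc
  have hc0 : c ≠ 0 := hcoef i hfi
  set w : B := β / (algebraMap k B c * α ^ i) with hw
  have hβw : β = algebraMap k B c * α ^ i * w := by
    rw [hw, mul_div_cancel₀ _ hfi]
  have hw0 : w ≠ 0 := div_ne_zero hβ0 hfi
  have hwM : w ∈ k⟮α⟯ := div_mem hβ (mul_mem (IntermediateField.algebraMap_mem _ _)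
    (pow_mem (mem_adjoin_simple_self k α) i))
  have hw1 : v (w - 1) < 1 := by
    have h1 : w - 1 = (β - algebraMap k B c * α ^ i) / (algebraMap k B c * α ^ i) := by
      rw [hw, sub_div, div_self hfi]
    rw [h1, map_div₀, div_lt_one (v.pos hfi)]
    exact hlt
  obtain ⟨x, hx⟩ := norm_mem hC hwM hw0
  have hx1 : v (algebraMap k B (x - 1)) < 1 := by
    rw [map_sub, map_one, hx]
    apply prod_near hG.na
    intro j
    have h1 : (σ ^ j) w - 1 = (σ ^ j) (w - 1) := by rw [map_sub, map_one]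
    rw [h1, hG.inv]
    exact hw1
  obtain ⟨z, hz, hz'⟩ := hPOW k B v p π hG ℓ (by
    rw [Nat.prime_dvd_prime_iff_eq hG.prime hℓ]
    exact fun h => hℓp h.symm) x hx1
  have hz0 : z ≠ 0 := by
    rintro rfl
    rw [zero_pow hℓ.ne_zero] at hz
    rw [← hz, map_zero] at hx
    have := hx.symm
    rw [Finset.prod_eq_zero_iff] at this
    obtain ⟨j, -, hj⟩ := this
    exact hw0 ((map_eq_zero_iff _ (σ ^ j).injective).1 hj)
  refine ⟨i, c * z, mul_ne_zero hc0 hz0, ?_⟩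
  have h1 : ∀ j, (σ ^ j) β = algebraMap k B c * ((σ ^ j) α) ^ i * (σ ^ j) w := by
    intro j
    rw [hβw, map_mul, map_mul, map_pow, AlgEquiv.commutes]
  simp only [h1]
  rw [Finset.prod_mul_distrib, Finset.prod_mul_distrib, Finset.prod_const, Finset.card_range,
    Finset.prod_pow, norm_alpha hℓ hz1 hz2 hα hσ, ← hx, ← hz]
  simp only [map_mul, map_pow]
  ring

end Pool.Agent.N890.KO.TAME
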