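import Pool.Agent.N890.KO.Stm

/-!
Project KO (helper890), leaf UNR (helper247): the unramified extension of degree `p`, by roots of
unity of order `q ^ p - 1`.
-/

set_option autoImplicit false

namespace Pool.Agent.N890.KO.UNR

open Polynomial IntermediateField Pool.Agent.N890.KO

/-! ### the residue field -/

/-- the valuation ring -/
def OO {B : Type} [Field B] (v : AbsoluteValue B ℝ) (na : ∀ x y, v (x + y) ≤ max (v x) (v y)) :
    ValuationSubring B where
  carrier := {x | v x ≤ 1}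
  mul_mem' := by
    intro a b ha hb
    have ha' : v a ≤ 1 := ha
    have hb' : v b ≤ 1 := hb
    change v (a * b) ≤ 1
    rw [map_mul]
    exact mul_le_one₀ ha' (v.nonneg _) hb'
  one_mem' := by
    change v 1 ≤ 1
    rw [map_one]
  add_mem' := by
    intro a b ha hb
    exact (na a b).trans (max_le ha hb)
  zero_mem' := by
    change v 0 ≤ 1
    rw [map_zero]; exact zero_le_one
  neg_mem' := by
    intro a ha
    have ha' : v a ≤ 1 := ha
    change v (-a) ≤ 1
    rw [v.map_neg]; exact ha'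
  mem_or_inv_mem' := by
    intro x
    by_cases h : v x ≤ 1
    · exact Or.inl h
    · right
      change v x⁻¹ ≤ 1
      rw [map_inv₀]
      exact inv_le_one_of_one_le₀ (not_le.1 h).le

/-- residues: a field `κ` and a map which is a ring homomorphism on the valuation ring -/
structure Rs {B : Type} [Field B] (v : AbsoluteValue B ℝ) (κ : Type) [Field κ] (r : B → κ) :
    Prop where
  one : r 1 = 1
  zero : r 0 = 0
  add : ∀ x y, v x ≤ 1 → v y ≤ 1 → r (x + y) = r x + r y
  mul : ∀ x y, v x ≤ 1 → v y ≤ 1 → r (x * y) = r x * r y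
  ker : ∀ x, v x ≤ 1 → (r x = 0 ↔ v x < 1)

theorem exists_rs {B : Type} [Field B] (v : AbsoluteValue B ℝ)
    (na : ∀ x y, v (x + y) ≤ max (v x) (v y)) :
    ∃ (κ : Type) (_ : Field κ) (r : B → κ), Rs v κ r := by
  classical
  let O := OO v na
  have hO : ∀ x, x ∈ O ↔ v x ≤ 1 := fun x => Iff.rfl
  refine ⟨IsLocalRing.ResidueField O, inferInstance,
    fun x => if h : x ∈ O then IsLocalRing.residue O ⟨x, h⟩ else 0, ?_, ?_, ?_, ?_, ?_⟩
  · rw [dif_pos O.one_mem]
    exact map_one _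
  · rw [dif_pos O.zero_mem]
    exact map_zero _
  · intro x y hx hy
    rw [dif_pos ((hO x).2 hx), dif_pos ((hO y).2 hy),
      dif_pos (O.add_mem _ _ ((hO x).2 hx) ((hO y).2 hy)), ← map_add]
    rfl
  · intro x y hx hy
    rw [dif_pos ((hO x).2 hx), dif_pos ((hO y).2 hy),
      dif_pos (O.mul_mem _ _ ((hO x).2 hx) ((hO y).2 hy)), ← map_mul]
    rfl
  · intro x hx
    rw [dif_pos ((hO x).2 hx), IsLocalRing.residue_eq_zero_iff, IsLocalRing.mem_maximalIdeal,
      mem_nonunits_iff]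
    constructor
    · intro h
      refine lt_of_le_of_ne hx fun h1 => h ?_
      have hx0 : x ≠ 0 := by
        rintro rfl
        rw [map_zero] at h1
        exact zero_ne_one h1
      have h2 : x⁻¹ ∈ O := by
        rw [hO, map_inv₀, h1, inv_one]
      refine IsUnit.of_mul_eq_one ⟨x⁻¹, h2⟩ ?_
      exact Subtype.ext (mul_inv_cancel₀ hx0)
    · intro h hu
      obtain ⟨y, hy⟩ := hu.exists_right_inv
      have h1 : x * (y : B) = 1 := congrArg Subtype.val hy
      have h2 : v x * v (y : B) = 1 := by rw [← map_mul, h1, map_one]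
      have h3 : v (y : B) ≤ 1 := (hO y).1 y.2
      nlinarith [v.nonneg x, v.nonneg (y : B)]

section rs

variable {B : Type} [Field B] {v : AbsoluteValue B ℝ} {κ : Type} [Field κ] {r : B → κ}

theorem Rs.pow (h : Rs v κ r) (x : B) (hx : v x ≤ 1) (n : ℕ) : r (x ^ n) = r x ^ n := by
  induction n with
  | zero => rw [pow_zero, pow_zero, h.one]
  | succ n ih =>
    rw [pow_succ, h.mul _ _ (by rw [map_pow]; exact pow_le_one₀ (v.nonneg _) hx) hx, ih, pow_succ]

theorem sum_le (na : ∀ x y, v (x + y) ≤ max (v x) (v y)) {ι : Type} (s : Finset ι) (f : ι → B)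
    (hf : ∀ i ∈ s, v (f i) ≤ 1) : v (∑ i ∈ s, f i) ≤ 1 := by
  classical
  induction s using Finset.induction_on with
  | empty => rw [Finset.sum_empty, map_zero]; exact zero_le_one
  | insert a s ha ih =>
    rw [Finset.sum_insert ha]
    exact (na _ _).trans (max_le (hf a (Finset.mem_insert_self _ _))
      (ih fun i hi => hf i (Finset.mem_insert_of_mem hi)))

theorem Rs.sum (h : Rs v κ r) (na : ∀ x y, v (x + y) ≤ max (v x) (v y)) {ι : Type}
    (s : Finset ι) (f : ι → B) (hf : ∀ i ∈ s, v (f i) ≤ 1) :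
    r (∑ i ∈ s, f i) = ∑ i ∈ s, r (f i) := by
  classical
  induction s using Finset.induction_on with
  | empty => rw [Finset.sum_empty, Finset.sum_empty, h.zero]
  | insert a s ha ih =>
    have h1 : ∀ i ∈ s, v (f i) ≤ 1 := fun i hi => hf i (Finset.mem_insert_of_mem hi)
    rw [Finset.sum_insert ha, Finset.sum_insert ha,
      h.add _ _ (hf a (Finset.mem_insert_self _ _)) (sum_le na s f h1), ih h1]

theorem Rs.neg (h : Rs v κ r) (x : B) (hx : v x ≤ 1) : r (-x) = -r x := by
  have h1 := h.add x (-x) hx (by rw [v.map_neg]; exact hx)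
  rw [add_neg_cancel, h.zero] at h1
  exact (neg_eq_of_add_eq_zero_right h1.symm).symm

theorem Rs.sub (h : Rs v κ r) (x y : B) (hx : v x ≤ 1) (hy : v y ≤ 1) :
    r (x - y) = r x - r y := by
  rw [sub_eq_add_neg, h.add x (-y) hx (by rw [v.map_neg]; exact hy), h.neg y hy, sub_eq_add_neg]

theorem Rs.eq_iff (h : Rs v κ r) (na : ∀ x y, v (x + y) ≤ max (v x) (v y)) (x y : B)
    (hx : v x ≤ 1) (hy : v y ≤ 1) : r x = r y ↔ v (x - y) < 1 := by
  have h1 : v (x - y) ≤ 1 := by
    rw [sub_eq_add_neg]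
    exact (na _ _).trans (max_le hx (by rw [v.map_neg]; exact hy))
  rw [← h.ker _ h1, h.sub x y hx hy, sub_eq_zero]

theorem Rs.natCast (h : Rs v κ r) (na : ∀ x y, v (x + y) ≤ max (v x) (v y)) (n : ℕ) :
    v (n : B) ≤ 1 ∧ r (n : B) = n := by
  induction n with
  | zero => simp [h.zero]
  | succ n ih =>
    push_cast
    refine ⟨(na _ _).trans (max_le ih.1 (by rw [map_one])), ?_⟩
    rw [h.add _ _ ih.1 (by rw [map_one]), ih.2, h.one]

end rs

section main

variable (k : Type) {B : Type} [Field k] [Field B] [Algebra k B] {v : AbsoluteValue B ℝ}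
  {κ : Type} [Field κ] {r : B → κ}

/-- the residue field of `k` -/
def K0 (na : ∀ x y, v (x + y) ≤ max (v x) (v y)) (h : Rs v κ r) : Subfield κ where
  carrier := {x | ∃ a : k, v (algebraMap k B a) ≤ 1 ∧ r (algebraMap k B a) = x}
  mul_mem' := by
    rintro _ _ ⟨a, ha, rfl⟩ ⟨b, hb, rfl⟩
    exact ⟨a * b, by rw [map_mul, map_mul]; exact mul_le_one₀ ha (v.nonneg _) hb, by
      rw [map_mul, h.mul _ _ ha hb]⟩
  one_mem' := ⟨1, by rw [map_one, map_one], by rw [map_one, h.one]⟩
  add_mem' := by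
    rintro _ _ ⟨a, ha, rfl⟩ ⟨b, hb, rfl⟩
    exact ⟨a + b, by rw [map_add]; exact (na _ _).trans (max_le ha hb), by
      rw [map_add, h.add _ _ ha hb]⟩
  zero_mem' := ⟨0, by rw [map_zero, map_zero]; exact zero_le_one, by rw [map_zero, h.zero]⟩
  neg_mem' := by
    rintro _ ⟨a, ha, rfl⟩
    exact ⟨-a, by rw [map_neg, v.map_neg]; exact ha, by rw [map_neg, h.neg _ ha]⟩
  inv_mem' := by
    rintro _ ⟨a, ha, rfl⟩
    rcases lt_or_eq_of_le ha with h1 | h1
    · rw [(h.ker _ ha).2 h1, inv_zero]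
      exact ⟨0, by rw [map_zero, map_zero]; exact zero_le_one, by rw [map_zero, h.zero]⟩
    · have h2 : v (algebraMap k B a⁻¹) ≤ 1 := by rw [map_inv₀, map_inv₀, h1, inv_one]
      refine ⟨a⁻¹, h2, ?_⟩
      have ha0 : a ≠ 0 := by
        rintro rfl
        rw [map_zero, map_zero] at h1
        exact zero_ne_one h1
      have h3 : r (algebraMap k B a) * r (algebraMap k B a⁻¹) = 1 := by
        rw [← h.mul _ _ ha h2, ← map_mul, mul_inv_cancel₀ ha0, map_one, h.one]
      exact eq_inv_of_mul_eq_one_right h3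

theorem K0_finite (na : ∀ x y, v (x + y) ≤ max (v x) (v y)) (h : Rs v κ r)
    (hres : ∃ R : Finset k, ∀ x : k, v (algebraMap k B x) ≤ 1 →
      ∃ r ∈ R, v (algebraMap k B (x - r)) < 1) : Finite (K0 k na h) := by
  classical
  obtain ⟨R, hR⟩ := hres
  have h1 : ((K0 k na h : Set κ)) ⊆ (R.image fun a => r (algebraMap k B a) : Finset κ) := by
    rintro _ ⟨a, ha, rfl⟩
    obtain ⟨b, hb, hab⟩ := hR a ha
    have hvb : v (algebraMap k B b) ≤ 1 := by
      have e : algebraMap k B b = algebraMap k B a + -(algebraMap k B (a - b)) := by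
        rw [map_sub]; ring
      rw [e]
      exact (na _ _).trans (max_le ha (by rw [v.map_neg]; exact hab.le))
    rw [Finset.mem_coe, Finset.mem_image]
    refine ⟨b, hb, ?_⟩
    symm
    rw [h.eq_iff na _ _ ha hvb, ← map_sub]
    exact hab
  exact ((Finset.finite_toSet _).subset h1).to_subtype

/-- a field with `q` elements is the set of the roots of `X ^ q - X` -/
theorem mem_of_pow (K : Subfield κ) [Finite K] (x : κ) (hx : x ^ Nat.card K = x) : x ∈ K := by
  classical
  have : Fintype K := Fintype.ofFinite K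
  by_contra hxK
  set q := Nat.card K with hq
  have hq2 : 1 < q := Finite.one_lt_card
  have hf : (X ^ q - X : κ[X]) ≠ 0 := FiniteField.X_pow_card_sub_X_ne_zero κ hq2
  have hdeg : (X ^ q - X : κ[X]).natDegree = q := FiniteField.X_pow_card_sub_X_natDegree_eq κ hq2
  let S : Finset κ := insert x (Finset.univ.image (fun y : K => (y : κ)))
  have hS : S.card = q + 1 := by
    rw [Finset.card_insert_of_notMem, Finset.card_image_of_injective _ Subtype.val_injective,
      Finset.card_univ, hq, Nat.card_eq_fintype_card]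
    intro h
    rw [Finset.mem_image] at h
    obtain ⟨y, _, hy⟩ := h
    exact hxK (hy ▸ y.2)
  have hroot : ∀ y ∈ S, (X ^ q - X : κ[X]).IsRoot y := by
    intro y hy
    rw [Finset.mem_insert] at hy
    rw [IsRoot.def, eval_sub, eval_pow, eval_X, sub_eq_zero]
    rcases hy with rfl | hy
    · exact hx
    · rw [Finset.mem_image] at hy
      obtain ⟨z, _, rfl⟩ := hy
      have := FiniteField.pow_card z
      rw [← Nat.card_eq_fintype_card] at this
      exact congrArg Subtype.val this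
  have h3 : S ⊆ (X ^ q - X : κ[X]).roots.toFinset := by
    intro y hy
    rw [Multiset.mem_toFinset, mem_roots hf]
    exact hroot y hy
  have h4 := Finset.card_le_card h3
  have h5 := Multiset.toFinset_card_le (X ^ q - X : κ[X]).roots
  have h6 := card_roots' (X ^ q - X : κ[X])
  omega

end main

/-! ### the extension -/

/-- the situation -/
structure Dt (k : Type) {B κ : Type} [Field k] [Field B] [Field κ] [Algebra k B]
    (v : AbsoluteValue B ℝ) (p : ℕ) (r : B → κ) (q : ℕ) (ζ : B) : Prop where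
  na : ∀ x y, v (x + y) ≤ max (v x) (v y)
  inv : ∀ (τ : B ≃ₐ[k] B) x, v (τ x) = v x
  hr : Rs v κ r
  pp : p.Prime
  q2 : 2 ≤ q
  frob : ∃ φ : κ →+* κ, ∀ x, φ x = x ^ q
  q0 : (q : κ) = 0
  low : ∀ a : k, v (algebraMap k B a) ≤ 1 → r (algebraMap k B a) ^ q = r (algebraMap k B a)
  up : ∀ x : κ, x ^ q = x → ∃ a : k, v (algebraMap k B a) ≤ 1 ∧ r (algebraMap k B a) = x
  prim : IsPrimitiveRoot ζ (q ^ p - 1)

section dt

variable {k B κ : Type} [Field k] [Field B] [Field κ] [Algebra k B] {v : AbsoluteValue B ℝ}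
  {p : ℕ} {r : B → κ} {q : ℕ} {ζ : B}

theorem Dt.two (h : Dt k v p r q ζ) : q ^ 1 < q ^ p :=
  Nat.pow_lt_pow_right h.q2 h.pp.one_lt

theorem Dt.npos (h : Dt k v p r q ζ) : 0 < q ^ p - 1 := by
  have := h.two
  have := h.q2
  rw [pow_one] at *
  omega

theorem Dt.root (h : Dt k v p r q ζ) {x : B} (hx : x ^ (q ^ p - 1) = 1) : v x = 1 := by
  have h1 : v x ^ (q ^ p - 1) = 1 := by rw [← map_pow, hx, map_one]
  exact (pow_eq_one_iff_of_nonneg (v.nonneg x) h.npos.ne').1 h1

theorem Dt.inj (h : Dt k v p r q ζ) {x y : B} (hx : x ^ (q ^ p - 1) = 1)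
    (hy : y ^ (q ^ p - 1) = 1) (hxy : r x = r y) : x = y := by
  have hvx := h.root hx
  have hvy := h.root hy
  have hy0 : y ≠ 0 := by
    rintro rfl
    rw [map_zero] at hvy
    exact zero_ne_one hvy
  rw [h.hr.eq_iff h.na x y hvx.le hvy.le] at hxy
  by_contra hne
  set ξ := x / y with hξ
  have hξ1 : ξ ≠ 1 := fun h1 => hne (by rw [hξ, div_eq_one_iff_eq hy0] at h1; exact h1)
  have hξn : ξ ^ (q ^ p - 1) = 1 := by rw [hξ, div_pow, hx, hy, div_one]
  have hvξ := h.root hξn
  have hrξ : r ξ = 1 := by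
    rw [← h.hr.one, h.hr.eq_iff h.na _ _ hvξ.le (by rw [map_one])]
    have e : ξ - 1 = (x - y) / y := by rw [hξ]; field_simp
    rw [e, map_div₀, hvy, div_one]
    exact hxy
  have h1 : ∑ i ∈ Finset.range (q ^ p - 1), ξ ^ i = 0 := by
    have h2 := geom_sum_mul ξ (q ^ p - 1)
    rw [hξn, sub_self] at h2
    exact (mul_eq_zero.1 h2).resolve_right (sub_ne_zero.2 hξ1)
  have h2 : r (∑ i ∈ Finset.range (q ^ p - 1), ξ ^ i) = ((q ^ p - 1 : ℕ) : κ) := by
    rw [h.hr.sum h.na _ _ (fun i _ => by rw [map_pow, hvξ, one_pow])]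
    rw [Finset.sum_congr rfl fun i _ => by rw [h.hr.pow ξ hvξ.le, hrξ, one_pow]]
    simp
  rw [h1, h.hr.zero] at h2
  have h3 : ((q ^ p - 1 : ℕ) : κ) + 1 = 0 := by
    have h4 : (q ^ p - 1) + 1 = q ^ p := by have := h.npos; omega
    have h5 : (((q ^ p - 1) + 1 : ℕ) : κ) = 0 := by
      rw [h4, Nat.cast_pow, h.q0, zero_pow h.pp.ne_zero]
    push_cast at h5
    exact_mod_cast h5
  rw [← h2, zero_add] at h3
  exact one_ne_zero h3

theorem Dt.zn (h : Dt k v p r q ζ) (m : ℕ) : (ζ ^ m) ^ (q ^ p - 1) = 1 := by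
  rw [← pow_mul, mul_comm, pow_mul, h.prim.pow_eq_one, one_pow]

theorem Dt.per (h : Dt k v p r q ζ) (a t : ℕ) : ζ ^ q ^ (a + p * t) = ζ ^ q ^ a := by
  induction t with
  | zero => rw [mul_zero, add_zero]
  | succ t ih =>
    have h1 : q ^ (a + p * (t + 1)) = q ^ (a + p * t) + (q ^ p - 1) * q ^ (a + p * t) := by
      have h2 : q ^ p = 1 + (q ^ p - 1) := by have := h.npos; omega
      calc q ^ (a + p * (t + 1)) = q ^ p * q ^ (a + p * t) := by rw [← pow_add]; ring_nf
        _ = (1 + (q ^ p - 1)) * q ^ (a + p * t) := by rw [← h2]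
        _ = _ := by ring
    rw [h1, pow_add, pow_mul, h.prim.pow_eq_one, one_pow, mul_one, ih]

theorem Dt.ev (h : Dt k v p r q ζ) (b : ℕ → k) (hb : ∀ i, v (algebraMap k B (b i)) ≤ 1)
    (x : B) (hx : v x ≤ 1) (N : ℕ) :
    v (∑ i ∈ Finset.range N, algebraMap k B (b i) * x ^ i) ≤ 1 ∧
    r (∑ i ∈ Finset.range N, algebraMap k B (b i) * x ^ i) =
      ∑ i ∈ Finset.range N, r (algebraMap k B (b i)) * r x ^ i := by
  have hp : ∀ i, v (x ^ i) ≤ 1 := fun i => by rw [map_pow]; exact pow_le_one₀ (v.nonneg _) hx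
  have h1 : ∀ i ∈ Finset.range N, v (algebraMap k B (b i) * x ^ i) ≤ 1 := fun i _ => by
    rw [map_mul]
    exact mul_le_one₀ (hb i) (v.nonneg _) (hp i)
  refine ⟨sum_le h.na _ _ h1, ?_⟩
  rw [h.hr.sum h.na _ _ h1]
  exact Finset.sum_congr rfl fun i _ => by rw [h.hr.mul _ _ (hb i) (hp i), h.hr.pow x hx]

theorem Dt.vz (h : Dt k v p r q ζ) : v ζ = 1 := h.root h.prim.pow_eq_one

theorem Dt.conj (h : Dt k v p r q ζ) (τ : B ≃ₐ[k] B) : ∃ j < p, τ ζ = ζ ^ q ^ j := by
  classical
  obtain ⟨φ, hφ⟩ := h.frob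
  set z := r ζ with hz
  have hzp : z ^ q ^ p = z ^ q ^ 0 := by
    rw [hz, ← h.hr.pow ζ h.vz.le, ← h.hr.pow ζ h.vz.le]
    have := h.per 0 1
    rw [zero_add, mul_one] at this
    rw [this]
  set g : κ[X] := ∏ j ∈ Finset.range p, (X - C (z ^ q ^ j)) with hg
  have hgφ : g.map φ = g := by
    have h1 : g.map φ = ∏ j ∈ Finset.range p, (X - C (z ^ q ^ (j + 1))) := by
      rw [hg, Polynomial.map_prod]
      refine Finset.prod_congr rfl fun j _ => ?_
      rw [Polynomial.map_sub, Polynomial.map_X, Polynomial.map_C, hφ, ← pow_mul, ← pow_succ]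
    have h2 := Finset.prod_range_succ (fun j => (X - C (z ^ q ^ j) : κ[X])) p
    have h3 := Finset.prod_range_succ' (fun j => (X - C (z ^ q ^ j) : κ[X])) p
    rw [h1]
    rw [h2, hzp] at h3
    exact (mul_right_cancel₀ (X_sub_C_ne_zero _) h3).symm
  have hc : ∀ i, ∃ a : k, v (algebraMap k B a) ≤ 1 ∧ r (algebraMap k B a) = g.coeff i := by
    intro i
    apply h.up
    rw [← hφ, ← Polynomial.coeff_map, hgφ]
  choose b hb1 hb2 using hc
  have h4 := h.ev b hb1 ζ h.vz.le (g.natDegree + 1)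
  have hgz : g.eval z = 0 := by
    rw [hg, eval_prod]
    apply Finset.prod_eq_zero (Finset.mem_range.2 h.pp.pos)
    rw [pow_zero, pow_one, eval_sub, eval_X, eval_C, sub_self]
  set s := ∑ i ∈ Finset.range (g.natDegree + 1), algebraMap k B (b i) * ζ ^ i with hs
  have hrs : r s = 0 := by
    rw [h4.2, ← hz]
    simp_rw [hb2]
    rw [← eval_eq_sum_range, hgz]
  rw [h.hr.ker _ h4.1] at hrs
  have hτs : τ s = ∑ i ∈ Finset.range (g.natDegree + 1), algebraMap k B (b i) * (τ ζ) ^ i := by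
    rw [hs, map_sum]
    exact Finset.sum_congr rfl fun i _ => by rw [map_mul, map_pow, AlgEquiv.commutes]
  have hvτ : v (τ ζ) = 1 := by rw [h.inv, h.vz]
  have h5 := h.ev b hb1 (τ ζ) hvτ.le (g.natDegree + 1)
  rw [← hτs] at h5
  have h6 : g.eval (r (τ ζ)) = 0 := by
    rw [eval_eq_sum_range]
    simp_rw [← hb2]
    rw [← h5.2, h.hr.ker _ h5.1, h.inv]
    exact hrs
  rw [hg, eval_prod, Finset.prod_eq_zero_iff] at h6
  obtain ⟨j, hj, h7⟩ := h6
  rw [eval_sub, eval_X, eval_C, sub_eq_zero] at h7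
  refine ⟨j, Finset.mem_range.1 hj, h.inj ?_ (h.zn _) ?_⟩
  · rw [← map_pow, h.prim.pow_eq_one, map_one]
  · rw [h7, h.hr.pow ζ h.vz.le]

theorem Dt.powit (τ : B ≃ₐ[k] B) (j : ℕ) (hτ : τ ζ = ζ ^ q ^ j) (i : ℕ) :
    (τ ^ i) ζ = ζ ^ q ^ (i * j) := by
  induction i with
  | zero => simp
  | succ i ih =>
    rw [pow_succ', AlgEquiv.mul_apply, ih, map_pow, hτ, ← pow_mul, ← pow_add]
    congr 2
    ring

theorem Dt.exists_sigma [IsGalois k B] (h : Dt k v p r q ζ) :
    ∃ σ : B ≃ₐ[k] B, σ ζ = ζ ^ q := by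
  have h1 : ∃ τ : B ≃ₐ[k] B, τ ζ ≠ ζ := by
    by_contra hcon
    push Not at hcon
    obtain ⟨a, ha⟩ := (InfiniteGalois.mem_range_algebraMap_iff_fixed (k := k) ζ).2 hcon
    have h2 := h.low a (by rw [ha, h.vz])
    rw [ha, ← h.hr.pow ζ h.vz.le] at h2
    have h3 : ζ ^ q = ζ := h.inj (h.zn q) (by have := h.zn 1; rwa [pow_one] at this) h2
    have hz0 : ζ ≠ 0 := by
      intro h0
      have := h.vz
      rw [h0, map_zero] at this
      exact zero_ne_one this
    have hq := h.q2
    have h4 : ζ ^ (q - 1) = 1 := by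
      have h5 : ζ ^ (q - 1) * ζ = 1 * ζ := by
        rw [← pow_succ, Nat.sub_add_cancel (by omega), h3, one_mul]
      exact mul_right_cancel₀ hz0 h5
    have h6 := Nat.le_of_dvd (by omega) (h.prim.dvd_of_pow_eq_one _ h4)
    have := h.two
    rw [pow_one] at this
    omega
  obtain ⟨τ, hτ⟩ := h1
  obtain ⟨j, hj, hτj⟩ := h.conj τ
  have hj0 : j ≠ 0 := by
    rintro rfl
    rw [pow_zero, pow_one] at hτj
    exact hτ hτj
  obtain ⟨i, -, hi⟩ := Nat.exists_mul_mod_eq_one_of_coprime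
    (Nat.coprime_of_lt_prime hj0 hj h.pp).symm h.pp.one_lt
  refine ⟨τ ^ i, ?_⟩
  rw [Dt.powit τ j hτj]
  have h7 : i * j = 1 + p * (j * i / p) := by
    have := Nat.div_add_mod (j * i) p
    rw [hi] at this
    rw [mul_comm i j]
    omega
  rw [h7, h.per, pow_one]

theorem agree (τ τ' : B ≃ₐ[k] B) (h : τ ζ = τ' ζ) : ∀ x ∈ k⟮ζ⟯, τ x = τ' x := by
  intro x hx
  refine adjoin_induction k (p := fun x _ => τ x = τ' x) ?_ ?_ ?_ ?_ ?_ hx
  · intro y hy
    rw [Set.mem_singleton_iff] at hy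
    rw [hy]; exact h
  · intro y
    rw [AlgEquiv.commutes, AlgEquiv.commutes]
  · intro y z _ _ hy hz
    rw [map_add, map_add, hy, hz]
  · intro y _ hy
    rw [map_inv₀, map_inv₀, hy]
  · intro y z _ _ hy hz
    rw [map_mul, map_mul, hy, hz]

theorem Dt.cyc [IsGalois k B] (h : Dt k v p r q ζ) (σ : B ≃ₐ[k] B) (hσ : σ ζ = ζ ^ q) :
    Cyc k⟮ζ⟯ σ p := by
  have hσ' : σ ζ = ζ ^ q ^ 1 := by rw [pow_one]; exact hσ
  have hit : ∀ i, (σ ^ i) ζ = ζ ^ q ^ i := fun i => by
    rw [Dt.powit σ 1 hσ', mul_one]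
  have hint : IsIntegral k ζ := IsGalois.integral k ζ
  refine ⟨adjoin.finiteDimensional hint, h.pp.pos, ?_, ?_, ?_, ?_⟩
  · intro τ x hx
    refine adjoin_induction k (p := fun x _ => τ x ∈ k⟮ζ⟯) ?_ ?_ ?_ ?_ ?_ hx
    · intro y hy
      rw [Set.mem_singleton_iff] at hy
      obtain ⟨j, _, hj⟩ := h.conj τ
      rw [hy, hj]
      exact pow_mem (mem_adjoin_simple_self k ζ) _
    · intro y
      rw [AlgEquiv.commutes]
      exact IntermediateField.algebraMap_mem _ _
    · intro y z _ _ hy hz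
      rw [map_add]; exact add_mem hy hz
    · intro y _ hy
      rw [map_inv₀]; exact inv_mem hy
    · intro y z _ _ hy hz
      rw [map_mul]; exact mul_mem hy hz
  · intro x hx
    have h1 := agree (σ ^ p) (1 : B ≃ₐ[k] B) (by
      rw [hit p]
      have := h.per 0 1
      rw [zero_add, mul_one, pow_zero, pow_one] at this
      rw [this]; rfl) x hx
    rw [h1]; rfl
  · intro i hi hfix
    have h1 := hfix ζ (mem_adjoin_simple_self k ζ)
    rw [hit i] at h1
    by_contra hi0
    have hz0 : ζ ≠ 0 := by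
      intro h0
      have := h.vz
      rw [h0, map_zero] at this
      exact zero_ne_one this
    have hq := h.q2
    have h2 : q ^ i < q ^ p := Nat.pow_lt_pow_right h.q2 hi
    have h3 : q ^ 0 < q ^ i := Nat.pow_lt_pow_right h.q2 (by omega)
    rw [pow_zero] at h3
    have h4 : ζ ^ (q ^ i - 1) = 1 := by
      have h5 : ζ ^ (q ^ i - 1) * ζ = 1 * ζ := by
        rw [← pow_succ, Nat.sub_add_cancel (by omega), h1, one_mul]
      exact mul_right_cancel₀ hz0 h5
    have h6 := Nat.le_of_dvd (by omega) (h.prim.dvd_of_pow_eq_one _ h4)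
    omega
  · intro τ
    obtain ⟨j, hj, hτ⟩ := h.conj τ
    exact ⟨j, hj, agree τ (σ ^ j) (by rw [hτ, hit j])⟩

end dt

section dt2

variable {k B κ : Type} [Field k] [Field B] [Field κ] [Algebra k B] {v : AbsoluteValue B ℝ}
  {p : ℕ} {r : B → κ} {q : ℕ} {ζ : B}

theorem Dt.pow_lt (h : Dt k v p r q ζ) {i : ℕ} (hi : i < p) : q ^ i < q ^ p - 1 := by
  obtain ⟨m, hm⟩ : ∃ m, p = m + 1 := ⟨p - 1, by have := h.pp.pos; omega⟩
  have hm1 : 1 ≤ m := by have := h.pp.two_le; omega
  have h1 : q ^ i ≤ q ^ m := Nat.pow_le_pow_right (by have := h.q2; omega) (by omega)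
  have h2 : 2 ≤ q ^ m := h.q2.trans (Nat.le_self_pow (by omega) q)
  rw [hm, pow_succ]
  have h3 : q ^ m * 2 ≤ q ^ m * q := Nat.mul_le_mul_left _ h.q2
  omega

theorem Dt.z_inj (h : Dt k v p r q ζ) {a b : ℕ} (ha : a < q ^ p - 1) (hb : b < q ^ p - 1)
    (hab : r ζ ^ a = r ζ ^ b) : a = b := by
  rw [← h.hr.pow ζ h.vz.le, ← h.hr.pow ζ h.vz.le] at hab
  exact h.prim.pow_inj ha hb (h.inj (h.zn a) (h.zn b) hab)

/-- a polynomial of degree less than `p` over the residue field of `k` does not vanish at the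
residue of `ζ` -/
theorem Dt.nonvan (h : Dt k v p r q ζ) (c : ℕ → κ) (hc : ∀ i, c i ^ q = c i)
    (h0 : ∑ i ∈ Finset.range p, c i * r ζ ^ i = 0) : ∀ i < p, c i = 0 := by
  classical
  obtain ⟨φ, hφ⟩ := h.frob
  set f : κ[X] := ∑ i ∈ Finset.range p, C (c i) * X ^ i with hf
  have hev : ∀ x, f.eval x = ∑ i ∈ Finset.range p, c i * x ^ i := by
    intro x
    rw [hf, eval_finsetSum]
    exact Finset.sum_congr rfl fun i _ => by rw [eval_mul, eval_C, eval_pow, eval_X]
  have hroot : ∀ j, f.eval (r ζ ^ q ^ j) = 0 := by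
    intro j
    induction j with
    | zero => rw [pow_zero, pow_one, hev]; exact h0
    | succ j ih =>
      rw [hev] at ih ⊢
      have h1 := congrArg φ ih
      rw [map_sum, map_zero] at h1
      rw [← h1]
      refine Finset.sum_congr rfl fun i _ => ?_
      rw [map_mul, map_pow, hφ, hc, hφ, ← pow_mul (r ζ) (q ^ j) q, ← pow_succ]
  have hcoef : ∀ i < p, f.coeff i = c i := by
    intro i hi
    rw [hf, finsetSum_coeff]
    simp only [coeff_C_mul, coeff_X_pow, mul_ite, mul_one, mul_zero]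
    rw [Finset.sum_ite_eq]
    simp [hi]
  have hf0 : f = 0 := by
    by_contra hne
    have hdeg : f.natDegree < p := by
      have h2 : f.natDegree ≤ p - 1 := by
        rw [hf]
        apply natDegree_sum_le_of_forall_le
        intro i hi
        rw [Finset.mem_range] at hi
        exact (natDegree_C_mul_X_pow_le _ _).trans (by omega)
      have := h.pp.pos
      omega
    have hS : ((Finset.range p).image fun j => r ζ ^ q ^ j).card = p := by
      rw [Finset.card_image_of_injOn, Finset.card_range]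
      intro i hi j hj hij
      rw [Finset.coe_range, Set.mem_Iio] at hi hj
      exact Nat.pow_right_injective h.q2 (h.z_inj (h.pow_lt hi) (h.pow_lt hj) hij)
    have h3 : ((Finset.range p).image fun j => r ζ ^ q ^ j) ⊆ f.roots.toFinset := by
      intro y hy
      rw [Finset.mem_image] at hy
      obtain ⟨j, _, rfl⟩ := hy
      rw [Multiset.mem_toFinset, mem_roots hne]
      exact hroot j
    have h4 := Finset.card_le_card h3
    have h5 := Multiset.toFinset_card_le f.roots
    have h6 := card_roots' f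
    omega
  intro i hi
  rw [← hcoef i hi, hf0, coeff_zero]

theorem Dt.exists_poly [IsGalois k B] [IsAlgClosed B] (h : Dt k v p r q ζ) {β : B}
    (hβ : β ∈ k⟮ζ⟯) : ∃ f : k[X], f.natDegree < p ∧
      β = ∑ i ∈ Finset.range p, algebraMap k B (f.coeff i) * ζ ^ i := by
  classical
  have hint : IsIntegral k ζ := IsGalois.integral k ζ
  have hdeg : (minpoly k ζ).natDegree ≤ p := by
    rw [← card_rootSet_eq_natDegree (K := B) (Algebra.IsSeparable.isSeparable k ζ)
      (IsAlgClosed.splits _)]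
    have h1 : (minpoly k ζ).rootSet B ⊆
        ((Finset.range p).image fun j => ζ ^ q ^ j : Finset B) := by
      intro y hy
      rw [mem_rootSet] at hy
      obtain ⟨τ, hτ⟩ := minpoly.exists_algEquiv_of_root' (K := k) (x := y) (y := ζ)
        hint.isAlgebraic hy.2
      obtain ⟨j, hj, hj2⟩ := h.conj τ
      rw [Finset.mem_coe, Finset.mem_image]
      exact ⟨j, Finset.mem_range.2 hj, by rw [← hj2, hτ]⟩
    have h2 := Set.ncard_le_ncard h1 (Finset.finite_toSet _)
    rw [Set.ncard_coe_finset, ← Nat.card_coe_set_eq, Nat.card_eq_fintype_card] at h2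
    refine h2.trans (Finset.card_image_le.trans ?_)
    rw [Finset.card_range]
  obtain ⟨f, hf1, hf2⟩ := (adjoin.powerBasis hint).exists_eq_aeval ⟨β, hβ⟩
  have hf3 : f.natDegree < p := lt_of_lt_of_le hf1 hdeg
  refine ⟨f, hf3, ?_⟩
  have h3 : β = aeval ζ f := by
    have h4 := congrArg (algebraMap k⟮ζ⟯ B) hf2
    rw [← aeval_algebraMap_apply, adjoin.powerBasis_gen,
      AdjoinSimple.algebraMap_gen] at h4
    exact h4
  rw [h3, aeval_eq_sum_range' hf3]
  exact Finset.sum_congr rfl fun i _ => Algebra.smul_def _ _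

theorem Dt.value [IsGalois k B] [IsAlgClosed B] (h : Dt k v p r q ζ) {β : B}
    (hβ : β ∈ k⟮ζ⟯) (hβ0 : β ≠ 0) : ∃ c : k, c ≠ 0 ∧ v β = v (algebraMap k B c) := by
  classical
  obtain ⟨f, hf1, hf2⟩ := h.exists_poly hβ
  obtain ⟨i0, hi0, hmax⟩ := Finset.exists_max_image (Finset.range p)
    (fun i => v (algebraMap k B (f.coeff i))) ⟨0, Finset.mem_range.2 h.pp.pos⟩
  set c := f.coeff i0 with hc
  have hc0 : c ≠ 0 := by
    intro hc0
    apply hβ0
    rw [hf2]
    apply Finset.sum_eq_zero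
    intro i hi
    have h1 := hmax i hi
    rw [hc0, map_zero, map_zero] at h1
    have h2 : algebraMap k B (f.coeff i) = 0 := v.eq_zero.1 (le_antisymm h1 (v.nonneg _))
    rw [h2, zero_mul]
  have hvc : 0 < v (algebraMap k B c) := v.pos (by
    rw [Ne, map_eq_zero]; exact hc0)
  refine ⟨c, hc0, ?_⟩
  let b : ℕ → k := fun i => if i < p then f.coeff i / c else 0
  have hb : ∀ i, v (algebraMap k B (b i)) ≤ 1 := by
    intro i
    simp only [b]
    split_ifs with hi
    · rw [map_div₀, map_div₀, div_le_one hvc]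
      exact hmax i (Finset.mem_range.2 hi)
    · rw [map_zero, map_zero]; exact zero_le_one
  obtain ⟨h1, h2⟩ := h.ev b hb ζ h.vz.le p
  have h3 : ∑ i ∈ Finset.range p, algebraMap k B (b i) * ζ ^ i = β / algebraMap k B c := by
    rw [hf2, Finset.sum_div]
    refine Finset.sum_congr rfl fun i hi => ?_
    simp only [b, if_pos (Finset.mem_range.1 hi)]
    rw [map_div₀]; ring
  rw [h3] at h1 h2
  have h4 : ¬ v (β / algebraMap k B c) < 1 := by
    intro h5
    rw [← h.hr.ker _ h1, h2] at h5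
    have h6 := h.nonvan (fun i => r (algebraMap k B (b i))) (fun i => h.low _ (hb i)) h5 i0
      (Finset.mem_range.1 hi0)
    have h7 : b i0 = 1 := by
      simp only [b, if_pos (Finset.mem_range.1 hi0)]
      exact div_self hc0
    simp only [h7, map_one, h.hr.one] at h6
    exact one_ne_zero h6
  have h5 : v (β / algebraMap k B c) = 1 := le_antisymm h1 (not_lt.1 h4)
  rw [map_div₀, div_eq_one_iff_eq hvc.ne'] at h5
  exact h5

theorem Dt.trace [IsGalois k B] (h : Dt k v p r q ζ) (σ : B ≃ₐ[k] B) (hσ : σ ζ = ζ ^ q) :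
    ∃ θ ∈ k⟮ζ⟯, v θ ≤ 1 ∧ ∑ i ∈ Finset.range p, (σ ^ i) θ = 1 := by
  classical
  have hσ' : σ ζ = ζ ^ q ^ 1 := by rw [pow_one]; exact hσ
  have hit : ∀ i, (σ ^ i) ζ = ζ ^ q ^ i := fun i => by
    rw [Dt.powit σ 1 hσ', mul_one]
  have hq := h.q2
  -- a power of `ζ` with a trace which is a unit
  have hex : ∃ m, ∑ i ∈ Finset.range p, (r ζ ^ m) ^ q ^ i ≠ 0 := by
    by_contra hcon
    push Not at hcon
    set T : κ[X] := ∑ i ∈ Finset.range p, X ^ q ^ i with hT
    have hTev : ∀ x, T.eval x = ∑ i ∈ Finset.range p, x ^ q ^ i := by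
      intro x
      rw [hT, eval_finsetSum]
      exact Finset.sum_congr rfl fun i _ => by rw [eval_pow, eval_X]
    have hT0 : T ≠ 0 := by
      intro h0
      have h1 : T.coeff 1 = 1 := by
        rw [hT, finsetSum_coeff]
        rw [Finset.sum_eq_single 0]
        · rw [pow_zero, coeff_X_pow]; simp
        · intro i _ hi
          rw [coeff_X_pow, if_neg]
          intro h1
          have : q ^ 0 < q ^ i := Nat.pow_lt_pow_right h.q2 (by omega)
          rw [pow_zero] at this
          omega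
        · intro h1
          exact absurd (Finset.mem_range.2 h.pp.pos) h1
      rw [h0, coeff_zero] at h1
      exact zero_ne_one h1
    have hTdeg : T.natDegree < q ^ p - 1 := by
      have h2 : T.natDegree ≤ q ^ (p - 1) := by
        rw [hT]
        apply natDegree_sum_le_of_forall_le
        intro i hi
        rw [Finset.mem_range] at hi
        rw [natDegree_X_pow]
        exact Nat.pow_le_pow_right (by omega) (by omega)
      exact lt_of_le_of_lt h2 (h.pow_lt (by have := h.pp.pos; omega))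
    have hS : ((Finset.range (q ^ p - 1)).image fun m => r ζ ^ m).card = q ^ p - 1 := by
      rw [Finset.card_image_of_injOn, Finset.card_range]
      intro i hi j hj hij
      rw [Finset.coe_range, Set.mem_Iio] at hi hj
      exact h.z_inj hi hj hij
    have h3 : ((Finset.range (q ^ p - 1)).image fun m => r ζ ^ m) ⊆ T.roots.toFinset := by
      intro y hy
      rw [Finset.mem_image] at hy
      obtain ⟨m, _, rfl⟩ := hy
      rw [Multiset.mem_toFinset, mem_roots hT0, IsRoot.def, hTev]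
      exact hcon m
    have h4 := Finset.card_le_card h3
    have h5 := Multiset.toFinset_card_le T.roots
    have h6 := card_roots' T
    omega
  obtain ⟨m, hm⟩ := hex
  set t : B := ∑ i ∈ Finset.range p, (ζ ^ m) ^ q ^ i with ht
  have hvm : v (ζ ^ m) = 1 := by rw [map_pow, h.vz, one_pow]
  have hterm : ∀ i ∈ Finset.range p, v ((ζ ^ m) ^ q ^ i) ≤ 1 := fun i _ => by
    rw [map_pow, hvm, one_pow]
  have hvt : v t ≤ 1 := sum_le h.na _ _ hterm
  have hrt : r t ≠ 0 := by
    rw [ht, h.hr.sum h.na _ _ hterm]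
    rw [Finset.sum_congr rfl fun i _ => by
      rw [h.hr.pow (ζ ^ m) hvm.le, h.hr.pow ζ h.vz.le]]
    exact hm
  have hvt1 : v t = 1 := by
    refine le_antisymm hvt (not_lt.1 fun h1 => hrt ((h.hr.ker _ hvt).2 h1))
  have ht0 : t ≠ 0 := by
    intro h0
    rw [h0, map_zero] at hvt1
    exact zero_ne_one hvt1
  have hcyc : ∀ j, ∑ i ∈ Finset.range p, (ζ ^ q ^ j) ^ (m * q ^ i) = t := by
    intro j
    induction j with
    | zero =>
      rw [ht]
      refine Finset.sum_congr rfl fun i _ => ?_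
      rw [pow_zero, pow_one, pow_mul]
    | succ j ih =>
      have h1 := Finset.sum_range_succ (fun i => (ζ ^ q ^ j) ^ (m * q ^ i)) p
      have h2 := Finset.sum_range_succ' (fun i => (ζ ^ q ^ j) ^ (m * q ^ i)) p
      rw [h1, ih] at h2
      have h3 : (ζ ^ q ^ j) ^ (m * q ^ p) = (ζ ^ q ^ j) ^ (m * q ^ 0) := by
        have h4 := h.per j 1
        rw [mul_one, pow_add, pow_mul] at h4
        rw [pow_zero, mul_one, mul_comm m, pow_mul, h4]
      rw [h3] at h2
      have h5 := add_right_cancel h2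
      rw [h5]
      refine Finset.sum_congr rfl fun i _ => ?_
      rw [← pow_mul, ← pow_mul]
      congr 1
      ring
  have hfix : ∀ τ : B ≃ₐ[k] B, τ t = t := by
    intro τ
    obtain ⟨j, _, hj⟩ := h.conj τ
    conv_lhs => rw [ht]
    rw [map_sum, ← hcyc j]
    refine Finset.sum_congr rfl fun i _ => ?_
    rw [map_pow, map_pow, hj, pow_mul]
  obtain ⟨a, ha⟩ := (InfiniteGalois.mem_range_algebraMap_iff_fixed (k := k) t).2 hfix
  refine ⟨ζ ^ m / t, ?_, ?_, ?_⟩
  · apply div_mem (pow_mem (mem_adjoin_simple_self k ζ) _)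
    rw [← ha]
    exact IntermediateField.algebraMap_mem _ _
  · rw [map_div₀, hvt1, div_one, hvm]
  · have h1 : ∀ i, (σ ^ i) (ζ ^ m / t) = (ζ ^ m) ^ q ^ i / t := by
      intro i
      rw [map_div₀, hfix, map_pow, hit i, ← pow_mul, ← pow_mul, mul_comm]
    simp_rw [h1]
    rw [← Finset.sum_div, ← ht, div_self ht0]

end dt2

theorem t_UNR' : S_UNR := by
  classical
  intro k B _ _ _ _ _ v p π hv
  have : IsAlgClosed B := IsAlgClosure.isAlgClosed k
  have : Algebra.IsAlgebraic k B := IsAlgClosure.isAlgebraic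
  have : Normal k B := IsAlgClosure.normal k B
  have : IsGalois k B := ⟨⟩
  have : CharZero B := charZero_of_injective_algebraMap (algebraMap k B).injective
  obtain ⟨κ, _, r, hr⟩ := exists_rs v hv.na
  have hfin : Finite (K0 k hv.na hr) := K0_finite k hv.na hr hv.res
  have hft : Fintype (K0 k hv.na hr) := Fintype.ofFinite _
  set q := Nat.card (K0 k hv.na hr) with hq
  have hp0 : ((p : ℕ) : κ) = 0 := by
    have h1 := hr.natCast hv.na p
    rw [← h1.2, hr.ker _ h1.1]
    exact hv.p1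
  have : Fact p.Prime := ⟨hv.prime⟩
  have hch : CharP κ p := (CharP.charP_iff_prime_eq_zero hv.prime).2 hp0
  have hch0 : CharP (K0 k hv.na hr) p := by
    refine (CharP.charP_iff_prime_eq_zero hv.prime).2 ?_
    apply Subtype.ext
    push_cast
    exact hp0
  obtain ⟨m, _, hm⟩ := FiniteField.card (K0 k hv.na hr) p
  rw [← Nat.card_eq_fintype_card, ← hq] at hm
  have hq2 : 2 ≤ q := Finite.one_lt_card
  have hn0 : q ^ p - 1 ≠ 0 := by
    have h1 : q ^ 1 ≤ q ^ p := Nat.pow_le_pow_right (by omega) hv.prime.one_lt.le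
    rw [pow_one] at h1
    omega
  have : NeZero (q ^ p - 1) := ⟨hn0⟩
  have : NeZero ((q ^ p - 1 : ℕ) : B) := ⟨by exact_mod_cast hn0⟩
  obtain ⟨ζ, hζ⟩ := HasEnoughRootsOfUnity.exists_primitiveRoot B (q ^ p - 1)
  have h : Dt k v p r q ζ := by
    refine ⟨hv.na, hv.inv, hr, hv.prime, hq2, ⟨iterateFrobenius κ p m, fun x => ?_⟩, ?_, ?_, ?_,
      hζ⟩
    · rw [iterateFrobenius_def, hm]
    · rw [hm]
      push_cast
      rw [hp0, zero_pow m.ne_zero]
    · intro a ha
      have h1 := FiniteField.pow_card (⟨r (algebraMap k B a), a, ha, rfl⟩ : K0 k hv.na hr)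
      rw [← Nat.card_eq_fintype_card, ← hq] at h1
      exact congrArg Subtype.val h1
    · intro x hx
      exact mem_of_pow (K0 k hv.na hr) x hx
  obtain ⟨σ, hσ⟩ := h.exists_sigma
  refine ⟨k⟮ζ⟯, σ, h.cyc σ hσ, h.trace σ hσ, fun β hβ hβ0 => ?_⟩
  obtain ⟨c, hc0, hc⟩ := h.value hβ hβ0
  obtain ⟨j, hj⟩ := hv.disc c hc0
  exact ⟨j, by rw [hc, hj]⟩

/-- the form which was asked for -/
theorem t_UNR : S_HENK → S_BASE → S_UNR := fun _ _ => t_UNR'

end Pool.Agent.N890.KO.UNR
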