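import Pool.Agent.N890.KO.Fin
import Pool.Agent.N890.KO.H90
import Pool.Agent.N890.KO.KUM
import Pool.Agent.N890.KO.SPLIT
import Pool.Agent.N890.KO.HEN
import Pool.Agent.N890.KO.HENK
import Pool.Agent.N890.KO.BASE
import Pool.Agent.N890.KO.POW
import Pool.Agent.N890.KO.FINP
import Pool.Agent.N890.KO.UNR
import Pool.Agent.N890.KO.TAME
import Pool.Agent.N890.KO.QR
import Pool.Agent.N890.KO.FF
import Pool.Agent.N890.KO.CONST
import Pool.Agent.N890.KO.RIG1
import Pool.Agent.N890.KO.RIG2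
import Pool.Agent.N890.KO.CAN
import Pool.Agent.N890.KO.LIM
import Pool.Agent.N890.KO.EXT
import Pool.Agent.N890.KO.CASE1
import Pool.Agent.N890.KO.CASE2
import Pool.Agent.N890.KO.BEX
import Pool.Agent.N890.KO.APP
import Pool.Agent.N890.KO.APM
import Pool.Agent.N890.KO.PHI
import Pool.Agent.N890.KO.LOC
import Pool.Agent.N890.KO.KK
import Pool.Agent.N890.KO.CNT

/-! Project KO (helper890): the theorem of Koenigsmann. -/

set_option autoImplicit false

namespace Pool.Agent.N890.KO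

theorem s_H90 : S_H90 := H90.t_H90
theorem s_KUM : S_KUM := KUM.t_KUM s_H90
theorem s_SPLIT : S_SPLIT := SPLIT.t_SPLIT s_H90
theorem s_HEN : S_HEN := HEN.t_HEN
theorem s_HENK : S_HENK := HENK.t_HENK s_HEN
theorem s_BASE : S_BASE := BASE.t_BASE
theorem s_POW : S_POW := POW.t_POW s_HENK
theorem s_FINP : S_FINP := FINP.t_FINP s_HENK
theorem s_UNR : S_UNR := UNR.t_UNR s_HENK s_BASE
theorem s_TAME : S_TAME := TAME.t_TAME s_POW
theorem s_QR : S_QR := QR.t_QR s_SPLIT s_KUM s_TAME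
theorem s_FF : S_FF := FF.t_FF
theorem s_CONST : S_CONST := CONST.t_CONST s_FF s_POW
theorem s_RIG1 : S_RIG1 := RIG1.t_RIG1
theorem s_RIG2 : S_RIG2 := RIG2.t_RIG2
theorem s_CAN : S_CAN := CAN.t_CAN s_QR s_CONST s_RIG1 s_RIG2 s_KUM s_POW
theorem s_LIM : S_LIM := LIM.t_LIM
theorem s_EXT : S_EXT := EXT.t_EXT s_CAN s_LIM s_BASE
theorem s_CASE1 : S_CASE1 := CASE1.t_CASE1
theorem s_CASE2 : S_CASE2 := CASE2.t_CASE2
theorem s_BEX : S_BEX := BEX.t_BEX s_HEN s_SPLIT s_UNR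
theorem s_APP : S_APP := APP.t_APP s_CASE1 s_CASE2 s_BEX s_KUM s_FINP
theorem s_APM : S_APM := APM.t_APM s_APP s_BASE
theorem s_PHI : S_PHI := PHI.t_PHI
theorem s_LOC : S_LOC := LOC.t_LOC
theorem s_KK : S_KK := KK.t_KK
theorem s_CNT : S_CNT := CNT.t_CNT

/-- **The theorem of Koenigsmann**: every section of `Gal(Ω/L) → G_k` is given by a place over the
completion `F_w`, for every embedding of `k` in `F_w`. -/
theorem koenigsmann : S_KOE := koe s_LOC s_KK s_EXT s_APM s_PHI s_CNT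

end Pool.Agent.N890.KO
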