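import Pool.Agent.N890.KO.Stm2

/-! Project KO (helper890): the theorem of Koenigsmann, from its pieces. -/

set_option autoImplicit false

namespace Pool.Agent.N890.KO

open NumberField IsDedekindDomain Filter Pool.Agent.TH954
open scoped Topology

/-- Every birational section over `k` is given by a place over the completion `F_w`, for every
embedding of `k` in `F_w` (Koenigsmann). -/
def S_KOE : Prop := ∀ (F : Type) [Field F] [NumberField F] (w : HeightOneSpectrum (𝓞 F))
  (k L Ω B : Type) [Field k] [Field L] [Field Ω] [Field B] [Algebra k (w.adicCompletion F)]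
  [Algebra k L] [Algebra L Ω] [Algebra k Ω] [Algebra k B] [IsScalarTower k L Ω]
  [IsAlgClosure L Ω] [IsAlgClosure k B] (s : GalSection k L Ω B),
  ∃ p : Plc k Ω (AlgebraicClosure (w.adicCompletion F)), s.GivenBy (w.adicCompletion F) p

/-- the action of the Galois group of `B` over an intermediate field `k'` on `Ω` -/
def sAct {k L Ω B : Type} [Field k] [Field L] [Field Ω] [Field B] [Algebra L Ω] [Algebra k Ω]
    [Algebra k B] (s : GalSection k L Ω B) (k' : IntermediateField k B) :
    (B ≃ₐ[k'] B) →* (Ω ≃+* Ω) where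
  toFun τ := (s.s (resM k' τ) : Ω ≃+* Ω)
  map_one' := by
    rw [map_one, map_one]
    rfl
  map_mul' a b := by
    rw [map_mul, map_mul]
    rfl

lemma sAct_apply {k L Ω B : Type} [Field k] [Field L] [Field Ω] [Field B] [Algebra L Ω]
    [Algebra k Ω] [Algebra k B] (s : GalSection k L Ω B) (k' : IntermediateField k B)
    (τ : B ≃ₐ[k'] B) (y : Ω) : sAct s k' τ y = s.s (τ.restrictScalars k) y := rfl

lemma act_of_section (hCNT : S_CNT) {k L Ω B : Type} [Field k] [Field L] [Field Ω] [Field B]
    [Algebra k L] [Algebra L Ω] [Algebra k Ω] [Algebra k B] [IsScalarTower k L Ω]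
    [IsAlgClosure L Ω] [IsAlgClosure k B] (s : GalSection k L Ω B) (k' : IntermediateField k B) :
    Act (k := k') (s.j : B →+* Ω) (sAct s k') where
  eq τ y := s.sec (τ.restrictScalars k) y
  cont y := by
    obtain ⟨M, hM, h⟩ := hCNT k L Ω B s y
    refine ⟨IntermediateField.adjoin k' (M : Set B), ?_, fun τ hτ => ?_⟩
    · have bas := Module.finBasis k M
      have h1 : IntermediateField.adjoin k' (M : Set B) =
          IntermediateField.adjoin k' (Set.range fun i => (bas i : B)) := by
        apply le_antisymm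
        · rw [IntermediateField.adjoin_le_iff]
          intro x hx
          have h2 := bas.sum_repr ⟨x, hx⟩
          have h3 : x = ∑ i, bas.repr ⟨x, hx⟩ i • (bas i : B) := by
            have h4 := congrArg (fun y : M => (y : B)) h2
            simp only [IntermediateField.coe_sum, IntermediateField.coe_smul] at h4
            exact h4.symm
          rw [h3]
          refine sum_mem fun i _ => ?_
          rw [Algebra.smul_def, IsScalarTower.algebraMap_apply k k' B]
          exact mul_mem (IntermediateField.algebraMap_mem _ _)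
            (IntermediateField.subset_adjoin _ _ ⟨i, rfl⟩)
        · rw [IntermediateField.adjoin_le_iff]
          rintro _ ⟨i, rfl⟩
          exact IntermediateField.subset_adjoin _ _ (bas i).2
      rw [h1]
      refine IntermediateField.finiteDimensional_adjoin fun x _ => ?_
      have h4 : IsIntegral k x :=
        (IsAlgClosure.isAlgebraic (R := k) (K := B)).isIntegral.isIntegral x
      exact h4.tower_top
    · exact h (τ.restrictScalars k) fun x hx => hτ x (IntermediateField.subset_adjoin _ _ hx)

theorem koe (hLOC : S_LOC) (hKK : S_KK) (hEXT : S_EXT) (hAPM : S_APM) (hPHI : S_PHI)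
    (hCNT : S_CNT) : S_KOE := by
  intro F _ _ w k L Ω B _ _ _ _ _ _ _ _ _ _ _ _ s
  obtain ⟨V, p, hV⟩ := hLOC F w
  have c0 : CharZero (w.adicCompletion F) :=
    charZero_of_injective_algebraMap (algebraMap F (w.adicCompletion F)).injective
  have c1 : CharZero k := by
    refine ⟨fun a b h => ?_⟩
    have h1 := congrArg (algebraMap k (w.adicCompletion F)) h
    rw [map_natCast, map_natCast] at h1
    exact Nat.cast_injective h1
  have c2 : IsAlgClosed Ω := IsAlgClosure.isAlgClosed L
  have c3 : IsAlgClosed B := IsAlgClosure.isAlgClosed k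
  have c4 : Algebra.IsAlgebraic k B := IsAlgClosure.isAlgebraic
  let ι : B →ₐ[k] AlgebraicClosure (w.adicCompletion F) := IsAlgClosed.lift
  obtain ⟨v, π, hv, hG, hcpl⟩ := hKK (w.adicCompletion F) V p hV k B ι
  have c5 : CharZero (kk ι) := charZero_of_injective_algebraMap (algebraMap k (kk ι)).injective
  have c6 : IsAlgClosure (kk ι) B := ⟨c3, Algebra.IsAlgebraic.tower_top (K := k) (kk ι)⟩
  have hA := act_of_section hCNT s (kk ι)
  obtain ⟨O, hO1, hO2⟩ := hEXT (kk ι) B Ω s.j (sAct s (kk ι)) hA v p π hG
  have hO3 := hAPM (kk ι) B Ω s.j (sAct s (kk ι)) hA v p π hG O hO1 hO2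
  obtain ⟨W, ρ, h1, h2, h3⟩ := hPHI (kk ι) B Ω (AlgebraicClosure (w.adicCompletion F)) s.j
    (sAct s (kk ι)) hA v p π hG O hO1 hO2 hO3 ι V hV.na hv hcpl
  refine ⟨⟨W, ρ, h1, fun c => ?_⟩, ?_⟩
  · obtain ⟨h, e⟩ := h2 (algebraMap k B c)
    have e1 : (s.j : B →+* Ω) (algebraMap k B c) = algebraMap k Ω c := s.j.commutes c
    have e2 : (ι : B →+* AlgebraicClosure (w.adicCompletion F)) (algebraMap k B c) =
      algebraMap k _ c := ι.commutes c
    rw [e2] at e
    refine ⟨by rw [← e1]; exact h, ?_⟩
    rw [← e]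
    congr 1
    exact Subtype.ext e1.symm
  · intro σ g hg x c hx
    have h4 : ∀ z, σ (ι z) = ι (g z) := by
      intro z
      obtain ⟨h5, h6⟩ := h2 z
      obtain ⟨h7, h8⟩ := h2 (g z)
      obtain ⟨h9, h10⟩ := hg z (ι z) ⟨h5, h6⟩
      exact h10.symm.trans h8
    -- `g` fixes the elements of `kk ι`
    have h5 : ∀ z : kk ι, g z = z := by
      rintro ⟨z, x, hx⟩
      apply ι.injective
      change ι (g z) = ι z
      rw [← h4 z, hx, σ.commutes]
    let τ : B ≃ₐ[kk ι] B := AlgEquiv.ofRingEquiv (f := (g : B ≃+* B)) (fun z => h5 z)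
    have hτ : τ.restrictScalars k = g := by
      ext z
      rfl
    obtain ⟨h', e'⟩ := h3 (σ : _ ≃+* _) τ (fun c => hV.inv σ c) (fun b => h4 b) x hx.1
    have e3 : sAct s (kk ι) τ x = s.s g x := by
      rw [sAct_apply, hτ]
    refine ⟨by rw [← e3]; exact h', ?_⟩
    have e4 : ρ ⟨x, hx.1⟩ = c := hx.2
    rw [e4] at e'
    rw [← show (σ : _ ≃+* _) c = σ c from rfl, ← e']
    congr 1

end Pool.Agent.N890.KO
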