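import Pool.Agent.N890.KO.All
import Pool.Agent.N890.FG.All

/-! Project KO (helper890): all birational sections over subfields of fields of rational functions
give Selmer classes over number fields. -/

set_option autoImplicit false

namespace Pool.Agent.N890.KO

open NumberField WeierstrassCurve IsDedekindDomain Pool.Agent.TH942 Pool.Agent.TH954
open Pool.Agent.W620.SC Pool.Agent.N89.CI Pool.Agent.N890.FD Pool.Agent.N890.US

open scoped Classical in
/-- the class over a number field `F` of a birational section over a subfield `k` of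
`F (T 1, …, T n)` -/
theorem main {K F k : Type} [Field K] [NumberField K] [Field F]
    [NumberField F] [Algebra K F] [Field k] [Algebra K k]
    (n : ℕ) (ψ : k →+* FractionRing (MvPolynomial (Fin n) F))
    (hψ : ∀ x : K, ψ (algebraMap K k x) = algebraMap F _ (algebraMap K F x))
    {r m : ℕ} {ι L' : Type} [Fintype ι] (a b : Fin r → ℤ)
    (hdisc : ∀ i, 4 * a i ^ 3 + 27 * b i ^ 2 ≠ 0) (G' : L' → Pol (𝓞 K) r m ι)
    (d : L' → Fin r → ℕ) (e : L' → ℕ) (hG' : ∀ l, MHomog (G' l) (d l) (e l)) (N : ℕ) (hN : 1 ≤ N)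
    (t : ι → 𝓞 K) {L Ω B : Type} [Field L] [Field Ω]
    [Field B] [Algebra k L] [Algebra L Ω] [Algebra k Ω] [IsScalarTower k L Ω]
    [Algebra k B] [IsAlgClosure L Ω] [IsAlgClosure k B]
    (P : ∀ i, ((sw (a i : k) (b i : k)).baseChange L).toAffine.Point)
    (hP : PtOver ((algebraMap K k).comp (algebraMap (𝓞 K) K)) (a := a) (b := b) G'
      (fun s => algebraMap K k (algebraMap (𝓞 K) K (t s))) L P)
    (s : GalSection k L Ω B) :
    ∃ η, IsSel ((algebraMap K F).comp (algebraMap (𝓞 K) K)) a b G'
      (fun s => algebraMap K F (algebraMap (𝓞 K) K (t s))) N η :=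
  Pool.Agent.N890.FG.main n ψ hψ a b hdisc G' d e hG' N hN t (AlgHom.id L Ω) P hP s
    (Or.inr ⟨∅, fun _ h => absurd h (Set.notMem_empty _), by
      rw [show (AlgHom.id L Ω).fieldRange = ⊤ from
        AlgHom.fieldRange_eq_top.2 Function.surjective_id]
      exact le_top⟩)
    (fun w _ _ => koenigsmann F w k L Ω B s)

end Pool.Agent.N890.KO
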