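import Pool.Agent.N890.KO.Stm

/-!
# RIG2: the valuation ring
-/

set_option autoImplicit false

namespace Pool.Agent.N890.KO.RIG2

open Pool.Agent.N890.KO

section

variable {L : Type} [Field L] {l : ℕ} {U : Set L}

lemma pw_one : (1 : L) ∈ Pw (L := L) l := ⟨1, one_ne_zero, (one_pow l).symm⟩

lemma pw_mul {x y : L} (hx : x ∈ Pw l) (hy : y ∈ Pw l) : x * y ∈ Pw l := by
  obtain ⟨z, hz, rfl⟩ := hx
  obtain ⟨w, hw, rfl⟩ := hy
  exact ⟨z * w, mul_ne_zero hz hw, (mul_pow z w l).symm⟩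

lemma pw_inv {x : L} (hx : x ∈ Pw l) : x⁻¹ ∈ Pw l := by
  obtain ⟨z, hz, rfl⟩ := hx
  exact ⟨z⁻¹, inv_ne_zero hz, (inv_pow z l).symm⟩

lemma pw_ne {x : L} (hx : x ∈ Pw l) : x ≠ 0 := by
  obtain ⟨z, hz, rfl⟩ := hx
  exact pow_ne_zero _ hz

lemma pw_neg (hl : l.Prime) (hC : Cst l U) : (-1 : L) ∈ Pw l := by
  obtain ⟨d, hd⟩ := hC.neg
  refine ⟨d, ?_, hd.symm⟩
  rintro rfl
  rw [zero_pow hl.ne_zero] at hd
  exact (neg_ne_zero.2 one_ne_zero) hd.symm

lemma hh_pw (hU : IsU U) {x : L} (hx : x ∈ Pw l) : x ∈ HH l U := by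
  obtain ⟨z, hz, rfl⟩ := hx
  exact ⟨1, hU.one, z, hz, (one_mul _).symm⟩

lemma hh_u {x : L} (hx : x ∈ U) : x ∈ HH l U :=
  ⟨x, hx, 1, one_ne_zero, by rw [one_pow, mul_one]⟩

lemma hh_mul (hU : IsU U) {x y : L} (hx : x ∈ HH l U) (hy : y ∈ HH l U) : x * y ∈ HH l U := by
  obtain ⟨u, hu, z, hz, rfl⟩ := hx
  obtain ⟨v, hv, w, hw, rfl⟩ := hy
  exact ⟨u * v, hU.mul u hu v hv, z * w, mul_ne_zero hz hw, by rw [mul_pow]; ring⟩

lemma hh_inv (hU : IsU U) {x : L} (hx : x ∈ HH l U) : x⁻¹ ∈ HH l U := by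
  obtain ⟨u, hu, z, hz, rfl⟩ := hx
  exact ⟨u⁻¹, hU.inv u hu, z⁻¹, inv_ne_zero hz, by rw [mul_inv, inv_pow]⟩

lemma hh_ne (hU : IsU U) {x : L} (hx : x ∈ HH l U) : x ≠ 0 := by
  obtain ⟨u, hu, z, hz, rfl⟩ := hx
  refine mul_ne_zero ?_ (pow_ne_zero _ hz)
  rintro rfl
  exact hU.zero hu

lemma odd_mul (hU : IsU U) {x y : L} (hx : x ∈ HH l U) (hy : y ∉ HH l U) : x * y ∉ HH l U := by
  intro h
  apply hy
  have h1 := hh_mul hU (hh_inv hU hx) h
  rwa [← mul_assoc, inv_mul_cancel₀ (hh_ne hU hx), one_mul] at h1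

lemma odd_inv (hU : IsU U) {x : L} (hx : x ∉ HH l U) : x⁻¹ ∉ HH l U := by
  intro h
  apply hx
  have h1 := hh_inv hU h
  rwa [inv_inv] at h1

variable (hl : l.Prime) (hU : IsU U) (hC : Cst l U)
  (hR : ∀ x : L, x ≠ 0 → x ∉ HH l U → 1 + x ∈ Pw l ∨ (1 + x) / x ∈ Pw l)
  (hS : ∀ c ∈ U, ∀ x ∈ Om l U, c * x ∈ Om l U)
  (hM : ∀ a ∈ Om l U, ∀ b ∈ Om l U, 1 - a * b ∈ Pw l)

include hU hR in
/-- (1) -/
lemma om_or {x : L} (h0 : x ≠ 0) (hx : x ∉ HH l U) : x ∈ Om l U ∨ x⁻¹ ∈ Om l U := by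
  rcases hR x h0 hx with h | h
  · exact Or.inl ⟨h0, hx, h⟩
  · refine Or.inr ⟨inv_ne_zero h0, odd_inv hU hx, ?_⟩
    have e : 1 + x⁻¹ = (1 + x) / x := by
      field_simp
      ring
    rw [e]
    exact h

include hU in
lemma om_not {x : L} (h1 : x ∈ Om l U) (h2 : x⁻¹ ∈ Om l U) : False := by
  apply h1.2.1
  apply hh_pw hU
  have h3 := pw_mul h1.2.2 (pw_inv h2.2.2)
  have hx := h1.1
  have h4 : 1 + x ≠ 0 := pw_ne h1.2.2
  have e : (1 + x) * (1 + x⁻¹)⁻¹ = x := by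
    have e1 : 1 + x⁻¹ = (1 + x) / x := by
      field_simp
      ring
    rw [e1, inv_div]
    field_simp
  rwa [e] at h3

include hU hS in
lemma om_neg {x : L} (h : x ∈ Om l U) : -x ∈ Om l U := by
  have := hS (-1) hU.neg x h
  rwa [neg_one_mul] at this

include hU hS in
/-- (2) -/
lemma om_div {a : L} (h : a ∈ Om l U) : -a * (1 + a)⁻¹ ∈ Om l U ∧ a * (1 + a)⁻¹ ∈ Om l U ∧
    1 + -a * (1 + a)⁻¹ = (1 + a)⁻¹ := by
  have h1 : 1 + a ≠ 0 := pw_ne h.2.2
  have e : 1 + -a * (1 + a)⁻¹ = (1 + a)⁻¹ := by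
    field_simp
    ring
  have h2 : -a * (1 + a)⁻¹ ∈ Om l U := by
    refine ⟨mul_ne_zero (neg_ne_zero.2 h.1) (inv_ne_zero h1), ?_, ?_⟩
    · rw [mul_comm]
      exact odd_mul hU (hh_inv hU (hh_pw hU h.2.2)) (om_neg hU hS h).2.1
    · rw [e]
      exact pw_inv h.2.2
  refine ⟨h2, ?_, e⟩
  have h3 := om_neg hU hS h2
  rwa [neg_mul, neg_neg] at h3

include hU hS hM in
lemma plus {a b : L} (ha : a ∈ Om l U) (hb : b ∈ Om l U) : 1 + a * b ∈ Pw l := by
  have h := hM (-a) (om_neg hU hS ha) b hb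
  have e : 1 - -a * b = 1 + a * b := by ring
  rwa [e] at h

/-- the first part of the canonical ring -/
def Op (l : ℕ) (U : Set L) : Set L := {x | x ∈ HH l U ∧ ∀ y ∈ Om l U, x * y ∈ Om l U}

lemma mem_canon {x : L} : x ∈ canon l U ↔ x = 0 ∨ x ∈ Om l U ∨ x ∈ Op l U := Iff.rfl

include hl hC hM in
lemma aux {a b c d : L} (ha : a ∈ Om l U) (hb : b ∈ Om l U) (hc : c ∈ Om l U)
    (hd : d ∈ Om l U) (h : c * d = (a * b)⁻¹) : a * b ∈ Pw l := by
  have h1 := hM a ha b hb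
  have h2 := hM c hc d hd
  have hab : a * b ≠ 0 := mul_ne_zero ha.1 hb.1
  have h3 : 1 - a * b ≠ 0 := pw_ne h1
  have h4 := pw_mul (pw_mul (pw_neg hl hC) h1) (pw_inv h2)
  rw [h] at h4
  have e1 : 1 - (a * b)⁻¹ = -(1 - a * b) * (a * b)⁻¹ := by
    rw [neg_mul, sub_mul, one_mul, mul_inv_cancel₀ hab]
    ring
  have e : -1 * (1 - a * b) * (1 - (a * b)⁻¹)⁻¹ = a * b := by
    rw [e1, mul_inv, inv_inv, ← mul_assoc, neg_one_mul, mul_inv_cancel₀ (neg_ne_zero.2 h3),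
      one_mul]
  rwa [e] at h4

include hl hU hC hR hS hM in
/-- (3) -/
lemma om_mul {a b : L} (ha : a ∈ Om l U) (hb : b ∈ Om l U) : a * b ∈ canon l U := by
  have hab : a * b ≠ 0 := mul_ne_zero ha.1 hb.1
  by_cases h : a * b ∈ HH l U
  · refine Or.inr (Or.inr ⟨h, fun c hc => ?_⟩)
    by_contra hcon
    have hodd : a * b * c ∉ HH l U := odd_mul hU h hc.2.1
    have h0 : a * b * c ≠ 0 := mul_ne_zero hab hc.1
    have hd := (om_or hU hR h0 hodd).resolve_left hcon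
    have e1 : c * (a * b * c)⁻¹ = (a * b)⁻¹ := by
      rw [mul_inv (a * b) c, mul_comm, mul_assoc, inv_mul_cancel₀ hc.1, mul_one]
    have p1 := aux hl hC hM ha hb hc hd e1
    obtain ⟨u, hu, -, hup, -⟩ := hC.a
    have hu0 : u ≠ 0 := fun e => hU.zero (e ▸ hu)
    have ha' := hS u hu a ha
    have hd' := hS _ (hU.inv u hu) _ hd
    have e2 : c * (u⁻¹ * (a * b * c)⁻¹) = (u * a * b)⁻¹ := by
      rw [← mul_assoc, mul_comm c, mul_assoc, e1, mul_assoc u, mul_inv u]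
    have p2 := aux hl hC hM ha' hb hc hd' e2
    apply hup
    have p3 := pw_mul p2 (pw_inv p1)
    have e3 : u * a * b * (a * b)⁻¹ = u := by
      rw [mul_assoc u, mul_assoc, mul_inv_cancel₀ hab, mul_one]
    rwa [e3] at p3
  · exact Or.inr (Or.inl ⟨hab, h, plus hU hS hM ha hb⟩)

include hU in
lemma op_mul {x y : L} (hx : x ∈ Op l U) (hy : y ∈ Op l U) : x * y ∈ Op l U := by
  refine ⟨hh_mul hU hx.1 hy.1, fun z hz => ?_⟩
  rw [mul_assoc]
  exact hx.2 _ (hy.2 z hz)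

include hl hU hC hR hS hM in
/-- (4) -/
lemma c_mul {x y : L} (hx : x ∈ canon l U) (hy : y ∈ canon l U) : x * y ∈ canon l U := by
  rcases hx with rfl | hx | hx
  · exact Or.inl (zero_mul y)
  · rcases hy with rfl | hy | hy
    · exact Or.inl (mul_zero x)
    · exact om_mul hl hU hC hR hS hM hx hy
    · refine Or.inr (Or.inl ?_)
      rw [mul_comm]
      exact hy.2 x hx
  · rcases hy with rfl | hy | hy
    · exact Or.inl (mul_zero x)
    · exact Or.inr (Or.inl (hx.2 y hy))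
    · exact Or.inr (Or.inr (op_mul hU hx hy))

include hU in
lemma op_one : (1 : L) ∈ Op l U :=
  ⟨hh_u hU.one, fun y hy => by rw [one_mul]; exact hy⟩

include hU hS in
lemma op_neg : (-1 : L) ∈ Op l U :=
  ⟨hh_u hU.neg, fun y hy => hS _ hU.neg y hy⟩

include hl hU hC hR hS hM in
/-- (5) -/
lemma c_inv {x : L} (h0 : x ≠ 0) : x ∈ canon l U ∨ x⁻¹ ∈ canon l U := by
  by_cases hx : x ∈ HH l U
  · by_contra hcon
    rw [not_or] at hcon
    obtain ⟨h1, h2⟩ := hcon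
    have g1 : ∃ a ∈ Om l U, x * a ∉ Om l U := by
      by_contra h
      push Not at h
      exact h1 (Or.inr (Or.inr ⟨hx, h⟩))
    have g2 : ∃ b ∈ Om l U, x⁻¹ * b ∉ Om l U := by
      by_contra h
      push Not at h
      exact h2 (Or.inr (Or.inr ⟨hh_inv hU hx, h⟩))
    obtain ⟨a, ha, hxa⟩ := g1
    obtain ⟨b, hb, hxb⟩ := g2
    have k1 := (om_or hU hR (mul_ne_zero h0 ha.1) (odd_mul hU hx ha.2.1)).resolve_left hxa
    have k2 := (om_or hU hR (mul_ne_zero (inv_ne_zero h0) hb.1)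
      (odd_mul hU (hh_inv hU hx) hb.2.1)).resolve_left hxb
    have k3 := om_mul hl hU hC hR hS hM k1 k2
    have ha0 := ha.1
    have hb0 := hb.1
    have e : (x * a)⁻¹ * (x⁻¹ * b)⁻¹ = (a * b)⁻¹ := by
      field_simp
    rw [e] at k3
    rcases k3 with k | k | k
    · exact inv_ne_zero (mul_ne_zero ha0 hb0) k
    · have hodd : a * b ∉ HH l U := fun h => k.2.1 (hh_inv hU h)
      rcases om_mul hl hU hC hR hS hM ha hb with m | m | m
      · exact mul_ne_zero ha0 hb0 m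
      · exact om_not hU m k
      · exact hodd m.1
    · have m := k.2 a ha
      have e2 : (a * b)⁻¹ * a = b⁻¹ := by
        field_simp
      rw [e2] at m
      exact om_not hU hb m
  · rcases om_or hU hR h0 hx with h | h
    · exact Or.inl (Or.inr (Or.inl h))
    · exact Or.inr (Or.inr (Or.inl h))

include hU hS hM in
lemma one_add_om {x : L} (hx : x ∈ Om l U) : 1 + x ∈ Op l U := by
  refine ⟨hh_pw hU hx.2.2, fun a ha => ?_⟩
  have h1 : 1 + a ≠ 0 := pw_ne ha.2.2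
  refine ⟨mul_ne_zero (pw_ne hx.2.2) ha.1, odd_mul hU (hh_pw hU hx.2.2) ha.2.1, ?_⟩
  have h2 := plus hU hS hM hx (om_div hU hS ha).2.1
  have h3 := pw_mul ha.2.2 h2
  have e : (1 + a) * (1 + x * (a * (1 + a)⁻¹)) = 1 + (1 + x) * a := by
    field_simp
    ring
  rwa [e] at h3

include hU hR hS hM in
/-- (6) -/
lemma one_add {x : L} (hx : x ∈ canon l U) : 1 + x ∈ canon l U := by
  rcases hx with rfl | hx | hx
  · rw [add_zero]
    exact Or.inr (Or.inr (op_one hU))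
  · exact Or.inr (Or.inr (one_add_om hU hS hM hx))
  · by_cases h0 : 1 + x = 0
    · exact Or.inl h0
    by_cases hh : 1 + x ∈ HH l U
    · refine Or.inr (Or.inr ⟨hh, fun a ha => ?_⟩)
      have h1 : 1 + a ≠ 0 := pw_ne ha.2.2
      refine ⟨mul_ne_zero h0 ha.1, odd_mul hU hh ha.2.1, ?_⟩
      obtain ⟨d1, d2, d3⟩ := om_div hU hS ha
      have h2 := one_add_om hU hS hM d1
      rw [d3] at h2
      have h3 := h2.2 _ (hx.2 a ha)
      have h4 := pw_mul ha.2.2 h3.2.2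
      have e : (1 + a) * (1 + (1 + a)⁻¹ * (x * a)) = 1 + (1 + x) * a := by
        field_simp
        ring
      rwa [e] at h4
    · rcases om_or hU hR h0 hh with h | h
      · exact Or.inr (Or.inl h)
      · exfalso
        have h1 := hx.2 _ h
        have e : x * (1 + x)⁻¹ = 1 + -(1 + x)⁻¹ := by
          field_simp
          ring
        rw [e] at h1
        exact h1.2.1 (hh_pw hU (om_neg hU hS h).2.2)

include hl hU hC hR hS hM in
/-- (7) -/
lemma c_add {x y : L} (hx : x ∈ canon l U) (hy : y ∈ canon l U) : x + y ∈ canon l U := by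
  by_cases hx0 : x = 0
  · rw [hx0, zero_add]; exact hy
  by_cases hy0 : y = 0
  · rw [hy0, add_zero]; exact hx
  rcases c_inv hl hU hC hR hS hM (div_ne_zero hx0 hy0) with h | h
  · have h1 := c_mul hl hU hC hR hS hM hy (one_add hU hR hS hM h)
    have e : y * (1 + x / y) = x + y := by
      field_simp
      ring
    rwa [e] at h1
  · rw [inv_div] at h
    have h1 := c_mul hl hU hC hR hS hM hx (one_add hU hR hS hM h)
    have e : x * (1 + y / x) = x + y := by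
      field_simp
    rwa [e] at h1

end

theorem t_RIG2 : S_RIG2 := by
  intro L _ l U hl hU hC hR hS hM
  refine ⟨{
    carrier := canon l U
    mul_mem' := fun ha hb => c_mul hl hU hC hR hS hM ha hb
    one_mem' := Or.inr (Or.inr (op_one hU))
    add_mem' := fun ha hb => c_add hl hU hC hR hS hM ha hb
    zero_mem' := Or.inl rfl
    neg_mem' := fun {x} hx => by
      have h := c_mul hl hU hC hR hS hM (Or.inr (Or.inr (op_neg hU hS)) : (-1 : L) ∈ canon l U) hx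
      rwa [neg_one_mul] at h
    mem_or_inv_mem' := fun x => by
      by_cases h0 : x = 0
      · exact Or.inl (Or.inl h0)
      · exact c_inv hl hU hC hR hS hM h0 }, rfl⟩

end Pool.Agent.N890.KO.RIG2
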