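import Pool.Agent.N890.KO.Stm
import Pool.Agent.TH954.SEt2

/-!
Project KO (helper890), page MP_8312c9_nt: statements of the pieces on completions and sections.
-/

set_option autoImplicit false

namespace Pool.Agent.N890.KO

open NumberField IsDedekindDomain Filter Pool.Agent.TH954
open scoped Topology

/-- `V` is an absolute value on the algebraic closure of the complete discretely valued field `L`
with finite residue field of characteristic `p`. -/
structure Cpl (L : Type) [Field L] (V : AbsoluteValue (AlgebraicClosure L) ℝ) (p : ℕ) : Prop where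
  na : ∀ x y, V (x + y) ≤ max (V x) (V y)
  inv : ∀ (τ : AlgebraicClosure L ≃ₐ[L] AlgebraicClosure L) x, V (τ x) = V x
  disc : ∃ ϖ : L, ϖ ≠ 0 ∧ V (algebraMap L _ ϖ) < 1 ∧ ∀ x : L, x ≠ 0 → ∃ n : ℤ,
    V (algebraMap L _ x) = V (algebraMap L _ ϖ) ^ n
  res : ∃ R : Finset L, ∀ x : L, V (algebraMap L _ x) ≤ 1 → ∃ r ∈ R, V (algebraMap L _ (x - r)) < 1
  prime : p.Prime
  p1 : V (p : AlgebraicClosure L) < 1
  cpl : ∀ E : IntermediateField L (AlgebraicClosure L), FiniteDimensional L E →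
    ∀ a : ℕ → AlgebraicClosure L, (∀ n, a n ∈ E) →
    (∀ ε : ℝ, 0 < ε → ∃ N, ∀ n m, N ≤ n → N ≤ m → V (a n - a m) < ε) →
    ∃ c, Tendsto (fun n => V (a n - c)) atTop (𝓝 0)

/-- LOC. The completions of a number field. -/
def S_LOC : Prop := ∀ (F : Type) [Field F] [NumberField F] (w : HeightOneSpectrum (𝓞 F)),
  ∃ V p, Cpl (w.adicCompletion F) V p

/-- the elements of `B` whose image is in `L` -/
def kk {k B L : Type} [Field k] [Field B] [Field L] [Algebra k B] [Algebra k L]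
    (ι : B →ₐ[k] AlgebraicClosure L) : IntermediateField k B where
  carrier := {b | ∃ x : L, ι b = algebraMap L _ x}
  mul_mem' := by
    rintro a b ⟨x, hx⟩ ⟨y, hy⟩
    exact ⟨x * y, by rw [map_mul, map_mul, hx, hy]⟩
  add_mem' := by
    rintro a b ⟨x, hx⟩ ⟨y, hy⟩
    exact ⟨x + y, by rw [map_add, map_add, hx, hy]⟩
  algebraMap_mem' c := ⟨algebraMap k L c, by
    rw [ι.commutes, ← IsScalarTower.algebraMap_apply]⟩
  inv_mem' := by
    rintro a ⟨x, hx⟩
    exact ⟨x⁻¹, by rw [map_inv₀, map_inv₀, hx]⟩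

/-- KK. The relative algebraic closure of `k` in a complete field. -/
def S_KK : Prop := ∀ (L : Type) [Field L] [CharZero L] (V : AbsoluteValue (AlgebraicClosure L) ℝ)
  (p : ℕ), Cpl L V p → ∀ (k B : Type) [Field k] [Field B] [Algebra k B] [Algebra k L]
  [IsAlgClosure k B] (ι : B →ₐ[k] AlgebraicClosure L),
  ∃ (v : AbsoluteValue B ℝ) (π : kk ι), (∀ b, V (ι b) = v b) ∧ Good (k := kk ι) v p π ∧
  ∀ M : IntermediateField (kk ι) B, FiniteDimensional (kk ι) M → ∀ a : ℕ → B, (∀ n, a n ∈ M) →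
    (∀ n m, n ≤ m → v (a n - a m) ≤ v (algebraMap (kk ι) B π) ^ n) →
    ∃ c : AlgebraicClosure L, ∀ n, V (ι (a n) - c) ≤ v (algebraMap (kk ι) B π) ^ n

/-- CNT. Continuity of sections. -/
def S_CNT : Prop := ∀ (k L Ω B : Type) [Field k] [Field L] [Field Ω] [Field B] [Algebra k L]
  [Algebra L Ω] [Algebra k Ω] [Algebra k B] [IsScalarTower k L Ω] [IsAlgClosure L Ω]
  [IsAlgClosure k B] (s : GalSection k L Ω B) (y : Ω), ∃ M : IntermediateField k B,
  FiniteDimensional k M ∧ ∀ g : B ≃ₐ[k] B, (∀ x ∈ M, g x = x) → s.s g y = y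

end Pool.Agent.N890.KO
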